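import Pool.Agent.Lib.MP_092512_nt.TT.C.POK

/-!
# D3: definitions for PAIR2 (TC3.md, section 3)

The structures `MS`, `Msr`, `Dat`, `Good`, `LL`, `bad`, `hits`, `Ll`, `Ml`, `fm` are those of TT. New predicates: `MS.OK3` (composite windows of `Y`), `MS.An3`, `Msr.OK3` (measures for `X` or for `Y`).
For a pair `(X, X')` with the same tuples: `bad2 = bad X ∪ bad X'`, ONE small sieve for the union, the product of the two large sieves (`Lp`, `Lm`).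
-/

set_option autoImplicit false

open Finset

namespace Pool.Agent.Lib.TTC

/-- The combinatorial properties of a mark system; the elements of the windows of `Y` are products of at most two primes `> z`. -/
structure MS.OK3 (S : MS) (T : Dat) (W0 : ℕ) (Z : Fin (S.k + 1) → ℕ) : Prop where
  k_odd : Odd S.k
  k_lo : 3 ≤ S.k
  p0_lo : 64 * (T.F S.k) ^ 2 ≤ T.p0
  WX_mem : ∀ i, ∀ l ∈ S.WX i, l.Prime ∧ ¬ l ∣ T.h.natAbs ∧ 3 * Z i < l ∧ l ≤ 4 * Z i ∧ l ≡ 1 [MOD W0 ^ (2 * T.r)]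
  WY_mem : ∀ i, ∀ l ∈ S.WY i, Squarefree l ∧ l.Coprime T.h.natAbs ∧ Z i < l ∧ l ≤ 2 * Z i ∧
    ∀ p : ℕ, p.Prime → p ∣ W0 → (l : ℤ) ≡ 1 - (-1) ^ (i : ℕ) * p ^ T.r [ZMOD ((p ^ (2 * T.r) : ℕ) : ℤ)]
  WY_big : ∀ i, ∀ l ∈ S.WY i, ∀ p : ℕ, p.Prime → p ∣ l → T.z < p
  WY_two : ∀ i, ∀ l ∈ S.WY i, l.primeFactors.card ≤ 2
  WY_cop : ∀ i j, i ≠ j → ∀ l ∈ S.WY i, ∀ l' ∈ S.WY j, l.Coprime l'
  Z_lt : ∀ i j, i < j → 4 * Z i < Z j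
  Z_lo : ∀ i, T.z ^ 2 ≤ Z i
  FX_mem : ∀ f, ∀ l ∈ S.FX f, l.Prime ∧ ¬ l ∣ T.h.natAbs ∧ T.y0 < l ∧ l ≤ T.z
  FY_mem : ∀ f, ∀ l ∈ S.FY f, l.Prime ∧ ¬ l ∣ T.h.natAbs ∧ T.y0 < l ∧ l ≤ T.z
  OX_mem : ∀ e, ∀ l ∈ S.OX e, l.Prime ∧ ¬ l ∣ T.h.natAbs ∧ T.y0 < l ∧ l ≤ T.z
  OY_mem : ∀ e, ∀ l ∈ S.OY e, l.Prime ∧ ¬ l ∣ T.h.natAbs ∧ T.y0 < l ∧ l ≤ T.z
  FX_dis : ∀ f f', f ≠ f' → Disjoint (S.FX f) (S.FX f')
  FY_dis : ∀ f f', f ≠ f' → Disjoint (S.FY f) (S.FY f')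
  OX_dis : ∀ e e', e ≠ e' → Disjoint (S.OX e) (S.OX e')
  OY_dis : ∀ e e', e ≠ e' → Disjoint (S.OY e) (S.OY e')
  FOX_dis : ∀ f e, Disjoint (S.FX f) (S.OX e)
  FOY_dis : ∀ f e, Disjoint (S.FY f) (S.OY e)
  num : ((3 * (S.k + 1) + 2 * S.n0 + S.nX + S.nY : ℕ) : ℝ) ≤ Real.log T.N
  small : ∀ μ ∈ S.MX, ∀ ν ∈ S.MY, (((S.prX id μ * S.prY id ν : ℕ)) : ℝ) ≤ (T.N : ℝ) ^ (1 / 10 : ℝ)

/-- The analytic properties of a mark system, for the weights `1 / l`; `p1 ≤ z`, so `p1` divides no element of a window of `Y`. The mass of a window of `Y` is only `≥ 1/K³`. -/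
structure MS.An3 (S : MS) (T : Dat) (p1 Q0 : ℕ) (η Cα : ℝ) : Prop where
  p1_pr : p1.Prime
  p1_lo : T.y0 < p1
  p1_z : p1 ≤ T.z
  p1_W : ∀ i, p1 ∉ S.WX i ∧ p1 ∉ S.WY i
  p1_F : ∀ f, p1 ∉ S.FX f ∧ p1 ∉ S.FY f
  p1_OX : ∀ e, p1 ∉ S.OX e
  p1_OY : ∀ e, p1 ∉ S.OY e
  η_nn : 0 ≤ η
  Cα_lo : 1 ≤ Cα
  swX : ∀ f, SWc T.N T.E (fun l => 1 / (l : ℝ)) η Q0 (S.FX f)
  swY : ∀ f, SWc T.N T.E (fun l => 1 / (l : ℝ)) η Q0 (S.FY f)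
  bt : ∀ i, BTc T.E (fun l => 1 / (l : ℝ)) Cα Q0 (S.WX i)
  F_lo : ∀ f, ∀ l ∈ S.FX f ∪ S.FY f, Real.exp ((Real.log T.N) ^ (1 / 5 : ℝ)) ≤ l
  F_mass : ∀ f, 1 / (Real.log T.N) ^ 2 ≤ ∑ l ∈ S.FX f, 1 / (l : ℝ) ∧ 1 / (Real.log T.N) ^ 2 ≤ ∑ l ∈ S.FY f, 1 / (l : ℝ)
  W_mass : ∀ i, 1 / (Real.log T.N) ^ 2 ≤ ∑ l ∈ S.WX i, 1 / (l : ℝ) ∧ 1 / (Real.log T.N) ^ 3 ≤ ∑ l ∈ S.WY i, 1 / (l : ℝ)
  OX_mass : ∀ e, 1 / (Real.log T.N) ^ 2 ≤ ∑ l ∈ S.OX e, 1 / (l : ℝ)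
  OY_mass : ∀ e, 1 / (Real.log T.N) ^ 2 ≤ ∑ l ∈ S.OY e, 1 / (l : ℝ)

/-- The properties of a measure: kind `X` (`X = v τ n`, `τ = prX`) or kind `Y` (`Y = v τ n`, `τ = prY`). -/
structure Msr.OK3 {S : MS} (M : Msr S) (T : Dat) (W0 : ℕ) (δ0 δ1 : ℝ) : Prop where
  W_pos : 0 < M.W
  v_pos : 0 < M.v
  v_le : M.v ≤ T.N
  v_l : M.v = T.l
  tau_eq : ∀ μ ν, M.tau μ ν = S.prX id μ
  x0_eq : M.x0 = 0
  Om_nonneg : ∀ μ ν n, 0 ≤ M.Om μ ν n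
  nm_bd : ∀ μ ν n, M.Om μ ν n ≠ 0 → n ≤ M.nm
  nm_le : M.nm ≤ T.N ^ 3
  X_eq : ∀ μ ν n, M.Om μ ν n ≠ 0 → (M.X μ ν n : ℤ) = M.v * M.tau μ ν * n + M.x0
  X_dvd : ∀ μ ν n, M.Om μ ν n ≠ 0 → S.prX id μ ∣ M.X μ ν n
  Y_dvd : ∀ μ ν n, M.Om μ ν n ≠ 0 → S.prY id ν ∣ T.Y (M.X μ ν n)
  Y_lo : ∀ μ ν n, M.Om μ ν n ≠ 0 → 4 * (T.D * T.h.natAbs) < T.Y (M.X μ ν n)
  X_le : ∀ μ ν n, M.Om μ ν n ≠ 0 → M.X μ ν n ≤ T.N ^ 2
  hX_nonneg : ∀ p : ℕ, p.Prime → 0 ≤ M.hX p ∧ |M.hX p - 1 / p| ≤ 2 / (p : ℝ) ^ 2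
  hY_nonneg : ∀ p : ℕ, p.Prime → 0 ≤ M.hY p ∧ |M.hY p - 1 / p| ≤ 2 / (p : ℝ) ^ 2
  hY_win : ∀ i, ∀ l ∈ S.WY i, 0 ≤ M.hY l ∧ |M.hY l - 1 / l| ≤ 2 / ((l : ℝ) * T.y0)
  g_small : ∀ p : ℕ, p.Prime → p ≤ T.y0 → (¬ M.t2 → M.g p = 1 / p) ∧ (M.t2 → M.g p = 1 / ((p : ℝ) - 1))
  g_large : ∀ p : ℕ, p.Prime → T.y0 < p → 0 ≤ M.g p ∧ |M.g p - 1 / p| ≤ 2 / (p : ℝ) ^ 2
  t2_f : ¬ M.t2
  up : ∀ μ ∈ S.MX, ∀ ν ∈ S.MY, M.cl μ ν 1 0 ≤ 2 * M.ms μ ν + (T.N : ℝ) ^ (-δ1) * M.W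
  eq : ∀ μ ∈ S.MX, ∀ ν ∈ S.MY, M.adm μ ν → ∀ q : ℕ, Squarefree q → (q : ℝ) ≤ (T.N : ℝ) ^ δ0 → q.Coprime (S.prX id μ * S.prY id ν) →
    ∀ r : ℕ, (M.t2 → r.Coprime q) → |M.cl μ ν q r - M.ms μ ν * M.gq q| ≤ (T.N : ℝ) ^ (-δ1) * M.W
  eq2 : ∀ μ ∈ S.MX, ∀ ν ∈ S.MY, M.adm μ ν → ∀ p ∈ T.PL, p ∣ S.prX id μ * S.prY id ν → ∀ r : ℕ,
    (if p ∣ M.tau μ ν then M.cl μ ν p r else M.cl μ ν (p ^ 2) r) ≤ 4 / p * M.ms μ ν + (T.N : ℝ) ^ (-δ1) * M.W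

/-! ### the pair `(X, X')` -/

/-- the bad primes of `X` or of `X'` -/
noncomputable def MS.bad2 (S : MS) (T : Dat) (c : S.Col) (μ : S.TX) (ν : S.TY) (X X' : ℤ) : Finset ℕ := by
  classical
  exact S.bad T c μ ν X ∪ S.bad T c μ ν X'

noncomputable def MS.Ls2 (S : MS) (T : Dat) (s : Bool) (b : ℕ) (c : S.Col) (μ : S.TX) (ν : S.TY) (X X' : ℤ) : ℝ :=
  ∑ d ∈ (S.bad2 T c μ ν X X').powerset, wt s b T.y0 T.PS d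

/-- upper bound for `[no hits] [no hits']` -/
noncomputable def Msr.Lp {S : MS} (M M' : Msr S) (T : Dat) (b : ℕ) (c : S.Col) (μ : S.TX) (ν : S.TY) (X X' : ℤ) : ℝ :=
  M.Ll T true b c μ ν X * M'.Ll T true b c μ ν X'

/-- lower bound for `[no hits] [no hits']` -/
noncomputable def Msr.Lm {S : MS} (M M' : Msr S) (T : Dat) (b : ℕ) (c : S.Col) (μ : S.TX) (ν : S.TY) (X X' : ℤ) : ℝ :=
  M.Ll T true b c μ ν X * M'.Ll T false b c μ ν X' + M.Ll T false b c μ ν X * M'.Ll T true b c μ ν X' - M.Ll T true b c μ ν X * M'.Ll T true b c μ ν X'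

/-- the mean value of `Lp` -/
noncomputable def Msr.Mp {S : MS} (M M' : Msr S) (T : Dat) (b : ℕ) : ℝ := M.Ml T true b * M'.Ml T true b

/-- the mean value of `Lm` -/
noncomputable def Msr.Mm {S : MS} (M M' : Msr S) (T : Dat) (b : ℕ) : ℝ :=
  M.Ml T true b * M'.Ml T false b + M.Ml T false b * M'.Ml T true b - M.Ml T true b * M'.Ml T true b

/-- the sieve weight of a colouring for the pair -/
noncomputable def Msr.w2 {S : MS} (M M' : Msr S) (T : Dat) (b1 b2 : ℕ) (c : S.Col) (μ : S.TX) (ν : S.TY) (X X' : ℤ) : ℝ :=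
  ind (S.LL T c μ ν X) * (S.Ls2 T false b1 c μ ν X X' * M.Lp M' T b2 c μ ν X X' -
      S.Ls2 T true b1 c μ ν X X' * (M.Lp M' T b2 c μ ν X X' - M.Lm M' T b2 c μ ν X X'))

/-- all conditions hold and all primes of `d` are bad for `X` or for `X'` -/
noncomputable def MS.FF2 (S : MS) (T : Dat) (c : S.Col) (μ : S.TX) (ν : S.TY) (X X' : ℤ) (d : Finset ℕ) : ℝ :=
  ind (S.LL T c μ ν X ∧ d ⊆ S.bad2 T c μ ν X X')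

/-- the coefficient of `d` in the mean value of the weight -/
noncomputable def Msr.kap2 {S : MS} (M M' : Msr S) (T : Dat) (b1 b2 : ℕ) (d : Finset ℕ) : ℝ :=
  wt false b1 T.y0 T.PS d * M.Mp M' T b2 - wt true b1 T.y0 T.PS d * (M.Mp M' T b2 - M.Mm M' T b2)

/-- the same weight with the mean values of the large sieve -/
noncomputable def Msr.w21 {S : MS} (M M' : Msr S) (T : Dat) (b1 b2 : ℕ) (c : S.Col) (μ : S.TX) (ν : S.TY) (X X' : ℤ) : ℝ :=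
  ∑ d ∈ T.PS.powerset, M.kap2 M' T b1 b2 d * S.FF2 T c μ ν X X' d

/-- the condition at `p` (if `p` is a base prime), and bad for one of the classes `yn`, `yn'` of `Y`, `Y'` (if `B`) -/
def cb2 (T : Dat) (k p yn yn' : ℕ) (B : Prop) (al be P : ℕ → HP T.E p) : Prop :=
  (p ∈ T.base → cP T k p yn al be P) ∧ (B → bP T k p yn al be P ∨ bP T k p yn' al be P)

/-- the proportion of the slot vectors with this condition -/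
noncomputable def lavP (T : Dat) (k p yn yn' : ℕ) (B : Prop) (al be : ℕ → HP T.E p) : ℝ :=
  av fun P : Fin k → HP T.E p => ind (cb2 T k p yn yn' B al be (Loc.pp k P))

/-- the proportion of the residues of the free primes with the conditions at `p` for two colourings -/
noncomputable def lavQ (T : Dat) {k : ℕ} {E : Type*} [Fintype E] (p yn yn' : ℕ) (B B' : Prop) (c c' : E → Fin (k + 1)) (α : Fin (k + 1) → HP T.E p)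
    (y y' : Fin k → HP T.E p) (be : ℕ → HP T.E p) : ℝ :=
  av fun s : E → HP T.E p => ind (cb2 T k p yn yn' B (Loc.ex (k + 1) α) be (pj c α y s)) * ind (cb2 T k p yn yn' B' (Loc.ex (k + 1) α) be (pj c' α y' s))

/-- `lavQ` for a pair of tuples -/
noncomputable def MS.l22 (S : MS) (T : Dat) (c c' : S.Col) (μ : S.TX) (ν : S.TY) (X X' : ℤ) (B B' : Prop) (p : ℕ) : ℝ :=
  lavQ T p (ycl T p X) (ycl T p X') B B' c c' (rs _ μ.1) (S.yy T.N _ c μ ν) (S.yy T.N _ c' μ ν) (aq _ ν.1)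

/-- `P(LL and all p in d bad)` -/
noncomputable def MS.Pb2 (S : MS) (T : Dat) (μ : S.TX) (ν : S.TY) (X X' : ℤ) (d : Finset ℕ) : ℝ :=
  ∏ p ∈ T.base ∪ d, lavP T S.k p (ycl T p X) (ycl T p X') (p ∈ d) (aq _ μ.1) (aq _ ν.1)

/-- the mean value of `w21` over the colourings -/
noncomputable def Msr.wb2 {S : MS} (M M' : Msr S) (T : Dat) (b1 b2 : ℕ) (μ : S.TX) (ν : S.TY) (X X' : ℤ) : ℝ :=
  ∑ d ∈ T.PS.powerset, M.kap2 M' T b1 b2 d * S.Pb2 T μ ν X X' d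

/-- good pairs of tuples -/
def Msr.gp2 {S : MS} (M M' : Msr S) (T : Dat) (μ : S.TX) (ν : S.TY) : Prop := M.adm μ ν ∧ M'.adm μ ν ∧ ¬ S.badpair T 0 T.y0 μ ν ∧ ¬ S.evp T μ ν

/-- the sum over `c` of the sieve weights -/
noncomputable def Msr.RR2 {S : MS} (M M' : Msr S) (T : Dat) (b1 b2 : ℕ) (μ : S.TX) (ν : S.TY) (X X' : ℤ) : ℝ := ∑ c ∈ S.CC, M.w2 M' T b1 b2 c μ ν X X'

noncomputable def Msr.RR21 {S : MS} (M M' : Msr S) (T : Dat) (b1 b2 : ℕ) (μ : S.TX) (ν : S.TY) (X X' : ℤ) : ℝ := ∑ c ∈ S.CC, M.w21 M' T b1 b2 c μ ν X X'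

/-- the sum over `n` and `n'`, divided by `m1'` -/
noncomputable def Msr.S2 {S : MS} (M M' : Msr S) (μ : S.TX) (ν : S.TY) (F : ℕ → ℕ → ℝ) : ℝ :=
  (M'.m1 μ ν)⁻¹ * ∑ n ∈ range (M.nm + 1), ∑ n' ∈ range (M'.nm + 1), M.Om μ ν n * M'.Om μ ν n' * F n n'

/-- the average of `G (X, X')` over the classes of `n`, `n'` modulo `q` -/
noncomputable def Msr.ax2 {S : MS} (M M' : Msr S) (q : ℕ) (G : ℤ → ℤ → ℝ) : ℝ := by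
  classical
  exact ∑ r ∈ (range q).filter (fun r => M.t2 → r.Coprime q), ∑ r' ∈ (range q).filter (fun r => M'.t2 → r.Coprime q),
    M.gq q * M'.gq q * G (M.xr r) (M'.xr r')

/-- one colouring is good for `X` and for `X'` -/
def MS.Linked2 (S : MS) (T : Dat) (μ : S.TX) (ν : S.TY) (X X' : ℕ) : Prop :=
  ∃ c, (∃ e t, S.Good T c μ ν X e t) ∧ ∃ e t, S.Good T c μ ν X' e t

/-- the main term -/
noncomputable def E02 (S : MS) (T : Dat) : ℝ := (S.CC.card : ℝ) / (T.D * (Real.log T.N) ^ (2 * T.F S.k + 4))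

end Pool.Agent.Lib.TTC
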