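import Pool.Agent.Lib.MP_092512_nt.TT.P.D3
import Pool.Agent.Lib.MP_092512_nt.TT.C.S7D1
import Pool.Agent.Lib.MP_092512_nt.TT.C.KDef

/-!
# G3: the structure `Geo3` (section 7 for composite windows of `Y`) and its first consequences

`MS.Geo3` is `MS.Geo` (TC/S7Def), but the elements of the windows of `Y` are squarefree numbers coprime to `N` whose prime factors are `> z` (at most two of them), and elements of different windows of `Y` are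
coprime; `hYw` is the bound of the weight on the windows of `Y`. `SI_eq`, `vec_pos` (S7D1) and `tI_facts` (S7D3) for `Geo3`: only the positivity and the sizes of the elements of the windows are used.
-/

set_option autoImplicit false

open Finset

namespace Pool.Agent.Lib.TT3

open Pool.Agent.Lib.TTC

/-- The facts about the marks used in section 7, composite windows of `Y`. `Z i`: size of the windows `i`; `V`: `1 / V` is a lower bound for the mass of a window. -/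
structure _root_.Pool.Agent.Lib.TTC.MS.Geo3 (S : MS) (T : Dat) (Z : ℕ → ℕ) (hX hY : ℕ → ℝ) (V : ℝ) : Prop where
  k1 : 1 ≤ S.k
  N2 : 2 ≤ T.N
  D0 : 0 < T.D
  DN : T.D ≤ T.N
  Dy : ∀ p, p.Prime → p ∣ T.D → p ≤ T.y0
  y1 : 1 ≤ T.y0
  yz : T.y0 ≤ T.z
  zZ : ∀ i ≤ S.k, T.z * T.D ≤ Z i
  ZZ : ∀ i j, i < j → j ≤ S.k → 4 * Z i ≤ Z j
  ZN : Z S.k ≤ T.N
  wx : ∀ i, ∀ p ∈ S.WX i, p.Prime ∧ 3 * Z i < p ∧ p ≤ 4 * Z i ∧ ¬ p ∣ T.h.natAbs
  wy : ∀ i, ∀ p ∈ S.WY i, Squarefree p ∧ Z i < p ∧ p ≤ 2 * Z i ∧ p.Coprime T.h.natAbs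
  wz : ∀ i, ∀ p ∈ S.WY i, ∀ r : ℕ, r.Prime → r ∣ p → T.z < r
  w2 : ∀ i, ∀ p ∈ S.WY i, p.primeFactors.card ≤ 2
  wc : ∀ i j, i ≠ j → ∀ p ∈ S.WY i, ∀ p' ∈ S.WY j, p.Coprime p'
  fx : ∀ f, ∀ p ∈ S.FX f, p.Prime ∧ T.y0 < p ∧ p ≤ T.z ∧ ¬ p ∣ T.h.natAbs
  fy : ∀ f, ∀ p ∈ S.FY f, p.Prime ∧ T.y0 < p ∧ p ≤ T.z ∧ ¬ p ∣ T.h.natAbs
  ox : ∀ f, ∀ p ∈ S.OX f, p.Prime ∧ T.y0 < p ∧ p ≤ T.z ∧ ¬ p ∣ T.h.natAbs
  oy : ∀ f, ∀ p ∈ S.OY f, p.Prime ∧ T.y0 < p ∧ p ≤ T.z ∧ ¬ p ∣ T.h.natAbs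
  ix : ∀ μ ∈ S.MX, Function.Injective (Sum.elim μ.1 (S.vX μ))
  iy : ∀ ν ∈ S.MY, Function.Injective (Sum.elim ν.1 (S.vY ν))
  hX0 : ∀ p, p.Prime → 0 ≤ hX p ∧ hX p ≤ 2 / (p : ℝ)
  hY0 : ∀ p, p.Prime → 0 ≤ hY p ∧ hY p ≤ 2 / (p : ℝ)
  hYw : ∀ i, ∀ p ∈ S.WY i, 0 ≤ hY p ∧ hY p ≤ 2 / (p : ℝ)
  V1 : 1 ≤ V
  lX : ∀ i, 1 ≤ V * ∑ p ∈ S.WX i, hX p
  lY : ∀ i, 1 ≤ V * ∑ p ∈ S.WY i, hY p
  h0 : T.h ≠ 0
  ly : T.l ≤ T.y0
  hg : ∀ p : ℕ, p.Prime → T.y0 < p → ¬ (p : ℤ) ∣ T.h ∧ ∀ g ∈ T.G, ¬ (p : ℤ) ∣ g ∧ ¬ (p : ℤ) ∣ T.h + g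

variable {S : MS} {T : Dat} {Z : ℕ → ℕ} {hX hY : ℕ → ℝ} {V : ℝ}

private theorem G3_X {μ : S.TX} (hμ : μ ∈ S.MX) :
    (∀ i, μ.1 i ∈ S.WX i) ∧ (∀ f, μ.2.1 f ∈ S.FX f) ∧ ∀ e, μ.2.2 e ∈ S.OX e := by
  rw [MS.MX, mem_product, mem_product, Fintype.mem_piFinset, Fintype.mem_piFinset, Fintype.mem_piFinset] at hμ
  exact ⟨hμ.1, hμ.2.1, hμ.2.2⟩

private theorem G3_Y {ν : S.TY} (hν : ν ∈ S.MY) :
    (∀ i, ν.1 i ∈ S.WY i) ∧ (∀ f, ν.2.1 f ∈ S.FY f) ∧ ∀ e, ν.2.2 e ∈ S.OY e := by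
  rw [MS.MY, mem_product, mem_product, Fintype.mem_piFinset, Fintype.mem_piFinset, Fintype.mem_piFinset] at hν
  exact ⟨hν.1, hν.2.1, hν.2.2⟩

private theorem G3_mlt (hG : S.Geo3 T Z hX hY V) {μ : S.TX} {ν : S.TY} (hμ : μ ∈ S.MX) (hν : ν ∈ S.MY) :
    ∀ i < S.k + 1, ext1 ν.1 i < ext1 μ.1 i := by
  intro i hi
  rw [ext1, ext1, dif_pos hi, dif_pos hi]
  have h1 := hG.wx _ _ ((G3_X hμ).1 ⟨i, hi⟩)
  have h2 := hG.wy _ _ ((G3_Y hν).1 ⟨i, hi⟩)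
  have h3 := h1.2.1
  have h4 := h2.2.2.1
  omega

theorem SI_eq (hG : S.Geo3 T Z hX hY V) (c : S.Col) {μ : S.TX} {ν : S.TY} (hμ : μ ∈ S.MX) (hν : ν ∈ S.MY) :
    ((S.SI T.N c μ ν : ℕ) : ℤ) = SmR (S.AI T.N c μ ν) (S.BI T.N c μ ν) (aI μ.1) (aI ν.1) (S.k + 1) := by
  rw [MS.SI, Sm_cast fun i hi => (G3_mlt hG hμ hν i hi).le]
  apply SmR_congr
  · intro l hl
    rw [MS.AI, if_pos (by omega)]
  · intro l hl
    rw [MS.BI, if_pos (by omega)]
  · intro l _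
    rfl
  · intro l _
    rfl

/-- all the integer vectors are positive, and `β_i < α_i` -/
theorem vec_pos (hG : S.Geo3 T Z hX hY V) (c : S.Col) {μ : S.TX} {ν : S.TY} (hμ : μ ∈ S.MX) (hν : ν ∈ S.MY) :
    (∀ i, 0 < S.AI T.N c μ ν i) ∧ (∀ i, 0 < S.BI T.N c μ ν i) ∧ (∀ i, 0 < aI μ.1 i) ∧ (∀ i, 0 < aI ν.1 i) ∧
      ∀ i < S.k + 1, aI ν.1 i < aI μ.1 i := by
  refine ⟨?_, ?_, ?_, ?_, ?_⟩
  · intro i
    rw [MS.AI]
    by_cases hi : i < S.k
    · rw [if_pos hi, MS.AA, if_pos hi, Nat.cast_pos]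
      apply Nat.mul_pos
      · exact prod_pos fun f _ => (hG.fx f _ ((G3_X hμ).2.1 f)).1.pos
      · exact prod_pos fun e _ => (hG.ox e _ ((G3_X hμ).2.2 e)).1.pos
    · rw [if_neg hi]
      exact one_pos
  · intro i
    rw [MS.BI]
    by_cases hi : i < S.k
    · rw [if_pos hi, MS.BB, if_pos hi, Nat.cast_pos]
      apply Nat.mul_pos
      · exact prod_pos fun f _ => (hG.fy f _ ((G3_Y hν).2.1 f)).1.pos
      · exact prod_pos fun e _ => (hG.oy e _ ((G3_Y hν).2.2 e)).1.pos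
    · rw [if_neg hi]
      exact one_pos
  · intro i
    rw [aI, ext1, Nat.cast_pos]
    split_ifs with hi
    · exact (hG.wx _ _ ((G3_X hμ).1 ⟨i, hi⟩)).1.pos
    · exact one_pos
  · intro i
    rw [aI, ext1, Nat.cast_pos]
    split_ifs with hi
    · exact (Nat.zero_le _).trans_lt (hG.wy _ _ ((G3_Y hν).1 ⟨i, hi⟩)).2.1
    · exact one_pos
  · intro i hi
    rw [aI, aI, Nat.cast_lt]
    exact G3_mlt hG hμ hν i hi

private theorem G3_fib {ι : Type*} [Fintype ι] {k : ℕ} (col : ι → Fin (k + 1)) (g : ι → ℕ) :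
    ∏ i ∈ range k, ∏ f ∈ univ.filter (fun f => (col f : ℕ) = i), g f ∣ ∏ f, g f := by
  have h1 : ∏ i ∈ range (k + 1), ∏ f ∈ univ.filter (fun f => (col f : ℕ) = i), g f = ∏ f, g f :=
    prod_fiberwise_of_maps_to (fun f _ => mem_range.2 (col f).2) g
  rw [← h1]
  exact prod_dvd_prod_of_subset _ _ _ (range_subset_range.2 (Nat.le_succ k))

private theorem G3_ext {n : ℕ} (a : Fin n → ℕ) : ∏ i, a i = ∏ i ∈ range n, ext1 a i := by
  rw [prod_range]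
  refine prod_congr rfl fun i _ => ?_
  simp [ext1]

private theorem G3_lt {n : ℕ} (a : Fin n → ℕ) {i : ℕ} (h : i < n) : ext1 a i = a ⟨i, h⟩ := by
  simp [ext1, h]

private theorem G3_prod {k X : ℕ} {al F A : ℕ → ℕ}
    (hA : ∀ i, A i = if i < k then F i else X / ((∏ i ∈ range (k + 1), al i) * ∏ i ∈ range k, F i))
    (hX : (∏ i ∈ range (k + 1), al i) * ∏ i ∈ range k, F i ∣ X) : ∏ i ∈ range (k + 1), al i * A i = X := by
  have h1 : ∏ i ∈ range k, A i = ∏ i ∈ range k, F i :=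
    prod_congr rfl fun i hi => by rw [hA, if_pos (mem_range.1 hi)]
  rw [prod_mul_distrib, prod_range_succ A, hA k, if_neg (lt_irrefl k), h1, ← mul_assoc]
  exact Nat.mul_div_cancel' hX

private theorem G3_Sm {k : ℕ} {A B A' B' al be : ℕ → ℕ} (hA : ∀ i < k, A i = A' i) (hB : ∀ i < k, B i = B' i) :
    ∀ n ≤ k + 1, Sm A B al be n = Sm A' B' al be n := by
  intro n
  induction n with
  | zero => intro _; rfl
  | succ n ih =>
    intro hn
    have h1 : ∏ l ∈ range n, al l * A l = ∏ l ∈ range n, al l * A' l :=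
      prod_congr rfl fun l hl => by
        rw [mem_range] at hl
        rw [hA l (by omega)]
    simp only [Sm]
    rw [ih (by omega), h1]
    rcases Nat.eq_zero_or_pos n with h0 | h0
    · subst h0
      simp [Sm]
    · rw [hB (n - 1) (by omega)]

theorem tI_facts (hG : S.Geo3 T Z hX hY V) {c : S.Col} (_hc : c ∈ S.CC) {μ : S.TX} {ν : S.TY} (hμ : μ ∈ S.MX) (hν : ν ∈ S.MY)
    (hcop : S.cop μ ν) {X : ℕ} (h1 : S.prX id μ ∣ X) (h2 : S.prY id ν ∣ T.Y X) (h4 : 4 * (T.D * T.h.natAbs) < T.Y X)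
    (h5 : T.D ∣ S.SI T.N c μ ν) :
    ∃ e t : ℕ → ℕ, S.CF T c μ ν X e t ∧ (∀ i < S.k + 1, S.tI T c μ ν X i = t i) ∧
      ∀ f : ℕ × Bool × ℤ, f.1 < S.k + 1 → S.FI T c μ ν ((X : ℤ) - T.D * T.h) f = -(T.D * S.PI T.N c μ ν f.2.1 f.1 * S.fI T c μ ν X f) := by
  classical
  have hμ1 : ∀ i, μ.1 i ∈ S.WX i := Fintype.mem_piFinset.1 (mem_product.1 hμ).1
  have hν1 : ∀ i, ν.1 i ∈ S.WY i := Fintype.mem_piFinset.1 (mem_product.1 hν).1
  have hal : ∀ i < S.k + 1, 3 * Z i < ext1 μ.1 i ∧ ext1 μ.1 i ≤ 4 * Z i := by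
    intro i hi
    rw [G3_lt μ.1 hi]
    have h := hG.wx ⟨i, hi⟩ _ (hμ1 ⟨i, hi⟩)
    exact ⟨h.2.1, h.2.2.1⟩
  have hbe : ∀ i < S.k + 1, Z i < ext1 ν.1 i ∧ ext1 ν.1 i ≤ 2 * Z i := by
    intro i hi
    rw [G3_lt ν.1 hi]
    have h := hG.wy ⟨i, hi⟩ _ (hν1 ⟨i, hi⟩)
    exact ⟨h.2.1, h.2.2.1⟩
  obtain ⟨A, hA⟩ : ∃ A, A = S.AA T.N c μ ν X := ⟨_, rfl⟩
  obtain ⟨Y, hY'⟩ : ∃ Y, Y = T.Y X := ⟨_, rfl⟩
  obtain ⟨B, hB⟩ : ∃ B, B = S.BB T.N c μ ν Y := ⟨_, rfl⟩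
  have h3 : (T.D : ℤ) * T.h < X := by
    have h6 : 0 < T.Y X := by omega
    unfold Dat.Y at h6
    have h7 := Int.lt_toNat.1 h6
    push_cast at h7
    linarith
  have hXY : (X : ℤ) - T.D * T.h = Y := by rw [hY', T.Y_cast h3]
  rw [← hY'] at h2 h4
  have hYpos : 0 < Y := by omega
  have hAk : ∀ i < S.k, A i = S.AA T.N c μ ν 0 i := by
    intro i hi
    rw [hA]
    unfold MS.AA
    rw [if_pos hi, if_pos hi]
  have hBk : ∀ i < S.k, B i = S.BB T.N c μ ν 0 i := by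
    intro i hi
    rw [hB]
    unfold MS.BB
    rw [if_pos hi, if_pos hi]
  -- the divisors
  have hPX : (∏ i ∈ range (S.k + 1), ext1 μ.1 i) * ∏ i ∈ range S.k, (S.fX id c μ i * S.oX T.N id c μ ν i) ∣ S.prX id μ := by
    unfold MS.prX
    rw [mul_assoc, ← G3_ext, prod_mul_distrib]
    exact mul_dvd_mul (dvd_refl _) (mul_dvd_mul (G3_fib (fun f => c (Sum.inl f)) _)
      (G3_fib (fun e => S.kX T.N c μ ν e) _))
  have hPY : (∏ i ∈ range (S.k + 1), ext1 ν.1 i) * ∏ i ∈ range S.k, (S.fY id c ν i * S.oY T.N id c μ ν i) ∣ S.prY id ν := by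
    unfold MS.prY
    rw [mul_assoc, ← G3_ext, prod_mul_distrib]
    exact mul_dvd_mul (dvd_refl _) (mul_dvd_mul (G3_fib (fun f => c (Sum.inr f)) _)
      (G3_fib (fun e => S.kY T.N c μ ν e) _))
  have hprodA : ∏ i ∈ range (S.k + 1), ext1 μ.1 i * A i = X := by
    refine G3_prod (F := fun i => S.fX id c μ i * S.oX T.N id c μ ν i) ?_ (hPX.trans h1)
    intro i
    rw [hA, ← G3_ext]
    rfl
  have hprodB : ∏ i ∈ range (S.k + 1), ext1 ν.1 i * B i = Y := by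
    refine G3_prod (F := fun i => S.fY id c ν i * S.oY T.N id c μ ν i) ?_ (hPY.trans h2)
    intro i
    rw [hB, ← G3_ext]
    rfl
  have hAF : ∏ i ∈ range S.k, A i = ∏ i ∈ range S.k, (S.fX id c μ i * S.oX T.N id c μ ν i) :=
    prod_congr rfl fun i hi => by
      rw [mem_range] at hi
      rw [hA]
      unfold MS.AA
      rw [if_pos hi]
  have hBF : ∏ i ∈ range S.k, B i = ∏ i ∈ range S.k, (S.fY id c ν i * S.oY T.N id c μ ν i) :=
    prod_congr rfl fun i hi => by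
      rw [mem_range] at hi
      rw [hB]
      unfold MS.BB
      rw [if_pos hi]
  -- positivity
  have hBpos : ∀ i < S.k + 1, 0 < B i := by
    intro i hi
    by_contra h
    have h0 : B i = 0 := by omega
    have : ∏ i ∈ range (S.k + 1), ext1 ν.1 i * B i = 0 :=
      prod_eq_zero (mem_range.2 hi) (by rw [h0, mul_zero])
    omega
  have hApos : ∀ i < S.k + 1, 0 < A i := by
    intro i hi
    rcases Nat.lt_or_ge i S.k with h | h
    · have h6 := (vec_pos hG c hμ hν).1 i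
      rw [MS.AI, if_pos h, ← hAk i h] at h6
      exact_mod_cast h6
    · obtain rfl : i = S.k := by omega
      by_contra h0
      have h0' : A S.k = 0 := by omega
      have h7 : ∏ i ∈ range (S.k + 1), ext1 μ.1 i * A i = 0 :=
        prod_eq_zero (mem_range.2 (Nat.lt_succ_self _)) (by rw [h0', mul_zero])
      rw [hprodA] at h7
      rw [h7] at hXY
      push_cast at hXY
      have h8 : (T.D : ℤ) * T.h = -(Y : ℤ) := by linarith
      have h9 : T.D * T.h.natAbs = Y := by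
        have := congrArg Int.natAbs h8
        rw [Int.natAbs_mul, Int.natAbs_natCast, Int.natAbs_neg, Int.natAbs_natCast] at this
        exact this
      omega
  have hSm : ∀ n ≤ S.k + 1, Sm A B (ext1 μ.1) (ext1 ν.1) n = Sm (S.AA T.N c μ ν 0) (S.BB T.N c μ ν 0) (ext1 μ.1) (ext1 ν.1) n :=
    G3_Sm hAk hBk
  have hSI : Sm A B (ext1 μ.1) (ext1 ν.1) (S.k + 1) = S.SI T.N c μ ν := hSm _ le_rfl
  obtain ⟨e, t, hcyc, hlast, hform⟩ := cyc_exists (h := T.h) (m := S.k + 1) (A := A) (B := B) (al := ext1 μ.1)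
    (be := ext1 ν.1) (D := T.D) (Nat.succ_pos _) hG.D0 hApos hBpos
    (fun i hi => by have := hbe i hi; omega) (fun i hi => by have := hbe i hi; have := hal i hi; omega)
    (by rw [hprodA, hprodB]; linarith) (by rw [hprodB]; exact h4) (by rw [hSI]; exact h5)
    (by
      rw [Nat.add_sub_cancel, hAF, hBF]
      exact Nat.Coprime.of_dvd hPX hPY hcop)
  rw [Nat.add_sub_cancel] at hlast hform
  rw [hSI] at hlast
  have hF : ∀ i < S.k + 1, (((if i = 0 then e S.k else e (i - 1)) * Bp (S.k + 1) B i : ℕ) : ℤ) = T.h + t i * ext1 μ.1 i := by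
    intro i hi
    cases i with
    | zero =>
      have h := hcyc.F S.k (by omega)
      rw [Nat.mod_self] at h
      rw [Nat.cast_mul]
      exact h
    | succ i =>
      have h := hcyc.F i (by omega)
      rw [Nat.mod_eq_of_lt hi] at h
      rw [Nat.cast_mul]
      exact h
  have htI : ∀ i < S.k + 1, S.gI T c μ ν X i = (if i = 0 then e S.k else e (i - 1)) → S.tI T c μ ν X i = t i := by
    intro i hi hg
    unfold MS.tI
    rw [← hY', ← hB, hg]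
    have h := hF i hi
    have h' : (((((if i = 0 then e S.k else e (i - 1)) * Bp (S.k + 1) B i : ℕ) : ℤ)) - T.h).toNat = t i * ext1 μ.1 i := by
      rw [h]
      have h7 : T.h + (t i : ℤ) * ((ext1 μ.1 i : ℕ) : ℤ) - T.h = ((t i * ext1 μ.1 i : ℕ) : ℤ) := by push_cast; ring
      rw [h7, Int.toNat_natCast]
    rw [h']
    exact Nat.mul_div_cancel _ (by have := hal i hi; omega)
  have hg : ∀ i < S.k + 1, S.gI T c μ ν X i = if i = 0 then e S.k else e (i - 1) := by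
    intro i
    induction i with
    | zero =>
      intro _
      rw [if_pos rfl]
      show S.SI T.N c μ ν / T.D = e S.k
      rw [← hlast]
      exact Nat.mul_div_cancel_left _ hG.D0
    | succ i ih =>
      intro hi
      have e1 := htI i (by omega) (ih (by omega))
      rw [if_neg (Nat.succ_ne_zero i), Nat.add_sub_cancel]
      show (((S.tI T c μ ν X i * ext1 ν.1 i : ℕ) : ℤ) + T.h).toNat / S.AA T.N c μ ν X i = e i
      rw [e1, ← hA]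
      have h := hcyc.E i (by omega)
      have h' : (((t i * ext1 ν.1 i : ℕ) : ℤ) + T.h).toNat = e i * A i := by
        have h7 : ((t i * ext1 ν.1 i : ℕ) : ℤ) + T.h = ((e i * A i : ℕ) : ℤ) := by
          push_cast
          linarith
        rw [h7, Int.toNat_natCast]
      rw [h']
      exact Nat.mul_div_cancel _ (hApos i (by omega))
  refine ⟨e, t, ⟨by rw [← hY', ← hA, ← hB]; exact hcyc, hlast, by rw [← hA]; exact hprodA, by rw [← hY', ← hB]; exact hprodB⟩,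
    fun i hi => htI i hi (hg i hi), ?_⟩
  rintro ⟨i, bb, w⟩ hi
  have hi : i < S.k + 1 := hi
  -- the formula
  obtain ⟨E, hE⟩ : ∃ E : ℕ, E = if i = 0 then e S.k else e (i - 1) := ⟨_, rfl⟩
  have g1 := hform i hi.le
  have g2 := hF i hi
  rw [← hE] at g1 g2
  have g3 : (T.D : ℤ) * (e S.k : ℕ) = SmR (S.AI T.N c μ ν) (S.BI T.N c μ ν) (aI μ.1) (aI ν.1) (S.k + 1) := by
    rw [← SI_eq hG c hμ hν]
    exact_mod_cast hlast
  have hPI : (∏ l ∈ range i, aI μ.1 l * S.AI T.N c μ ν l) = ((∏ l ∈ range i, ext1 μ.1 l * A l : ℕ) : ℤ) := by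
    rw [Nat.cast_prod]
    refine prod_congr rfl fun l hl => ?_
    rw [mem_range] at hl
    have hlk : l < S.k := by omega
    unfold MS.AI aI
    rw [if_pos hlk, ← hAk l hlk, Nat.cast_mul]
  have hBIl : ∀ l < S.k, S.BI T.N c μ ν l = ((B l : ℕ) : ℤ) := by
    intro l hl
    unfold MS.BI
    rw [if_pos hl, ← hBk l hl]
  have hAIl : ∀ l < S.k, S.AI T.N c μ ν l = ((A l : ℕ) : ℤ) := by
    intro l hl
    unfold MS.AI
    rw [if_pos hl, ← hAk l hl]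
  obtain ⟨Rt', hRt⟩ : ∃ r : ℤ, r = Rt (S.k + 1) (S.BI T.N c μ ν) (aI ν.1) i := ⟨_, rfl⟩
  have hRs : Rs (S.k + 1) (S.BI T.N c μ ν) (aI ν.1) i = aI ν.1 i * Rt' := by
    rw [hRt]
    rfl
  have g4 : ((Bp (S.k + 1) B i : ℕ) : ℤ) * ((∏ l ∈ range i, ext1 ν.1 l * Bp (S.k + 1) B l : ℕ) : ℤ) *
      Rs (S.k + 1) (S.BI T.N c μ ν) (aI ν.1) i = Y := by
    have r1 : Rs (S.k + 1) (S.BI T.N c μ ν) (aI ν.1) i = ((ext1 ν.1 i * ∏ l ∈ Ico (i + 1) (S.k + 1), ext1 ν.1 l * Bp (S.k + 1) B l : ℕ) : ℤ) := by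
      unfold Rs
      rw [Nat.cast_mul, Nat.cast_prod]
      congr 1
      refine prod_congr rfl fun l hl => ?_
      rw [mem_Ico] at hl
      rw [hBIl (l - 1) (by omega), Nat.cast_mul]
      unfold Bp aI
      rw [if_neg (by omega)]
    rw [r1, ← Nat.cast_mul, ← Nat.cast_mul]
    congr 1
    rw [← hprodB]
    have r2 : ∏ l ∈ range (S.k + 1), ext1 ν.1 l * B l = ∏ l ∈ range (S.k + 1), ext1 ν.1 l * Bp (S.k + 1) B l := by
      rw [prod_mul_distrib, prod_mul_distrib, prod_Bp (Nat.succ_pos _)]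
    rw [r2, ← prod_range_mul_prod_Ico _ hi.le, prod_eq_prod_Ico_succ_bot hi]
    ring
  have g5 : ((Bp (S.k + 1) B i : ℕ) : ℤ) * ((Sm A B (ext1 μ.1) (ext1 ν.1) i : ℕ) : ℤ) =
      S.BI T.N c μ ν (i - 1) * SmR (S.AI T.N c μ ν) (S.BI T.N c μ ν) (aI μ.1) (aI ν.1) i := by
    cases i with
    | zero => simp [Sm, SmR]
    | succ j =>
      rw [Nat.add_sub_cancel, hBIl j (by omega), Sm_cast (fun l hl => by
        have a1 := hal l (by omega)
        have a2 := hbe l (by omega)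
        omega)]
      have r3 : Bp (S.k + 1) B (j + 1) = B j := by
        unfold Bp
        rw [if_neg (Nat.succ_ne_zero j), Nat.add_sub_cancel]
      rw [r3]
      congr 1
      exact SmR_congr (fun l hl => (hAIl l (by omega)).symm) (fun l hl => (hBIl l (by omega)).symm)
        (fun _ _ => rfl) (fun _ _ => rfl)
  have g1' : ((∏ l ∈ range i, ext1 μ.1 l * A l : ℕ) : ℤ) * E =
      T.h * ((Sm A B (ext1 μ.1) (ext1 ν.1) i : ℕ) : ℤ) +
        ((∏ l ∈ range i, ext1 ν.1 l * Bp (S.k + 1) B l : ℕ) : ℤ) * (e S.k : ℕ) := g1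
  have g2' : (E : ℤ) * ((Bp (S.k + 1) B i : ℕ) : ℤ) = T.h + (t i : ℤ) * aI μ.1 i := by
    rw [← Nat.cast_mul]
    exact g2
  rw [hXY]
  have key : (T.D : ℤ) * (T.h * (Us (S.AI T.N c μ ν) (S.BI T.N c μ ν) (aI μ.1) (aI ν.1) i * Rs (S.k + 1) (S.BI T.N c μ ν) (aI ν.1) i)) -
      (Y : ℤ) * SmR (S.AI T.N c μ ν) (S.BI T.N c μ ν) (aI μ.1) (aI ν.1) (S.k + 1) =
      -((T.D : ℤ) * (∏ l ∈ range i, aI μ.1 l * S.AI T.N c μ ν l) * (aI μ.1 i * Rs (S.k + 1) (S.BI T.N c μ ν) (aI ν.1) i) * t i) := by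
    unfold Us
    rw [hPI, ← g3]
    linear_combination (-((T.D : ℤ) * ((∏ l ∈ range i, ext1 μ.1 l * A l : ℕ) : ℤ) * Rs (S.k + 1) (S.BI T.N c μ ν) (aI ν.1) i)) * g2' +
      ((T.D : ℤ) * Rs (S.k + 1) (S.BI T.N c μ ν) (aI ν.1) i * ((Bp (S.k + 1) B i : ℕ) : ℤ)) * g1' +
      ((T.D : ℤ) * Rs (S.k + 1) (S.BI T.N c μ ν) (aI ν.1) i * T.h) * g5 +
      ((T.D : ℤ) * (e S.k : ℕ)) * g4
  have htt := htI i hi (hg i hi)
  unfold MS.FI Fz MS.PI Pw MS.fI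
  simp only
  rw [htt]
  cases bb with
  | true =>
    simp only [if_true]
    have h7 : ((ext1 μ.1 i : ℕ) : ℤ) = aI μ.1 i := rfl
    rw [h7]
    push_cast
    linear_combination key
  | false =>
    simp only [Bool.false_eq_true, if_false]
    have h7 : ((ext1 ν.1 i : ℕ) : ℤ) = aI ν.1 i := rfl
    rw [h7, ← hRt]
    rw [hRs] at key ⊢
    push_cast
    linear_combination key

end Pool.Agent.Lib.TT3
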