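import Pool.Agent.Lib.MP_092512_nt.TT.P.G3

/-!
# K2: `Geo3` from `MS.OK3`, `Dat.OK`

Given `μ ∈ MX`, `ν ∈ MY` (so all windows and pieces are nonempty). `Z' i = Z ⟨i, _⟩` for `i ≤ k`, `0` otherwise; `hX p = hY p = 1/p`; `V` = `1 + ∑_i (1/∑_{WX i} 1/p + 1/∑_{WY i} 1/p)`.
`k1` from `k_lo`; `N2` from `N_pos`; `D0`; `DN`: `D ≤ y0 < z ≤ z² ≤ Z_k < α_k ≤ prX ≤ N^(1/10) ≤ N` (`small`; all factors of `prX`, `prY` are `≥ 1`), the same for `ZN`; `Dy`: `p ≤ D ≤ y0`; `y1`; `yz`;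
`zZ`: `z D ≤ z y0 ≤ z²`; `ZZ` from `Z_lt`; `wx`, `wy`, `fx`, `fy`, `ox`, `oy` from the `_mem` fields; `ix`: the marks of `μ` are distinct: windows by `α_i ≤ 4 Z_i < Z_j < α_j`, windows are `> 3 z² ≥ z`, the other
marks `≤ z`, and these are distinct by the `_dis` fields; the same for `iy`.
-/

set_option autoImplicit false

open Finset

namespace Pool.Agent.Lib.TT3

open Pool.Agent.Lib.TTC

theorem K2 {S : MS} {T : Dat} {W0 : ℕ} {Z : Fin (S.k + 1) → ℕ} (hT : T.OK W0) (hS : S.OK3 T W0 Z) {μ : S.TX} {ν : S.TY} (hμ : μ ∈ S.MX)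
    (hν : ν ∈ S.MY) : ∃ (Z' : ℕ → ℕ) (V : ℝ), S.Geo3 T Z' (fun p => 1 / (p : ℝ)) (fun p => 1 / (p : ℝ)) V ∧ ∀ i : Fin (S.k + 1), Z' i = Z i := by
  classical
  have hμ1 : ∀ i, μ.1 i ∈ S.WX i := by
    intro i
    have h := (Finset.mem_product.1 hμ).1
    exact (Fintype.mem_piFinset.1 h) i
  have hμ2 : ∀ f, μ.2.1 f ∈ S.FX f := by
    intro f
    have h := (Finset.mem_product.1 (Finset.mem_product.1 hμ).2).1
    exact (Fintype.mem_piFinset.1 h) f
  have hν1 : ∀ i, ν.1 i ∈ S.WY i := by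
    intro i
    have h := (Finset.mem_product.1 hν).1
    exact (Fintype.mem_piFinset.1 h) i
  -- the numbers `Z`
  obtain ⟨Z', hZ'⟩ : ∃ Z' : ℕ → ℕ, ∀ i : Fin (S.k + 1), Z' i = Z i := by
    refine ⟨fun i => if h : i < S.k + 1 then Z ⟨i, h⟩ else 0, fun i => ?_⟩
    show (if h : (i : ℕ) < S.k + 1 then Z ⟨i, h⟩ else 0) = Z i
    rw [dif_pos i.isLt]
  have hZn : ∀ i (h : i ≤ S.k), Z' i = Z ⟨i, by omega⟩ := fun i h => hZ' ⟨i, by omega⟩
  have hz1 : 1 ≤ T.z := by have := hT.y0_lt; omega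
  have hzz : T.z ≤ T.z ^ 2 := by
    rw [sq]
    exact Nat.le_mul_of_pos_left _ hz1
  have hy1 : 1 ≤ T.y0 := by have := hT.D_pos; have := hT.D_le; omega
  -- masses of the windows
  have hWX : ∀ i, 0 < ∑ p ∈ S.WX i, 1 / (p : ℝ) := by
    intro i
    refine Finset.sum_pos (fun p hp => ?_) ⟨_, hμ1 i⟩
    have h := (hS.WX_mem i p hp).1.pos
    have h2 : (0 : ℝ) < p := by exact_mod_cast h
    positivity
  have hWY : ∀ i, 0 < ∑ p ∈ S.WY i, 1 / (p : ℝ) := by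
    intro i
    refine Finset.sum_pos (fun p hp => ?_) ⟨_, hν1 i⟩
    have h : 0 < p := (Nat.zero_le _).trans_lt (hS.WY_mem i p hp).2.2.1
    have h2 : (0 : ℝ) < p := by exact_mod_cast h
    positivity
  obtain ⟨V, hV⟩ : ∃ V : ℝ, V = 1 + ∑ i, (1 / (∑ p ∈ S.WX i, 1 / (p : ℝ)) + 1 / (∑ p ∈ S.WY i, 1 / (p : ℝ))) := ⟨_, rfl⟩
  have hterm : ∀ i, 0 ≤ 1 / (∑ p ∈ S.WX i, 1 / (p : ℝ)) + 1 / (∑ p ∈ S.WY i, 1 / (p : ℝ)) := fun i =>
    add_nonneg (one_div_nonneg.2 (hWX i).le) (one_div_nonneg.2 (hWY i).le)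
  have hVi : ∀ i, 1 / (∑ p ∈ S.WX i, 1 / (p : ℝ)) + 1 / (∑ p ∈ S.WY i, 1 / (p : ℝ)) ≤ V := by
    intro i
    rw [hV]
    have h := Finset.single_le_sum (f := fun i => 1 / (∑ p ∈ S.WX i, 1 / (p : ℝ)) + 1 / (∑ p ∈ S.WY i, 1 / (p : ℝ)))
      (fun j _ => hterm j) (Finset.mem_univ i)
    linarith
  -- the product of the marks
  have hpos0 : ∀ {n : ℕ} (f : Fin n → ℕ), (∀ i, f i ≠ 0) → 1 ≤ ∏ i, f i := by
    intro n f hf
    exact Nat.one_le_iff_ne_zero.2 (Finset.prod_ne_zero_iff.2 fun i _ => hf i)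
  have hpos : ∀ {n : ℕ} (f : Fin n → ℕ), (∀ i, (f i).Prime) → 1 ≤ ∏ i, f i := fun f hf => hpos0 f fun i => (hf i).ne_zero
  have hprX : μ.1 (Fin.last S.k) ≤ S.prX id μ := by
    unfold MS.prX
    simp only [id]
    have h1 : μ.1 (Fin.last S.k) ≤ ∏ i, μ.1 i := by
      refine Nat.le_of_dvd (hpos _ fun i => (hS.WX_mem i _ (hμ1 i)).1) ?_
      exact Finset.dvd_prod_of_mem _ (Finset.mem_univ _)
    have h2 : 1 ≤ ∏ f, μ.2.1 f := hpos _ fun f => (hS.FX_mem f _ (hμ2 f)).1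
    have h3 : 1 ≤ ∏ e, μ.2.2 e := by
      refine hpos _ fun e => ?_
      have h := (Finset.mem_product.1 (Finset.mem_product.1 hμ).2).2
      exact (hS.OX_mem e _ ((Fintype.mem_piFinset.1 h) e)).1
    calc μ.1 (Fin.last S.k) = μ.1 (Fin.last S.k) * 1 * 1 := by ring
      _ ≤ (∏ i, μ.1 i) * (∏ f, μ.2.1 f) * ∏ e, μ.2.2 e := Nat.mul_le_mul (Nat.mul_le_mul h1 h2) h3
  have hprY : 1 ≤ S.prY id ν := by
    unfold MS.prY
    simp only [id]
    have h1 : 1 ≤ ∏ i, ν.1 i := hpos0 _ fun i => (hS.WY_mem i _ (hν1 i)).1.ne_zero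
    have h2 : 1 ≤ ∏ f, ν.2.1 f := by
      refine hpos _ fun f => ?_
      have h := (Finset.mem_product.1 (Finset.mem_product.1 hν).2).1
      exact (hS.FY_mem f _ ((Fintype.mem_piFinset.1 h) f)).1
    have h3 : 1 ≤ ∏ e, ν.2.2 e := by
      refine hpos _ fun e => ?_
      have h := (Finset.mem_product.1 (Finset.mem_product.1 hν).2).2
      exact (hS.OY_mem e _ ((Fintype.mem_piFinset.1 h) e)).1
    calc 1 = 1 * 1 * 1 := by ring
      _ ≤ (∏ i, ν.1 i) * (∏ f, ν.2.1 f) * ∏ e, ν.2.2 e := Nat.mul_le_mul (Nat.mul_le_mul h1 h2) h3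
  have hN1 : (1 : ℝ) ≤ T.N := by
    have := hT.N_pos
    exact_mod_cast (by omega : 1 ≤ T.N)
  have hαN : μ.1 (Fin.last S.k) ≤ T.N := by
    have h1 := hS.small μ hμ ν hν
    have h2 : (T.N : ℝ) ^ (1 / 10 : ℝ) ≤ T.N := by
      calc (T.N : ℝ) ^ (1 / 10 : ℝ) ≤ (T.N : ℝ) ^ (1 : ℝ) := Real.rpow_le_rpow_of_exponent_le hN1 (by norm_num)
        _ = T.N := Real.rpow_one _
    have h3 : S.prX id μ * S.prY id ν ≤ T.N := by exact_mod_cast h1.trans h2
    calc μ.1 (Fin.last S.k) ≤ S.prX id μ * 1 := by rw [mul_one]; exact hprX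
      _ ≤ S.prX id μ * S.prY id ν := Nat.mul_le_mul_left _ hprY
      _ ≤ T.N := h3
  have hZN : Z (Fin.last S.k) ≤ T.N := by
    have h1 := (hS.WX_mem _ _ (hμ1 (Fin.last S.k))).2.2.1
    omega
  -- injectivity
  have inj : ∀ {n : ℕ} (al : Fin (S.k + 1) → ℕ) (fr : Fin S.n0 → ℕ) (ot : Fin n → ℕ),
      (∀ i j, i < j → al i < al j) → (∀ i f, fr f < al i) → (∀ i e, ot e < al i) →
      (∀ f f', f ≠ f' → fr f ≠ fr f') → (∀ e e', e ≠ e' → ot e ≠ ot e') → (∀ f e, fr f ≠ ot e) →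
      Function.Injective (Sum.elim al (Sum.elim fr ot)) := by
    intro n al fr ot h1 h2 h3 h4 h5 h6
    have h1' : ∀ i j, al i = al j → i = j := by
      intro i j h
      rcases lt_trichotomy i j with h7 | h7 | h7
      · exact absurd h (h1 i j h7).ne
      · exact h7
      · exact absurd h.symm (h1 j i h7).ne
    rintro (i | f | e) (j | f' | e') h
    · exact congrArg Sum.inl (h1' i j h)
    · exact absurd h.symm (h2 i f').ne
    · exact absurd h.symm (h3 i e').ne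
    · exact absurd h (h2 j f).ne
    · by_contra hne
      exact h4 f f' (fun h7 => hne (by rw [h7])) h
    · exact absurd h (h6 f e')
    · exact absurd h (h3 j e).ne
    · exact absurd h.symm (h6 f' e)
    · by_contra hne
      exact h5 e e' (fun h7 => hne (by rw [h7])) h
  have dis : ∀ {A B : Finset ℕ} {x y : ℕ}, Disjoint A B → x ∈ A → y ∈ B → x ≠ y := by
    intro A B x y hd hx hy hxy
    exact (Finset.disjoint_left.1 hd) hx (hxy ▸ hy)
  refine ⟨Z', V, ?_, hZ'⟩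
  refine
    { k1 := by have := hS.k_lo; omega
      N2 := hT.N_pos.le
      D0 := hT.D_pos
      DN := ?_
      Dy := fun p _ hpD => (Nat.le_of_dvd hT.D_pos hpD).trans hT.D_le
      y1 := hy1
      yz := hT.y0_lt.le
      zZ := ?_
      ZZ := ?_
      ZN := ?_
      wx := ?_
      wy := ?_
      wz := hS.WY_big
      w2 := hS.WY_two
      wc := hS.WY_cop
      fx := fun f p hp => ⟨(hS.FX_mem f p hp).1, (hS.FX_mem f p hp).2.2.1, (hS.FX_mem f p hp).2.2.2, (hS.FX_mem f p hp).2.1⟩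
      fy := fun f p hp => ⟨(hS.FY_mem f p hp).1, (hS.FY_mem f p hp).2.2.1, (hS.FY_mem f p hp).2.2.2, (hS.FY_mem f p hp).2.1⟩
      ox := fun f p hp => ⟨(hS.OX_mem f p hp).1, (hS.OX_mem f p hp).2.2.1, (hS.OX_mem f p hp).2.2.2, (hS.OX_mem f p hp).2.1⟩
      oy := fun f p hp => ⟨(hS.OY_mem f p hp).1, (hS.OY_mem f p hp).2.2.1, (hS.OY_mem f p hp).2.2.2, (hS.OY_mem f p hp).2.1⟩
      ix := ?_
      iy := ?_
      hX0 := ?_
      hY0 := ?_
      hYw := ?_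
      V1 := ?_
      lX := ?_
      lY := ?_
      h0 := hT.h_ne
      ly := ?_
      hg := ?_ }
  · have h1 := hT.D_le
    have h2 := hT.y0_lt
    have h3 := hS.Z_lo (Fin.last S.k)
    omega
  · intro i hi
    rw [hZn i hi]
    have h3 := hS.Z_lo ⟨i, by omega⟩
    calc T.z * T.D ≤ T.z * T.z := Nat.mul_le_mul_left _ (hT.D_le.trans hT.y0_lt.le)
      _ = T.z ^ 2 := (sq _).symm
      _ ≤ _ := h3
  · intro i j hij hj
    rw [hZn i (by omega), hZn j hj]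
    exact (hS.Z_lt ⟨i, by omega⟩ ⟨j, by omega⟩ (by simpa using hij)).le
  · have h := hZ' (Fin.last S.k)
    rw [Fin.val_last] at h
    rw [h]
    exact hZN
  · intro i p hp
    obtain ⟨h1, h2, h3, h4, -⟩ := hS.WX_mem i p hp
    rw [hZ']
    exact ⟨h1, h3, h4, h2⟩
  · intro i p hp
    obtain ⟨h1, h2, h3, h4, -⟩ := hS.WY_mem i p hp
    rw [hZ']
    exact ⟨h1, h3, h4, h2⟩
  · intro μ' hμ'
    have m1 : ∀ i, μ'.1 i ∈ S.WX i := fun i => (Fintype.mem_piFinset.1 (Finset.mem_product.1 hμ').1) i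
    have m2 : ∀ f, μ'.2.1 f ∈ S.FX f := fun f =>
      (Fintype.mem_piFinset.1 (Finset.mem_product.1 (Finset.mem_product.1 hμ').2).1) f
    have m3 : ∀ e, μ'.2.2 e ∈ S.OX e := fun e =>
      (Fintype.mem_piFinset.1 (Finset.mem_product.1 (Finset.mem_product.1 hμ').2).2) e
    refine inj μ'.1 μ'.2.1 μ'.2.2 ?_ ?_ ?_ ?_ ?_ ?_
    · intro i j hij
      have h1 := (hS.WX_mem i _ (m1 i)).2.2.2.1
      have h2 := (hS.WX_mem j _ (m1 j)).2.2.1
      have h3 := hS.Z_lt i j hij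
      omega
    · intro i f
      have h1 := (hS.WX_mem i _ (m1 i)).2.2.1
      have h2 := (hS.FX_mem f _ (m2 f)).2.2.2
      have h3 := hS.Z_lo i
      omega
    · intro i e
      have h1 := (hS.WX_mem i _ (m1 i)).2.2.1
      have h2 := (hS.OX_mem e _ (m3 e)).2.2.2
      have h3 := hS.Z_lo i
      omega
    · intro f f' hff
      exact dis (hS.FX_dis f f' hff) (m2 f) (m2 f')
    · intro e e' hee
      exact dis (hS.OX_dis e e' hee) (m3 e) (m3 e')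
    · intro f e
      exact dis (hS.FOX_dis f e) (m2 f) (m3 e)
  · intro ν' hν'
    have m1 : ∀ i, ν'.1 i ∈ S.WY i := fun i => (Fintype.mem_piFinset.1 (Finset.mem_product.1 hν').1) i
    have m2 : ∀ f, ν'.2.1 f ∈ S.FY f := fun f =>
      (Fintype.mem_piFinset.1 (Finset.mem_product.1 (Finset.mem_product.1 hν').2).1) f
    have m3 : ∀ e, ν'.2.2 e ∈ S.OY e := fun e =>
      (Fintype.mem_piFinset.1 (Finset.mem_product.1 (Finset.mem_product.1 hν').2).2) e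
    refine inj ν'.1 ν'.2.1 ν'.2.2 ?_ ?_ ?_ ?_ ?_ ?_
    · intro i j hij
      have h1 := (hS.WY_mem i _ (m1 i)).2.2.2.1
      have h2 := (hS.WY_mem j _ (m1 j)).2.2.1
      have h3 := hS.Z_lt i j hij
      omega
    · intro i f
      have h1 := (hS.WY_mem i _ (m1 i)).2.2.1
      have h2 := (hS.FY_mem f _ (m2 f)).2.2.2
      have h3 := hS.Z_lo i
      omega
    · intro i e
      have h1 := (hS.WY_mem i _ (m1 i)).2.2.1
      have h2 := (hS.OY_mem e _ (m3 e)).2.2.2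
      have h3 := hS.Z_lo i
      omega
    · intro f f' hff
      exact dis (hS.FY_dis f f' hff) (m2 f) (m2 f')
    · intro e e' hee
      exact dis (hS.OY_dis e e' hee) (m3 e) (m3 e')
    · intro f e
      exact dis (hS.FOY_dis f e) (m2 f) (m3 e)
  · intro p hp
    have h1 : (0 : ℝ) < p := by exact_mod_cast hp.pos
    exact ⟨by positivity, div_le_div_of_nonneg_right (by norm_num) h1.le⟩
  · intro p hp
    have h1 : (0 : ℝ) < p := by exact_mod_cast hp.pos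
    exact ⟨by positivity, div_le_div_of_nonneg_right (by norm_num) h1.le⟩
  · intro i p hp
    have h0 : 0 < p := (Nat.zero_le _).trans_lt (hS.WY_mem i p hp).2.2.1
    have h1 : (0 : ℝ) < p := by exact_mod_cast h0
    exact ⟨by positivity, div_le_div_of_nonneg_right (by norm_num) h1.le⟩
  · rw [hV]
    have h := Finset.sum_nonneg (s := (Finset.univ : Finset (Fin (S.k + 1)))) (f := fun i =>
      1 / (∑ p ∈ S.WX i, 1 / (p : ℝ)) + 1 / (∑ p ∈ S.WY i, 1 / (p : ℝ))) (fun i _ => hterm i)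
    linarith
  · intro i
    have h1 : 1 / (∑ p ∈ S.WX i, 1 / (p : ℝ)) ≤ V :=
      le_trans (le_add_of_nonneg_right (one_div_nonneg.2 (hWY i).le)) (hVi i)
    rwa [div_le_iff₀ (hWX i)] at h1
  · intro i
    have h1 : 1 / (∑ p ∈ S.WY i, 1 / (p : ℝ)) ≤ V :=
      le_trans (le_add_of_nonneg_left (one_div_nonneg.2 (hWX i).le)) (hVi i)
    rwa [div_le_iff₀ (hWY i)] at h1
  · rcases hT.l_or with h | h
    · omega
    · exact h.2.2.1
  · intro p hp hpy
    have hp0 : T.p0 < p := by have := hT.p0_le; have := hT.y_le; omega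
    have key : ∀ z : ℤ, z ≠ 0 → z.natAbs < T.p0 → ¬ (p : ℤ) ∣ z := by
      intro z hz hz2 hd
      have h1 := Int.natAbs_dvd_natAbs.2 hd
      rw [Int.natAbs_natCast] at h1
      have h2 := Nat.le_of_dvd (Int.natAbs_pos.2 hz) h1
      omega
    exact ⟨key _ hT.h_ne hT.h_lt, fun g hg => ⟨key _ (hT.G_ne g hg).1 (hT.G_lt g hg).1, key _ (hT.G_ne g hg).2 (hT.G_lt g hg).2⟩⟩

end Pool.Agent.Lib.TT3
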