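import Pool.Agent.Lib.MP_092512_nt.TT.P.D3
import Pool.Agent.Lib.MP_092512_nt.TT.C.POK
import Pool.Agent.Lib.MP_092512_nt.TT.C.S7Def
import Pool.Agent.Lib.MP_092512_nt.TT.C.K3
import Pool.Agent.Lib.MP_092512_nt.TT.C.K4
import Pool.Agent.Lib.MP_092512_nt.TT.C.K5
import Pool.Agent.Lib.MP_092512_nt.TT.C.S7D1
import Pool.Agent.Lib.MP_092512_nt.TT.P.K2

/-!
# K7: the bridge (5.2): a colouring without bad, hit and forbidden primes gives a good cycle

* `CopM`: all marks have only prime factors `> y0`, so they are coprime to `p` for `p ≤ y0` and for `p ∤ prX prY`. `β_i ≤ 2 Z_i < 3 Z_i < α_i`.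
* `D ∣ SI`: `L6`. `tI_facts` gives `CF` and `tI i = t i`.
* No prime `p ≤ z` divides a form `t_i γ + w`: `p < p0`: `K3`; `p0 ≤ p ≤ y0`: `K4` (`bad = ∅`); `y0 < p ≤ z`: `p ∈ spec`: `hf1`; otherwise `K5` (`hits = ∅`).
* `n = e_i A_i`: `n - h = t_i β_i`, `n + g = t_i β_i + (h + g)`: forms. `n = e_i B_i`: `n - h = t_j α_j`, `n + g = t_j α_j + (h + g)`, `j = i + 1` modulo `k + 1`; a prime `p ≤ z` does not divide `α_j` (a prime `> z`).
* `n` free of primes `≤ y`: `K3`, `K4` for `e_i A_i`; `e_i B_i`: `p ∤ e_i` and `B_i ∣ Y`.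
-/

set_option autoImplicit false

open Finset

namespace Pool.Agent.Lib.TT3

open Pool.Agent.Lib.TTC

private theorem K7_one {T : Dat} {P p l : ℕ} (hp : p.Prime) (hl : l.Prime) (hy : T.y0 < l) (hP : l ∣ P)
    (h : p ≤ T.y0 ∨ ¬ p ∣ P) : l.Coprime p := by
  rw [Nat.coprime_primes hl hp]
  rintro rfl
  rcases h with h | h
  · omega
  · exact h hP

private theorem K7_oneY {T : Dat} {P p l : ℕ} (hp : p.Prime) (hy : ∀ r : ℕ, r.Prime → r ∣ l → T.y0 < r) (hP : l ∣ P)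
    (h : p ≤ T.y0 ∨ ¬ p ∣ P) : l.Coprime p := by
  rw [Nat.coprime_comm, Nat.Prime.coprime_iff_not_dvd hp]
  intro hd
  rcases h with h | h
  · have := hy p hp hd
    omega
  · exact h (hd.trans hP)

private theorem K7_win {S : MS} {T : Dat} {W0 : ℕ} {Z : Fin (S.k + 1) → ℕ} (hT : T.OK W0) (hS : S.OK3 T W0 Z) {μ : S.TX} {ν : S.TY} (hμ : μ ∈ S.MX)
    (hν : ν ∈ S.MY) (i : Fin (S.k + 1)) : ((μ.1 i).Prime ∧ T.z < μ.1 i) ∧
      (T.z < ν.1 i ∧ ∀ r : ℕ, r.Prime → r ∣ ν.1 i → T.z < r) ∧ ν.1 i < μ.1 i := by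
  have hμ1 : μ.1 i ∈ S.WX i := Fintype.mem_piFinset.1 (mem_product.1 hμ).1 i
  have hν1 : ν.1 i ∈ S.WY i := Fintype.mem_piFinset.1 (mem_product.1 hν).1 i
  obtain ⟨a1, a2, a3, a4, -⟩ := hS.WX_mem i _ hμ1
  obtain ⟨b1, b2, b3, b4, -⟩ := hS.WY_mem i _ hν1
  have hz := hS.Z_lo i
  have hy := hT.y0_lt
  have hzz : T.z ≤ T.z ^ 2 := Nat.le_self_pow two_ne_zero _
  exact ⟨⟨a1, by omega⟩, ⟨by omega, hS.WY_big i _ hν1⟩, by omega⟩

theorem K7_CopM {S : MS} {T : Dat} {W0 : ℕ} {Z : Fin (S.k + 1) → ℕ} (hT : T.OK W0) (hS : S.OK3 T W0 Z) {μ : S.TX} {ν : S.TY} (hμ : μ ∈ S.MX)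
    (hν : ν ∈ S.MY) {p : ℕ} (hp : p.Prime) (h : p ≤ T.y0 ∨ ¬ p ∣ S.prX id μ * S.prY id ν) : S.CopM p μ ν := by
  have hμ2 := mem_product.1 hμ
  have hμ3 := mem_product.1 hμ2.2
  have hν2 := mem_product.1 hν
  have hν3 := mem_product.1 hν2.2
  have hy := hT.y0_lt
  have d1 : ∀ i, μ.1 i ∣ S.prX id μ * S.prY id ν := fun i => by
    refine Dvd.dvd.mul_right ?_ _
    unfold MS.prX
    exact Dvd.dvd.mul_right (Dvd.dvd.mul_right (dvd_prod_of_mem (fun i => id (μ.1 i)) (mem_univ i)) _) _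
  have d2 : ∀ f, μ.2.1 f ∣ S.prX id μ * S.prY id ν := fun f => by
    refine Dvd.dvd.mul_right ?_ _
    unfold MS.prX
    exact Dvd.dvd.mul_right (Dvd.dvd.mul_left (dvd_prod_of_mem (fun f => id (μ.2.1 f)) (mem_univ f)) _) _
  have d3 : ∀ e, μ.2.2 e ∣ S.prX id μ * S.prY id ν := fun e => by
    refine Dvd.dvd.mul_right ?_ _
    unfold MS.prX
    exact Dvd.dvd.mul_left (dvd_prod_of_mem (fun e => id (μ.2.2 e)) (mem_univ e)) _
  have d4 : ∀ i, ν.1 i ∣ S.prX id μ * S.prY id ν := fun i => by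
    refine Dvd.dvd.mul_left ?_ _
    unfold MS.prY
    exact Dvd.dvd.mul_right (Dvd.dvd.mul_right (dvd_prod_of_mem (fun i => id (ν.1 i)) (mem_univ i)) _) _
  have d5 : ∀ f, ν.2.1 f ∣ S.prX id μ * S.prY id ν := fun f => by
    refine Dvd.dvd.mul_left ?_ _
    unfold MS.prY
    exact Dvd.dvd.mul_right (Dvd.dvd.mul_left (dvd_prod_of_mem (fun f => id (ν.2.1 f)) (mem_univ f)) _) _
  have d6 : ∀ e, ν.2.2 e ∣ S.prX id μ * S.prY id ν := fun e => by
    refine Dvd.dvd.mul_left ?_ _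
    unfold MS.prY
    exact Dvd.dvd.mul_left (dvd_prod_of_mem (fun e => id (ν.2.2 e)) (mem_univ e)) _
  refine ⟨fun i => ?_, fun f => ⟨?_, ?_⟩, fun e => ?_, fun e => ?_⟩
  · obtain ⟨⟨a1, a3⟩, ⟨b1, b3⟩, -⟩ := K7_win hT hS hμ hν i
    exact ⟨K7_one hp a1 (by omega) (d1 i) h, K7_oneY hp (fun r hr hd => lt_trans hy (b3 r hr hd)) (d4 i) h⟩
  · obtain ⟨a1, a2, a3, -⟩ := hS.FX_mem f _ (Fintype.mem_piFinset.1 hμ3.1 f)
    exact K7_one hp a1 a3 (d2 f) h
  · obtain ⟨a1, a2, a3, -⟩ := hS.FY_mem f _ (Fintype.mem_piFinset.1 hν3.1 f)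
    exact K7_one hp a1 a3 (d5 f) h
  · obtain ⟨a1, a2, a3, -⟩ := hS.OX_mem e _ (Fintype.mem_piFinset.1 hμ3.2 e)
    exact K7_one hp a1 a3 (d3 e) h
  · obtain ⟨a1, a2, a3, -⟩ := hS.OY_mem e _ (Fintype.mem_piFinset.1 hν3.2 e)
    exact K7_one hp a1 a3 (d6 e) h

private theorem K7_pow_dvd {R : Type*} [CommSemiring R] (x y : R) {a : ℕ} (h : a = 0) : x ^ a ∣ y := by
  rw [h, pow_zero]
  exact one_dvd y

private theorem K7_ext {n : ℕ} (a : Fin n → ℕ) {i : ℕ} (h : i < n) : ext1 a i = a ⟨i, h⟩ := by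
  simp [ext1, h]

private theorem K7_ndvd {a p0 : ℕ} {z : ℤ} (hz : z ≠ 0) (hz2 : z.natAbs < p0) (ha : p0 ≤ a) : 0 < (a : ℤ) + z := by
  omega

theorem K7 {S : MS} {T : Dat} {W0 : ℕ} {Z : Fin (S.k + 1) → ℕ} (hT : T.OK W0) (hS : S.OK3 T W0 Z) {c : S.Col} (hc : c ∈ S.CC) {μ : S.TX} {ν : S.TY}
    (hμ : μ ∈ S.MX) (hν : ν ∈ S.MY) (hcop : (S.prX id μ).Coprime (S.prY id ν)) {v : ℕ} {x0 : ℤ} {t2 : Prop} {X : ℕ}
    (h1 : S.prX id μ ∣ X) (h2 : S.prY id ν ∣ T.Y X) (h4 : 4 * (T.D * T.h.natAbs) < T.Y X)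
    (hYc : ∀ p : ℕ, p.Prime → p < T.p0 → T.Y X ≡ T.yc [MOD p ^ T.r])
    (hR : ∀ p : ℕ, p.Prime → p ≤ T.y0 → ¬ p ∣ T.Y X ∧ (¬ p ∣ X ∨ p = T.l))
    (hLL : S.LL T c μ ν X) (hbad : S.bad T c μ ν X = ∅) (hhits : S.hits T v x0 t2 c μ ν X = ∅)
    (hf1 : ∀ p ∈ S.spec T v x0 t2 c μ ν, ∀ f ∈ T.Fs S.k, ¬ (p : ℤ) ∣ S.fI T c μ ν X f)
    (hf3 : ∀ p : ℕ, p.Prime → p ∣ S.prX id μ * S.prY id ν → ¬ p ∣ S.SI T.N c μ ν) : ∃ e t, S.Good T c μ ν X e t := by
  classical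
  have hwin := K7_win hT hS hμ hν
  have hab : ∀ i, ν.1 i < μ.1 i := fun i => (hwin i).2.2
  have hy0z := hT.y0_lt
  have hyy0 := hT.y_le
  have hp0y := hT.p0_le
  have hDy0 := hT.D_le
  have hDpos := hT.D_pos
  have h3 : (T.D : ℤ) * T.h < X := by
    have h6 : 0 < T.Y X := by omega
    unfold Dat.Y at h6
    have h7 := Int.lt_toNat.1 h6
    push_cast at h7
    linarith
  -- `D ∣ SI`
  have hDSI : T.D ∣ S.SI T.N c μ ν := by
    exact L6 S T hT hLL (fun p hp hpD => K7_CopM hT hS hμ hν hp (Or.inl ((Nat.le_of_dvd hDpos hpD).trans hDy0))) hab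
  obtain ⟨Z', V, hG, -⟩ := K2 hT hS hμ hν
  obtain ⟨e, t, hCF, htI, -⟩ := TT3.tI_facts hG hc hμ hν hcop h1 h2 h4 hDSI
  obtain ⟨hcyc, hlast, hpA, hpB⟩ := hCF
  have hCF : S.CF T c μ ν X e t := ⟨hcyc, hlast, hpA, hpB⟩
  have hBY : ∀ i < S.k + 1, S.BB T.N c μ ν (T.Y X) i ∣ T.Y X := fun i hi => by
    have h := dvd_prod_of_mem (fun i => ext1 ν.1 i * S.BB T.N c μ ν (T.Y X) i) (mem_range.2 hi)
    rw [hpB] at h
    exact (dvd_mul_left _ _).trans h
  -- small primes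
  have hsm : ∀ p : ℕ, p.Prime → p < T.p0 → (∀ i ≤ S.k, ¬ (p : ℤ) ∣ S.fv μ ν t (i, false, 0)) ∧ ∀ i ≤ S.k, e i * S.AA T.N c μ ν X i ≡ T.np p [MOD p ^ T.r] ∧
      e i * S.BB T.N c μ ν (T.Y X) i ≡ T.np p [MOD p ^ T.r] := by
    intro p hp hlt
    have hpb : p ∈ T.base := by
      unfold Dat.base
      rw [mem_filter, mem_range]
      exact ⟨by omega, hp, Or.inl hlt⟩
    have h5 := hLL p hpb
    unfold cP at h5
    rw [if_pos hlt] at h5
    obtain ⟨-, n2⟩ := hT.np p hp hlt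
    have hpW : p ∣ W0 := (hT.W0_pr p hp).2 hlt
    have hE : padicValNat p T.E + 1 = padicValNat p T.D + T.r := by
      rw [hT.vEs hp hlt]
      have := hT.r_pos
      omega
    refine K3 hCF hp hDpos.ne' hT.r_pos hE (hT.yc p hp hlt) (hYc p hp hlt) (K7_CopM hT hS hμ hν hp (Or.inl (by omega))) hab ?_ n2 h5
    intro j
    have hμ1 : μ.1 j ∈ S.WX j := Fintype.mem_piFinset.1 (mem_product.1 hμ).1 j
    have hν1 : ν.1 j ∈ S.WY j := Fintype.mem_piFinset.1 (mem_product.1 hν).1 j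
    obtain ⟨-, -, -, -, a5⟩ := hS.WX_mem j _ hμ1
    obtain ⟨-, -, -, -, b5⟩ := hS.WY_mem j _ hν1
    refine ⟨Nat.ModEq.of_dvd ((pow_dvd_pow_of_dvd hpW _).trans (pow_dvd_pow W0 (by omega))) a5, ?_⟩
    have b6 := b5 p hp hpW
    have b7 : ((ν.1 j : ℕ) : ℤ) ≡ 1 - (-1) ^ (j : ℕ) * p ^ T.r [ZMOD ((p ^ T.r : ℕ) : ℤ)] := by
      refine Int.ModEq.of_dvd ?_ b6
      exact_mod_cast pow_dvd_pow p (by omega : T.r ≤ 2 * T.r)
    have b8 : (1 : ℤ) - (-1) ^ (j : ℕ) * p ^ T.r ≡ 1 [ZMOD ((p ^ T.r : ℕ) : ℤ)] := by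
      refine (Int.modEq_iff_dvd.2 ?_)
      exact ⟨(-1) ^ (j : ℕ), by push_cast; ring⟩
    have b9 : ((ν.1 j : ℕ) : ℤ) ≡ ((1 : ℕ) : ℤ) [ZMOD ((p ^ T.r : ℕ) : ℤ)] := by
      rw [Nat.cast_one]
      exact b7.trans b8
    exact Int.natCast_modEq_iff.1 b9
  -- primes of the small sieve
  have hps : ∀ p : ℕ, p.Prime → T.p0 ≤ p → p ≤ T.y0 → (∀ f ∈ T.Fs S.k, ¬ (p : ℤ) ∣ S.fv μ ν t f) ∧
      (p ≤ T.y → ∀ i ≤ S.k, ¬ p ∣ e i * S.AA T.N c μ ν X i) := by
    intro p hp hge hle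
    have hcD : cD T S.k p (aq _ μ.1) (aq _ ν.1) (S.pq T.N _ c μ ν) := by
      by_cases hpD : p ∣ T.D
      · have hpb : p ∈ T.base := by
          unfold Dat.base
          rw [mem_filter, mem_range]
          exact ⟨by omega, hp, Or.inr hpD⟩
        have h5 := hLL p hpb
        unfold cP at h5
        rw [if_neg (by omega)] at h5
        exact h5
      · unfold cD
        have h5 : padicValNat p T.E = 0 := padicValNat.eq_zero_of_not_dvd fun h6 => hpD ((hT.dvdE hp).1 h6)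
        exact K7_pow_dvd _ _ h5
    have hb : ¬ bP T S.k p (ycl T p X) (aq _ μ.1) (aq _ ν.1) (S.pq T.N _ c μ ν) := by
      intro hb
      have h5 : p ∈ S.bad T c μ ν X := by
        unfold MS.bad
        rw [mem_filter]
        refine ⟨?_, hb⟩
        unfold Dat.PS
        rw [mem_filter, mem_range]
        exact ⟨by omega, hp, hge⟩
      rw [hbad] at h5
      exact absurd h5 (notMem_empty p)
    exact K4 hCF hp hDpos.ne' (hT.vE hp hge) h3 (K7_CopM hT hS hμ hν hp (Or.inl hle)) hab hcD hb (hR p hp hle).1 (hR p hp hle).2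
  -- the indices
  have hFs : ∀ f ∈ T.Fs S.k, f.1 < S.k + 1 := fun f hf => mem_range.1 (mem_product.1 hf).1
  have hFb : ∀ i < S.k + 1, (i, false, (0 : ℤ)) ∈ T.Fs S.k := fun i hi =>
    mem_product.2 ⟨mem_range.2 hi, mem_insert_self _ _⟩
  have hFg : ∀ i < S.k + 1, ∀ b : Bool, ∀ g ∈ T.G, (i, b, T.h + g) ∈ T.Fs S.k := fun i hi b g hg =>
    mem_product.2 ⟨mem_range.2 hi, mem_insert_of_mem (mem_product.2 ⟨mem_univ _, mem_image.2 ⟨g, hg, rfl⟩⟩)⟩
  have hfI : ∀ f ∈ T.Fs S.k, S.fI T c μ ν X f = S.fv μ ν t f := by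
    intro f hf
    rw [MS.fI_eq]
    unfold MS.fv
    rw [htI f.1 (hFs f hf)]
  -- no prime `≤ z` divides a form
  have htz : ∀ p : ℕ, p.Prime → T.p0 ≤ p → p ≤ T.z → ∀ f ∈ T.Fs S.k, ¬ (p : ℤ) ∣ S.fv μ ν t f := by
    intro p hp hge hpz f hf
    rcases Nat.lt_or_ge T.y0 p with hgt | hle
    · by_cases hsp : p ∈ S.spec T v x0 t2 c μ ν
      · rw [← hfI f hf]
        exact hf1 p hsp f hf
      · have hPL : p ∈ T.PL := by
          unfold Dat.PL
          rw [mem_filter, mem_range]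
          exact ⟨by omega, hp, hgt⟩
        have hnd : ¬ p ∣ v * S.prX id μ * S.prY id ν * S.SI T.N c μ ν := by
          intro hd
          apply hsp
          unfold MS.spec
          rw [mem_filter]
          exact ⟨hPL, Or.inl hd⟩
        have hnP : ¬ p ∣ S.prX id μ * S.prY id ν := by
          intro hd
          apply hnd
          obtain ⟨w, hw⟩ := hd
          exact ⟨v * S.SI T.N c μ ν * w, by
            calc v * S.prX id μ * S.prY id ν * S.SI T.N c μ ν =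
                v * S.SI T.N c μ ν * (S.prX id μ * S.prY id ν) := by ring
              _ = _ := by rw [hw]; ring⟩
        have hnh : ¬ S.hit T c μ ν X p := by
          intro hh
          have h5 : p ∈ S.hits T v x0 t2 c μ ν X := by
            unfold MS.hits
            rw [mem_filter, mem_sdiff]
            exact ⟨⟨hPL, hsp⟩, hh⟩
          rw [hhits] at h5
          exact absurd h5 (notMem_empty p)
        have hpD : ¬ p ∣ T.D := fun hd => by
          have := Nat.le_of_dvd hDpos hd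
          omega
        intro hd
        exact hnh ((K5 hCF hp hpD h3 (K7_CopM hT hS hμ hν hp (Or.inr hnP)) hab).2 ⟨f, hf, hd⟩)
    · exact (hps p hp hge hle).1 f hf
  have hY0 : 0 < T.Y X := by omega
  have hB0 : ∀ i < S.k + 1, 0 < S.BB T.N c μ ν (T.Y X) i := fun i hi => Nat.pos_of_dvd_of_pos (hBY i hi) hY0
  have hX0 : 0 < X := by
    rcases Nat.eq_zero_or_pos X with h | h
    · exfalso
      have h5 := T.Y_cast h3
      rw [h] at h5
      push_cast at h5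
      rw [h] at h4
      have h8 : (T.D : ℤ) * T.h = -(T.Y 0 : ℤ) := by linarith
      have h9 : T.D * T.h.natAbs = T.Y 0 := by
        have := congrArg Int.natAbs h8
        rw [Int.natAbs_mul, Int.natAbs_natCast, Int.natAbs_neg, Int.natAbs_natCast] at this
        exact this
      omega
    · exact h
  have hA0 : ∀ i < S.k + 1, 0 < S.AA T.N c μ ν X i := fun i hi => by
    have h := dvd_prod_of_mem (fun i => ext1 μ.1 i * S.AA T.N c μ ν X i) (mem_range.2 hi)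
    rw [hpA] at h
    exact Nat.pos_of_dvd_of_pos ((dvd_mul_left _ _).trans h) hX0
  -- the common part: `n = h + t q`, all prime factors of `q` are `> z`
  have hset : ∀ n j : ℕ, ∀ b : Bool, j < S.k + 1 → 0 < n → (n : ℤ) = T.h + t j * ((if b then ext1 μ.1 j else ext1 ν.1 j : ℕ) : ℤ) →
      (∀ p : ℕ, p.Prime → p ≤ T.y → ¬ p ∣ n) → (∀ p : ℕ, p.Prime → p < T.p0 → n ≡ T.np p [MOD p ^ T.r]) → T.SSet n := by
    intro n j b hj hn hE hny hnc
    obtain ⟨q, hq⟩ : ∃ q : ℕ, q = (if b then ext1 μ.1 j else ext1 ν.1 j) := ⟨_, rfl⟩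
    rw [← hq] at hE
    have hqz : T.z < q ∧ ∀ r : ℕ, r.Prime → r ∣ q → T.z < r := by
      rw [hq]
      cases b with
      | true =>
        simp only [if_true]
        rw [K7_ext μ.1 hj]
        have ha := (hwin ⟨j, hj⟩).1
        exact ⟨ha.2, fun r hr hd => by rw [(Nat.prime_dvd_prime_iff_eq hr ha.1).1 hd]; exact ha.2⟩
      | false =>
        simp only [Bool.false_eq_true, if_false]
        rw [K7_ext ν.1 hj]
        exact (hwin ⟨j, hj⟩).2.1
    have ht0 := hcyc.t0 j hj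
    have htq : T.z < t j * q := lt_of_lt_of_le hqz.1 (Nat.le_mul_of_pos_left _ ht0)
    refine ⟨hn, hny, ⟨?_, ?_⟩, ?_, hnc⟩
    · have h5 : (n : ℤ) - T.h = ((t j * q : ℕ) : ℤ) := by push_cast; linarith
      rw [h5]
      exact_mod_cast (Nat.zero_le _).trans_lt htq
    · intro p hp hpz hd
      have h6 : (n : ℤ) - T.h = ((t j * q : ℕ) : ℤ) := by push_cast; linarith
      rw [h6] at hd
      rcases (Nat.Prime.dvd_mul hp).1 (Int.natCast_dvd_natCast.1 hd) with h7 | h7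
      · have h9 : (p : ℤ) ∣ S.fv μ ν t (j, false, 0) := by
          unfold MS.fv
          simp only [add_zero]
          exact Dvd.dvd.mul_right (Int.natCast_dvd_natCast.2 h7) _
        rcases Nat.lt_or_ge p T.p0 with hlt | hge
        · exact (hsm p hp hlt).1 j (by omega) h9
        · exact htz p hp hge hpz _ (hFb j hj) h9
      · have h8 := hqz.2 p hp h7
        omega
    · intro g hg
      have h6 : (n : ℤ) + g = ((t j * q : ℕ) : ℤ) + (T.h + g) := by push_cast; linarith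
      refine ⟨?_, ?_⟩
      · rw [h6]
        exact K7_ndvd (hT.G_ne g hg).2 (hT.G_lt g hg).2 (by omega)
      · intro p hp hge hpz hd
        refine htz p hp hge hpz _ (hFg j hj b g hg) ?_
        unfold MS.fv
        simp only
        rw [← hq]
        rw [h6] at hd
        push_cast at hd
        exact hd
  refine ⟨e, t, hcyc, hc, hlast, ?_, ?_, ?_, hpA, hpB⟩
  · refine Nat.coprime_of_dvd fun p hp hpS hpP => ?_
    exact hf3 p hp hpP hpS
  · intro i hi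
    refine hset _ i false hi (Nat.mul_pos (hcyc.e0 i hi) (hA0 i hi)) ?_ ?_ fun p hp hlt => ((hsm p hp hlt).2 i (by omega)).1
    · rw [Nat.cast_mul]
      exact hcyc.E i hi
    intro p hp hpy
    rcases Nat.lt_or_ge p T.p0 with hlt | hge
    · intro hd
      exact (hT.np p hp hlt).1 ((Nat.ModEq.dvd_iff ((hsm p hp hlt).2 i (by omega)).1 (dvd_pow_self p (by have := hT.r_pos; omega))).1 hd)
    · exact (hps p hp hge (by omega)).2 hpy i (by omega)
  · intro i hi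
    have hj : (i + 1) % (S.k + 1) < S.k + 1 := Nat.mod_lt _ (Nat.succ_pos _)
    refine hset _ _ true hj (Nat.mul_pos (hcyc.e0 i hi) (hB0 i hi)) ?_ ?_ fun p hp hlt => ((hsm p hp hlt).2 i (by omega)).2
    · rw [Nat.cast_mul]
      exact hcyc.F i hi
    intro p hp hpy
    rcases Nat.lt_or_ge p T.p0 with hlt | hge
    · intro hd
      exact (hT.np p hp hlt).1 ((Nat.ModEq.dvd_iff ((hsm p hp hlt).2 i (by omega)).2 (dvd_pow_self p (by have := hT.r_pos; omega))).1 hd)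
    · have h5 := (hps p hp hge (by omega)).2 hpy i (by omega)
      intro hd
      rcases (Nat.Prime.dvd_mul hp).1 hd with h6 | h6
      · exact h5 (Dvd.dvd.mul_right h6 _)
      · exact (hR p hp (by omega)).1 (h6.trans (hBY i hi))

end Pool.Agent.Lib.TT3
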