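import Pool.Agent.Lib.MP_092512_nt.TT.C.POK
import Pool.Agent.Lib.MP_092512_nt.TT.P.K7

/-!
# K8: no bad, hit and forbidden primes: a good cycle for the same colouring

`fm` is a sum of two cardinalities (`LL`), so `fm < 1` gives that both are `0`. `K7`.
-/

set_option autoImplicit false

open Finset

namespace Pool.Agent.Lib.TT3

open Pool.Agent.Lib.TTC

theorem K8_one {S : MS} (M : Msr S) {T : Dat} {W0 : ℕ} {Z : Fin (S.k + 1) → ℕ} (hT : T.OK W0) (hS : S.OK3 T W0 Z) {c : S.Col} (hc : c ∈ S.CC)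
    {μ : S.TX} {ν : S.TY} (hμ : μ ∈ S.MX) (hν : ν ∈ S.MY) (hcop : (S.prX id μ).Coprime (S.prY id ν)) {X : ℕ}
    (h1 : S.prX id μ ∣ X) (h2 : S.prY id ν ∣ T.Y X) (h4 : 4 * (T.D * T.h.natAbs) < T.Y X)
    (hYc : ∀ p : ℕ, p.Prime → p < T.p0 → T.Y X ≡ T.yc [MOD p ^ T.r])
    (hR : ∀ p : ℕ, p.Prime → p ≤ T.y0 → ¬ p ∣ T.Y X ∧ (¬ p ∣ X ∨ p = T.l))
    (hLL : S.LL T c μ ν (X : ℤ)) (hbad : S.bad T c μ ν (X : ℤ) = ∅) (hhits : S.hits T M.v M.x0 M.t2 c μ ν (X : ℤ) = ∅)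
    (hf : M.fm T c μ ν X < 1) : ∃ e t, S.Good T c μ ν X e t := by
  classical
  unfold Msr.fm at hf
  rw [if_pos hLL] at hf
  set c1 := ((S.spec T M.v M.x0 M.t2 c μ ν).filter fun p : ℕ => ∃ f ∈ T.Fs S.k, (p : ℤ) ∣ S.fI T c μ ν X f).card with hc1
  set c3 := ((S.prX id μ * S.prY id ν).primeFactors.filter fun p => p ∣ S.SI T.N c μ ν).card with hc3
  have hn : c1 + c3 < 1 := by exact_mod_cast hf
  have z1 : c1 = 0 := by omega
  have z3 : c3 = 0 := by omega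
  rw [hc1, card_eq_zero, filter_eq_empty_iff] at z1
  rw [hc3, card_eq_zero, filter_eq_empty_iff] at z3
  have hp0 : S.prX id μ * S.prY id ν ≠ 0 := by
    have hμ1 := (mem_product.1 hμ)
    have hμ2 := (mem_product.1 hμ1.2)
    have hY0 : T.Y X ≠ 0 := by omega
    refine mul_ne_zero ?_ ?_
    · unfold MS.prX
      simp only [id]
      refine mul_ne_zero (mul_ne_zero ?_ ?_) ?_
      · exact prod_ne_zero_iff.2 fun i _ => (hS.WX_mem i _ (Fintype.mem_piFinset.1 hμ1.1 i)).1.ne_zero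
      · exact prod_ne_zero_iff.2 fun i _ => (hS.FX_mem i _ (Fintype.mem_piFinset.1 hμ2.1 i)).1.ne_zero
      · exact prod_ne_zero_iff.2 fun i _ => (hS.OX_mem i _ (Fintype.mem_piFinset.1 hμ2.2 i)).1.ne_zero
    · intro h; rw [h, zero_dvd_iff] at h2; exact hY0 h2
  refine K7 hT hS hc hμ hν hcop (v := M.v) (x0 := M.x0) (t2 := M.t2) h1 h2 h4 hYc hR hLL hbad hhits ?_ ?_
  · intro p hp f hf2 hd
    exact z1 hp ⟨f, hf2, hd⟩
  · intro p hp hpd hd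
    exact z3 (Nat.mem_primeFactors.2 ⟨hp, hpd, hp0⟩) hd

end Pool.Agent.Lib.TT3
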