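import Pool.Agent.Lib.MP_092512_nt.TT.P.D3
import Pool.Agent.Lib.MP_092512_nt.TT.C.Q14
import Pool.Agent.Lib.MP_092512_nt.TT.C.LocK

/-!
# Q14: the local proportions (3.2), (3.3)

`lav` is the number of `P : Fin k → HP T.E p` with `cb` divided by `(p^v (p-1))^k`, `v = padicValNat p T.E` (`av_eq`, `ZMod.card_units_eq_totient`, `Nat.totient_prime_pow_succ`).
* `Q14_cls`: `α_j ≡ 1` modulo `W0^(2r)` (so modulo `p^(2r)`), `β_j ≡ 1 - (-1)^j p^r` modulo `p^(2r)`; `toU q n = n` as `n` is a prime `> y0`, coprime to `q`.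
* `Q14_small`: see `C/Q14.lean`.
* `Q14_D`: `p ≥ p0`, `p ∣ D` (so `p ∈ base`, `v ≥ 1`), `Good3`: `U06` (from three good indices two are `≥ 1`).
* `Q14_bad`: `p ∈ PS`: `cb .. False` is `cD` (trivial for `v = 0`), `cb .. True` implies `cD` and `Bad` of `U07` (`a = v`, `u = D / p^v`): `U07`.
* `Q14_one`: for `p ∉ base` the condition `cb .. False` is void.
* `Q14_Bk`: `p = l` and not `evp`: the coefficients `Bk f` are units modulo `p^(v+1)` (`h/β`, `- g/β`, `(h α - w β)/(α β)`).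
* `Q14_good`: not `badpair`: for `p ∈ PS` at least three `j ≤ k` with `p ∤ α_j - β_j`; then `1/β_j - 1/α_j` is a unit.
-/

set_option autoImplicit false

open Finset

namespace Pool.Agent.Lib.TT3

open Pool.Agent.Lib.TTC

variable {S : MS} {T : Dat} {W0 : ℕ} {Z : Fin (S.k + 1) → ℕ} {μ : S.TX} {ν : S.TY}

/-! ### auxiliary lemmas -/

private theorem Q14_toU {p l : ℕ} (h : l.Coprime p) (n : ℕ) :
    ((toU (p ^ n) l : (ZMod (p ^ n))ˣ) : ZMod (p ^ n)) = (l : ZMod (p ^ n)) := by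
  have h1 : l.Coprime (p ^ n) := h.pow_right n
  unfold toU
  rw [dif_pos h1, ZMod.coe_unitOfCoprime]

private theorem Q14_aq {p n : ℕ} (v : ℕ) (α : Fin n → ℕ) (hα : ∀ i, (α i).Coprime p) {j : ℕ} (hj : j < n) :
    ((aq (p ^ v) α j : (ZMod (p ^ v))ˣ) : ZMod (p ^ v)) = (α ⟨j, hj⟩ : ZMod (p ^ v)) := by
  unfold aq rs
  rw [Loc.ex_lt _ hj]
  exact Q14_toU (hα _) v

private theorem Q14_wX (hT : T.OK W0) (hS : S.OK3 T W0 Z) (hμ : μ ∈ S.MX) (i : Fin (S.k + 1)) :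
    μ.1 i ∈ S.WX i ∧ ∀ p : ℕ, p.Prime → p ≤ T.y0 → (μ.1 i).Coprime p := by
  unfold MS.MX at hμ
  rw [mem_product, Fintype.mem_piFinset] at hμ
  obtain ⟨h1, -, h2, -⟩ := hS.WX_mem i _ (hμ.1 i)
  have h3 := hS.Z_lo i
  have h4 := hT.y0_lt
  have h5 : T.y0 < μ.1 i := by nlinarith
  exact ⟨hμ.1 i, fun p hp hpy => (Nat.coprime_primes h1 hp).2 (by omega)⟩

private theorem Q14_wY (hT : T.OK W0) (hS : S.OK3 T W0 Z) (hν : ν ∈ S.MY) (i : Fin (S.k + 1)) :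
    ν.1 i ∈ S.WY i ∧ ∀ p : ℕ, p.Prime → p ≤ T.y0 → (ν.1 i).Coprime p := by
  unfold MS.MY at hν
  rw [mem_product, Fintype.mem_piFinset] at hν
  have h4 := hT.y0_lt
  refine ⟨hν.1 i, fun p hp hpy => ?_⟩
  refine Nat.Coprime.symm ((Nat.Prime.coprime_iff_not_dvd hp).2 fun h => ?_)
  have h5 := hS.WY_big i _ (hν.1 i) p hp h
  omega

private theorem Q14_cast {q : ℕ} (m a b : ℤ) (h : m ∣ a - b) : (m : ZMod q) ∣ (a : ZMod q) - (b : ZMod q) := by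
  obtain ⟨t, ht⟩ := h
  refine ⟨(t : ZMod q), ?_⟩
  have := congrArg (fun x : ℤ => (x : ZMod q)) ht
  push_cast at this
  exact this

theorem Q14_cls (hT : T.OK W0) (hS : S.OK3 T W0 Z) (hμ : μ ∈ S.MX) (hν : ν ∈ S.MY) {p : ℕ} (hp : p.Prime) (hp0 : p < T.p0) :
    (∀ j ≤ S.k, (p : RP T.E p) ^ (2 * T.r) ∣ (aq (p ^ (padicValNat p T.E + 1)) μ.1 j : RP T.E p) - 1) ∧
    ∀ j ≤ S.k, (p : RP T.E p) ^ (2 * T.r) ∣ (aq (p ^ (padicValNat p T.E + 1)) ν.1 j : RP T.E p) - (1 - (-1) ^ j * (p : RP T.E p) ^ T.r) := by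
  have hpy : p ≤ T.y0 := by
    have h1 := hT.p0_le
    have h2 := hT.y_le
    omega
  have hpW : p ∣ W0 := (hT.W0_pr p hp).2 hp0
  constructor
  · intro j hj
    rw [Q14_aq _ _ (fun i => (Q14_wX hT hS hμ i).2 p hp hpy) (show j < S.k + 1 by omega)]
    have h1 := (Q14_wX hT hS hμ ⟨j, by omega⟩).1
    obtain ⟨-, -, -, -, h2⟩ := hS.WX_mem _ _ h1
    have h3 : ((p ^ (2 * T.r) : ℕ) : ℤ) ∣ (μ.1 ⟨j, by omega⟩ : ℤ) - (1 : ℕ) := by
      have h4 : (μ.1 ⟨j, by omega⟩) ≡ 1 [MOD p ^ (2 * T.r)] := h2.of_dvd (pow_dvd_pow_of_dvd hpW _)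
      exact (Nat.modEq_iff_dvd.1 h4.symm)
    have h5 := Q14_cast (q := p ^ (padicValNat p T.E + 1)) _ _ _ h3
    push_cast at h5
    exact h5
  · intro j hj
    rw [Q14_aq _ _ (fun i => (Q14_wY hT hS hν i).2 p hp hpy) (show j < S.k + 1 by omega)]
    have h1 := (Q14_wY hT hS hν ⟨j, by omega⟩).1
    obtain ⟨-, -, -, -, h2⟩ := hS.WY_mem _ _ h1
    have h3 : ((p ^ (2 * T.r) : ℕ) : ℤ) ∣ (ν.1 ⟨j, by omega⟩ : ℤ) - (1 - (-1) ^ j * p ^ T.r) := by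
      have h4 := h2 p hp hpW
      exact (Int.modEq_iff_dvd.1 h4.symm)
    have h5 := Q14_cast (q := p ^ (padicValNat p T.E + 1)) _ _ _ h3
    push_cast at h5
    exact h5

theorem Q14_good (hT : T.OK W0) (hS : S.OK3 T W0 Z) (hμ : μ ∈ S.MX) (hν : ν ∈ S.MY) (hb : ¬ S.badpair T 0 T.y0 μ ν) {p : ℕ} (hp : p ∈ T.PS) :
    Good3 S.k (aq (p ^ (padicValNat p T.E + 1)) μ.1) (aq (p ^ (padicValNat p T.E + 1)) ν.1) := by
  have hp' := hp
  unfold Dat.PS at hp'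
  rw [mem_filter, mem_range] at hp'
  obtain ⟨hpy, hpp, hp0⟩ := hp'
  have hpy' : p ≤ T.y0 := by omega
  have hcard : 3 ≤ (univ.filter fun i : Fin (S.k + 1) => ¬ (μ.1 i ≡ ν.1 i [MOD p])).card := by
    by_contra h
    exact hb ⟨p, hp, hpp.pos, hpy', by omega⟩
  have hun : ∀ j : Fin (S.k + 1), ¬ (μ.1 j ≡ ν.1 j [MOD p]) →
      IsUnit (Loc.et (aq (p ^ (padicValNat p T.E + 1)) μ.1) (aq (p ^ (padicValNat p T.E + 1)) ν.1) j) := by
    intro j hj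
    have hα := Q14_aq (padicValNat p T.E + 1) μ.1 (fun i => (Q14_wX hT hS hμ i).2 p hpp hpy') j.isLt
    have hβ := Q14_aq (padicValNat p T.E + 1) ν.1 (fun i => (Q14_wY hT hS hν i).2 p hpp hpy') j.isLt
    set a := aq (p ^ (padicValNat p T.E + 1)) μ.1 j with ha
    set b := aq (p ^ (padicValNat p T.E + 1)) ν.1 j with hb
    have h1 : Loc.et (aq (p ^ (padicValNat p T.E + 1)) μ.1) (aq (p ^ (padicValNat p T.E + 1)) ν.1) j =
        ((a : ZMod (p ^ (padicValNat p T.E + 1))) - b) * ((a⁻¹ * b⁻¹ : (ZMod (p ^ (padicValNat p T.E + 1)))ˣ) :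
          ZMod (p ^ (padicValNat p T.E + 1))) := by
      unfold Loc.et
      rw [← ha, ← hb, Units.val_mul]
      have e1 : (a : ZMod (p ^ (padicValNat p T.E + 1))) * ((a⁻¹ : (ZMod (p ^ (padicValNat p T.E + 1)))ˣ) :
          ZMod (p ^ (padicValNat p T.E + 1))) = 1 := Units.mul_inv a
      have e2 : (b : ZMod (p ^ (padicValNat p T.E + 1))) * ((b⁻¹ : (ZMod (p ^ (padicValNat p T.E + 1)))ˣ) :
          ZMod (p ^ (padicValNat p T.E + 1))) = 1 := Units.mul_inv b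
      linear_combination (-((b⁻¹ : (ZMod (p ^ (padicValNat p T.E + 1)))ˣ) : ZMod (p ^ (padicValNat p T.E + 1)))) * e1 +
        ((a⁻¹ : (ZMod (p ^ (padicValNat p T.E + 1)))ˣ) : ZMod (p ^ (padicValNat p T.E + 1))) * e2
    rw [h1]
    refine IsUnit.mul ?_ (Units.isUnit _)
    rw [hα, hβ]
    have h2 : ((μ.1 ⟨j, j.isLt⟩ : ZMod (p ^ (padicValNat p T.E + 1))) - (ν.1 ⟨j, j.isLt⟩ : ZMod (p ^ (padicValNat p T.E + 1)))) =
        (((μ.1 j : ℤ) - (ν.1 j : ℤ) : ℤ) : ZMod (p ^ (padicValNat p T.E + 1))) := by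
      push_cast
      rfl
    rw [h2, ZMod.coe_int_isUnit_iff_isCoprime]
    push_cast
    refine IsCoprime.pow_left ?_
    rw [Int.isCoprime_iff_gcd_eq_one]
    have h3 : ¬ (p : ℤ) ∣ (μ.1 j : ℤ) - (ν.1 j : ℤ) := fun h => hj ((Nat.modEq_iff_dvd.2 h).symm)
    have h4 := (Int.gcd_dvd_left (a := (p : ℤ)) (b := (μ.1 j : ℤ) - (ν.1 j : ℤ)))
    have h5 := (Int.gcd_dvd_right (a := (p : ℤ)) (b := (μ.1 j : ℤ) - (ν.1 j : ℤ)))
    rcases (Nat.dvd_prime hpp).1 (Int.natCast_dvd_natCast.1 h4) with h6 | h6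
    · exact h6
    · rw [h6] at h5
      exact absurd h5 h3
  set s := univ.filter fun i : Fin (S.k + 1) => ¬ (μ.1 i ≡ ν.1 i [MOD p]) with hs
  have hm : ∀ i : Fin s.card, ¬ (μ.1 (s.orderEmbOfFin rfl i) ≡ ν.1 (s.orderEmbOfFin rfl i) [MOD p]) := by
    intro i
    have h1 : s.orderEmbOfFin rfl i ∈ univ.filter fun i : Fin (S.k + 1) => ¬ (μ.1 i ≡ ν.1 i [MOD p]) :=
      s.orderEmbOfFin_mem rfl i
    exact (mem_filter.1 h1).2
  refine ⟨(s.orderEmbOfFin rfl ⟨0, by omega⟩ : Fin (S.k + 1)), (s.orderEmbOfFin rfl ⟨1, by omega⟩ : Fin (S.k + 1)),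
    (s.orderEmbOfFin rfl ⟨2, by omega⟩ : Fin (S.k + 1)), ?_, ?_, by omega, hun _ (hm _), hun _ (hm _), hun _ (hm _)⟩
  · exact (s.orderEmbOfFin rfl).strictMono (by simp [Fin.lt_def])
  · exact (s.orderEmbOfFin rfl).strictMono (by simp [Fin.lt_def])

private theorem Q14_unit {p : ℕ} (hp : p.Prime) (v : ℕ) {n : ℤ} (hn : ¬ (p : ℤ) ∣ n) : IsUnit ((n : ℤ) : ZMod (p ^ v)) := by
  rw [ZMod.coe_int_isUnit_iff_isCoprime]
  push_cast
  refine IsCoprime.pow_left ?_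
  rw [Int.isCoprime_iff_gcd_eq_one]
  have h4 := (Int.gcd_dvd_left (a := (p : ℤ)) (b := n))
  have h5 := (Int.gcd_dvd_right (a := (p : ℤ)) (b := n))
  rcases (Nat.dvd_prime hp).1 (Int.natCast_dvd_natCast.1 h4) with h6 | h6
  · exact h6
  · rw [h6] at h5
    exact absurd h5 hn

private theorem Q14_nd {p p0 : ℕ} (hp : p0 ≤ p) {n : ℤ} (hn : n ≠ 0) (hl : n.natAbs < p0) : ¬ (p : ℤ) ∣ n := by
  intro h
  have h1 := Int.natCast_dvd.1 h
  have h2 := Nat.le_of_dvd (Int.natAbs_pos.2 hn) h1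
  omega

/-- `p = l`, not `evp`: the coefficients `Bk f` are units -/
theorem Q14_Bk (hT : T.OK W0) (hS : S.OK3 T W0 Z) (hμ : μ ∈ S.MX) (hν : ν ∈ S.MY) (he : ¬ S.evp T μ ν) {p : ℕ} (hp : p ∈ T.PS)
    (hpl : p = T.l) : ∀ f ∈ T.Fs S.k,
      IsUnit (Loc.Bk (aq (p ^ (padicValNat p T.E + 1)) μ.1) (aq (p ^ (padicValNat p T.E + 1)) ν.1) (T.h : RP T.E p) f) := by
  intro f hf
  have hp' := hp
  unfold Dat.PS at hp'
  rw [mem_filter, mem_range] at hp'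
  obtain ⟨hpy, hpp, hp0⟩ := hp'
  have hpy' : p ≤ T.y0 := by omega
  have hl1 : T.l ≠ 1 := by
    rw [← hpl]
    exact hpp.one_lt.ne'
  have hfk : f.1 < S.k + 1 := by
    have := Fs_le hf
    omega
  have hα := Q14_aq (padicValNat p T.E + 1) μ.1 (fun i => (Q14_wX hT hS hμ i).2 p hpp hpy') hfk
  have hβ := Q14_aq (padicValNat p T.E + 1) ν.1 (fun i => (Q14_wY hT hS hν i).2 p hpp hpy') hfk
  unfold Loc.Bk
  set a := aq (p ^ (padicValNat p T.E + 1)) μ.1 f.1 with ha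
  set b := aq (p ^ (padicValNat p T.E + 1)) ν.1 f.1 with hb
  have e1 : (a : ZMod (p ^ (padicValNat p T.E + 1))) * ((a⁻¹ : (ZMod (p ^ (padicValNat p T.E + 1)))ˣ) :
      ZMod (p ^ (padicValNat p T.E + 1))) = 1 := Units.mul_inv a
  have e2 : (b : ZMod (p ^ (padicValNat p T.E + 1))) * ((b⁻¹ : (ZMod (p ^ (padicValNat p T.E + 1)))ˣ) :
      ZMod (p ^ (padicValNat p T.E + 1))) = 1 := Units.mul_inv b
  rcases Js_cases hf with ⟨h1, h2⟩ | ⟨g, hg, h2⟩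
  · rw [h2, Int.cast_zero, zero_mul, sub_zero]
    exact (Q14_unit hpp _ (Q14_nd hp0 hT.h_ne hT.h_lt)).mul (Units.isUnit _)
  · rw [h2]
    rcases Bool.eq_false_or_eq_true f.2.1 with h3 | h3
    · rw [h3, if_pos rfl]
      have h4 : (T.h : RP T.E p) * ((b⁻¹ : (ZMod (p ^ (padicValNat p T.E + 1)))ˣ) : RP T.E p) -
          ((T.h + g : ℤ) : RP T.E p) * ((a⁻¹ : (ZMod (p ^ (padicValNat p T.E + 1)))ˣ) : RP T.E p) =
          (((T.h * μ.1 ⟨f.1, hfk⟩ - (T.h + g) * ν.1 ⟨f.1, hfk⟩ : ℤ)) : ZMod (p ^ (padicValNat p T.E + 1))) *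
            ((a⁻¹ * b⁻¹ : (ZMod (p ^ (padicValNat p T.E + 1)))ˣ) : ZMod (p ^ (padicValNat p T.E + 1))) := by
        push_cast
        rw [← hα, ← hβ]
        linear_combination (-(T.h : RP T.E p) * ((b⁻¹ : (ZMod (p ^ (padicValNat p T.E + 1)))ˣ) : ZMod (p ^ (padicValNat p T.E + 1)))) * e1 +
          (((T.h : RP T.E p) + (g : RP T.E p)) * ((a⁻¹ : (ZMod (p ^ (padicValNat p T.E + 1)))ˣ) : ZMod (p ^ (padicValNat p T.E + 1)))) * e2
      rw [h4]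
      refine (Q14_unit hpp _ fun h5 => he ⟨hl1, ⟨f.1, hfk⟩, g, hg, Or.inr ?_⟩).mul (Units.isUnit _)
      rw [← hpl]
      exact h5
    · rw [h3, if_neg Bool.false_ne_true]
      have h4 : (T.h : RP T.E p) * ((b⁻¹ : (ZMod (p ^ (padicValNat p T.E + 1)))ˣ) : RP T.E p) -
          ((T.h + g : ℤ) : RP T.E p) * ((b⁻¹ : (ZMod (p ^ (padicValNat p T.E + 1)))ˣ) : RP T.E p) =
          ((-g : ℤ) : ZMod (p ^ (padicValNat p T.E + 1))) *
            ((b⁻¹ : (ZMod (p ^ (padicValNat p T.E + 1)))ˣ) : ZMod (p ^ (padicValNat p T.E + 1))) := by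
        push_cast
        ring
      rw [h4]
      refine (Q14_unit hpp _ (Q14_nd hp0 (neg_ne_zero.2 (hT.G_ne g hg).1) ?_)).mul (Units.isUnit _)
      rw [Int.natAbs_neg]
      exact (hT.G_lt g hg).1

end Pool.Agent.Lib.TT3
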