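import Pool.Agent.Lib.MP_092512_nt.TT.P.D3
import Pool.Agent.Lib.MP_092512_nt.TT.C.Q18
import Pool.Agent.Lib.MP_092512_nt.TT.P.Q14

/-!
# Q18: sums over the sets of bad primes for fixed tuples (8.2)

`nb`: the pair `(μ, ν)` is not bad, so `Good3` at all `p ∈ PS` (`Q14_good`), classes at `p < p0` (`Q14_cls`); `hX`: `X` is coprime to `W0`; for `p < p0`: `p ∣ D`, so `Y ≡ X` and `p ∤ ycl T p X`.
* `Q18_l2_le`: `l2 B B' ≤ l2 False False` (the condition `cb .. B` implies `cb .. False`), `l2 ≤ 1`, `l2 B B' ≤ lav B` and `≤ lav B'` (drop one colouring; `Q12_l1`; `c, c' ∈ CC`).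
* `Q18_a`: `Q13_two` with `P = PS`, `b = base`, `f p B B' = l2 B B' p`, `A p = 1 + 24 F/p` (each of `l2 True False`, `l2 False True`, `l2 True True` is at most `lav True ≤ 8 F/p lav False`, `lav False = 1` for `p ∉ base`
  (`Q14_bad`, `Q14_one`)), `Bd p = l2 False False p`.
* `Q18_base`: `∏_{p ∈ base} lav False ≤ 2^|base| W0^r/D`: `p < p0`: `1/((p-1)^k p^((r-1)k + v-r)) ≤ p^r/p^v`, `v = v_p(D)`; `p ≥ p0`, `p ∣ D`: `≤ 2/p^v`; `∏_{p ∈ base} p^v = D` (all primes of `D` are `≤ y0` because `D ≤ y0`), `∏_{p < p0} p = W0`.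
* `Q18_base_lo`: `∏_{p ∈ base} lav False ≥ 1/(2^|base| W0^(rk) D)`.
* `Q18_Pb`: `Q13_one` with `f p B = lav B`: `∑_{d ⊆ PS} Pb d ≤ ∏_{PS} (1 + 8 F/p) 2^|base| (2^|base| W0^r/D)`.
-/

set_option autoImplicit false

open Finset

namespace Pool.Agent.Lib.TT3

open Pool.Agent.Lib.TTC

variable {S : MS} {T : Dat} {W0 : ℕ} {Z : Fin (S.k + 1) → ℕ} {μ : S.TX} {ν : S.TY} {c c' : S.Col} {X : ℤ}

private theorem Q18_lav0 (T : Dat) (k p yn : ℕ) (B : Prop) (al be : ℕ → HP T.E p) : 0 ≤ lav T k p yn B al be := by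
  unfold lav
  exact av_nonneg fun P => ind_nonneg _

private theorem Q18_p0 (hS : S.OK3 T W0 Z) : 5 ≤ T.p0 := by
  have h1 := hS.p0_lo
  have h3 : 1 ≤ T.F S.k := by
    unfold Dat.F Dat.Js
    exact Nat.mul_pos (by omega) (card_pos.2 (insert_nonempty _ _))
  have h2 : 1 ≤ (T.F S.k) ^ 2 := Nat.one_le_pow _ _ h3
  omega

private theorem Q18_prodD (hT : T.OK W0) : ∏ p ∈ T.base, (p : ℝ) ^ padicValNat p T.D = T.D := by
  have hD := hT.D_pos.ne'
  have h1 : ∏ p ∈ T.D.primeFactors, p ^ padicValNat p T.D = T.D := by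
    have h2 := Nat.prod_factorization_pow_eq_self hD
    rw [Finsupp.prod, Nat.support_factorization] at h2
    conv_rhs => rw [← h2]
    refine prod_congr rfl fun p hp => ?_
    rw [Nat.factorization_def _ (Nat.prime_of_mem_primeFactors hp)]
  have h3 : T.D.primeFactors ⊆ T.base := by
    intro p hp
    have hpp := Nat.prime_of_mem_primeFactors hp
    have hpd := Nat.dvd_of_mem_primeFactors hp
    unfold Dat.base
    rw [mem_filter, mem_range]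
    have h4 := Nat.le_of_dvd hT.D_pos hpd
    have h5 := hT.D_le
    exact ⟨by omega, hpp, Or.inr hpd⟩
  have h6 : ∏ p ∈ T.base, p ^ padicValNat p T.D = T.D := by
    rw [← prod_subset h3, h1]
    intro p hp hp'
    unfold Dat.base at hp
    rw [mem_filter] at hp
    have h7 : ¬ p ∣ T.D := fun h => hp' (Nat.mem_primeFactors.2 ⟨hp.2.1, h, hD⟩)
    rw [padicValNat.eq_zero_of_not_dvd h7, pow_zero]
  have h7 := congrArg (fun n : ℕ => (n : ℝ)) h6
  simp only [Nat.cast_prod, Nat.cast_pow] at h7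
  exact h7

private theorem Q18_prodW (hT : T.OK W0) : ∏ p ∈ T.base, (if p < T.p0 then (p : ℝ) ^ T.r else 1) = (W0 : ℝ) ^ T.r := by
  have h1 := Nat.prod_primeFactors_of_squarefree hT.W0_sq
  have hW : W0 ≠ 0 := hT.W0_sq.ne_zero
  have h2 : T.base.filter (fun p => p < T.p0) = W0.primeFactors := by
    ext p
    unfold Dat.base
    rw [mem_filter, mem_filter, mem_range, Nat.mem_primeFactors]
    have h3 := hT.p0_le
    have h4 := hT.y_le
    constructor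
    · rintro ⟨⟨-, hp, -⟩, hp0⟩
      exact ⟨hp, (hT.W0_pr p hp).2 hp0, hW⟩
    · rintro ⟨hp, hpW, -⟩
      have h5 := (hT.W0_pr p hp).1 hpW
      exact ⟨⟨by omega, hp, Or.inl h5⟩, h5⟩
  rw [← prod_filter, h2, prod_pow]
  have h7 := congrArg (fun n : ℕ => (n : ℝ)) h1
  simp only [Nat.cast_prod] at h7
  rw [h7]

private theorem Q18_loc (hT : T.OK W0) (hS : S.OK3 T W0 Z) (hμ : μ ∈ S.MX) (hν : ν ∈ S.MY) (hb : ¬ S.badpair T 0 T.y0 μ ν)
    {p : ℕ} (hp : p ∈ T.base) :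
    1 / (2 * (if p < T.p0 then (p : ℝ) ^ T.r else 1) ^ S.k * (p : ℝ) ^ padicValNat p T.D) ≤
      lav T S.k p (ycl T p X) False (aq _ μ.1) (aq _ ν.1) ∧
    lav T S.k p (ycl T p X) False (aq _ μ.1) (aq _ ν.1) ≤
      2 * (if p < T.p0 then (p : ℝ) ^ T.r else 1) / (p : ℝ) ^ padicValNat p T.D := by
  have hp' := hp
  unfold Dat.base at hp'
  rw [mem_filter, mem_range] at hp'
  obtain ⟨hpy, hpp, hpc⟩ := hp'
  have hF : Fact p.Prime := ⟨hpp⟩
  have hpr : (0 : ℝ) < p := by exact_mod_cast hpp.pos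
  have hp2 : (2 : ℝ) ≤ p := by exact_mod_cast hpp.two_le
  by_cases hp0 : p < T.p0
  · have hv := hT.vDs hpp hp0
    have hr := hT.r_pos
    obtain ⟨ha, hbb⟩ := Q14_cls hT hS hμ hν hpp hp0
    rw [Q14_small hT hS.k_odd hpp hp0 ha hbb (ycl T p X), if_pos hp0]
    obtain ⟨w, hw⟩ : ∃ w, padicValNat p T.D = w + T.r := ⟨padicValNat p T.D - T.r, by omega⟩
    rw [hw, Nat.add_sub_cancel]
    have hx1 : (1 : ℝ) ≤ ((p : ℝ) - 1) ^ S.k := one_le_pow₀ (by linarith)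
    have hx2 : ((p : ℝ) - 1) ^ S.k ≤ (p : ℝ) ^ S.k := pow_le_pow_left₀ (by linarith) (by linarith) _
    have hq : (0 : ℝ) < (p : ℝ) ^ w := pow_pos hpr _
    have hs : (1 : ℝ) ≤ (p : ℝ) ^ ((T.r - 1) * S.k) := one_le_pow₀ (by linarith)
    have hr1 : (1 : ℝ) ≤ (p : ℝ) ^ T.r := one_le_pow₀ (by linarith)
    have hR : ((p : ℝ) ^ T.r) ^ S.k = (p : ℝ) ^ S.k * (p : ℝ) ^ ((T.r - 1) * S.k) := by
      rw [← pow_mul, ← pow_add]
      congr 1
      obtain ⟨r, hr'⟩ : ∃ r, T.r = r + 1 := ⟨T.r - 1, by omega⟩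
      rw [hr', Nat.add_sub_cancel]
      ring
    have hx0 : (0 : ℝ) < ((p : ℝ) - 1) ^ S.k := by linarith
    rw [pow_add _ ((T.r - 1) * S.k) w, pow_add _ w T.r]
    have hden : (0 : ℝ) < ((p : ℝ) - 1) ^ S.k * ((p : ℝ) ^ ((T.r - 1) * S.k) * (p : ℝ) ^ w) := by positivity
    constructor
    · refine one_div_le_one_div_of_le hden ?_
      rw [hR]
      calc ((p : ℝ) - 1) ^ S.k * ((p : ℝ) ^ ((T.r - 1) * S.k) * (p : ℝ) ^ w)
          ≤ (p : ℝ) ^ S.k * ((p : ℝ) ^ ((T.r - 1) * S.k) * (p : ℝ) ^ w) := mul_le_mul_of_nonneg_right hx2 (by positivity)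
        _ = 1 * (1 * ((p : ℝ) ^ S.k * (p : ℝ) ^ ((T.r - 1) * S.k))) * ((p : ℝ) ^ w * 1) := by ring
        _ ≤ 1 * (2 * ((p : ℝ) ^ S.k * (p : ℝ) ^ ((T.r - 1) * S.k))) * ((p : ℝ) ^ w * (p : ℝ) ^ T.r) := by
            gcongr
            norm_num
        _ = _ := by ring
    · rw [div_le_div_iff₀ hden (by positivity)]
      calc 1 * ((p : ℝ) ^ w * (p : ℝ) ^ T.r) = (p : ℝ) ^ T.r * (1 * (1 * (p : ℝ) ^ w)) * 1 := by ring
        _ ≤ (p : ℝ) ^ T.r * (((p : ℝ) - 1) ^ S.k * ((p : ℝ) ^ ((T.r - 1) * S.k) * (p : ℝ) ^ w)) * 2 := by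
            gcongr
            norm_num
        _ = _ := by ring
  · have hpD : p ∣ T.D := hpc.resolve_left hp0
    have hPS : p ∈ T.PS := by
      unfold Dat.PS
      rw [mem_filter, mem_range]
      exact ⟨hpy, hpp, by omega⟩
    obtain ⟨h1, h2⟩ := Q14_D hT (Q18_p0 hS) hpp (by omega) hpD (Q14_good hT hS hμ hν hb hPS) (ycl T p X)
    rw [if_neg hp0, one_pow, mul_one, ← hT.vE hpp (not_lt.1 hp0)]
    exact ⟨h1, h2⟩

theorem Q18_base (hT : T.OK W0) (hS : S.OK3 T W0 Z) (hμ : μ ∈ S.MX) (hν : ν ∈ S.MY) (hb : ¬ S.badpair T 0 T.y0 μ ν) :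
    (∏ p ∈ T.base, lav T S.k p (ycl T p X) False (aq _ μ.1) (aq _ ν.1) ≤ 2 ^ T.base.card * (W0 : ℝ) ^ T.r / T.D) ∧
    1 / (2 ^ T.base.card * ((W0 : ℝ) ^ T.r) ^ S.k * T.D) ≤ ∏ p ∈ T.base, lav T S.k p (ycl T p X) False (aq _ μ.1) (aq _ ν.1) := by
  constructor
  · refine (prod_le_prod (fun p _ => Q18_lav0 _ _ _ _ _ _ _) fun p hp => (Q18_loc hT hS hμ hν hb hp).2).trans (le_of_eq ?_)
    rw [prod_div_distrib, prod_mul_distrib, prod_const, Q18_prodD hT, Q18_prodW hT]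
  · refine le_trans (le_of_eq ?_) (prod_le_prod (fun p _ => ?_) fun p hp => (Q18_loc hT hS hμ hν hb hp).1)
    · rw [prod_div_distrib, prod_const_one, prod_mul_distrib, prod_mul_distrib, prod_const, prod_pow, Q18_prodD hT, Q18_prodW hT]
    · refine div_nonneg zero_le_one (mul_nonneg (mul_nonneg zero_le_two (pow_nonneg ?_ _)) (pow_nonneg (Nat.cast_nonneg _) _))
      split_ifs
      · exact pow_nonneg (Nat.cast_nonneg _) _
      · exact zero_le_one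

end Pool.Agent.Lib.TT3
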