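import Pool.Agent.Lib.MP_092512_nt.TT.P.D3
import Pool.Agent.Lib.MP_092512_nt.TT.P.P01
import Pool.Agent.Lib.MP_092512_nt.TT.P.Q14
import Pool.Agent.Lib.MP_092512_nt.TT.P.Q18
import Pool.Agent.Lib.MP_092512_nt.TT.C.Q18

/-!
# P03: sums over the sets of bad primes for fixed tuples (8.2), for the pair `(X, X')`

Adapt the proofs of `TT.Q18` (copy them): `l22`, `lavP` instead of `l2`, `lav`; `lavP True ≤ 16 F/p lavP False` (`P01_bad`, with `Q14_Bk` for `p = l`), `lavP False = lav yn False` (`P01_false`), `l22 False False = l2 False False` (`P01_false2`, here with `X` = first class),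
`l22 ≤ l22 False False`, `≤ lavP` (`P01_Q`). (`TT3.Q18`, `TT3.Q14` are the versions of `Q18`, `Q14` for `MS.OK3`: `Q14_good`, `Q18_base`.)
* `P03_a`: `Q13_two` with `A p = 1 + 48 F/p`.
* `P03_Pb`: `Q13_one` with `A p = 1 + 16 F/p`, `Q18_base`.
-/

set_option autoImplicit false

open Finset

namespace Pool.Agent.Lib.TT3

open Pool.Agent.Lib.TTC

variable {S : MS} {T : Dat} {W0 : ℕ} {Z : Fin (S.k + 1) → ℕ} {μ : S.TX} {ν : S.TY} {c c' : S.Col} {X X' : ℤ}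

private theorem P03_cc {c : S.Col} (hc : c ∈ S.CC) : ∀ j : Fin S.k, ∃ e, c e = j.castSucc := by
  unfold MS.CC at hc
  exact (mem_filter.1 hc).2

private theorem P03_one_le (P : Finset ℕ) (A : ℕ → ℝ) (hA : ∀ p ∈ P, 1 ≤ A p) : 1 ≤ ∏ p ∈ P, A p := by
  have h := prod_le_prod (f := fun _ : ℕ => (1 : ℝ)) (g := A) (s := P) (fun _ _ => zero_le_one) hA
  rwa [prod_const_one] at h

private theorem P03_sub (P b : Finset ℕ) (A : ℕ → ℝ) (hA : ∀ p ∈ P, 1 ≤ A p) : ∏ p ∈ P \ b, A p ≤ ∏ p ∈ P, A p := by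
  have h0 : (P \ b) ⊆ P := sdiff_subset
  rw [← prod_sdiff h0]
  refine le_mul_of_one_le_left (prod_nonneg fun p hp => zero_le_one.trans (hA p (h0 hp))) ?_
  exact P03_one_le _ A fun p hp => hA p (sdiff_subset hp)

private theorem P03_p0 (hS : S.OK3 T W0 Z) : 5 ≤ T.p0 := by
  have h1 := hS.p0_lo
  have h3 : 1 ≤ T.F S.k := by
    unfold Dat.F Dat.Js
    exact Nat.mul_pos (by omega) (card_pos.2 (insert_nonempty _ _))
  have h2 : 1 ≤ (T.F S.k) ^ 2 := Nat.one_le_pow _ _ h3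
  omega

private theorem P03_A1 (m : ℝ) (hm : 0 ≤ m) (p : ℕ) : 1 ≤ 1 + m * ((T.F S.k : ℕ) : ℝ) / p := by
  have : 0 ≤ m * ((T.F S.k : ℕ) : ℝ) / p := div_nonneg (mul_nonneg hm (Nat.cast_nonneg _)) (Nat.cast_nonneg _)
  linarith

private theorem P03_mono {α : Type*} [Finite α] {f g : α → ℝ} (h : ∀ a, f a ≤ g a) : av f ≤ av g := by
  have h1 := av_nonneg (f := fun a => g a - f a) fun a => sub_nonneg.2 (h a)
  rw [av_sub] at h1
  linarith

private theorem P03_lavF (T : Dat) (k p yn yn' : ℕ) (B : Prop) (al be : ℕ → HP T.E p) :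
    lavP T k p yn yn' B al be ≤ lavP T k p yn yn' False al be := by
  unfold lavP
  exact P03_mono fun P => ind_mono fun h => ⟨h.1, False.elim⟩

theorem P03_l_nonneg (B B' : Prop) (p : ℕ) : 0 ≤ S.l22 T c c' μ ν X X' B B' p := by
  unfold MS.l22
  exact P01_Q_nonneg _ _ _ _ _ _ _ _ _ _ _ _

theorem P03_l_false (p : ℕ) : S.l22 T c c' μ ν X X' False False p = S.l2 T c c' μ ν X False False p := by
  unfold MS.l22 MS.l2
  exact P01_false2 _ _ _ _ _ _ _ _ _ _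

theorem P03_l_le (hc : c ∈ S.CC) (hc' : c' ∈ S.CC) (B B' : Prop) (p : ℕ) :
    S.l22 T c c' μ ν X X' B B' p ≤ S.l22 T c c' μ ν X X' False False p ∧
    S.l22 T c c' μ ν X X' B B' p ≤ lavP T S.k p (ycl T p X) (ycl T p X') B (aq _ μ.1) (aq _ ν.1) ∧
    S.l22 T c c' μ ν X X' B B' p ≤ lavP T S.k p (ycl T p X) (ycl T p X') B' (aq _ μ.1) (aq _ ν.1) := by
  unfold MS.l22
  exact P01_Q T p (ycl T p X) (ycl T p X') B B' c c' (P03_cc hc) (P03_cc hc') (rs _ μ.1) (S.yy T.N _ c μ ν) (S.yy T.N _ c' μ ν) (aq _ ν.1)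

private theorem P03_l2_one {p : ℕ} (hp : p ∉ T.base) : S.l2 T c c' μ ν X False False p = 1 := by
  unfold MS.l2 lav2
  have h1 : (fun s : FE S.n0 → HP T.E p => ind (cb T S.k p (ycl T p X) False (Loc.ex (S.k + 1) (rs _ μ.1)) (aq _ ν.1)
      (pj c (rs _ μ.1) (S.yy T.N _ c μ ν) s)) * ind (cb T S.k p (ycl T p X) False (Loc.ex (S.k + 1) (rs _ μ.1)) (aq _ ν.1)
      (pj c' (rs _ μ.1) (S.yy T.N _ c' μ ν) s))) = fun _ => (1 : ℝ) := by
    funext s
    rw [ind_true ⟨fun h => absurd h hp, False.elim⟩, ind_true ⟨fun h => absurd h hp, False.elim⟩, one_mul]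
  rw [h1]
  exact av_const 1

theorem P03_a (hT : T.OK W0) (hS : S.OK3 T W0 Z) (hμ : μ ∈ S.MX) (hν : ν ∈ S.MY) (hb : ¬ S.badpair T 0 T.y0 μ ν) (he : ¬ S.evp T μ ν) (hc : c ∈ S.CC) (hc' : c' ∈ S.CC) :
    ∑ d ∈ T.PS.powerset, ∑ d' ∈ T.PS.powerset, ∏ p ∈ T.base ∪ d ∪ d', S.l22 T c c' μ ν X X' (p ∈ d) (p ∈ d') p ≤
      (∏ p ∈ T.PS, (1 + 48 * ((T.F S.k : ℕ) : ℝ) / p)) * (4 ^ T.base.card * ∏ p ∈ T.base, S.l2 T c c' μ ν X False False p) := by
  have h1 := Q13_two T.PS T.base (fun p B B' => S.l22 T c c' μ ν X X' B B' p) (fun p B B' => P03_l_nonneg B B' p)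
    (fun p hp => (P03_l_false p).trans (P03_l2_one hp)) (fun p => 1 + 48 * ((T.F S.k : ℕ) : ℝ) / p) (fun p => S.l2 T c c' μ ν X False False p) (by
      intro p hp hpb
      beta_reduce
      have e0 : S.l22 T c c' μ ν X X' False False p = 1 := (P03_l_false p).trans (P03_l2_one hpb)
      have e1 := (P03_l_le (T := T) (X := X) (X' := X') (μ := μ) (ν := ν) hc hc' True False p).2.1
      have e2 := (P03_l_le (T := T) (X := X) (X' := X') (μ := μ) (ν := ν) hc hc' False True p).2.2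
      have e3 := (P03_l_le (T := T) (X := X) (X' := X') (μ := μ) (ν := ν) hc hc' True True p).2.1
      have e4 := P01_bad hT (P03_p0 hS) hp (Q14_good hT hS hμ hν hb hp) (Q14_Bk hT hS hμ hν he hp) (ycl T p X) (ycl T p X')
      rw [P01_false, Q14_one hpb, mul_one] at e4
      have e5 : 48 * ((T.F S.k : ℕ) : ℝ) / p = 3 * (16 * ((T.F S.k : ℕ) : ℝ) / p) := by ring
      rw [e5, e0]
      linarith) (fun p _ B B' _ => (P03_l_le hc hc' B B' p).1.trans (le_of_eq (P03_l_false p)))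
  refine h1.trans (mul_le_mul_of_nonneg_right ?_ ?_)
  · exact P03_sub _ _ _ fun p _ => P03_A1 48 (by norm_num) p
  · exact mul_nonneg (by positivity) (prod_nonneg fun p _ => Q18_l2_nonneg _ _ p)

theorem P03_Pb (hT : T.OK W0) (hS : S.OK3 T W0 Z) (hμ : μ ∈ S.MX) (hν : ν ∈ S.MY) (hb : ¬ S.badpair T 0 T.y0 μ ν) (he : ¬ S.evp T μ ν) (hX : IsCoprime X (W0 : ℤ)) :
    ∑ d ∈ T.PS.powerset, S.Pb2 T μ ν X X' d ≤
      (∏ p ∈ T.PS, (1 + 16 * ((T.F S.k : ℕ) : ℝ) / p)) * (2 ^ T.base.card * (2 ^ T.base.card * (W0 : ℝ) ^ T.r / T.D)) := by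
  have h1 := Q13_one T.PS T.base (fun p B => lavP T S.k p (ycl T p X) (ycl T p X') B (aq _ μ.1) (aq _ ν.1)) (fun p B => (P01_nonneg _ _ _ _ _ _ _ _).1)
    (fun p hp => (P01_false _ _ _ _ _ _ _).trans (Q14_one hp _ _ _)) (fun p => 1 + 16 * ((T.F S.k : ℕ) : ℝ) / p)
    (fun p => lav T S.k p (ycl T p X) False (aq _ μ.1) (aq _ ν.1)) (by
      intro p hp hpb
      beta_reduce
      have e4 := P01_bad hT (P03_p0 hS) hp (Q14_good hT hS hμ hν hb hp) (Q14_Bk hT hS hμ hν he hp) (ycl T p X) (ycl T p X')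
      rw [P01_false, Q14_one hpb, mul_one] at e4
      rw [P01_false, Q14_one hpb]
      linarith) (fun p _ B _ => (P03_lavF _ _ _ _ _ _ _ _).trans (le_of_eq (P01_false _ _ _ _ _ _ _)))
  unfold MS.Pb2
  refine h1.trans ?_
  have hpr0 : 0 ≤ ∏ p ∈ T.base, lav T S.k p (ycl T p X) False (aq _ μ.1) (aq _ ν.1) := prod_nonneg fun p _ => by
    rw [← P01_false _ _ _ _ (ycl T p X')]
    exact (P01_nonneg _ _ _ _ _ _ _ _).1
  refine mul_le_mul (P03_sub _ _ _ fun p _ => P03_A1 16 (by norm_num) p)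
    (mul_le_mul_of_nonneg_left (Q18_base hT hS hμ hν hb).1 (by positivity)) (mul_nonneg (by positivity) hpr0) ?_
  exact prod_nonneg fun p _ => zero_le_one.trans (P03_A1 16 (by norm_num) p)

end Pool.Agent.Lib.TT3
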