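import Pool.Agent.Lib.MP_092512_nt.TT.P.D3
import Pool.Agent.Lib.MP_092512_nt.TT.P.P03
import Pool.Agent.Lib.MP_092512_nt.TT.P.P04
import Pool.Agent.Lib.MP_092512_nt.TT.P.P05
import Pool.Agent.Lib.MP_092512_nt.TT.P.Q19
import Pool.Agent.Lib.MP_092512_nt.TT.P.QAx
import Pool.Agent.Lib.MP_092512_nt.TT.C.Q21

/-!
# P08: the second moment with the mean values of the large sieve, one pair of colourings, for the pair `(X, X')`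

Adapt the proof of `TT.Q21`. Constants: `V4 = ∏_{PS} (1 + 48 m/p) 4^|base|`, `V5 = ∏_{PS} (1 + 16 m/p) 2^|base| 2^|base| W0/D`, `U6 = 2^|base| W0/D`, `MA = (3 Cα)^(k+1) 4^|base| τ(D)/D²` (`m = k + 1`), `V` an upper bound for `1/m1'`.
`TS2 c c' d d'` is the sum over good pairs of tuples (`gp2`) of `S2` of `G(X, X')`, `G x x' = ind (x coprime to W0) ind (x ≡ x' mod W0) (FF2 c d - Pb2 d)(FF2 c' d' - Pb2 d')`, `|G| ≤ 1`, periodic modulo `q = qd (d ∪ d')` in both variables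
(`P02_FF`, `P02_Pb`, `Q17_qd`, `W0 ∣ q`). `P05a` for every good pair: `|TS2 - W W' ∑_{μ,ν} ind gp2 m1 ax2 G| ≤ |MX| |MY| 4 q² N^(-δ1) W W' V`, `q ≤ W0 y0^(24 b1)`; `ax2` of a function bounded by `B` is at most `B` (`P05_ax`; interchange the sum over `μ, ν` with `ax2`: `P05_ax_sum`),
so a bound for all `x, x'` with `x` coprime to `W0`, `x ≡ x'` gives the bound.
* `P08_conn`: replace `gp2` by `Kp = adm0 ∧ adm0' ∧ ¬ badpair` (`gp2 → Kp`; the difference is `≤ ξ tot1` by `hξ`), then `P04_conn`.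
* `P08_sum`: `ind gp2 ≤ ind (¬ badpair)`, `P04_up` with `Kp = ¬ badpair` for each `d, d' ∈ DS b1`, then extend the sums to all `d, d' ⊆ PS` (all terms `≥ 0`): `P03_a`, `P03_Pb` (for pairs which are not bad), then `Q19` (`TT3.Q19`) with `ϑ = 1` (`lco ≥ 0`) if `c'` is not a
  function of `c`, and `∏_{base} l2 ≤ ∏_{base} lav ≤ U6` (`Q18_l2_le`, `Q18_base`) in general.
-/

set_option autoImplicit false

open Finset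

namespace Pool.Agent.Lib.TTC

noncomputable def V4 (S : MS) (T : Dat) : ℝ := (∏ p ∈ T.PS, (1 + 48 * ((T.F S.k : ℕ) : ℝ) / p)) * 4 ^ T.base.card

noncomputable def V5 (S : MS) (T : Dat) (W0 : ℕ) : ℝ := (∏ p ∈ T.PS, (1 + 16 * ((T.F S.k : ℕ) : ℝ) / p)) * (2 ^ T.base.card * (2 ^ T.base.card * (W0 : ℝ) ^ T.r / T.D))

/-- `X` is coprime to `W0` and `X ≡ X'` modulo `W0` -/
noncomputable def cg (W0 : ℕ) (x x' : ℤ) : ℝ := ind (IsCoprime x (W0 : ℤ) ∧ x ≡ x' [ZMOD W0])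

noncomputable def Msr.TS2 {S : MS} (M M' : Msr S) (T : Dat) (W0 : ℕ) (c c' : S.Col) (d d' : Finset ℕ) : ℝ :=
  ∑ μ ∈ S.MX, ∑ ν ∈ S.MY, ind (M.gp2 M' T μ ν) * M.S2 M' μ ν fun n n' =>
    cg W0 (M.X μ ν n) (M'.X μ ν n') * ((S.FF2 T c μ ν (M.X μ ν n) (M'.X μ ν n') d - S.Pb2 T μ ν (M.X μ ν n) (M'.X μ ν n') d) *
      (S.FF2 T c' μ ν (M.X μ ν n) (M'.X μ ν n') d' - S.Pb2 T μ ν (M.X μ ν n) (M'.X μ ν n') d'))

/-- the additive error of one pair `d, d'` -/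
noncomputable def Msr.er2 {S : MS} (M M' : Msr S) (T : Dat) (W0 b1 : ℕ) (δ1 V : ℝ) : ℝ :=
  (S.MX.card : ℝ) * S.MY.card * (4 * (W0 * (T.y0 : ℝ) ^ (24 * b1)) ^ 2 * ((T.N : ℝ) ^ (-δ1) * M.W * M'.W * V))

end Pool.Agent.Lib.TTC

namespace Pool.Agent.Lib.TT3

open Pool.Agent.Lib.TTC

variable {S : MS} {T : Dat} {W0 : ℕ} {Z : Fin (S.k + 1) → ℕ} {M M' : Msr S} {δ0 δ1 : ℝ} {p1 Q0 : ℕ} {η η' Cα ξ V : ℝ} {c c' : S.Col} {b1 : ℕ}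

/-- the summand -/
private noncomputable def P08_F (S : MS) (T : Dat) (c c' : S.Col) (d d' : Finset ℕ) (μ : S.TX) (ν : S.TY) (x x' : ℤ) : ℝ :=
  (S.FF2 T c μ ν x x' d - S.Pb2 T μ ν x x' d) * (S.FF2 T c' μ ν x x' d' - S.Pb2 T μ ν x x' d')

private noncomputable def P08_G (S : MS) (T : Dat) (W0 : ℕ) (c c' : S.Col) (d d' : Finset ℕ) (μ : S.TX) (ν : S.TY) (x x' : ℤ) : ℝ :=
  cg W0 x x' * P08_F S T c c' d d' μ ν x x'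

private theorem P08_FF01 (c : S.Col) (μ : S.TX) (ν : S.TY) (x x' : ℤ) (d : Finset ℕ) : 0 ≤ S.FF2 T c μ ν x x' d ∧ S.FF2 T c μ ν x x' d ≤ 1 := by
  unfold MS.FF2
  exact ⟨ind_nonneg _, ind_le_one _⟩

private theorem P08_lav {k p yn yn' : ℕ} {B : Prop} {al be : ℕ → HP T.E p} : 0 ≤ lavP T k p yn yn' B al be ∧ lavP T k p yn yn' B al be ≤ 1 := by
  unfold lavP
  refine ⟨av_nonneg fun _ => ind_nonneg _, ?_⟩
  refine (av_mono fun _ => ind_le_one _).trans ?_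
  rw [av_const]

private theorem P08_Pb01 (μ : S.TX) (ν : S.TY) (x x' : ℤ) (d : Finset ℕ) : 0 ≤ S.Pb2 T μ ν x x' d ∧ S.Pb2 T μ ν x x' d ≤ 1 := by
  unfold MS.Pb2
  exact ⟨prod_nonneg fun _ _ => P08_lav.1, prod_le_one (fun _ _ => P08_lav.1) fun _ _ => P08_lav.2⟩

private theorem P08_F_abs (d d' : Finset ℕ) (μ : S.TX) (ν : S.TY) (x x' : ℤ) : |P08_F S T c c' d d' μ ν x x'| ≤ 1 :=
  QAx_prod_abs (P08_FF01 c μ ν x x' d) (P08_Pb01 μ ν x x' d) (P08_FF01 c' μ ν x x' d') (P08_Pb01 μ ν x x' d')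

private theorem P08_cg01 (x x' : ℤ) : 0 ≤ cg W0 x x' ∧ cg W0 x x' ≤ 1 := by
  unfold cg
  exact ⟨ind_nonneg _, ind_le_one _⟩

private theorem P08_G_abs (d d' : Finset ℕ) (μ : S.TX) (ν : S.TY) (x x' : ℤ) : |P08_G S T W0 c c' d d' μ ν x x'| ≤ 1 := by
  unfold P08_G
  rw [abs_mul, abs_of_nonneg (P08_cg01 x x').1]
  calc cg W0 x x' * |P08_F S T c c' d d' μ ν x x'| ≤ 1 * 1 :=
        mul_le_mul (P08_cg01 x x').2 (P08_F_abs _ _ _ _ _ _) (abs_nonneg _) zero_le_one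
    _ = 1 := one_mul 1

private theorem P08_sub {d : Finset ℕ} (hd : d ∈ T.DS b1) : d ⊆ T.PS := by
  unfold Dat.DS at hd
  exact mem_powerset.1 (mem_filter.1 hd).1

private theorem P08_cg_per {d : Finset ℕ} {x y x' y' : ℤ} (hx : x ≡ y [ZMOD T.qd W0 d]) (hx' : x' ≡ y' [ZMOD T.qd W0 d]) :
    cg W0 x x' = cg W0 y y' := by
  have h1 : x ≡ y [ZMOD (W0 : ℤ)] := hx.of_dvd (Int.natCast_dvd_natCast.2 (QAx_W0_dvd d))
  have h2 : x' ≡ y' [ZMOD (W0 : ℤ)] := hx'.of_dvd (Int.natCast_dvd_natCast.2 (QAx_W0_dvd d))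
  unfold cg
  refine congrArg ind (propext (and_congr (QAx_cop hx) ⟨fun h => ?_, fun h => ?_⟩))
  · exact (h1.symm.trans h).trans h2
  · exact (h1.trans h).trans h2.symm

private theorem P08_G_per (hT : T.OK W0) {d d' : Finset ℕ} (hd : d ∈ T.DS b1) (hd' : d' ∈ T.DS b1) (μ : S.TX) (ν : S.TY) (x y x' y' : ℤ)
    (hx : x ≡ y [ZMOD T.qd W0 (d ∪ d')]) (hx' : x' ≡ y' [ZMOD T.qd W0 (d ∪ d')]) :
    P08_G S T W0 c c' d d' μ ν x x' = P08_G S T W0 c c' d d' μ ν y y' := by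
  have hu : d ∪ d' ⊆ T.PS := union_subset (P08_sub hd) (P08_sub hd')
  unfold P08_G P08_F
  rw [P08_cg_per hx hx', P02_FF hT subset_union_left hu hx hx', P02_Pb hT subset_union_left hu hx hx',
    P02_FF hT subset_union_right hu hx hx', P02_Pb hT subset_union_right hu hx hx']

private theorem P08_tot (hS : S.OK3 T W0 Z) (hM : M.OK3 T W0 δ0 δ1) : 0 ≤ M.tot1 := by
  unfold Msr.tot1
  exact sum_nonneg fun μ hμ => sum_nonneg fun ν hν => QAx_m1 hS hM hμ hν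

private theorem P08_sumle (hS : S.OK3 T W0 Z) (hM : M.OK3 T W0 δ0 δ1) {f g : S.TX → S.TY → ℝ}
    (h : ∀ μ ∈ S.MX, ∀ ν ∈ S.MY, f μ ν ≤ g μ ν) :
    ∑ μ ∈ S.MX, ∑ ν ∈ S.MY, M.m1 μ ν * f μ ν ≤ ∑ μ ∈ S.MX, ∑ ν ∈ S.MY, M.m1 μ ν * g μ ν :=
  sum_le_sum fun μ hμ => sum_le_sum fun ν hν => mul_le_mul_of_nonneg_left (h μ hμ ν hν) (QAx_m1 hS hM hμ hν)

private theorem P08_const (C : ℝ) : ∑ μ ∈ S.MX, ∑ ν ∈ S.MY, M.m1 μ ν * C = M.tot1 * C := by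
  unfold Msr.tot1
  rw [sum_mul]
  exact sum_congr rfl fun μ _ => by rw [sum_mul]

/-- interchange of the sum over the tuples and the average -/
private theorem P08_ax_sum2 (q : ℕ) (a : S.TX → S.TY → ℝ) (G : S.TX → S.TY → ℤ → ℤ → ℝ) :
    M.ax2 M' q (fun x x' => ∑ μ ∈ S.MX, ∑ ν ∈ S.MY, a μ ν * G μ ν x x') = ∑ μ ∈ S.MX, ∑ ν ∈ S.MY, a μ ν * M.ax2 M' q (G μ ν) := by
  have h1 := P05_ax_sum (M := M) (M' := M') (q := q) (S.MX ×ˢ S.MY) (fun i => a i.1 i.2) (fun i => G i.1 i.2)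
  rw [sum_product] at h1
  rw [← h1]
  congr 1
  funext x x'
  rw [sum_product]

private theorem P08_ax_abs (hM : M.OK3 T W0 δ0 δ1) (hM' : M'.OK3 T W0 δ0 δ1) {q : ℕ} (hq1 : Squarefree q)
    (hq2 : ∀ p : ℕ, p.Prime → p ∣ q → p ≤ T.y0) (G : ℤ → ℤ → ℝ) :
    |M.ax2 M' q G| ≤ M.ax2 M' q (fun x x' => |G x x'|) := by
  unfold Msr.ax2
  refine (abs_sum_le_sum_abs _ _).trans (sum_le_sum fun r _ => ?_)
  refine (abs_sum_le_sum_abs _ _).trans (sum_le_sum fun r' _ => ?_)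
  rw [abs_mul, abs_of_nonneg (mul_nonneg (Q07_nonneg hM hq1 hq2) (Q07_nonneg hM' hq1 hq2))]

/-- the first approximation -/
private theorem P08_first (hT : T.OK W0) (hS : S.OK3 T W0 Z) (hM : M.OK3 T W0 δ0 δ1) (hM' : M'.OK3 T W0 δ0 δ1) (hδ : 0 ≤ δ1)
    (hq : (W0 : ℝ) * (T.y0 : ℝ) ^ (24 * b1) ≤ (T.N : ℝ) ^ δ0) (hV : ∀ μ ∈ S.MX, ∀ ν ∈ S.MY, 1 ≤ V * M'.m1 μ ν)
    {d d' : Finset ℕ} (hd : d ∈ T.DS b1) (hd' : d' ∈ T.DS b1) :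
    |M.TS2 M' T W0 c c' d d' - M.W * M'.W * ∑ μ ∈ S.MX, ∑ ν ∈ S.MY, M.m1 μ ν * (ind (M.gp2 M' T μ ν) *
      M.ax2 M' (T.qd W0 (d ∪ d')) (P08_G S T W0 c c' d d' μ ν))| ≤ M.er2 M' T W0 b1 δ1 V := by
  obtain ⟨h1, h2, -, -⟩ := Q17_qd hT (union_subset (P08_sub hd) (P08_sub hd'))
  have h3 := QAx_DS hT hd hd'
  have hW := hM.W_pos
  have hW' := hM'.W_pos
  have hterm : ∀ μ ∈ S.MX, ∀ ν ∈ S.MY, |ind (M.gp2 M' T μ ν) * M.S2 M' μ ν (fun n n' =>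
      P08_G S T W0 c c' d d' μ ν (M.X μ ν n) (M'.X μ ν n')) - M.W * M'.W * (M.m1 μ ν * (ind (M.gp2 M' T μ ν) *
      M.ax2 M' (T.qd W0 (d ∪ d')) (P08_G S T W0 c c' d d' μ ν)))| ≤
      4 * (W0 * (T.y0 : ℝ) ^ (24 * b1)) ^ 2 * ((T.N : ℝ) ^ (-δ1) * M.W * M'.W * V) := by
    intro μ hμ ν hν
    have hV1 := hV μ hμ ν hν
    have hm := (P05_m1 hT hS hM' hμ hν).1
    have hV0 : 0 < V := by
      by_contra hcon
      have : V * M'.m1 μ ν ≤ 0 := mul_nonpos_of_nonpos_of_nonneg (not_lt.1 hcon) hm.le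
      linarith
    have hNd : 0 ≤ (T.N : ℝ) ^ (-δ1) := Real.rpow_nonneg (Nat.cast_nonneg _) _
    have hpos : 0 ≤ (T.N : ℝ) ^ (-δ1) * M.W * M'.W * V := by positivity
    by_cases hg : M.gp2 M' T μ ν
    · rw [ind_true hg, one_mul, one_mul]
      have h4 := P05a (q := T.qd W0 (d ∪ d')) hT hS hM hM' hδ hμ hν hg.1 hg.2.1 h1 h2 (h3.trans hq) (P08_G S T W0 c c' d d' μ ν)
        (P08_G_per hT hd hd' μ ν) 1 (P08_G_abs d d' μ ν) hV1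
      have e1 : M.W * M'.W * (M.m1 μ ν * M.ax2 M' (T.qd W0 (d ∪ d')) (P08_G S T W0 c c' d d' μ ν)) =
          M.W * M'.W * M.m1 μ ν * M.ax2 M' (T.qd W0 (d ∪ d')) (P08_G S T W0 c c' d d' μ ν) := by ring
      rw [e1]
      refine h4.trans ?_
      rw [mul_one]
      refine mul_le_mul_of_nonneg_right ?_ hpos
      refine mul_le_mul_of_nonneg_left ?_ (by norm_num)
      exact pow_le_pow_left₀ (Nat.cast_nonneg _) h3 2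
    · rw [ind_false hg]
      have e1 : (0 : ℝ) * M.S2 M' μ ν (fun n n' => P08_G S T W0 c c' d d' μ ν (M.X μ ν n) (M'.X μ ν n')) -
          M.W * M'.W * (M.m1 μ ν * (0 * M.ax2 M' (T.qd W0 (d ∪ d')) (P08_G S T W0 c c' d d' μ ν))) = 0 := by ring
      rw [e1, abs_zero]
      positivity
  have e2 : M.TS2 M' T W0 c c' d d' - M.W * M'.W * ∑ μ ∈ S.MX, ∑ ν ∈ S.MY, M.m1 μ ν * (ind (M.gp2 M' T μ ν) *
      M.ax2 M' (T.qd W0 (d ∪ d')) (P08_G S T W0 c c' d d' μ ν)) =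
      ∑ μ ∈ S.MX, ∑ ν ∈ S.MY, (ind (M.gp2 M' T μ ν) * M.S2 M' μ ν (fun n n' =>
        P08_G S T W0 c c' d d' μ ν (M.X μ ν n) (M'.X μ ν n')) - M.W * M'.W * (M.m1 μ ν * (ind (M.gp2 M' T μ ν) *
        M.ax2 M' (T.qd W0 (d ∪ d')) (P08_G S T W0 c c' d d' μ ν)))) := by
    unfold Msr.TS2
    rw [mul_sum, ← sum_sub_distrib]
    refine sum_congr rfl fun μ _ => ?_
    rw [mul_sum, ← sum_sub_distrib]
    rfl
  rw [e2]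
  refine (abs_sum_le_sum_abs _ _).trans ?_
  calc ∑ μ ∈ S.MX, |∑ ν ∈ S.MY, (ind (M.gp2 M' T μ ν) * M.S2 M' μ ν (fun n n' =>
        P08_G S T W0 c c' d d' μ ν (M.X μ ν n) (M'.X μ ν n')) - M.W * M'.W * (M.m1 μ ν * (ind (M.gp2 M' T μ ν) *
        M.ax2 M' (T.qd W0 (d ∪ d')) (P08_G S T W0 c c' d d' μ ν))))|
      ≤ ∑ μ ∈ S.MX, ∑ _ν ∈ S.MY, 4 * (W0 * (T.y0 : ℝ) ^ (24 * b1)) ^ 2 * ((T.N : ℝ) ^ (-δ1) * M.W * M'.W * V) :=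
        sum_le_sum fun μ hμ => (abs_sum_le_sum_abs _ _).trans (sum_le_sum fun ν hν => hterm μ hμ ν hν)
    _ = M.er2 M' T W0 b1 δ1 V := by
        unfold Msr.er2
        rw [sum_const, sum_const, nsmul_eq_mul, nsmul_eq_mul]
        ring

theorem P08_conn (hT : T.OK W0) (hS : S.OK3 T W0 Z) (hM : M.OK3 T W0 δ0 δ1) (hM' : M'.OK3 T W0 δ0 δ1) (hδ : 0 ≤ δ1)
    (hη : 0 ≤ η') (hsX : ∀ f, SWc T.N T.E M.hX η' Q0 (S.FX f))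
    (hsY : ∀ f, SWc T.N T.E M.hY η' Q0 (S.FY f)) (hQ0 : ∀ d ∈ T.DS b1, ∀ d' ∈ T.DS b1, ∏ p ∈ T.base ∪ d ∪ d', p ^ (padicValNat p T.E + 1) ≤ Q0)
    (hq : (W0 : ℝ) * (T.y0 : ℝ) ^ (24 * b1) ≤ (T.N : ℝ) ^ δ0) (hV : ∀ μ ∈ S.MX, ∀ ν ∈ S.MY, 1 ≤ V * M'.m1 μ ν)
    (hξ : ∑ μ ∈ S.MX, ∑ ν ∈ S.MY, M.m1 μ ν * ind ((M.adm0 μ ν ∧ M'.adm0 μ ν) ∧ ¬ (M.adm μ ν ∧ M'.adm μ ν)) ≤ ξ * M.tot1)
    (hc : c ∈ S.CC) (hc' : c' ∈ S.CC) (hcc : Conn S.k c c') {d d' : Finset ℕ} (hd : d ∈ T.DS b1) (hd' : d' ∈ T.DS b1) :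
    |M.TS2 M' T W0 c c' d d'| ≤ M.W * M'.W * M.tot1 * (((1 + η') ^ (2 * S.n0) - 1) + ξ) + M.er2 M' T W0 b1 δ1 V := by
  have hη1 : (1 : ℝ) ≤ (1 + η') ^ (2 * S.n0) := one_le_pow₀ (by linarith)
  have htot := P08_tot hS hM
  have hξ0 : 0 ≤ ξ * M.tot1 := by
    refine le_trans ?_ hξ
    exact sum_nonneg fun μ hμ => sum_nonneg fun ν hν => mul_nonneg (QAx_m1 hS hM hμ hν) (ind_nonneg _)
  obtain ⟨h1, h2, -, -⟩ := Q17_qd hT (union_subset (P08_sub hd) (P08_sub hd'))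
  have hWW : 0 ≤ M.W * M'.W := mul_nonneg hM.W_pos.le hM'.W_pos.le
  have hK : ∀ x x' : ℤ, |∑ μ ∈ S.MX, ∑ ν ∈ S.MY, (M.m1 μ ν * ind (M.gp2 M' T μ ν)) * P08_G S T W0 c c' d d' μ ν x x'| ≤
      M.tot1 * (((1 + η') ^ (2 * S.n0) - 1) + ξ) := by
    intro x x'
    have hB : 0 ≤ M.tot1 * (((1 + η') ^ (2 * S.n0) - 1) + ξ) := by
      have := mul_nonneg htot (sub_nonneg.2 hη1)
      nlinarith
    by_cases hx : IsCoprime x (W0 : ℤ) ∧ x ≡ x' [ZMOD W0]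
    · have e1 := P04_conn (X := x) (X' := x') hT hS hM hη hsX hsY hc hc' hcc (P08_sub hd) (P08_sub hd') (hQ0 d hd d' hd')
        (fun μ ν => (M.adm0 μ ν ∧ M'.adm0 μ ν) ∧ ¬ S.badpair T 0 T.y0 μ ν ∧ ¬ S.evp T μ ν) (fun μ μ' ν ν' h h' => by
          refine and_congr (and_congr ?_ ?_) (QAx_Kgood μ μ' ν ν' h h')
          · unfold Msr.adm0
            rw [h.1, h.2.2, h'.1, h'.2.2]
          · unfold Msr.adm0
            rw [h.1, h.2.2, h'.1, h'.2.2])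
      have e2 : ∑ μ ∈ S.MX, ∑ ν ∈ S.MY, (M.m1 μ ν * ind (M.gp2 M' T μ ν)) * P08_G S T W0 c c' d d' μ ν x x' =
          ∑ μ ∈ S.MX, ∑ ν ∈ S.MY, M.m1 μ ν * (ind ((M.adm0 μ ν ∧ M'.adm0 μ ν) ∧ ¬ S.badpair T 0 T.y0 μ ν ∧ ¬ S.evp T μ ν) *
            ((S.FF2 T c μ ν x x' d - S.Pb2 T μ ν x x' d) * (S.FF2 T c' μ ν x x' d' - S.Pb2 T μ ν x x' d'))) -
          ∑ μ ∈ S.MX, ∑ ν ∈ S.MY, M.m1 μ ν * ((ind ((M.adm0 μ ν ∧ M'.adm0 μ ν) ∧ ¬ S.badpair T 0 T.y0 μ ν ∧ ¬ S.evp T μ ν) - ind (M.gp2 M' T μ ν)) *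
            P08_F S T c c' d d' μ ν x x') := by
        rw [← sum_sub_distrib]
        refine sum_congr rfl fun μ _ => ?_
        rw [← sum_sub_distrib]
        refine sum_congr rfl fun ν _ => ?_
        unfold P08_G cg
        rw [ind_true hx]
        unfold P08_F
        ring
      have e3 : |∑ μ ∈ S.MX, ∑ ν ∈ S.MY, M.m1 μ ν * ((ind ((M.adm0 μ ν ∧ M'.adm0 μ ν) ∧ ¬ S.badpair T 0 T.y0 μ ν ∧ ¬ S.evp T μ ν) - ind (M.gp2 M' T μ ν)) *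
            P08_F S T c c' d d' μ ν x x')| ≤ ξ * M.tot1 := by
        refine le_trans ?_ hξ
        refine (abs_sum_le_sum_abs _ _).trans (sum_le_sum fun μ hμ => ?_)
        refine (abs_sum_le_sum_abs _ _).trans (sum_le_sum fun ν hν => ?_)
        rw [abs_mul, abs_of_nonneg (QAx_m1 hS hM hμ hν)]
        refine mul_le_mul_of_nonneg_left ?_ (QAx_m1 hS hM hμ hν)
        rw [abs_mul]
        have e4 : |ind ((M.adm0 μ ν ∧ M'.adm0 μ ν) ∧ ¬ S.badpair T 0 T.y0 μ ν ∧ ¬ S.evp T μ ν) - ind (M.gp2 M' T μ ν)| ≤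
            ind ((M.adm0 μ ν ∧ M'.adm0 μ ν) ∧ ¬ (M.adm μ ν ∧ M'.adm μ ν)) := by
          by_cases hbad : ¬ S.badpair T 0 T.y0 μ ν ∧ ¬ S.evp T μ ν
          swap
          · rw [ind_false (fun h => hbad h.2), ind_false (fun h : M.gp2 M' T μ ν => hbad h.2.2), sub_zero, abs_zero]
            exact ind_nonneg _
          · by_cases had : M.adm μ ν ∧ M'.adm μ ν
            · rw [ind_true ⟨⟨QAx_adm had.1, QAx_adm had.2⟩, hbad⟩, ind_true (show M.gp2 M' T μ ν from ⟨had.1, had.2, hbad⟩), sub_self, abs_zero]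
              exact ind_nonneg _
            · rw [ind_false (fun h : M.gp2 M' T μ ν => had ⟨h.1, h.2.1⟩), sub_zero, abs_of_nonneg (ind_nonneg _)]
              exact ind_mono fun h => ⟨h.1, had⟩
        calc |ind ((M.adm0 μ ν ∧ M'.adm0 μ ν) ∧ ¬ S.badpair T 0 T.y0 μ ν ∧ ¬ S.evp T μ ν) - ind (M.gp2 M' T μ ν)| * |P08_F S T c c' d d' μ ν x x'| ≤
              ind ((M.adm0 μ ν ∧ M'.adm0 μ ν) ∧ ¬ (M.adm μ ν ∧ M'.adm μ ν)) * 1 :=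
                mul_le_mul e4 (P08_F_abs _ _ _ _ _ _) (abs_nonneg _) (ind_nonneg _)
          _ = _ := mul_one _
      rw [e2]
      refine (abs_sub _ _).trans ?_
      have e5 : ∑ μ ∈ S.MX, ∑ ν ∈ S.MY, M.m1 μ ν = M.tot1 := rfl
      rw [e5] at e1
      calc _ ≤ ((1 + η') ^ (2 * S.n0) - 1) * M.tot1 + ξ * M.tot1 := add_le_add e1 e3
        _ = _ := by ring
    · have e1 : ∑ μ ∈ S.MX, ∑ ν ∈ S.MY, (M.m1 μ ν * ind (M.gp2 M' T μ ν)) * P08_G S T W0 c c' d d' μ ν x x' = 0 := by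
        refine sum_eq_zero fun μ _ => sum_eq_zero fun ν _ => ?_
        unfold P08_G cg
        rw [ind_false hx]
        ring
      rw [e1, abs_zero]
      exact hB
  have h3 := P08_first (c := c) (c' := c') hT hS hM hM' hδ hq hV hd hd'
  have h4 : |∑ μ ∈ S.MX, ∑ ν ∈ S.MY, M.m1 μ ν * (ind (M.gp2 M' T μ ν) *
      M.ax2 M' (T.qd W0 (d ∪ d')) (P08_G S T W0 c c' d d' μ ν))| ≤ M.tot1 * (((1 + η') ^ (2 * S.n0) - 1) + ξ) := by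
    have e6 := P05_ax hM hM' h1 h2 hK
    rw [P08_ax_sum2] at e6
    refine le_trans (le_of_eq ?_) e6
    congr 1
    refine sum_congr rfl fun μ _ => sum_congr rfl fun ν _ => ?_
    ring
  have h5 := abs_sub_abs_le_abs_sub (M.TS2 M' T W0 c c' d d') (M.W * M'.W * ∑ μ ∈ S.MX, ∑ ν ∈ S.MY, M.m1 μ ν * (ind (M.gp2 M' T μ ν) *
      M.ax2 M' (T.qd W0 (d ∪ d')) (P08_G S T W0 c c' d d' μ ν)))
  rw [abs_mul, abs_of_nonneg hWW] at h5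
  have h6 := mul_le_mul_of_nonneg_left h4 hWW
  rw [← mul_assoc] at h6
  linarith

/-- the sums over `d`, `d'` for one class of `X` -/
private theorem P08_mid (hT : T.OK W0) (hS : S.OK3 T W0 Z) (hM : M.OK3 T W0 δ0 δ1) (hη : 0 ≤ η') (hsX : ∀ f, SWc T.N T.E M.hX η' Q0 (S.FX f))
    (hsY : ∀ f, SWc T.N T.E M.hY η' Q0 (S.FY f)) (hQ0 : ∀ d ∈ T.DS b1, ∀ d' ∈ T.DS b1, ∏ p ∈ T.base ∪ d ∪ d', p ^ (padicValNat p T.E + 1) ≤ Q0)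
    (hc : c ∈ S.CC) (hc' : c' ∈ S.CC) {x x' : ℤ} (hx : IsCoprime x (W0 : ℤ)) :
    ∑ z ∈ T.DS b1 ×ˢ T.DS b1, ∑ μ ∈ S.MX, ∑ ν ∈ S.MY, M.m1 μ ν * ind (M.gp2 M' T μ ν) * |P08_G S T W0 c c' z.1 z.2 μ ν x x'| ≤
      (1 + η') ^ (2 * S.n0) * ∑ μ ∈ S.MX, ∑ ν ∈ S.MY, M.m1 μ ν * (ind (¬ S.badpair T 0 T.y0 μ ν ∧ ¬ S.evp T μ ν) *
        (V4 S T * (∏ p ∈ T.base, S.l2 T c c' μ ν x False False p) + 3 * V5 S T W0 ^ 2)) := by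
  have hE : 0 ≤ (1 + η') ^ (2 * S.n0) := pow_nonneg (by linarith) _
  -- one pair `d, d'`
  have h1 : ∀ z ∈ T.DS b1 ×ˢ T.DS b1, ∑ μ ∈ S.MX, ∑ ν ∈ S.MY, M.m1 μ ν * ind (M.gp2 M' T μ ν) * |P08_G S T W0 c c' z.1 z.2 μ ν x x'| ≤
      (1 + η') ^ (2 * S.n0) * ∑ μ ∈ S.MX, ∑ ν ∈ S.MY, M.m1 μ ν * (ind (¬ S.badpair T 0 T.y0 μ ν ∧ ¬ S.evp T μ ν) *
        (∏ p ∈ T.base ∪ z.1 ∪ z.2, S.l22 T c c' μ ν x x' (p ∈ z.1) (p ∈ z.2) p + 3 * (S.Pb2 T μ ν x x' z.1 * S.Pb2 T μ ν x x' z.2))) := by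
    intro z hz
    obtain ⟨hd, hd'⟩ := mem_product.1 hz
    have h2 := P04_up (X := x) (X' := x') hT hS hM hη hsX hsY hc hc' (P08_sub hd) (P08_sub hd') (hQ0 z.1 hd z.2 hd')
        (fun μ ν => ¬ S.badpair T 0 T.y0 μ ν ∧ ¬ S.evp T μ ν) (fun μ μ' ν ν' h h' => QAx_Kgood μ μ' ν ν' h h')
    refine le_trans ?_ h2
    refine sum_le_sum fun μ hμ => sum_le_sum fun ν hν => ?_
    rw [mul_assoc]
    refine mul_le_mul_of_nonneg_left ?_ (QAx_m1 hS hM hμ hν)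
    have h3 : |P08_G S T W0 c c' z.1 z.2 μ ν x x'| ≤ |(S.FF2 T c μ ν x x' z.1 - S.Pb2 T μ ν x x' z.1) * (S.FF2 T c' μ ν x x' z.2 - S.Pb2 T μ ν x x' z.2)| := by
      unfold P08_G P08_F
      rw [abs_mul, abs_of_nonneg (P08_cg01 x x').1]
      exact mul_le_of_le_one_left (abs_nonneg _) (P08_cg01 x x').2
    exact mul_le_mul (ind_mono fun h => h.2.2) h3 (abs_nonneg _) (ind_nonneg _)
  refine (sum_le_sum h1).trans ?_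
  rw [← mul_sum]
  refine mul_le_mul_of_nonneg_left ?_ hE
  rw [sum_comm]
  refine sum_le_sum fun μ hμ => ?_
  rw [sum_comm]
  refine sum_le_sum fun ν hν => ?_
  rw [← mul_sum]
  refine mul_le_mul_of_nonneg_left ?_ (QAx_m1 hS hM hμ hν)
  rw [← mul_sum]
  by_cases hbe : ¬ S.badpair T 0 T.y0 μ ν ∧ ¬ S.evp T μ ν
  swap
  · rw [ind_false hbe, zero_mul, zero_mul]
  · obtain ⟨hb, he⟩ := hbe
    rw [ind_true ⟨hb, he⟩, one_mul, one_mul, sum_add_distrib, ← mul_sum]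
    have hsub : T.DS b1 ⊆ T.PS.powerset := by
      unfold Dat.DS
      exact filter_subset _ _
    have h3 : ∑ z ∈ T.DS b1 ×ˢ T.DS b1, ∏ p ∈ T.base ∪ z.1 ∪ z.2, S.l22 T c c' μ ν x x' (p ∈ z.1) (p ∈ z.2) p ≤
        V4 S T * ∏ p ∈ T.base, S.l2 T c c' μ ν x False False p := by
      have h4 := P03_a (X := x) (X' := x') hT hS hμ hν hb he hc hc'
      rw [← sum_product'] at h4
      rw [← mul_assoc] at h4
      refine le_trans ?_ h4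
      refine sum_le_sum_of_subset_of_nonneg (product_subset_product hsub hsub) fun z _ _ => ?_
      exact prod_nonneg fun p _ => P03_l_nonneg _ _ _
    have h5 : ∑ z ∈ T.DS b1 ×ˢ T.DS b1, S.Pb2 T μ ν x x' z.1 * S.Pb2 T μ ν x x' z.2 ≤ V5 S T W0 ^ 2 := by
      have h6 : ∑ z ∈ T.DS b1 ×ˢ T.DS b1, S.Pb2 T μ ν x x' z.1 * S.Pb2 T μ ν x x' z.2 = (∑ d ∈ T.DS b1, S.Pb2 T μ ν x x' d) ^ 2 := by
        rw [sq, sum_mul_sum, sum_product]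
      rw [h6]
      refine pow_le_pow_left₀ (sum_nonneg fun d _ => (P08_Pb01 μ ν x x' d).1) ?_ 2
      refine le_trans ?_ (P03_Pb (X := x) (X' := x') hT hS hμ hν hb he hx)
      exact sum_le_sum_of_subset_of_nonneg hsub fun d _ _ => (P08_Pb01 μ ν x x' d).1
    linarith

private noncomputable def P08_KK (M M' : Msr S) (T : Dat) (W0 : ℕ) (c c' : S.Col) (z : Finset ℕ × Finset ℕ) (x x' : ℤ) : ℝ :=
  ∑ μ ∈ S.MX, ∑ ν ∈ S.MY, M.m1 μ ν * ind (M.gp2 M' T μ ν) * |P08_G S T W0 c c' z.1 z.2 μ ν x x'|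

private theorem P08_KK_per (hT : T.OK W0) {z : Finset ℕ × Finset ℕ} (hz : z ∈ T.DS b1 ×ˢ T.DS b1) (x y x' y' : ℤ)
    (h : x ≡ y [ZMOD T.qd W0 (z.1 ∪ z.2)]) (h' : x' ≡ y' [ZMOD T.qd W0 (z.1 ∪ z.2)]) : P08_KK M M' T W0 c c' z x x' = P08_KK M M' T W0 c c' z y y' := by
  obtain ⟨hd, hd'⟩ := mem_product.1 hz
  unfold P08_KK
  refine sum_congr rfl fun μ _ => sum_congr rfl fun ν _ => ?_
  rw [P08_G_per hT hd hd' μ ν x y x' y' h h']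

private theorem P08_KK_zero {x x' : ℤ} (hx : ¬ IsCoprime x (W0 : ℤ)) (z : Finset ℕ × Finset ℕ) : P08_KK M M' T W0 c c' z x x' = 0 := by
  unfold P08_KK
  refine sum_eq_zero fun μ _ => sum_eq_zero fun ν _ => ?_
  unfold P08_G cg
  rw [ind_false (fun h : IsCoprime x (W0 : ℤ) ∧ x ≡ x' [ZMOD W0] => hx h.1), zero_mul, abs_zero, mul_zero]

private theorem P08_KK_sum (hT : T.OK W0) (hM : M.OK3 T W0 δ0 δ1) (hM' : M'.OK3 T W0 δ0 δ1) {B : ℝ} (hB0 : 0 ≤ B)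
    (hB : ∀ x x' : ℤ, IsCoprime x (W0 : ℤ) → ∑ z ∈ T.DS b1 ×ˢ T.DS b1, P08_KK M M' T W0 c c' z x x' ≤ B)
    (hKn : ∀ z ∈ T.DS b1 ×ˢ T.DS b1, ∀ x x', 0 ≤ P08_KK M M' T W0 c c' z x x') :
    ∑ z ∈ T.DS b1 ×ˢ T.DS b1, M.ax2 M' (T.qd W0 (z.1 ∪ z.2)) (P08_KK M M' T W0 c c' z) ≤ B := by
  obtain ⟨hPS1, hPS2, -, -⟩ := Q17_qd hT (subset_refl T.PS)
  have h1 : ∀ z ∈ T.DS b1 ×ˢ T.DS b1, T.qd W0 (z.1 ∪ z.2) ∣ T.qd W0 T.PS := by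
    intro z hz
    obtain ⟨hd, hd'⟩ := mem_product.1 hz
    exact QAx_qd_dvd (union_subset (P08_sub hd) (P08_sub hd'))
  have h2 : ∑ z ∈ T.DS b1 ×ˢ T.DS b1, M.ax2 M' (T.qd W0 (z.1 ∪ z.2)) (P08_KK M M' T W0 c c' z) =
      ∑ z ∈ T.DS b1 ×ˢ T.DS b1, 1 * M.ax2 M' (T.qd W0 T.PS) (P08_KK M M' T W0 c c' z) := by
    refine sum_congr rfl fun z hz => ?_
    rw [one_mul]
    exact P05_ax_ext hM hM' hPS1 hPS2 (h1 z hz) _ (P08_KK_per hT hz)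
  rw [h2, ← P05_ax_sum]
  refine (le_abs_self _).trans (P05_ax hM hM' hPS1 hPS2 fun x x' => ?_)
  have h3 : ∑ z ∈ T.DS b1 ×ˢ T.DS b1, 1 * P08_KK M M' T W0 c c' z x x' = ∑ z ∈ T.DS b1 ×ˢ T.DS b1, P08_KK M M' T W0 c c' z x x' :=
    sum_congr rfl fun z _ => one_mul _
  rw [h3, abs_of_nonneg (sum_nonneg fun z hz => hKn z hz x x')]
  by_cases hx : IsCoprime x (W0 : ℤ)
  · exact hB x x' hx
  · rw [sum_eq_zero fun z _ => P08_KK_zero hx z]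
    exact hB0

private theorem P08_TS (hT : T.OK W0) (hS : S.OK3 T W0 Z) (hM : M.OK3 T W0 δ0 δ1) (hM' : M'.OK3 T W0 δ0 δ1) (hδ : 0 ≤ δ1)
    (hq : (W0 : ℝ) * (T.y0 : ℝ) ^ (24 * b1) ≤ (T.N : ℝ) ^ δ0) (hV : ∀ μ ∈ S.MX, ∀ ν ∈ S.MY, 1 ≤ V * M'.m1 μ ν)
    {z : Finset ℕ × Finset ℕ} (hz : z ∈ T.DS b1 ×ˢ T.DS b1) :
    |M.TS2 M' T W0 c c' z.1 z.2| ≤ M.W * M'.W * M.ax2 M' (T.qd W0 (z.1 ∪ z.2)) (P08_KK M M' T W0 c c' z) + M.er2 M' T W0 b1 δ1 V := by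
  obtain ⟨hd, hd'⟩ := mem_product.1 hz
  obtain ⟨h1, h2, -, -⟩ := Q17_qd hT (union_subset (P08_sub hd) (P08_sub hd'))
  have hWW : 0 ≤ M.W * M'.W := mul_nonneg hM.W_pos.le hM'.W_pos.le
  have h3 := P08_first (c := c) (c' := c') hT hS hM hM' hδ hq hV hd hd'
  have h4 : |∑ μ ∈ S.MX, ∑ ν ∈ S.MY, M.m1 μ ν * (ind (M.gp2 M' T μ ν) *
      M.ax2 M' (T.qd W0 (z.1 ∪ z.2)) (P08_G S T W0 c c' z.1 z.2 μ ν))| ≤ M.ax2 M' (T.qd W0 (z.1 ∪ z.2)) (P08_KK M M' T W0 c c' z) := by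
    have e1 : M.ax2 M' (T.qd W0 (z.1 ∪ z.2)) (P08_KK M M' T W0 c c' z) = ∑ μ ∈ S.MX, ∑ ν ∈ S.MY, M.m1 μ ν * ind (M.gp2 M' T μ ν) *
        M.ax2 M' (T.qd W0 (z.1 ∪ z.2)) (fun x x' => |P08_G S T W0 c c' z.1 z.2 μ ν x x'|) := by
      rw [← P08_ax_sum2]
      rfl
    rw [e1]
    refine (abs_sum_le_sum_abs _ _).trans (sum_le_sum fun μ hμ => ?_)
    refine (abs_sum_le_sum_abs _ _).trans (sum_le_sum fun ν hν => ?_)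
    rw [abs_mul, abs_mul, abs_of_nonneg (QAx_m1 hS hM hμ hν), abs_of_nonneg (ind_nonneg _), mul_assoc]
    refine mul_le_mul_of_nonneg_left ?_ (QAx_m1 hS hM hμ hν)
    exact mul_le_mul_of_nonneg_left (P08_ax_abs hM hM' h1 h2 _) (ind_nonneg _)
  have h5 := abs_sub_abs_le_abs_sub (M.TS2 M' T W0 c c' z.1 z.2) (M.W * M'.W * ∑ μ ∈ S.MX, ∑ ν ∈ S.MY, M.m1 μ ν * (ind (M.gp2 M' T μ ν) *
      M.ax2 M' (T.qd W0 (z.1 ∪ z.2)) (P08_G S T W0 c c' z.1 z.2 μ ν)))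
  rw [abs_mul, abs_of_nonneg hWW] at h5
  have h6 := mul_le_mul_of_nonneg_left h4 hWW
  linarith

private theorem P08_key (hT : T.OK W0) (hS : S.OK3 T W0 Z) (hM : M.OK3 T W0 δ0 δ1) (hM' : M'.OK3 T W0 δ0 δ1) (hδ : 0 ≤ δ1)
    (hη : 0 ≤ η') (hsX : ∀ f, SWc T.N T.E M.hX η' Q0 (S.FX f))
    (hsY : ∀ f, SWc T.N T.E M.hY η' Q0 (S.FY f)) (hQ0 : ∀ d ∈ T.DS b1, ∀ d' ∈ T.DS b1, ∏ p ∈ T.base ∪ d ∪ d', p ^ (padicValNat p T.E + 1) ≤ Q0)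
    (hq : (W0 : ℝ) * (T.y0 : ℝ) ^ (24 * b1) ≤ (T.N : ℝ) ^ δ0) (hV : ∀ μ ∈ S.MX, ∀ ν ∈ S.MY, 1 ≤ V * M'.m1 μ ν)
    (hc : c ∈ S.CC) (hc' : c' ∈ S.CC) (B : ℝ) (hB0 : 0 ≤ B)
    (hB : ∀ x : ℤ, IsCoprime x (W0 : ℤ) → ∑ μ ∈ S.MX, ∑ ν ∈ S.MY, M.m1 μ ν *
      (ind (¬ S.badpair T 0 T.y0 μ ν ∧ ¬ S.evp T μ ν) * (V4 S T * (∏ p ∈ T.base, S.l2 T c c' μ ν x False False p) + 3 * V5 S T W0 ^ 2)) ≤ M.tot1 * B) :
    ∑ d ∈ T.DS b1, ∑ d' ∈ T.DS b1, |M.TS2 M' T W0 c c' d d'| ≤ M.W * M'.W * M.tot1 * ((1 + η') ^ (2 * S.n0) * B) +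
        (T.DS b1).card ^ 2 * M.er2 M' T W0 b1 δ1 V := by
  have hE : 0 ≤ (1 + η') ^ (2 * S.n0) := pow_nonneg (by linarith) _
  have htot := P08_tot hS hM
  have hWW : 0 ≤ M.W * M'.W := mul_nonneg hM.W_pos.le hM'.W_pos.le
  have h1 : ∑ d ∈ T.DS b1, ∑ d' ∈ T.DS b1, |M.TS2 M' T W0 c c' d d'| = ∑ z ∈ T.DS b1 ×ˢ T.DS b1, |M.TS2 M' T W0 c c' z.1 z.2| := by
    rw [sum_product]
  have h2 : ∑ z ∈ T.DS b1 ×ˢ T.DS b1, |M.TS2 M' T W0 c c' z.1 z.2| ≤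
      ∑ z ∈ T.DS b1 ×ˢ T.DS b1, (M.W * M'.W * M.ax2 M' (T.qd W0 (z.1 ∪ z.2)) (P08_KK M M' T W0 c c' z) + M.er2 M' T W0 b1 δ1 V) :=
    sum_le_sum fun z hz => P08_TS hT hS hM hM' hδ hq hV hz
  have h3 : ∑ z ∈ T.DS b1 ×ˢ T.DS b1, (M.W * M'.W * M.ax2 M' (T.qd W0 (z.1 ∪ z.2)) (P08_KK M M' T W0 c c' z) + M.er2 M' T W0 b1 δ1 V) =
      M.W * M'.W * ∑ z ∈ T.DS b1 ×ˢ T.DS b1, M.ax2 M' (T.qd W0 (z.1 ∪ z.2)) (P08_KK M M' T W0 c c' z) +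
        ((T.DS b1).card : ℝ) ^ 2 * M.er2 M' T W0 b1 δ1 V := by
    rw [sum_add_distrib, ← mul_sum, sum_const, card_product, nsmul_eq_mul]
    push_cast
    ring
  have hKn : ∀ z ∈ T.DS b1 ×ˢ T.DS b1, ∀ x x', 0 ≤ P08_KK M M' T W0 c c' z x x' := by
    intro z _ x x'
    unfold P08_KK
    exact sum_nonneg fun μ hμ => sum_nonneg fun ν hν => mul_nonneg (mul_nonneg (QAx_m1 hS hM hμ hν) (ind_nonneg _)) (abs_nonneg _)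
  have h4 : ∑ z ∈ T.DS b1 ×ˢ T.DS b1, M.ax2 M' (T.qd W0 (z.1 ∪ z.2)) (P08_KK M M' T W0 c c' z) ≤ (1 + η') ^ (2 * S.n0) * (M.tot1 * B) := by
    refine P08_KK_sum hT hM hM' (mul_nonneg hE (mul_nonneg htot hB0)) (fun x x' hx => ?_) hKn
    exact (P08_mid hT hS hM hη hsX hsY hQ0 hc hc' hx).trans (mul_le_mul_of_nonneg_left (hB x hx) hE)
  have h5 := mul_le_mul_of_nonneg_left h4 hWW
  have h6 : M.W * M'.W * ((1 + η') ^ (2 * S.n0) * (M.tot1 * B)) = M.W * M'.W * M.tot1 * ((1 + η') ^ (2 * S.n0) * B) := by ring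
  rw [h1]
  rw [h6] at h5
  rw [h3] at h2
  linarith

theorem P08_sum (hT : T.OK W0) (hS : S.OK3 T W0 Z) (hA : S.An3 T p1 Q0 η Cα) (hM : M.OK3 T W0 δ0 δ1) (hM' : M'.OK3 T W0 δ0 δ1) (hδ : 0 ≤ δ1)
    (hη : 0 ≤ η') (hsX : ∀ f, SWc T.N T.E M.hX η' Q0 (S.FX f))
    (hsY : ∀ f, SWc T.N T.E M.hY η' Q0 (S.FY f)) (hQ0 : ∀ d ∈ T.DS b1, ∀ d' ∈ T.DS b1, (∏ p ∈ T.base ∪ d ∪ d', p ^ (padicValNat p T.E + 1)) * p1 ≤ Q0)
    (hq : (W0 : ℝ) * (T.y0 : ℝ) ^ (24 * b1) ≤ (T.N : ℝ) ^ δ0) (hV : ∀ μ ∈ S.MX, ∀ ν ∈ S.MY, 1 ≤ V * M'.m1 μ ν) (hc : c ∈ S.CC) (hc' : c' ∈ S.CC) :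
    (¬ Fun c c' → ∑ d ∈ T.DS b1, ∑ d' ∈ T.DS b1, |M.TS2 M' T W0 c c' d d'| ≤
      M.W * M'.W * M.tot1 * ((1 + η') ^ (2 * S.n0) * (V4 S T * (MA S T Cα * (1 + 8 * ((T.F S.k : ℕ) : ℝ) ^ 2 / ((p1 : ℝ) - 1))) + 3 * V5 S T W0 ^ 2)) +
        (T.DS b1).card ^ 2 * M.er2 M' T W0 b1 δ1 V) ∧
    ∑ d ∈ T.DS b1, ∑ d' ∈ T.DS b1, |M.TS2 M' T W0 c c' d d'| ≤
      M.W * M'.W * M.tot1 * ((1 + η') ^ (2 * S.n0) * (V4 S T * U6 T W0 + 3 * V5 S T W0 ^ 2)) + (T.DS b1).card ^ 2 * M.er2 M' T W0 b1 δ1 V := by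
  classical
  have hp1 : 1 ≤ p1 := hA.p1_pr.pos
  have hη1 : (1 : ℝ) ≤ (1 + η') ^ (2 * S.n0) := one_le_pow₀ (by linarith)
  have hE : 0 ≤ (1 + η') ^ (2 * S.n0) := zero_le_one.trans hη1
  have htot := P08_tot hS hM
  have hV4 : 0 ≤ V4 S T := by
    unfold V4
    positivity
  have hU6 : 0 ≤ U6 T W0 := by
    unfold U6
    positivity
  have hMA : 0 ≤ MA S T Cα := by
    unfold MA
    have := hA.Cα_lo
    positivity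
  have hp1' : (0 : ℝ) < (p1 : ℝ) - 1 := by
    have : (2 : ℝ) ≤ p1 := by exact_mod_cast hA.p1_pr.two_le
    linarith
  have hfr : 0 ≤ 8 * ((T.F S.k : ℕ) : ℝ) ^ 2 / ((p1 : ℝ) - 1) := div_nonneg (by positivity) hp1'.le
  have hQ0' : ∀ d ∈ T.DS b1, ∀ d' ∈ T.DS b1, ∏ p ∈ T.base ∪ d ∪ d', p ^ (padicValNat p T.E + 1) ≤ Q0 :=
    fun d hd d' hd' => (Nat.le_mul_of_pos_right _ hp1).trans (hQ0 d hd d' hd')
  have hempty : (∅ : Finset ℕ) ∈ T.DS b1 := by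
    unfold Dat.DS
    rw [mem_filter]
    refine ⟨empty_mem_powerset _, ?_⟩
    rw [prod_empty]
    exact Nat.one_le_pow _ _ (by have := hT.D_le; have := hT.D_pos; omega)
  have hQb : (∏ p ∈ T.base, p ^ (padicValNat p T.E + 1)) * p1 ≤ Q0 := by
    have := hQ0 ∅ hempty ∅ hempty
    rwa [union_empty, union_empty] at this
  have key := fun (B : ℝ) (hB0 : 0 ≤ B) (hB : ∀ x : ℤ, IsCoprime x (W0 : ℤ) → ∑ μ ∈ S.MX, ∑ ν ∈ S.MY, M.m1 μ ν *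
      (ind (¬ S.badpair T 0 T.y0 μ ν ∧ ¬ S.evp T μ ν) * (V4 S T * (∏ p ∈ T.base, S.l2 T c c' μ ν x False False p) + 3 * V5 S T W0 ^ 2)) ≤ M.tot1 * B) =>
    P08_key hT hS hM hM' hδ hη hsX hsY hQ0' hq hV hc hc' B hB0 hB
  refine ⟨fun hF => ?_, ?_⟩
  · refine key _ (by positivity) fun x hx => ?_
    have h1 : ∑ μ ∈ S.MX, ∑ ν ∈ S.MY, M.m1 μ ν * (ind (¬ S.badpair T 0 T.y0 μ ν ∧ ¬ S.evp T μ ν) *
        (V4 S T * (∏ p ∈ T.base, S.l2 T c c' μ ν x False False p) + 3 * V5 S T W0 ^ 2)) ≤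
        ∑ μ ∈ S.MX, ∑ ν ∈ S.MY, M.m1 μ ν * (V4 S T * ((∏ p ∈ T.base, S.l2 T c c' μ ν x False False p) * (1 + M.lco T p1 c c' μ ν)) +
          3 * V5 S T W0 ^ 2) := by
      refine P08_sumle hS hM fun μ hμ ν hν => ?_
      have hl : 0 ≤ ∏ p ∈ T.base, S.l2 T c c' μ ν x False False p := prod_nonneg fun p _ => Q18_l2_nonneg _ _ _
      have h2 := (QAx_lco (T := T) (M := M) p1 c c' μ ν).1
      have h3 : 0 ≤ V4 S T * (∏ p ∈ T.base, S.l2 T c c' μ ν x False False p) + 3 * V5 S T W0 ^ 2 := by positivity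
      have h4 : ind (¬ S.badpair T 0 T.y0 μ ν ∧ ¬ S.evp T μ ν) * (V4 S T * (∏ p ∈ T.base, S.l2 T c c' μ ν x False False p) + 3 * V5 S T W0 ^ 2) ≤
          1 * (V4 S T * (∏ p ∈ T.base, S.l2 T c c' μ ν x False False p) + 3 * V5 S T W0 ^ 2) :=
        mul_le_mul_of_nonneg_right (ind_le_one _) h3
      have h5 : 0 ≤ V4 S T * ((∏ p ∈ T.base, S.l2 T c c' μ ν x False False p) * M.lco T p1 c c' μ ν) := mul_nonneg hV4 (mul_nonneg hl h2)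
      linarith
    refine h1.trans ?_
    have h2 : ∑ μ ∈ S.MX, ∑ ν ∈ S.MY, M.m1 μ ν * (V4 S T * ((∏ p ∈ T.base, S.l2 T c c' μ ν x False False p) * (1 + M.lco T p1 c c' μ ν)) +
          3 * V5 S T W0 ^ 2) = V4 S T * ∑ μ ∈ S.MX, ∑ ν ∈ S.MY, M.m1 μ ν * ((∏ p ∈ T.base, S.l2 T c c' μ ν x False False p) *
            (1 + M.lco T p1 c c' μ ν)) + M.tot1 * (3 * V5 S T W0 ^ 2) := by
      rw [← P08_const, mul_sum, ← sum_add_distrib]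
      refine sum_congr rfl fun μ _ => ?_
      rw [mul_sum, ← sum_add_distrib]
      exact sum_congr rfl fun ν _ => by ring
    rw [h2]
    have h3 := Q19 (X := x) hT hS hA hM hQb hc hc' hF (zero_le_one' ℝ)
    have h4 := mul_le_mul_of_nonneg_left h3 hV4
    have h5 : V4 S T * ((3 * Cα) ^ (S.k + 1) * (4 ^ T.base.card * (T.D.divisors.card : ℝ) / (T.D : ℝ) ^ 2) *
        (1 + 8 * ((T.F S.k : ℕ) : ℝ) ^ 2 / ((p1 : ℝ) - 1)) * ∑ μ ∈ S.MX, ∑ ν ∈ S.MY, M.m1 μ ν) =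
        M.tot1 * (V4 S T * (MA S T Cα * (1 + 8 * ((T.F S.k : ℕ) : ℝ) ^ 2 / ((p1 : ℝ) - 1)))) := by
      unfold MA Msr.tot1
      ring
    rw [h5] at h4
    linarith
  · refine key _ (by positivity) fun x hx => ?_
    rw [← P08_const]
    refine P08_sumle hS hM fun μ hμ ν hν => ?_
    by_cases hbe : ¬ S.badpair T 0 T.y0 μ ν ∧ ¬ S.evp T μ ν
    swap
    · rw [ind_false hbe, zero_mul]
      positivity
    · obtain ⟨hb, he⟩ := hbe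
      rw [ind_true ⟨hb, he⟩, one_mul]
      have h1 : ∏ p ∈ T.base, S.l2 T c c' μ ν x False False p ≤ U6 T W0 := by
        refine le_trans (prod_le_prod (fun p _ => Q18_l2_nonneg _ _ _) fun p _ => (Q18_l2_le hc hc' False False p).2.1) ?_
        exact (Q18_base (X := x) hT hS hμ hν hb).1
      have h2 := mul_le_mul_of_nonneg_left h1 hV4
      linarith

end Pool.Agent.Lib.TT3
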