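import Pool.Agent.Lib.MP_092512_nt.TT.P.D3
import Pool.Agent.Lib.MP_092512_nt.TT.P.G02
import Pool.Agent.Lib.MP_092512_nt.TT.C.Q03
import Pool.Agent.Lib.MP_092512_nt.TT.C.Q21

/-!
# P13: masses for the pair of measures

`K = log N`. All marks are `> y0` (windows `> z²`), so `|h l - 1/l| ≤ (2/y0)/l` (`hX`, `hY` at primes, `hY_win`), and there are at most `K` of them (`OK3.num`): `G02_two`.
* `P13_m1`: `1/(2 prX prY) ≤ m1 ≤ 2/(prX prY)`; `P13_ratio`: `m1 ≤ 4 m1'` (both measures have the same `prX prY`).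
* `P13_cl'`, `P13_cl`: by `up`; `N^(-δ1) ≤ m1'` (hypothesis).
* `P13`: `S2` of the constant `1` is `(m1')⁻¹ (cl 1 0)(cl' 1 0) ≤ 3 W' (2 W m1 + N^(-δ1) W)`; if `gp2` fails and `evp` does not hold, then `adm` fails for `M` or for `M'`, or the pair is bad at some `p ∈ (0, y0]`, i.e. (as it is not bad at `p ≤ pb`) at some `p ∈ (pb, y0]`.
-/

set_option autoImplicit false

open Finset

namespace Pool.Agent.Lib.TT3

open Pool.Agent.Lib.TTC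

variable {S : MS} {T : Dat} {W0 : ℕ} {Z : Fin (S.k + 1) → ℕ} {M M' : Msr S} {δ0 δ1 : ℝ} {b1 b2 : ℕ}

private theorem P13_memX {μ : S.TX} (hμ : μ ∈ S.MX) : (∀ i, μ.1 i ∈ S.WX i) ∧ (∀ f, μ.2.1 f ∈ S.FX f) ∧ ∀ e, μ.2.2 e ∈ S.OX e := by
  simp only [MS.MX, mem_product, Fintype.mem_piFinset] at hμ
  exact hμ

private theorem P13_memY {ν : S.TY} (hν : ν ∈ S.MY) : (∀ i, ν.1 i ∈ S.WY i) ∧ (∀ f, ν.2.1 f ∈ S.FY f) ∧ ∀ e, ν.2.2 e ∈ S.OY e := by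
  simp only [MS.MY, mem_product, Fintype.mem_piFinset] at hν
  exact hν

private theorem P13_y0 (hT : T.OK W0) (hS : S.OK3 T W0 Z) : 2 ≤ T.y0 := by
  have h1 := hS.p0_lo
  have h2 := hT.p0_le
  have h3 := hT.y_le
  have h5 := T.F_ge S.k
  have h4 : 1 ≤ (T.F S.k) ^ 2 := Nat.one_le_pow _ _ (by omega)
  omega

/-- a weight at a prime `> y0` -/
private theorem P13_h {h y0 : ℝ} {l : ℕ} (hy : 0 < y0) (hl : y0 < l) (hh : |h - 1 / l| ≤ 2 / (l : ℝ) ^ 2) :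
    0 < l ∧ |h - 1 / (l : ℝ)| ≤ (2 / y0) / (l : ℝ) := by
  have hl0 : (0 : ℝ) < l := hy.trans hl
  refine ⟨by exact_mod_cast hl0, hh.trans ?_⟩
  rw [div_div, sq]
  exact div_le_div_of_nonneg_left (by norm_num) (by positivity) (mul_le_mul_of_nonneg_right hl.le hl0.le)

theorem P13_m1 (hT : T.OK W0) (hS : S.OK3 T W0 Z) (hM : M.OK3 T W0 δ0 δ1) (hK : 4 * Real.log T.N ≤ T.y0) {μ : S.TX} {ν : S.TY} (hμ : μ ∈ S.MX)
    (hν : ν ∈ S.MY) : 1 / (2 * ((S.prX id μ * S.prY id ν : ℕ) : ℝ)) ≤ M.m1 μ ν ∧ M.m1 μ ν ≤ 2 / ((S.prX id μ * S.prY id ν : ℕ) : ℝ) := by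
  obtain ⟨x1, x2, x3⟩ := P13_memX hμ
  obtain ⟨y1, y2, y3⟩ := P13_memY hν
  have hy2 := P13_y0 hT hS
  have hy : (0 : ℝ) < T.y0 := by exact_mod_cast (by omega : 0 < T.y0)
  have hnum : ((G02_n S : ℕ) : ℝ) ≤ Real.log T.N := by
    refine le_trans ?_ hS.num
    unfold G02_n
    exact_mod_cast (by omega)
  have hz : ∀ i, T.y0 < 3 * Z i ∧ T.y0 < Z i := fun i => by
    have h1 := hS.Z_lo i
    have h2 := hT.y0_lt
    have h3 : T.z ≤ T.z ^ 2 := Nat.le_self_pow two_ne_zero _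
    constructor <;> omega
  refine G02_two M (ε := 2 / T.y0) (by positivity) ?_ (by unfold G02_n; omega) ?_ ?_ ?_ ?_ ?_ ?_
  · rw [mul_div_assoc', div_le_one hy]
    linarith
  · intro i
    obtain ⟨a, -, b, -⟩ := hS.WX_mem i _ (x1 i)
    exact P13_h hy (by exact_mod_cast (hz i).1.trans b) (hM.hX_nonneg _ a).2
  · intro f
    obtain ⟨a, -, b, -⟩ := hS.FX_mem f _ (x2 f)
    exact P13_h hy (by exact_mod_cast b) (hM.hX_nonneg _ a).2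
  · intro e
    obtain ⟨a, -, b, -⟩ := hS.OX_mem e _ (x3 e)
    exact P13_h hy (by exact_mod_cast b) (hM.hX_nonneg _ a).2
  · intro i
    obtain ⟨-, -, b, -⟩ := hS.WY_mem i _ (y1 i)
    have h1 := (hM.hY_win i _ (y1 i)).2
    refine ⟨by have := (hz i).2; omega, h1.trans (le_of_eq ?_)⟩
    rw [div_div, mul_comm]
  · intro f
    obtain ⟨a, -, b, -⟩ := hS.FY_mem f _ (y2 f)
    exact P13_h hy (by exact_mod_cast b) (hM.hY_nonneg _ a).2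
  · intro e
    obtain ⟨a, -, b, -⟩ := hS.OY_mem e _ (y3 e)
    exact P13_h hy (by exact_mod_cast b) (hM.hY_nonneg _ a).2

/-- the product of the marks is positive -/
theorem P13_pr (hT : T.OK W0) (hS : S.OK3 T W0 Z) {μ : S.TX} {ν : S.TY} (hμ : μ ∈ S.MX) (hν : ν ∈ S.MY) :
    0 < S.prX id μ * S.prY id ν := by
  obtain ⟨x1, x2, x3⟩ := P13_memX hμ
  obtain ⟨y1, y2, y3⟩ := P13_memY hν
  unfold MS.prX MS.prY
  simp only [id]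
  refine Nat.mul_pos (Nat.mul_pos (Nat.mul_pos ?_ ?_) ?_) (Nat.mul_pos (Nat.mul_pos ?_ ?_) ?_)
  · exact prod_pos fun i _ => (hS.WX_mem i _ (x1 i)).1.pos
  · exact prod_pos fun i _ => (hS.FX_mem i _ (x2 i)).1.pos
  · exact prod_pos fun i _ => (hS.OX_mem i _ (x3 i)).1.pos
  · exact prod_pos fun i _ => by
      have := (hS.WY_mem i _ (y1 i)).2.2.1
      omega
  · exact prod_pos fun i _ => (hS.FY_mem i _ (y2 i)).1.pos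
  · exact prod_pos fun i _ => (hS.OY_mem i _ (y3 i)).1.pos

theorem P13_pos (hT : T.OK W0) (hS : S.OK3 T W0 Z) (hM : M.OK3 T W0 δ0 δ1) (hK : 4 * Real.log T.N ≤ T.y0) {μ : S.TX} {ν : S.TY} (hμ : μ ∈ S.MX)
    (hν : ν ∈ S.MY) : 0 < M.m1 μ ν := by
  have h1 : (0 : ℝ) < ((S.prX id μ * S.prY id ν : ℕ) : ℝ) := by exact_mod_cast P13_pr hT hS hμ hν
  have h2 : 0 < 1 / (2 * ((S.prX id μ * S.prY id ν : ℕ) : ℝ)) := by positivity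
  exact h2.trans_le (P13_m1 hT hS hM hK hμ hν).1

theorem P13_ratio (hT : T.OK W0) (hS : S.OK3 T W0 Z) (hM : M.OK3 T W0 δ0 δ1) (hM' : M'.OK3 T W0 δ0 δ1) (hK : 4 * Real.log T.N ≤ T.y0)
    {μ : S.TX} {ν : S.TY} (hμ : μ ∈ S.MX) (hν : ν ∈ S.MY) : M.m1 μ ν ≤ 4 * M'.m1 μ ν := by
  have h1 := (P13_m1 hT hS hM hK hμ hν).2
  have h2 := (P13_m1 hT hS hM' hK hμ hν).1
  have h3 : 2 / ((S.prX id μ * S.prY id ν : ℕ) : ℝ) = 4 * (1 / (2 * ((S.prX id μ * S.prY id ν : ℕ) : ℝ))) := by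
    rw [one_div, mul_inv, div_eq_mul_inv]
    ring
  rw [h3] at h1
  linarith

theorem P13_tot (hT : T.OK W0) (hS : S.OK3 T W0 Z) (hM : M.OK3 T W0 δ0 δ1) (hM' : M'.OK3 T W0 δ0 δ1) (hK : 4 * Real.log T.N ≤ T.y0) :
    M.tot1 ≤ 4 * M'.tot1 := by
  unfold Msr.tot1
  rw [mul_sum]
  refine sum_le_sum fun μ hμ => ?_
  rw [mul_sum]
  exact sum_le_sum fun ν hν => P13_ratio hT hS hM hM' hK hμ hν

theorem P13_clq (hT : T.OK W0) (hS : S.OK3 T W0 Z) (hM' : M'.OK3 T W0 δ0 δ1) (hK : 4 * Real.log T.N ≤ T.y0)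
    {μ : S.TX} {ν : S.TY} (hμ : μ ∈ S.MX) (hν : ν ∈ S.MY) (hm : (T.N : ℝ) ^ (-δ1) ≤ M'.m1 μ ν) : (M'.m1 μ ν)⁻¹ * M'.cl μ ν 1 0 ≤ 3 * M'.W := by
  have h0 := P13_pos hT hS hM' hK hμ hν
  have h1 := hM'.up μ hμ ν hν
  have hW := hM'.W_pos
  rw [inv_mul_le_iff₀ h0]
  unfold Msr.ms at h1
  have h2 : (T.N : ℝ) ^ (-δ1) * M'.W ≤ M'.m1 μ ν * M'.W := mul_le_mul_of_nonneg_right hm hW.le
  linarith

theorem P13_cl (hT : T.OK W0) (hS : S.OK3 T W0 Z) (hM : M.OK3 T W0 δ0 δ1) (hM' : M'.OK3 T W0 δ0 δ1) (hK : 4 * Real.log T.N ≤ T.y0)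
    {μ : S.TX} {ν : S.TY} (hμ : μ ∈ S.MX) (hν : ν ∈ S.MY) (hm : (T.N : ℝ) ^ (-δ1) ≤ M'.m1 μ ν) : (M'.m1 μ ν)⁻¹ * M.cl μ ν 1 0 ≤ 9 * M.W := by
  have h0 := P13_pos hT hS hM' hK hμ hν
  have h1 := hM.up μ hμ ν hν
  have hW := hM.W_pos
  rw [inv_mul_le_iff₀ h0]
  unfold Msr.ms at h1
  have h2 : (T.N : ℝ) ^ (-δ1) * M.W ≤ M'.m1 μ ν * M.W := mul_le_mul_of_nonneg_right hm hW.le
  have h3 : M.m1 μ ν * M.W ≤ 4 * M'.m1 μ ν * M.W := mul_le_mul_of_nonneg_right (P13_ratio hT hS hM hM' hK hμ hν) hW.le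
  linarith

private theorem P13_cl1 (M : Msr S) (μ : S.TX) (ν : S.TY) : M.cl μ ν 1 0 = ∑ n ∈ range (M.nm + 1), M.Om μ ν n := by
  unfold Msr.cl
  rw [filter_true_of_mem fun n _ => Nat.modEq_one]

private theorem P13_S2 (M M' : Msr S) (μ : S.TX) (ν : S.TY) :
    M.S2 M' μ ν (fun _ _ => 1) = M.cl μ ν 1 0 * ((M'.m1 μ ν)⁻¹ * M'.cl μ ν 1 0) := by
  unfold Msr.S2
  rw [P13_cl1, P13_cl1]
  simp only [mul_one]
  rw [mul_comm ((∑ n ∈ range (M.nm + 1), M.Om μ ν n)), mul_assoc, mul_comm (∑ n ∈ range (M'.nm + 1), M'.Om μ ν n), sum_mul_sum]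

/-- the sum over all `n`, `n'` -/
theorem P13_one (hT : T.OK W0) (hS : S.OK3 T W0 Z) (hM : M.OK3 T W0 δ0 δ1) (hM' : M'.OK3 T W0 δ0 δ1) (hK : 4 * Real.log T.N ≤ T.y0)
    {μ : S.TX} {ν : S.TY} (hμ : μ ∈ S.MX) (hν : ν ∈ S.MY) (hm : (T.N : ℝ) ^ (-δ1) ≤ M'.m1 μ ν) :
    0 ≤ M.S2 M' μ ν (fun _ _ => 1) ∧ M.S2 M' μ ν (fun _ _ => 1) ≤ 3 * M'.W * (2 * M.W * M.m1 μ ν + (T.N : ℝ) ^ (-δ1) * M.W) := by
  have h0 := P13_pos hT hS hM' hK hμ hν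
  have hc : 0 ≤ M.cl μ ν 1 0 := by
    rw [P13_cl1]
    exact sum_nonneg fun n _ => hM.Om_nonneg _ _ _
  have hc' : 0 ≤ (M'.m1 μ ν)⁻¹ * M'.cl μ ν 1 0 := by
    rw [P13_cl1]
    exact mul_nonneg (inv_nonneg.2 h0.le) (sum_nonneg fun n _ => hM'.Om_nonneg _ _ _)
  rw [P13_S2]
  refine ⟨mul_nonneg hc hc', ?_⟩
  have h1 := hM.up μ hμ ν hν
  have h2 := P13_clq hT hS hM' hK hμ hν hm
  calc M.cl μ ν 1 0 * ((M'.m1 μ ν)⁻¹ * M'.cl μ ν 1 0) ≤ (2 * M.ms μ ν + (T.N : ℝ) ^ (-δ1) * M.W) * (3 * M'.W) :=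
        mul_le_mul h1 h2 hc' (hc.trans h1)
    _ = 3 * M'.W * (2 * M.W * M.m1 μ ν + (T.N : ℝ) ^ (-δ1) * M.W) := by
      unfold Msr.ms
      ring

theorem P13 (hT : T.OK W0) (hS : S.OK3 T W0 Z) (hM : M.OK3 T W0 δ0 δ1) (hM' : M'.OK3 T W0 δ0 δ1) (hK : 4 * Real.log T.N ≤ T.y0) {pb : ℕ}
    (hm : ∀ μ ∈ S.MX, ∀ ν ∈ S.MY, (T.N : ℝ) ^ (-δ1) ≤ M'.m1 μ ν) (mN : ℝ)
    (hmN : ∑ μ ∈ S.MX, ∑ ν ∈ S.MY, M.m1 μ ν * ind (¬ M.adm μ ν) + ∑ μ ∈ S.MX, ∑ ν ∈ S.MY, M.m1 μ ν * ind (¬ M'.adm μ ν) +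
      ∑ μ ∈ S.MX, ∑ ν ∈ S.MY, M.m1 μ ν * ind (S.badpair T pb T.y0 μ ν) ≤ mN) :
    ∑ μ ∈ S.MX, ∑ ν ∈ S.MY, ind (¬ M.gp2 M' T μ ν ∧ ¬ S.badpair T 0 pb μ ν ∧ ¬ S.evp T μ ν) * M.S2 M' μ ν (fun _ _ => 1) ≤
      6 * M.W * M'.W * mN + 3 * M'.W * (S.MX.card * S.MY.card * ((T.N : ℝ) ^ (-δ1) * M.W)) := by
  classical
  have hind1 : ∀ P : Prop, P → ind P = 1 := fun P h => by unfold ind; exact if_pos h
  have hind0 : ∀ P : Prop, ¬ P → ind P = 0 := fun P h => by unfold ind; exact if_neg h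
  have hindn : ∀ P : Prop, 0 ≤ ind P := fun P => by
    by_cases h : P
    · rw [hind1 P h]
      norm_num
    · rw [hind0 P h]
  have hW := hM.W_pos
  have hW' := hM'.W_pos
  have hWn : 0 ≤ (T.N : ℝ) ^ (-δ1) * M.W := mul_nonneg (Real.rpow_nonneg (Nat.cast_nonneg _) _) hW.le
  have key : ∀ μ ∈ S.MX, ∀ ν ∈ S.MY, ind (¬ M.gp2 M' T μ ν ∧ ¬ S.badpair T 0 pb μ ν ∧ ¬ S.evp T μ ν) * M.S2 M' μ ν (fun _ _ => 1) ≤
      6 * M.W * M'.W * (M.m1 μ ν * ind (¬ M.adm μ ν) + M.m1 μ ν * ind (¬ M'.adm μ ν) + M.m1 μ ν * ind (S.badpair T pb T.y0 μ ν)) +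
        3 * M'.W * ((T.N : ℝ) ^ (-δ1) * M.W) := by
    intro μ hμ ν hν
    have hm0 := (P13_pos hT hS hM hK hμ hν).le
    obtain ⟨s0, s1⟩ := P13_one hT hS hM hM' hK hμ hν (hm μ hμ ν hν)
    have hr : 0 ≤ 6 * M.W * M'.W * (M.m1 μ ν * ind (¬ M.adm μ ν) + M.m1 μ ν * ind (¬ M'.adm μ ν) + M.m1 μ ν * ind (S.badpair T pb T.y0 μ ν)) :=
      mul_nonneg (by positivity) (add_nonneg (add_nonneg (mul_nonneg hm0 (hindn _)) (mul_nonneg hm0 (hindn _))) (mul_nonneg hm0 (hindn _)))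
    have hr2 : 0 ≤ 3 * M'.W * ((T.N : ℝ) ^ (-δ1) * M.W) := mul_nonneg (by positivity) hWn
    by_cases h : ¬ M.gp2 M' T μ ν ∧ ¬ S.badpair T 0 pb μ ν ∧ ¬ S.evp T μ ν
    swap
    · rw [hind0 _ h, zero_mul]
      linarith
    rw [hind1 _ h, one_mul]
    obtain ⟨hg, hb, he⟩ := h
    have h3 : 1 ≤ ind (¬ M.adm μ ν) + ind (¬ M'.adm μ ν) + ind (S.badpair T pb T.y0 μ ν) := by
      by_cases a1 : M.adm μ ν
      · by_cases a2 : M'.adm μ ν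
        · have hb0 : S.badpair T 0 T.y0 μ ν := by
            by_contra hb0
            exact hg ⟨a1, a2, hb0, he⟩
          have hb1 : S.badpair T pb T.y0 μ ν := by
            obtain ⟨p, hp1, hp2, hp3, hp4⟩ := hb0
            refine ⟨p, hp1, ?_, hp3, hp4⟩
            by_contra hlt
            exact hb ⟨p, hp1, hp2, by omega, hp4⟩
          rw [hind1 _ hb1]
          linarith [hindn (¬ M.adm μ ν), hindn (¬ M'.adm μ ν)]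
        · rw [hind1 _ a2]
          linarith [hindn (¬ M.adm μ ν), hindn (S.badpair T pb T.y0 μ ν)]
      · rw [hind1 _ a1]
        linarith [hindn (¬ M'.adm μ ν), hindn (S.badpair T pb T.y0 μ ν)]
    have h5 : 6 * M.W * M'.W * M.m1 μ ν * 1 ≤ 6 * M.W * M'.W * M.m1 μ ν * (ind (¬ M.adm μ ν) + ind (¬ M'.adm μ ν) + ind (S.badpair T pb T.y0 μ ν)) :=
      mul_le_mul_of_nonneg_left h3 (by positivity)
    linarith
  refine (sum_le_sum fun μ hμ => sum_le_sum fun ν hν => key μ hμ ν hν).trans ?_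
  have e4 : ∑ μ ∈ S.MX, ∑ ν ∈ S.MY, (6 * M.W * M'.W * (M.m1 μ ν * ind (¬ M.adm μ ν) + M.m1 μ ν * ind (¬ M'.adm μ ν) + M.m1 μ ν * ind (S.badpair T pb T.y0 μ ν)) +
        3 * M'.W * ((T.N : ℝ) ^ (-δ1) * M.W)) =
      6 * M.W * M'.W * (∑ μ ∈ S.MX, ∑ ν ∈ S.MY, M.m1 μ ν * ind (¬ M.adm μ ν) + ∑ μ ∈ S.MX, ∑ ν ∈ S.MY, M.m1 μ ν * ind (¬ M'.adm μ ν) +
        ∑ μ ∈ S.MX, ∑ ν ∈ S.MY, M.m1 μ ν * ind (S.badpair T pb T.y0 μ ν)) + 3 * M'.W * (S.MX.card * S.MY.card * ((T.N : ℝ) ^ (-δ1) * M.W)) := by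
    simp only [sum_add_distrib, ← mul_sum, sum_const, nsmul_eq_mul]
    ring
  rw [e4]
  have h6 := mul_le_mul_of_nonneg_left hmN (by positivity : 0 ≤ 6 * M.W * M'.W)
  linarith

end Pool.Agent.Lib.TT3
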