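import Pool.Agent.Lib.MP_092512_nt.TT.P.D3
import Pool.Agent.Lib.MP_092512_nt.TT.C.Q04
import Pool.Agent.Lib.MP_092512_nt.TT.P.Q04

/-!
# Q05: the number of the exceptional primes

`p ∈ exc` implies that `p` divides one of the following nonzero integers (`Q04_card`, `Q04_disj`): `v`, a mark, `SI(c)`, `SI(c')` (their product `nn`); `MkI(c,f') - MkI(c,f)`
(`f ≠ f'`), the same for `c'`; `MkI(c,f) SgI(c') - MkI(c',f') SgI(c)`. They are nonzero: `¬ co` says that the corresponding element of `ZMod q`, `q = p1^(v+1)`, is not zero.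
All are at most `N^8` in absolute value.
-/

set_option autoImplicit false

open Finset

namespace Pool.Agent.Lib.TT3

open Pool.Agent.Lib.TTC

/-- the number of the prime factors -/
private theorem Q05_pf {n : ℕ} (hn : n ≠ 0) : (n.primeFactors.card : ℝ) ≤ 2 * Real.log n := by
  have h1 : 2 ^ n.primeFactors.card ≤ n := by
    calc 2 ^ n.primeFactors.card = ∏ _p ∈ n.primeFactors, 2 := by rw [prod_const]
      _ ≤ ∏ p ∈ n.primeFactors, p :=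
          prod_le_prod' fun p hp => (Nat.prime_of_mem_primeFactors hp).two_le
      _ ≤ n := Nat.le_of_dvd (Nat.pos_of_ne_zero hn) (Nat.prod_primeFactors_dvd n)
  have h2 : ((2 : ℝ) ^ n.primeFactors.card) ≤ n := by exact_mod_cast h1
  have h3 := Real.log_le_log (by positivity) h2
  rw [Real.log_pow] at h3
  have h4 : (1 / 2 : ℝ) ≤ Real.log 2 := by linarith [Real.log_two_gt_d9]
  have h5 : (n.primeFactors.card : ℝ) * (1 / 2) ≤ n.primeFactors.card * Real.log 2 :=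
    mul_le_mul_of_nonneg_left h4 (Nat.cast_nonneg _)
  linarith

private theorem Q05_count (E : Finset ℕ) (hE : ∀ p ∈ E, p.Prime) (L : Finset ℤ) (B : ℝ)
    (hB : 0 ≤ B) (hL : ∀ x ∈ L, Real.log (x.natAbs : ℝ) ≤ B)
    (hcov : ∀ p ∈ E, ∃ x ∈ L, x ≠ 0 ∧ (p : ℤ) ∣ x) : (E.card : ℝ) ≤ L.card * (2 * B) := by
  have h1 : E ⊆ L.biUnion fun x => x.natAbs.primeFactors := by
    intro p hp
    obtain ⟨x, hx, hx0, hd⟩ := hcov p hp
    rw [mem_biUnion]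
    refine ⟨x, hx, ?_⟩
    rw [Nat.mem_primeFactors]
    exact ⟨hE p hp, Int.natCast_dvd.mp hd, Int.natAbs_ne_zero.mpr hx0⟩
  have h2 : ((E.card : ℕ) : ℝ) ≤ ∑ x ∈ L, (x.natAbs.primeFactors.card : ℝ) := by
    exact_mod_cast (card_le_card h1).trans card_biUnion_le
  refine h2.trans ?_
  have h3 : ∑ x ∈ L, (x.natAbs.primeFactors.card : ℝ) ≤ ∑ _x ∈ L, 2 * B := by
    refine sum_le_sum fun x hx => ?_
    by_cases hx0 : x = 0
    · subst hx0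
      simp only [Int.natAbs_zero, Nat.primeFactors_zero, card_empty, Nat.cast_zero]
      linarith
    · exact (Q05_pf (Int.natAbs_ne_zero.mpr hx0)).trans (by linarith [hL x hx])
  refine h3.trans (le_of_eq ?_)
  rw [sum_const, nsmul_eq_mul]

private theorem Q05_log {N : ℕ} (hN : 1 ≤ N) {x : ℤ} (h : |x| ≤ (N : ℤ) ^ 8) :
    Real.log (x.natAbs : ℝ) ≤ 8 * Real.log N := by
  have hlog : 0 ≤ Real.log N := Real.log_nonneg (by exact_mod_cast hN)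
  by_cases hx : x = 0
  · subst hx
    simp only [Int.natAbs_zero, Nat.cast_zero, Real.log_zero]
    linarith
  · have h1 : 0 < (x.natAbs : ℝ) := by exact_mod_cast Int.natAbs_pos.mpr hx
    have h2 : (x.natAbs : ℤ) ≤ (N : ℤ) ^ 8 := by rw [Int.natCast_natAbs]; exact h
    have h3 : (x.natAbs : ℝ) ≤ (N : ℝ) ^ 8 := by exact_mod_cast h2
    have h4 := Real.log_le_log h1 h3
    rw [Real.log_pow] at h4
    exact_mod_cast h4

section

variable {S : MS} {T : Dat} {W0 : ℕ} {Z : Fin (S.k + 1) → ℕ} {μ : S.TX} {ν : S.TY}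

/-- facts on the marks -/
private theorem Q05_marks (hS : S.OK3 T W0 Z) (hμ : μ ∈ S.MX) (hν : ν ∈ S.MY) :
    ((∀ i, μ.1 i ∈ S.WX i) ∧ (∀ f, μ.2.1 f ∈ S.FX f) ∧ ∀ e, μ.2.2 e ∈ S.OX e) ∧
    ((∀ i, ν.1 i ∈ S.WY i) ∧ (∀ f, ν.2.1 f ∈ S.FY f) ∧ ∀ e, ν.2.2 e ∈ S.OY e) := by
  unfold MS.MX at hμ
  unfold MS.MY at hν
  rw [mem_product, mem_product, Fintype.mem_piFinset, Fintype.mem_piFinset,
    Fintype.mem_piFinset] at hμ hν
  exact ⟨⟨hμ.1, hμ.2.1, hμ.2.2⟩, ⟨hν.1, hν.2.1, hν.2.2⟩⟩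

private theorem Q05_cop (hS : S.OK3 T W0 Z) (hμ : μ ∈ S.MX) (hν : ν ∈ S.MY) {p1 Q0 : ℕ} {η Cα : ℝ}
    (hA : S.An3 T p1 Q0 η Cα) (j : ℕ) : (S.prX id μ * S.prY id ν).Coprime (p1 ^ j) := by
  obtain ⟨⟨h1, h2, h3⟩, h4, h5, h6⟩ := Q05_marks hS hμ hν
  have key : ∀ l : ℕ, ∀ s : Finset ℕ, l ∈ s → l.Prime → p1 ∉ s → l.Coprime p1 := by
    intro l s hl hlp hn
    rw [Nat.coprime_primes hlp hA.p1_pr]
    rintro rfl
    exact hn hl
  apply Nat.Coprime.pow_right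
  unfold MS.prX MS.prY
  refine Nat.Coprime.mul_left (Nat.Coprime.mul_left (Nat.Coprime.mul_left ?_ ?_) ?_)
    (Nat.Coprime.mul_left (Nat.Coprime.mul_left ?_ ?_) ?_)
  · exact Nat.Coprime.prod_left fun i _ => key _ _ (h1 i) (hS.WX_mem i _ (h1 i)).1 (hA.p1_W i).1
  · exact Nat.Coprime.prod_left fun i _ => key _ _ (h2 i) (hS.FX_mem i _ (h2 i)).1 (hA.p1_F i).1
  · exact Nat.Coprime.prod_left fun i _ => key _ _ (h3 i) (hS.OX_mem i _ (h3 i)).1 (hA.p1_OX i)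
  · exact Nat.Coprime.prod_left fun i _ => ((hA.p1_pr.coprime_iff_not_dvd).mpr fun hd =>
      absurd (hS.WY_big i _ (h4 i) p1 hA.p1_pr hd) (not_lt.mpr hA.p1_z)).symm
  · exact Nat.Coprime.prod_left fun i _ => key _ _ (h5 i) (hS.FY_mem i _ (h5 i)).1 (hA.p1_F i).2
  · exact Nat.Coprime.prod_left fun i _ => key _ _ (h6 i) (hS.OY_mem i _ (h6 i)).1 (hA.p1_OY i)

private theorem Q05_prpos (hS : S.OK3 T W0 Z) (hμ : μ ∈ S.MX) (hν : ν ∈ S.MY) :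
    0 < S.prX id μ ∧ 0 < S.prY id ν := by
  obtain ⟨⟨h1, h2, h3⟩, h4, h5, h6⟩ := Q05_marks hS hμ hν
  unfold MS.prX MS.prY
  exact ⟨Nat.mul_pos (Nat.mul_pos
      (prod_pos fun i _ => (hS.WX_mem i _ (h1 i)).1.pos)
      (prod_pos fun i _ => (hS.FX_mem i _ (h2 i)).1.pos))
      (prod_pos fun i _ => (hS.OX_mem i _ (h3 i)).1.pos),
    Nat.mul_pos (Nat.mul_pos
      (prod_pos fun i _ => Nat.pos_of_ne_zero (hS.WY_mem i _ (h4 i)).1.ne_zero)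
      (prod_pos fun i _ => (hS.FY_mem i _ (h5 i)).1.pos))
      (prod_pos fun i _ => (hS.OY_mem i _ (h6 i)).1.pos)⟩

private theorem Q05_prN (hT : T.OK W0) (hS : S.OK3 T W0 Z) (hμ : μ ∈ S.MX) (hν : ν ∈ S.MY) :
    S.prX id μ * S.prY id ν ≤ T.N := by
  have h1 := hS.small μ hμ ν hν
  have hN : (1 : ℝ) ≤ T.N := by
    have := hT.N_pos
    exact_mod_cast (by omega : 1 ≤ T.N)
  have h2 : (T.N : ℝ) ^ (1 / 10 : ℝ) ≤ (T.N : ℝ) ^ (1 : ℝ) :=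
    Real.rpow_le_rpow_of_exponent_le hN (by norm_num)
  rw [Real.rpow_one] at h2
  exact_mod_cast h1.trans h2

private theorem Q05_z (hT : T.OK W0) (hS : S.OK3 T W0 Z) (hμ : μ ∈ S.MX) (hν : ν ∈ S.MY) :
    T.z ≤ T.N := by
  obtain ⟨⟨h1, h2, h3⟩, h4, h5, h6⟩ := Q05_marks hS hμ hν
  have hp := Q05_prpos hS hμ hν
  have hn := Q05_prN hT hS hμ hν
  have h7 : μ.1 0 ∣ S.prX id μ := by
    unfold MS.prX
    exact Dvd.dvd.mul_right (Dvd.dvd.mul_right (dvd_prod_of_mem (fun i => id (μ.1 i)) (mem_univ 0)) _) _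
  have h8 : μ.1 0 ≤ S.prX id μ := Nat.le_of_dvd hp.1 h7
  have h9 : S.prX id μ ≤ S.prX id μ * S.prY id ν := Nat.le_mul_of_pos_right _ hp.2
  have h10 := (hS.WX_mem 0 _ (h1 0)).2.2.1
  have h11 := hS.Z_lo 0
  have h12 : T.z ≤ T.z ^ 2 := Nat.le_self_pow (by norm_num) _
  omega

end

theorem Q05 {S : MS} {T : Dat} {W0 : ℕ} {Z : Fin (S.k + 1) → ℕ} {M : Msr S} {δ0 δ1 : ℝ} {p1 Q0 : ℕ} {η Cα : ℝ} (hT : T.OK W0) (hS : S.OK3 T W0 Z)
    (hA : S.An3 T p1 Q0 η Cα) (hM : M.OK3 T W0 δ0 δ1) {μ : S.TX} {ν : S.TY} (hμ : μ ∈ S.MX) (hν : ν ∈ S.MY) {c c' : S.Col}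
    (hco : ¬ M.co T p1 c c' μ ν) :
    ((M.exc T c c' μ ν).card : ℝ) ≤ 100 * ((T.F S.k : ℕ) : ℝ) ^ 2 * Real.log T.N := by
  classical
  have hN3 : 3 ≤ T.N := hT.N_pos
  have hNz : (3 : ℤ) ≤ (T.N : ℤ) := by exact_mod_cast hN3
  have hlog : 0 ≤ Real.log T.N := Real.log_nonneg (by exact_mod_cast (by omega : 1 ≤ T.N))
  obtain ⟨hP1, hP2⟩ := Q05_prpos hS hμ hν
  have hPN := Q05_prN hT hS hμ hν
  have hzN := Q05_z hT hS hμ hν
  have hpos := fun c0 : S.Col => Q03_pos (c := c0) hS hμ hν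
  have hsz := fun c0 : S.Col => Q03_size (c := c0) hT hS hμ hν
  have hp0N : T.p0 ≤ T.N := by
    have h1 := hT.p0_le
    have h2 := hT.y_le
    have h3 := hT.y0_lt
    omega
  -- powers of `N`
  have hp8 : ∀ a : ℕ, a ≤ 8 → (T.N : ℤ) ^ a ≤ (T.N : ℤ) ^ 8 := fun a ha =>
    pow_le_pow_right₀ (by linarith) ha
  have hMk : ∀ c0 : S.Col, ∀ f ∈ T.Fs S.k, |S.MkI T c0 μ ν f| ≤ 2 * (T.N : ℤ) ^ 2 := by
    intro c0 f hf
    refine ((hsz c0).2.2 f (Dat.mem_Fs hf)).trans ?_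
    have h1 : |T.h| ≤ (T.N : ℤ) := by
      rw [← Int.natCast_natAbs]
      have := hT.h_lt
      exact_mod_cast (by omega : T.h.natAbs ≤ T.N)
    have h2 : |f.2.2| ≤ (T.N : ℤ) := by
      rw [← Int.natCast_natAbs]
      have := Dat.Fs_w hT hf
      exact_mod_cast (by omega : f.2.2.natAbs ≤ T.N)
    nlinarith
  have hp4 : 4 * (T.N : ℤ) ^ 2 ≤ (T.N : ℤ) ^ 4 := by
    have h1 : (0 : ℤ) ≤ (T.N : ℤ) ^ 2 := by positivity
    have h2 : (9 : ℤ) ≤ (T.N : ℤ) ^ 2 := by nlinarith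
    nlinarith
  have hp5 : 4 * (T.N : ℤ) ^ 3 ≤ (T.N : ℤ) ^ 5 := by
    have h1 : (0 : ℤ) ≤ (T.N : ℤ) ^ 3 := by positivity
    have h2 : (9 : ℤ) ≤ (T.N : ℤ) ^ 2 := by nlinarith
    nlinarith
  -- the integers
  obtain ⟨nn, hnn⟩ : ∃ nn : S.Col → ℤ, ∀ c, nn c =
    ((M.v * S.prX id μ * S.prY id ν * S.SI T.N c μ ν : ℕ) : ℤ) := ⟨_, fun _ => rfl⟩
  obtain ⟨df, hdf⟩ : ∃ df : S.Col → (ℕ × Bool × ℤ) × (ℕ × Bool × ℤ) → ℤ, ∀ c w, df c w =
    S.MkI T c μ ν w.2 - S.MkI T c μ ν w.1 := ⟨_, fun _ _ => rfl⟩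
  obtain ⟨dd, hdd⟩ : ∃ dd : (ℕ × Bool × ℤ) × (ℕ × Bool × ℤ) → ℤ, ∀ w, dd w =
    S.MkI T c μ ν w.1 * S.SgI T.N c' μ ν - S.MkI T c' μ ν w.2 * S.SgI T.N c μ ν :=
    ⟨_, fun _ => rfl⟩
  obtain ⟨L, hL⟩ : ∃ L : Finset ℤ, L = ({nn c, nn c'} : Finset ℤ) ∪
    (((T.Fs S.k ×ˢ T.Fs S.k).image (df c)) ∪
    (((T.Fs S.k ×ˢ T.Fs S.k).image (df c')) ∪
    ((T.Fs S.k ×ˢ T.Fs S.k).image dd))) := ⟨_, rfl⟩
  have hF4 : 4 ≤ T.F S.k := by
    have h1 := T.F_ge S.k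
    have h2 := hS.k_lo
    omega
  have hcard : (L.card : ℝ) ≤ 5 * ((T.F S.k : ℕ) : ℝ) ^ 2 := by
    have h1 : L.card ≤ 2 + (T.F S.k * T.F S.k + (T.F S.k * T.F S.k + T.F S.k * T.F S.k)) := by
      rw [hL]
      have hr2 : (T.Fs S.k ×ˢ T.Fs S.k).card = T.F S.k * T.F S.k := by
        rw [card_product, T.card_Fs]
      refine (card_union_le _ _).trans (Nat.add_le_add (card_le_two) ?_)
      refine (card_union_le _ _).trans (Nat.add_le_add (card_image_le.trans hr2.le) ?_)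
      exact (card_union_le _ _).trans (Nat.add_le_add (card_image_le.trans hr2.le) (card_image_le.trans hr2.le))
    have h3 : 2 + (T.F S.k * T.F S.k + (T.F S.k * T.F S.k + T.F S.k * T.F S.k)) ≤ 5 * (T.F S.k) ^ 2 := by
      nlinarith
    exact_mod_cast h1.trans h3
  have hbd : ∀ x ∈ L, Real.log (x.natAbs : ℝ) ≤ 8 * Real.log T.N := by
    intro x hx
    refine Q05_log (by omega) ?_
    have hA1 : ∀ c0 : S.Col, |nn c0| ≤ (T.N : ℤ) ^ 8 := by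
      intro c0
      have h0 := (hsz c0).2.1
      rw [hnn, abs_of_nonneg (Int.natCast_nonneg _)]
      have h1 : M.v * S.prX id μ * S.prY id ν * S.SI T.N c0 μ ν ≤
          T.N * T.N * T.N := by
        rw [mul_assoc M.v]
        exact Nat.mul_le_mul (Nat.mul_le_mul hM.v_le hPN) h0
      have h2 : ((M.v * S.prX id μ * S.prY id ν * S.SI T.N c0 μ ν : ℕ) : ℤ) ≤
          (T.N : ℤ) * T.N * T.N := by exact_mod_cast h1
      calc _ ≤ _ := h2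
        _ = (T.N : ℤ) ^ 3 := by ring
        _ ≤ _ := hp8 3 (by norm_num)
    have hA2 : ∀ c0 : S.Col, ∀ w : (ℕ × Bool × ℤ) × (ℕ × Bool × ℤ), w.1 ∈ T.Fs S.k →
        w.2 ∈ T.Fs S.k → |df c0 w| ≤ (T.N : ℤ) ^ 8 := by
      intro c0 w hw1 hw2
      rw [hdf]
      have h1 := abs_sub (S.MkI T c0 μ ν w.2) (S.MkI T c0 μ ν w.1)
      have h2 := hMk c0 _ hw1
      have h3 := hMk c0 _ hw2
      have h4 := hp8 4 (by norm_num)
      linarith
    have hA3 : ∀ w : (ℕ × Bool × ℤ) × (ℕ × Bool × ℤ), w.1 ∈ T.Fs S.k → w.2 ∈ T.Fs S.k → |dd w| ≤ (T.N : ℤ) ^ 8 := by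
      intro w hw1 hw2
      rw [hdd]
      have h1 := abs_sub (S.MkI T c μ ν w.1 * S.SgI T.N c' μ ν)
        (S.MkI T c' μ ν w.2 * S.SgI T.N c μ ν)
      rw [abs_mul, abs_mul] at h1
      have h2 : |S.MkI T c μ ν w.1| * |S.SgI T.N c' μ ν| ≤ (2 * (T.N : ℤ) ^ 2) * T.N :=
        mul_le_mul (hMk c _ hw1) (hsz c').1 (abs_nonneg _) (by positivity)
      have h3 : |S.MkI T c' μ ν w.2| * |S.SgI T.N c μ ν| ≤ (2 * (T.N : ℤ) ^ 2) * T.N :=
        mul_le_mul (hMk c' _ hw2) (hsz c).1 (abs_nonneg _) (by positivity)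
      have h4 := hp8 5 (by norm_num)
      have h5 : (2 * (T.N : ℤ) ^ 2) * T.N = 2 * (T.N : ℤ) ^ 3 := by ring
      rw [h5] at h2 h3
      linarith
    rw [hL] at hx
    simp only [mem_union, mem_insert, mem_singleton, mem_image, mem_product] at hx
    rcases hx with (hx | hx) | ⟨w, ⟨hw1, hw2⟩, hx⟩ | ⟨w, ⟨hw1, hw2⟩, hx⟩ | ⟨w, ⟨hw1, hw2⟩, hx⟩
    · rw [hx]; exact hA1 c
    · rw [hx]; exact hA1 c'
    · rw [← hx]; exact hA2 c w hw1 hw2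
    · rw [← hx]; exact hA2 c' w hw1 hw2
    · rw [← hx]; exact hA3 w hw1 hw2
  -- the integers are not zero
  have hv0 := hM.v_pos
  have hz1 : ∀ c0 : S.Col, nn c0 ≠ 0 := by
    intro c0
    rw [hnn]
    have h0 := (hpos c0).2
    have h1 : 0 < M.v * S.prX id μ * S.prY id ν * S.SI T.N c0 μ ν := by positivity
    exact_mod_cast h1.ne'
  obtain ⟨q, hq⟩ : ∃ q : ℕ, q = p1 ^ (padicValNat p1 T.E + 1) := ⟨_, rfl⟩
  have hcq : (S.prX id μ * S.prY id ν).Coprime q := by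
    rw [hq]
    exact Q05_cop hS hμ hν hA _
  have hVu : ∀ c0 : S.Col, IsUnit (S.VI T.N c0 μ ν : ZMod q) := fun c0 =>
    (ZMod.isUnit_iff_coprime _ _).mpr (Q03_V hcq)
  unfold Msr.co at hco
  rw [← hq] at hco
  unfold coin at hco
  rw [not_or, not_or] at hco
  obtain ⟨hco1, hco2, hco3⟩ := hco
  have hz2 : ∀ c0 : S.Col, ¬ coin1 T S.k q (aq q μ.1) (aq q ν.1) (S.pq T.N q c0 μ ν) →
      ∀ w : (ℕ × Bool × ℤ) × (ℕ × Bool × ℤ), w.1 ∈ T.Fs S.k → w.2 ∈ T.Fs S.k → w.1 ≠ w.2 → df c0 w ≠ 0 := by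
    intro c0 h w hw1 hw2 hne h0
    apply h
    refine ⟨w.1, hw1, w.2, hw2, hne, ?_⟩
    rw [hdf] at h0
    have h1 : ((S.MkI T c0 μ ν w.2 - S.MkI T c0 μ ν w.1 : ℤ) : ZMod q) = 0 := by
      rw [h0, Int.cast_zero]
    rw [Int.cast_sub, Q03_Mk hcq (Dat.mem_Fs hw1), Q03_Mk hcq (Dat.mem_Fs hw2), sub_eq_zero] at h1
    exact ((hVu c0).mul_left_cancel h1).symm
  have hz3 : ∀ w : (ℕ × Bool × ℤ) × (ℕ × Bool × ℤ), w.1 ∈ T.Fs S.k → w.2 ∈ T.Fs S.k → dd w ≠ 0 := by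
    intro w hw1 hw2 h0
    apply hco1
    refine ⟨w.1, hw1, w.2, hw2, ?_⟩
    rw [hdd] at h0
    have h1 : ((S.MkI T c μ ν w.1 * S.SgI T.N c' μ ν -
        S.MkI T c' μ ν w.2 * S.SgI T.N c μ ν : ℤ) : ZMod q) = 0 := by
      rw [h0, Int.cast_zero]
    rw [Int.cast_sub, Int.cast_mul, Int.cast_mul, Q03_Mk hcq (Dat.mem_Fs hw1), Q03_Mk hcq (Dat.mem_Fs hw2), Q03_Sg hcq,
      Q03_Sg hcq, sub_eq_zero] at h1
    have h2 : (S.VI T.N c μ ν : ZMod q) * (S.VI T.N c' μ ν : ZMod q) *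
        (Loc.Mk (aq q μ.1) (aq q ν.1) (S.pq T.N q c μ ν) (T.h : ZMod q) w.1 *
          Loc.Sg (S.k + 1) (aq q μ.1) (aq q ν.1) (S.pq T.N q c' μ ν)) =
        (S.VI T.N c μ ν : ZMod q) * (S.VI T.N c' μ ν : ZMod q) *
        (Loc.Mk (aq q μ.1) (aq q ν.1) (S.pq T.N q c' μ ν) (T.h : ZMod q) w.2 *
          Loc.Sg (S.k + 1) (aq q μ.1) (aq q ν.1) (S.pq T.N q c μ ν)) := by
      linear_combination h1
    exact ((hVu c).mul (hVu c')).mul_left_cancel h2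
  -- the covering
  have hPL : ∀ p ∈ T.PL, p.Prime := by
    intro p hp
    unfold Dat.PL at hp
    rw [mem_filter] at hp
    exact hp.2.1
  have hsp : ∀ c0 : S.Col, nn c0 ∈ L → ∀ p ∈ T.PL, p ∈ S.spec T M.v M.x0 M.t2 c0 μ ν →
      ∃ x ∈ L, x ≠ 0 ∧ (p : ℤ) ∣ x := by
    intro c0 hn1 p hp hs
    unfold MS.spec at hs
    rw [mem_filter] at hs
    rcases hs.2 with h1 | ⟨h1, -⟩
    · refine ⟨nn c0, hn1, hz1 c0, ?_⟩
      rw [hnn]
      exact_mod_cast h1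
    · exact absurd h1 hM.t2_f
  have hcov : ∀ p ∈ M.exc T c c' μ ν, ∃ x ∈ L, x ≠ 0 ∧ (p : ℤ) ∣ x := by
    intro p hp
    unfold Msr.exc at hp
    rw [mem_filter] at hp
    obtain ⟨hpL, hpe⟩ := hp
    by_contra hno
    have hmem1 : nn c ∈ L := by
      rw [hL]
      exact mem_union_left _ (mem_insert_self _ _)
    have hmem1' : nn c' ∈ L := by
      rw [hL]
      exact mem_union_left _ (mem_insert_of_mem (mem_singleton_self _))
    have hmem2 : ∀ w : (ℕ × Bool × ℤ) × (ℕ × Bool × ℤ), w.1 ∈ T.Fs S.k → w.2 ∈ T.Fs S.k → df c w ∈ L ∧ df c' w ∈ L ∧ dd w ∈ L := by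
      intro w hw1 hw2
      have hw : w ∈ T.Fs S.k ×ˢ T.Fs S.k := mem_product.2 ⟨hw1, hw2⟩
      rw [hL]
      refine ⟨mem_union_right _ (mem_union_left _ (mem_image_of_mem _ hw)),
        mem_union_right _ (mem_union_right _ (mem_union_left _ (mem_image_of_mem _ hw))),
        mem_union_right _ (mem_union_right _ (mem_union_right _ (mem_image_of_mem _ hw)))⟩
    have hs : p ∉ S.spec T M.v M.x0 M.t2 c μ ν := fun h => hno (hsp c hmem1 p hpL h)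
    have hs' : p ∉ S.spec T M.v M.x0 M.t2 c' μ ν := fun h => hno (hsp c' hmem1' p hpL h)
    refine hpe ⟨?_, ?_, ?_⟩
    · refine Q04_card hT hS hM hμ hν hpL hs fun f hf f' hf' hff hd => hno ?_
      refine ⟨df c (f, f'), (hmem2 (f, f') hf hf').1, hz2 c hco2 (f, f') hf hf' hff, ?_⟩
      rw [hdf]
      exact hd
    · refine Q04_card hT hS hM hμ hν hpL hs' fun f hf f' hf' hff hd => hno ?_
      refine ⟨df c' (f, f'), (hmem2 (f, f') hf hf').2.1, hz2 c' hco3 (f, f') hf hf' hff, ?_⟩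
      rw [hdf]
      exact hd
    · refine Q04_disj hT hS hM hμ hν hpL hs hs' fun f hf f' hf' hd => hno ?_
      refine ⟨dd (f, f'), (hmem2 (f, f') hf hf').2.2, hz3 (f, f') hf hf', ?_⟩
      rw [hdd]
      exact hd
  have hE : ∀ p ∈ M.exc T c c' μ ν, p.Prime := by
    intro p hp
    unfold Msr.exc at hp
    rw [mem_filter] at hp
    exact hPL p hp.1
  have h1 := Q05_count (M.exc T c c' μ ν) hE L (8 * Real.log T.N) (by positivity) hbd hcov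
  refine h1.trans ?_
  calc (L.card : ℝ) * (2 * (8 * Real.log T.N)) ≤
        (5 * ((T.F S.k : ℕ) : ℝ) ^ 2) * (2 * (8 * Real.log T.N)) :=
        mul_le_mul_of_nonneg_right hcard (by positivity)
    _ = 80 * ((T.F S.k : ℕ) : ℝ) ^ 2 * Real.log T.N := by ring
    _ ≤ 100 * ((T.F S.k : ℕ) : ℝ) ^ 2 * Real.log T.N :=
        mul_le_mul_of_nonneg_right (mul_le_mul_of_nonneg_right (by norm_num) (by positivity)) hlog

end Pool.Agent.Lib.TT3
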