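import Pool.Agent.Lib.MP_092512_nt.TT.P.G01
import Pool.Agent.Lib.MP_092512_nt.TT.P.P08
import Pool.Agent.Lib.MP_092512_nt.TT.C.Q03

/-!
# P10: the second moment with the mean values of the large sieves, sum over the colourings, for the pair `(X, X')`

As `TT.Q23`. `RR21 - |CC| wb2 = ∑_{c ∈ CC} ∑_{d ⊆ PS} kap2 d (FF2 c d - Pb2 d)`; `kap2 d = 0` unless `d ∈ DS b1` (`flUp_support`, `flLo_support`). Square and sum (`G01_sq`): the left side is at most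
`κ² ∑_{c,c' ∈ CC} ∑_{d,d' ∈ DS} |TS2 c c' d d'|`. Split the pairs `(c, c')`: connected (`P08_conn` for each `d, d'`), function pairs (`P08_sum`, second part), all others (`P08_sum`, first part).
-/

set_option autoImplicit false

open Finset

namespace Pool.Agent.Lib.TT3

open Pool.Agent.Lib.TTC

private theorem P10_y0 {S : MS} {T : Dat} {W0 : ℕ} {Z : Fin (S.k + 1) → ℕ} (hT : T.OK W0) (hS : S.OK3 T W0 Z) : 2 ≤ T.y0 := by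
  have h1 := hS.p0_lo
  have h2 := hT.p0_le
  have h3 := hT.y_le
  have h5 := Dat.F_ge T S.k
  have h4 : 1 ≤ (T.F S.k) ^ 2 := Nat.one_le_pow _ _ (by omega)
  omega

private theorem P10_wt {S : MS} {T : Dat} {W0 : ℕ} {Z : Fin (S.k + 1) → ℕ} (hT : T.OK W0) (hS : S.OK3 T W0 Z) {b1 : ℕ} (hb1 : 1 ≤ b1) {d : Finset ℕ}
    (hd : d ⊆ T.PS) (hd' : d ∉ T.DS b1) (s : Bool) : wt s b1 T.y0 T.PS d = 0 := by
  have hP : ∀ r ∈ T.PS, r.Prime ∧ r ≤ T.y0 := by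
    intro r hr
    unfold Dat.PS at hr
    rw [mem_filter, mem_range] at hr
    exact ⟨hr.2.1, by omega⟩
  have h2 := P10_y0 hT hS
  by_contra h
  apply hd'
  unfold Dat.DS
  rw [mem_filter, mem_powerset]
  refine ⟨hd, ?_⟩
  have h3 : ((∏ r ∈ d, r : ℕ) : ℝ) ≤ (T.y0 : ℝ) ^ (12 * b1) := by
    cases s with
    | true =>
      have h4 : flUp b1 T.y0 T.PS d ≠ 0 := by simpa [wt] using h
      exact flUp_support hP h2 hb1 hd h4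
    | false =>
      have h4 : flLo b1 T.y0 T.PS d ≠ 0 := by simpa [wt] using h
      exact flLo_support hP h2 hb1 hd h4
  exact_mod_cast h3

private theorem P10_tot {S : MS} {T : Dat} {W0 : ℕ} {Z : Fin (S.k + 1) → ℕ} {M M' : Msr S} {δ0 δ1 : ℝ} (hS : S.OK3 T W0 Z) (hM : M.OK3 T W0 δ0 δ1)
    (hM' : M'.OK3 T W0 δ0 δ1) : 0 ≤ M.W * M'.W * M.tot1 := by
  refine mul_nonneg (mul_nonneg hM.W_pos.le hM'.W_pos.le) ?_
  unfold Msr.tot1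
  exact sum_nonneg fun μ hμ => sum_nonneg fun ν hν => QAx_m1 hS hM hμ hν

private theorem P10_er {S : MS} {T : Dat} {W0 : ℕ} {M M' : Msr S} {δ0 δ1 V : ℝ} (hM : M.OK3 T W0 δ0 δ1) (hM' : M'.OK3 T W0 δ0 δ1) (hV : 0 ≤ V) (b1 : ℕ) :
    0 ≤ M.er2 M' T W0 b1 δ1 V := by
  unfold Msr.er2
  have h1 : (0 : ℝ) ≤ (T.N : ℝ) ^ (-δ1) := Real.rpow_nonneg (Nat.cast_nonneg _) _
  have h2 := hM.W_pos.le
  have h3 := hM'.W_pos.le
  positivity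

private theorem P10_V4 (S : MS) (T : Dat) : 0 ≤ V4 S T := by
  unfold V4
  exact mul_nonneg (prod_nonneg fun p _ => by positivity) (by positivity)

private theorem P10_U6 (T : Dat) (W0 : ℕ) : 0 ≤ U6 T W0 := by
  unfold U6
  positivity

private theorem P10_MA {S : MS} {T : Dat} {p1 Q0 : ℕ} {η Cα : ℝ} (hA : S.An3 T p1 Q0 η Cα) : 0 ≤ MA S T Cα := by
  unfold MA
  have h1 := hA.Cα_lo
  have h2 : 0 ≤ 3 * Cα := by linarith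
  exact mul_nonneg (pow_nonneg h2 _) (by positivity)

private theorem P10_p1 {S : MS} {T : Dat} {p1 Q0 : ℕ} {η Cα : ℝ} (hA : S.An3 T p1 Q0 η Cα) : 0 ≤ 8 * ((T.F S.k : ℕ) : ℝ) ^ 2 / ((p1 : ℝ) - 1) := by
  have h1 : (2 : ℝ) ≤ p1 := by exact_mod_cast hA.p1_pr.two_le
  exact div_nonneg (by positivity) (by linarith)

private theorem P10_flat {S : MS} (M M' : Msr S) (g : S.TX → S.TY → ℝ) (h H : S.TX → S.TY → ℕ → ℕ → ℝ) :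
    ∑ μ ∈ S.MX, ∑ ν ∈ S.MY, g μ ν * M.S2 M' μ ν (fun n n' => h μ ν n n' * H μ ν n n') =
      ∑ i ∈ (S.MX ×ˢ S.MY) ×ˢ (range (M.nm + 1) ×ˢ range (M'.nm + 1)),
        (g i.1.1 i.1.2 * ((M'.m1 i.1.1 i.1.2)⁻¹ * (M.Om i.1.1 i.1.2 i.2.1 * M'.Om i.1.1 i.1.2 i.2.2)) * h i.1.1 i.1.2 i.2.1 i.2.2) *
          H i.1.1 i.1.2 i.2.1 i.2.2 := by
  rw [sum_product, sum_product]
  refine sum_congr rfl fun μ _ => sum_congr rfl fun ν _ => ?_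
  rw [sum_product]
  unfold Msr.S2
  rw [← mul_assoc, mul_sum]
  refine sum_congr rfl fun n _ => ?_
  rw [mul_sum]
  refine sum_congr rfl fun n' _ => ?_
  ring

theorem P10 {S : MS} {T : Dat} {W0 : ℕ} {Z : Fin (S.k + 1) → ℕ} {M M' : Msr S} {δ0 δ1 : ℝ} {p1 Q0 : ℕ} {η η' Cα ξ V : ℝ} {b1 b2 : ℕ} (hT : T.OK W0)
    (hS : S.OK3 T W0 Z) (hA : S.An3 T p1 Q0 η Cα) (hM : M.OK3 T W0 δ0 δ1) (hM' : M'.OK3 T W0 δ0 δ1) (hδ : 0 ≤ δ1)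
    (hη : 0 ≤ η') (hsX : ∀ f, SWc T.N T.E M.hX η' Q0 (S.FX f)) (hsY : ∀ f, SWc T.N T.E M.hY η' Q0 (S.FY f))
    (hQ0 : ∀ d ∈ T.DS b1, ∀ d' ∈ T.DS b1, (∏ p ∈ T.base ∪ d ∪ d', p ^ (padicValNat p T.E + 1)) * p1 ≤ Q0)
    (hb1 : 1 ≤ b1) (hq : (W0 : ℝ) * (T.y0 : ℝ) ^ (24 * b1) ≤ (T.N : ℝ) ^ δ0) (hξ0 : 0 ≤ ξ) (hV : ∀ μ ∈ S.MX, ∀ ν ∈ S.MY, 1 ≤ V * M'.m1 μ ν)
    (hV0 : 0 ≤ V)
    (hξ : ∑ μ ∈ S.MX, ∑ ν ∈ S.MY, M.m1 μ ν * ind ((M.adm0 μ ν ∧ M'.adm0 μ ν) ∧ ¬ (M.adm μ ν ∧ M'.adm μ ν)) ≤ ξ * M.tot1)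
    (κ : ℝ) (hκ : ∀ d : Finset ℕ, |M.kap2 M' T b1 b2 d| ≤ κ) (nD nF : ℝ)
    (hD : open Classical in (((S.CC ×ˢ S.CC).filter fun q => ¬ Conn S.k q.1 q.2).card : ℝ) ≤ nD)
    (hF : open Classical in (((S.CC ×ˢ S.CC).filter fun q => Fun q.1 q.2).card : ℝ) ≤ nF) :
    ∑ μ ∈ S.MX, ∑ ν ∈ S.MY, ind (M.gp2 M' T μ ν) * M.S2 M' μ ν (fun n n' => cg W0 (M.X μ ν n) (M'.X μ ν n') *
      (M.RR21 M' T b1 b2 μ ν (M.X μ ν n) (M'.X μ ν n') - (S.CC.card : ℝ) * M.wb2 M' T b1 b2 μ ν (M.X μ ν n) (M'.X μ ν n')) ^ 2) ≤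
    κ ^ 2 * (M.W * M'.W * M.tot1 * ((S.CC.card : ℝ) ^ 2 * (T.DS b1).card ^ 2 * (((1 + η') ^ (2 * S.n0) - 1) + ξ) +
      (1 + η') ^ (2 * S.n0) * (nD * (V4 S T * (MA S T Cα * (1 + 8 * ((T.F S.k : ℕ) : ℝ) ^ 2 / ((p1 : ℝ) - 1))) + 3 * V5 S T W0 ^ 2) +
        nF * (V4 S T * U6 T W0 + 3 * V5 S T W0 ^ 2))) + (S.CC.card : ℝ) ^ 2 * (2 * (T.DS b1).card ^ 2 * M.er2 M' T W0 b1 δ1 V)) := by
  classical
  have hWt : 0 ≤ M.W * M'.W * M.tot1 := P10_tot hS hM hM'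
  have her : 0 ≤ M.er2 M' T W0 b1 δ1 V := P10_er hM hM' hV0 b1
  have hU4 := P10_V4 S T
  have hU6 := P10_U6 T W0
  have hMA := P10_MA hA
  have hp1 := P10_p1 hA
  have hDS : T.DS b1 ⊆ T.PS.powerset := by
    unfold Dat.DS
    exact filter_subset _ _
  have hkap : ∀ d ∈ T.PS.powerset, d ∉ T.DS b1 → M.kap2 M' T b1 b2 d = 0 := by
    intro d hd hd'
    rw [mem_powerset] at hd
    unfold Msr.kap2
    rw [P10_wt hT hS hb1 hd hd' false, P10_wt hT hS hb1 hd hd' true]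
    ring
  -- the difference
  have hdiff : ∀ μ ν (x x' : ℤ), M.RR21 M' T b1 b2 μ ν x x' - (S.CC.card : ℝ) * M.wb2 M' T b1 b2 μ ν x x' =
      ∑ c ∈ S.CC, ∑ d ∈ T.DS b1, M.kap2 M' T b1 b2 d * (S.FF2 T c μ ν x x' d - S.Pb2 T μ ν x x' d) := by
    intro μ ν x x'
    unfold Msr.RR21 Msr.wb2 Msr.w21
    rw [← nsmul_eq_mul, ← sum_const, ← sum_sub_distrib]
    refine sum_congr rfl fun c _ => ?_
    rw [← sum_sub_distrib, ← sum_subset hDS]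
    · exact sum_congr rfl fun d _ => by ring
    · intro d hd hd'
      rw [hkap d hd hd']
      ring
  rw [P10_flat M M' (fun μ ν => ind (M.gp2 M' T μ ν)) (fun μ ν n n' => cg W0 (M.X μ ν n) (M'.X μ ν n'))
    (fun μ ν n n' => (M.RR21 M' T b1 b2 μ ν (M.X μ ν n) (M'.X μ ν n') - (S.CC.card : ℝ) * M.wb2 M' T b1 b2 μ ν (M.X μ ν n) (M'.X μ ν n')) ^ 2)]
  simp only [hdiff]
  have hTS : ∀ (c c' : S.Col) (d d' : Finset ℕ), ∑ i ∈ (S.MX ×ˢ S.MY) ×ˢ (range (M.nm + 1) ×ˢ range (M'.nm + 1)),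
        (ind (M.gp2 M' T i.1.1 i.1.2) * ((M'.m1 i.1.1 i.1.2)⁻¹ * (M.Om i.1.1 i.1.2 i.2.1 * M'.Om i.1.1 i.1.2 i.2.2)) *
          cg W0 (M.X i.1.1 i.1.2 i.2.1) (M'.X i.1.1 i.1.2 i.2.2)) *
          ((S.FF2 T c i.1.1 i.1.2 (M.X i.1.1 i.1.2 i.2.1) (M'.X i.1.1 i.1.2 i.2.2) d - S.Pb2 T i.1.1 i.1.2 (M.X i.1.1 i.1.2 i.2.1) (M'.X i.1.1 i.1.2 i.2.2) d) *
          (S.FF2 T c' i.1.1 i.1.2 (M.X i.1.1 i.1.2 i.2.1) (M'.X i.1.1 i.1.2 i.2.2) d' - S.Pb2 T i.1.1 i.1.2 (M.X i.1.1 i.1.2 i.2.1) (M'.X i.1.1 i.1.2 i.2.2) d')) =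
      M.TS2 M' T W0 c c' d d' := by
    intro c c' d d'
    unfold Msr.TS2
    rw [P10_flat M M' (fun μ ν => ind (M.gp2 M' T μ ν)) (fun μ ν n n' => cg W0 (M.X μ ν n) (M'.X μ ν n'))
      (fun μ ν n n' => (S.FF2 T c μ ν (M.X μ ν n) (M'.X μ ν n') d - S.Pb2 T μ ν (M.X μ ν n) (M'.X μ ν n') d) *
      (S.FF2 T c' μ ν (M.X μ ν n) (M'.X μ ν n') d' - S.Pb2 T μ ν (M.X μ ν n) (M'.X μ ν n') d'))]
  have hstep := G01_sq S.CC (T.DS b1) ((S.MX ×ˢ S.MY) ×ˢ (range (M.nm + 1) ×ˢ range (M'.nm + 1)))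
    (fun i => ind (M.gp2 M' T i.1.1 i.1.2) * ((M'.m1 i.1.1 i.1.2)⁻¹ * (M.Om i.1.1 i.1.2 i.2.1 * M'.Om i.1.1 i.1.2 i.2.2)) *
          cg W0 (M.X i.1.1 i.1.2 i.2.1) (M'.X i.1.1 i.1.2 i.2.2)) (M.kap2 M' T b1 b2)
    (fun c d i => S.FF2 T c i.1.1 i.1.2 (M.X i.1.1 i.1.2 i.2.1) (M'.X i.1.1 i.1.2 i.2.2) d - S.Pb2 T i.1.1 i.1.2 (M.X i.1.1 i.1.2 i.2.1) (M'.X i.1.1 i.1.2 i.2.2) d)
    κ (fun d _ => hκ d)
  refine hstep.trans (mul_le_mul_of_nonneg_left ?_ (sq_nonneg _))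
  simp only [hTS]
  obtain ⟨E, hE⟩ : ∃ E, E = (1 + η') ^ (2 * S.n0) := ⟨_, rfl⟩
  obtain ⟨A1, hA1⟩ : ∃ A1, A1 = V4 S T * (MA S T Cα * (1 + 8 * ((T.F S.k : ℕ) : ℝ) ^ 2 / ((p1 : ℝ) - 1))) + 3 * V5 S T W0 ^ 2 := ⟨_, rfl⟩
  obtain ⟨A2, hA2⟩ : ∃ A2, A2 = V4 S T * U6 T W0 + 3 * V5 S T W0 ^ 2 := ⟨_, rfl⟩
  have hE1 : 1 ≤ E := by
    rw [hE]
    exact one_le_pow₀ (by linarith)
  have hA10 : 0 ≤ A1 := by
    rw [hA1]
    have h1 : 0 ≤ V4 S T * (MA S T Cα * (1 + 8 * ((T.F S.k : ℕ) : ℝ) ^ 2 / ((p1 : ℝ) - 1))) := mul_nonneg hU4 (mul_nonneg hMA (by linarith))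
    have h2 : 0 ≤ 3 * V5 S T W0 ^ 2 := by positivity
    linarith
  have hA20 : 0 ≤ A2 := by
    rw [hA2]
    have h1 := mul_nonneg hU4 hU6
    have h2 : 0 ≤ 3 * V5 S T W0 ^ 2 := by positivity
    linarith
  have hQ0' : ∀ d ∈ T.DS b1, ∀ d' ∈ T.DS b1, ∏ p ∈ T.base ∪ d ∪ d', p ^ (padicValNat p T.E + 1) ≤ Q0 := by
    intro d hd d' hd'
    refine le_trans ?_ (hQ0 d hd d' hd')
    exact Nat.le_mul_of_pos_right _ hA.p1_pr.pos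
  have hsum : ∀ q ∈ S.CC ×ˢ S.CC, ∑ d ∈ T.DS b1, ∑ d' ∈ T.DS b1, |M.TS2 M' T W0 q.1 q.2 d d'| ≤
      M.W * M'.W * M.tot1 * ((T.DS b1).card ^ 2 * ((E - 1) + ξ) + E * ((if ¬ Conn S.k q.1 q.2 then 1 else 0) * A1 + (if Fun q.1 q.2 then 1 else 0) * A2)) +
        2 * (T.DS b1).card ^ 2 * M.er2 M' T W0 b1 δ1 V := by
    intro q hqm
    rw [mem_product] at hqm
    have hn : (0 : ℝ) ≤ (T.DS b1).card ^ 2 := by positivity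
    have hnx : 0 ≤ ((T.DS b1).card : ℝ) ^ 2 * ((E - 1) + ξ) := mul_nonneg hn (by linarith)
    have hne : 0 ≤ ((T.DS b1).card : ℝ) ^ 2 * M.er2 M' T W0 b1 δ1 V := mul_nonneg hn her
    have hEA1 : 0 ≤ E * A1 := mul_nonneg (by linarith) hA10
    have hEA2 : 0 ≤ E * A2 := mul_nonneg (by linarith) hA20
    by_cases hC : Conn S.k q.1 q.2
    · have h1 : ∑ d ∈ T.DS b1, ∑ d' ∈ T.DS b1, |M.TS2 M' T W0 q.1 q.2 d d'| ≤
          ∑ d ∈ T.DS b1, ∑ d' ∈ T.DS b1, (M.W * M'.W * M.tot1 * ((E - 1) + ξ) + M.er2 M' T W0 b1 δ1 V) := by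
        refine sum_le_sum fun d hd => sum_le_sum fun d' hd' => ?_
        have h2 := P08_conn hT hS hM hM' hδ hη hsX hsY hQ0' hq hV hξ hqm.1 hqm.2 hC hd hd'
        rw [← hE] at h2
        exact h2
      refine h1.trans ?_
      rw [sum_const, sum_const, nsmul_eq_mul, nsmul_eq_mul, if_neg (not_not.2 hC)]
      have h3 : 0 ≤ M.W * M'.W * M.tot1 * (E * ((if Fun q.1 q.2 then 1 else 0) * A2)) := by
        refine mul_nonneg hWt ?_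
        split_ifs
        · rw [one_mul]
          exact hEA2
        · simp
      have h4 : ((T.DS b1).card : ℝ) * (((T.DS b1).card : ℝ) * (M.W * M'.W * M.tot1 * ((E - 1) + ξ) + M.er2 M' T W0 b1 δ1 V)) =
          M.W * M'.W * M.tot1 * (((T.DS b1).card : ℝ) ^ 2 * ((E - 1) + ξ)) + ((T.DS b1).card : ℝ) ^ 2 * M.er2 M' T W0 b1 δ1 V := by ring
      rw [h4, zero_mul, zero_add, mul_add (M.W * M'.W * M.tot1)]
      linarith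
    · rw [if_pos hC]
      by_cases hFn : Fun q.1 q.2
      · have h1 := (P08_sum hT hS hA hM hM' hδ hη hsX hsY hQ0 hq hV hqm.1 hqm.2).2
        rw [← hE, ← hA2] at h1
        rw [if_pos hFn]
        refine h1.trans ?_
        have h4 : M.W * M'.W * M.tot1 * (E * A2) ≤ M.W * M'.W * M.tot1 * (((T.DS b1).card : ℝ) ^ 2 * ((E - 1) + ξ) + E * (1 * A1 + 1 * A2)) :=
          mul_le_mul_of_nonneg_left (by linarith) hWt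
        linarith
      · have h1 := (P08_sum hT hS hA hM hM' hδ hη hsX hsY hQ0 hq hV hqm.1 hqm.2).1 hFn
        rw [← hE, ← hA1] at h1
        rw [if_neg hFn]
        refine h1.trans ?_
        have h4 : M.W * M'.W * M.tot1 * (E * A1) ≤ M.W * M'.W * M.tot1 * (((T.DS b1).card : ℝ) ^ 2 * ((E - 1) + ξ) + E * (1 * A1 + 0 * A2)) :=
          mul_le_mul_of_nonneg_left (by linarith) hWt
        linarith
  refine (sum_le_sum hsum).trans ?_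
  rw [← hE, ← hA1, ← hA2, sum_add_distrib, sum_const, nsmul_eq_mul, card_product, ← mul_sum, sum_add_distrib, sum_const, nsmul_eq_mul, card_product,
    ← mul_sum, sum_add_distrib, ← sum_mul, ← sum_mul, sum_boole, sum_boole]
  push_cast
  have h5 : (((S.CC ×ˢ S.CC).filter fun q => ¬ Conn S.k q.1 q.2).card : ℝ) * A1 + (((S.CC ×ˢ S.CC).filter fun q => Fun q.1 q.2).card : ℝ) * A2 ≤
      nD * A1 + nF * A2 := add_le_add (mul_le_mul_of_nonneg_right hD hA10) (mul_le_mul_of_nonneg_right hF hA20)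
  have h6 := mul_le_mul_of_nonneg_left h5 (show 0 ≤ E by linarith)
  have h7 : M.W * M'.W * M.tot1 * ((S.CC.card : ℝ) * S.CC.card * (((T.DS b1).card : ℝ) ^ 2 * (E - 1 + ξ)) +
      E * ((((S.CC ×ˢ S.CC).filter fun q => ¬ Conn S.k q.1 q.2).card : ℝ) * A1 + (((S.CC ×ˢ S.CC).filter fun q => Fun q.1 q.2).card : ℝ) * A2)) ≤
      M.W * M'.W * M.tot1 * ((S.CC.card : ℝ) ^ 2 * (T.DS b1).card ^ 2 * (E - 1 + ξ) + E * (nD * A1 + nF * A2)) := by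
    refine mul_le_mul_of_nonneg_left ?_ hWt
    have h8 : (S.CC.card : ℝ) * S.CC.card * (((T.DS b1).card : ℝ) ^ 2 * (E - 1 + ξ)) = (S.CC.card : ℝ) ^ 2 * (T.DS b1).card ^ 2 * (E - 1 + ξ) := by ring
    linarith
  have h9 : (S.CC.card : ℝ) * S.CC.card * (2 * ((T.DS b1).card : ℝ) ^ 2 * M.er2 M' T W0 b1 δ1 V) =
      (S.CC.card : ℝ) ^ 2 * (2 * (T.DS b1).card ^ 2 * M.er2 M' T W0 b1 δ1 V) := by ring
  linarith

end Pool.Agent.Lib.TT3
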