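import Pool.Agent.Lib.MP_092512_nt.TT.P.D3
import Pool.Agent.Lib.MP_092512_nt.TT.P.P01
import Pool.Agent.Lib.MP_092512_nt.TT.P.Q14
import Pool.Agent.Lib.MP_092512_nt.TT.P.Q18
import Pool.Agent.Lib.MP_092512_nt.TT.C.Q25
import Pool.Agent.Lib.MP_092512_nt.TT.C.Q03

/-!
# P12: the mean values for the pair

`m = k + 1`. `VL` as in `TC/Q25`, `VS2 = ∏_{PS} (1 - 16 m/p)`.
* `P12_Ml`: `Q25_Ml` (copy of the proof) for `OK3`.
* `P12_kap`: `kap2 = wt false Mp - wt true (Mp - Mm)`, `Mp ≤ 1.1025 VL VL'`, `Mp - Mm = Ml⁺ (Ml'⁺ - Ml'⁻) + Ml'⁺ (Ml⁺ - Ml⁻)`, so `|Mp - Mm| ≤ 0.21 VL VL'`.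
* `P12_wb`: as `Q25_wb`, with `lavP False = lav False`, `lavP True ≤ 16 m/p lavP False` (union of the two conditions `bP`, `Q14_bad` twice); the bracket is `≥ V' VL VL' (1/2 - (3/2)(0.21)) ≥ VS2 VL VL'/8`.
-/

set_option autoImplicit false

open Finset

open Pool.Agent.Lib.GT (NJ)

namespace Pool.Agent.Lib.TT3

open Pool.Agent.Lib.TTC

noncomputable def VS2 (S : MS) (T : Dat) : ℝ := ∏ p ∈ T.PS, (1 - 16 * ((T.F S.k : ℕ) : ℝ) / p)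

variable {S : MS} {T : Dat} {W0 : ℕ} {Z : Fin (S.k + 1) → ℕ} {M M' : Msr S} {δ0 δ1 : ℝ} {b1 b2 : ℕ}

private theorem P12_m (hT : T.OK W0) (hS : S.OK3 T W0 Z) : (4 : ℝ) ≤ ((T.F S.k : ℕ) : ℝ) ∧
    64 * ((T.F S.k : ℕ) : ℝ) ^ 2 ≤ T.p0 ∧ (T.p0 : ℝ) ≤ T.y0 ∧ 2 ≤ T.y0 ∧ 2 ≤ T.z := by
  have h1 := hS.k_lo
  have h2 := hS.p0_lo
  have h3 := hT.p0_le
  have h4 := hT.y_le
  have h5 := hT.y0_lt
  have h7 := Dat.F_ge T S.k
  have h6 : 1 ≤ (T.F S.k) ^ 2 := Nat.one_le_pow _ _ (by omega)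
  refine ⟨by exact_mod_cast (by omega : 4 ≤ T.F S.k), by exact_mod_cast h2,
    by exact_mod_cast (by omega : T.p0 ≤ T.y0), by omega, by omega⟩

/-- a density with `h p ≤ c m / p`, `c ≤ 16`, is at most `2 / 3` -/
private theorem P12_small {m p : ℝ} (hm : 4 ≤ m) (hp : 64 * m ^ 2 ≤ p) {c : ℝ} (hc : c ≤ 16) :
    c * m / p ≤ 2 / 3 := by
  have hp0 : 0 < p := by nlinarith
  rw [div_le_iff₀ hp0]
  nlinarith

private theorem P12_PL {p : ℕ} (hp : p ∈ T.PL) : p.Prime ∧ T.y0 < p ∧ p ≤ T.z := by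
  unfold Dat.PL at hp
  rw [mem_filter, mem_range] at hp
  exact ⟨hp.2.1, hp.2.2, by omega⟩

private theorem P12_PS {p : ℕ} (hp : p ∈ T.PS) : p.Prime ∧ T.p0 ≤ p ∧ p ≤ T.y0 := by
  unfold Dat.PS at hp
  rw [mem_filter, mem_range] at hp
  exact ⟨hp.2.1, hp.2.2, by omega⟩

private theorem P12_g (hT : T.OK W0) (hS : S.OK3 T W0 Z) (hM : M.OK3 T W0 δ0 δ1) :
    ∀ r ∈ T.PL, 0 ≤ ((T.F S.k : ℕ) : ℝ) * M.g r ∧
      ((T.F S.k : ℕ) : ℝ) * M.g r ≤ (2 * ((T.F S.k : ℕ) : ℝ)) / r ∧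
      ((T.F S.k : ℕ) : ℝ) * M.g r ≤ 2 / 3 := by
  intro r hr
  obtain ⟨h1, h2, h3⟩ := P12_PL hr
  obtain ⟨m4, m5, m6, m7, m8⟩ := P12_m hT hS
  obtain ⟨g0, g1⟩ := hM.g_large r h1 h2
  have hr2 : (2 : ℝ) ≤ r := by exact_mod_cast h1.two_le
  have hr0 : (0 : ℝ) < r := by linarith
  have hry : (T.y0 : ℝ) < r := by exact_mod_cast h2
  have h4 : M.g r ≤ 2 / r := by
    have h5 := (abs_le.mp g1).2
    have h6 : 2 / (r : ℝ) ^ 2 ≤ 1 / r := by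
      rw [div_le_div_iff₀ (by positivity) hr0]
      nlinarith
    have h7 : 2 / (r : ℝ) = 1 / r + 1 / r := by ring
    linarith
  have h5 : ((T.F S.k : ℕ) : ℝ) * M.g r ≤ (2 * ((T.F S.k : ℕ) : ℝ)) / r := by
    calc ((T.F S.k : ℕ) : ℝ) * M.g r ≤ ((T.F S.k : ℕ) : ℝ) * (2 / r) :=
          mul_le_mul_of_nonneg_left h4 (by linarith)
      _ = _ := by ring
  exact ⟨mul_nonneg (by linarith) g0, h5,
    h5.trans (P12_small m4 (by linarith) (by norm_num))⟩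

theorem P12_Ml (hT : T.OK W0) (hS : S.OK3 T W0 Z) (hM : M.OK3 T W0 δ0 δ1) (h2 : flK (2 * ((T.F S.k : ℕ) : ℝ)) * (1 / 2) ^ b2 ≤ 1 / 20) :
    0 < M.VL T ∧ M.VL T ≤ M.Ml T true b2 ∧ M.Ml T true b2 ≤ 21 / 20 * M.VL T ∧ 19 / 20 * M.VL T ≤ M.Ml T false b2 ∧ M.Ml T false b2 ≤ 21 / 20 * M.VL T := by
  have hg := P12_g hT hS hM
  obtain ⟨m4, m5, m6, m7, m8⟩ := P12_m hT hS
  have hV : 0 < M.VL T := by
    unfold Msr.VL
    exact prod_pos fun r hr => by linarith [(hg r hr).2.2]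
  have hκ : (0 : ℝ) ≤ 2 * ((T.F S.k : ℕ) : ℝ) := by positivity
  have hP : ∀ r ∈ T.PL, r.Prime ∧ r ≤ T.z := fun r hr => ⟨(P12_PL hr).1, (P12_PL hr).2.2⟩
  have hU := flUp_dens hκ hP m8 hg b2
  have hL := flLo_dens hκ hP m8 hg b2
  have e1 : M.Ml T true b2 = ∑ d ∈ T.PL.powerset, flUp b2 T.z T.PL d *
      ∏ r ∈ d, (((T.F S.k : ℕ) : ℝ) * M.g r) := by
    unfold Msr.Ml wt
    rfl
  have e2 : M.Ml T false b2 = ∑ d ∈ T.PL.powerset, flLo b2 T.z T.PL d *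
      ∏ r ∈ d, (((T.F S.k : ℕ) : ℝ) * M.g r) := by
    unfold Msr.Ml wt
    rfl
  have e3 : ∏ r ∈ T.PL, (1 - ((T.F S.k : ℕ) : ℝ) * M.g r) = M.VL T := rfl
  rw [e3, ← e1] at hU
  rw [e3, ← e2] at hL
  have h3 : (1 + flK (2 * ((T.F S.k : ℕ) : ℝ)) * (1 / 2) ^ b2) * M.VL T ≤ 21 / 20 * M.VL T :=
    mul_le_mul_of_nonneg_right (by linarith) hV.le
  have h4 : 19 / 20 * M.VL T ≤ (1 - flK (2 * ((T.F S.k : ℕ) : ℝ)) * (1 / 2) ^ b2) * M.VL T :=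
    mul_le_mul_of_nonneg_right (by linarith) hV.le
  exact ⟨hV, hU.1, hU.2.trans h3, h4.trans hL.1, hL.2.trans h3⟩

/-- `|Ml| ≤ 2` -/
theorem P12_Ml2 (hT : T.OK W0) (hS : S.OK3 T W0 Z) (hM : M.OK3 T W0 δ0 δ1) (h2 : flK (2 * ((T.F S.k : ℕ) : ℝ)) * (1 / 2) ^ b2 ≤ 1 / 20) (s : Bool) :
    |M.Ml T s b2| ≤ 2 ∧ M.VL T ≤ 1 := by
  obtain ⟨hV, a1, a2, a3, a4⟩ := P12_Ml hT hS hM h2
  have hg := P12_g hT hS hM
  have h1 : M.VL T ≤ 1 := by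
    unfold Msr.VL
    exact prod_le_one (fun r hr => by linarith [(hg r hr).2.2]) fun r hr => by linarith [(hg r hr).1]
  refine ⟨?_, h1⟩
  rw [abs_le]
  cases s <;> constructor <;> linarith

private theorem P12_real {v v' a b a' b' : ℝ} (hV : 0 < v) (hV' : 0 < v') (a1 : v ≤ a) (a2 : a ≤ 21 / 20 * v) (a3 : 19 / 20 * v ≤ b) (a4 : b ≤ 21 / 20 * v)
    (a1' : v' ≤ a') (a2' : a' ≤ 21 / 20 * v') (a3' : 19 / 20 * v' ≤ b') (a4' : b' ≤ 21 / 20 * v') :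
    0 < v * v' ∧ v * v' ≤ a * a' ∧ a * a' ≤ 23 / 20 * (v * v') ∧ |a * a' - (a * b' + b * a' - a * a')| ≤ 21 / 100 * (v * v') := by
  have e : a * a' - (a * b' + b * a' - a * a') = a * (a' - b') + a' * (a - b) := by ring
  have hvv : 0 < v * v' := mul_pos hV hV'
  have k1 : |a * (a' - b')| ≤ 21 / 20 * v * (1 / 10 * v') := by
    rw [abs_mul]
    refine mul_le_mul ?_ ?_ (abs_nonneg _) (by positivity)
    · rw [abs_of_nonneg (by linarith)]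
      exact a2
    · rw [abs_le]
      constructor <;> linarith
  have k2 : |a' * (a - b)| ≤ 21 / 20 * v' * (1 / 10 * v) := by
    rw [abs_mul]
    refine mul_le_mul ?_ ?_ (abs_nonneg _) (by positivity)
    · rw [abs_of_nonneg (by linarith)]
      exact a2'
    · rw [abs_le]
      constructor <;> linarith
  refine ⟨hvv, mul_le_mul a1 a1' hV'.le (by linarith), ?_, ?_⟩
  · calc a * a' ≤ 21 / 20 * v * (21 / 20 * v') := mul_le_mul a2 a2' (by linarith) (by positivity)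
      _ = 441 / 400 * (v * v') := by ring
      _ ≤ 23 / 20 * (v * v') := by nlinarith
  · rw [e]
    refine (abs_add_le _ _).trans ((add_le_add k1 k2).trans (le_of_eq ?_))
    ring

private theorem P12_dif (hT : T.OK W0) (hS : S.OK3 T W0 Z) (hM : M.OK3 T W0 δ0 δ1) (hM' : M'.OK3 T W0 δ0 δ1)
    (h2 : flK (2 * ((T.F S.k : ℕ) : ℝ)) * (1 / 2) ^ b2 ≤ 1 / 20) :
    0 < M.VL T * M'.VL T ∧ M.VL T * M'.VL T ≤ M.Mp M' T b2 ∧ M.Mp M' T b2 ≤ 23 / 20 * (M.VL T * M'.VL T) ∧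
      |M.Mp M' T b2 - M.Mm M' T b2| ≤ 21 / 100 * (M.VL T * M'.VL T) := by
  obtain ⟨hV, a1, a2, a3, a4⟩ := P12_Ml hT hS hM h2
  obtain ⟨hV', a1', a2', a3', a4'⟩ := P12_Ml hT hS hM' h2
  exact P12_real hV hV' a1 a2 a3 a4 a1' a2' a3' a4'

theorem P12_kap (hT : T.OK W0) (hS : S.OK3 T W0 Z) (hM : M.OK3 T W0 δ0 δ1) (hM' : M'.OK3 T W0 δ0 δ1)
    (h2 : flK (2 * ((T.F S.k : ℕ) : ℝ)) * (1 / 2) ^ b2 ≤ 1 / 20) (d : Finset ℕ) :
    |M.kap2 M' T b1 b2 d| ≤ 2 * ((NJ T.y0 : ℝ) + 1) * (M.VL T * M'.VL T) := by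
  obtain ⟨hV, c1, c2, c3⟩ := P12_dif hT hS hM hM' h2
  have u1 : |wt true b1 T.y0 T.PS d| ≤ 1 := by
    unfold wt
    exact abs_flUp_le _ _ _ _
  have u2 : |wt false b1 T.y0 T.PS d| ≤ NJ T.y0 + 1 := by
    unfold wt
    exact abs_flLo_le _ _ _ _
  have u3 : |M.Mp M' T b2| ≤ 23 / 20 * (M.VL T * M'.VL T) := by
    rw [abs_of_nonneg (by linarith)]
    exact c2
  unfold Msr.kap2
  have h1 := abs_sub (wt false b1 T.y0 T.PS d * M.Mp M' T b2)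
    (wt true b1 T.y0 T.PS d * (M.Mp M' T b2 - M.Mm M' T b2))
  rw [abs_mul, abs_mul] at h1
  have h3 : |wt false b1 T.y0 T.PS d| * |M.Mp M' T b2| ≤
      ((NJ T.y0 : ℝ) + 1) * (23 / 20 * (M.VL T * M'.VL T)) :=
    mul_le_mul u2 u3 (abs_nonneg _) (by positivity)
  have h4 : |wt true b1 T.y0 T.PS d| * |M.Mp M' T b2 - M.Mm M' T b2| ≤
      1 * (21 / 100 * (M.VL T * M'.VL T)) :=
    mul_le_mul u1 c3 (abs_nonneg _) zero_le_one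
  have h5 : 1 * (M.VL T * M'.VL T) ≤ ((NJ T.y0 : ℝ) + 1) * (M.VL T * M'.VL T) :=
    mul_le_mul_of_nonneg_right (by linarith [(Nat.cast_nonneg (NJ T.y0) : (0 : ℝ) ≤ _)]) hV.le
  refine h1.trans ?_
  have h6 : ((NJ T.y0 : ℝ) + 1) * (23 / 20 * (M.VL T * M'.VL T)) = 23 / 20 * (((NJ T.y0 : ℝ) + 1) * (M.VL T * M'.VL T)) := by
    ring
  have h7 : 2 * ((NJ T.y0 : ℝ) + 1) * (M.VL T * M'.VL T) = 2 * (((NJ T.y0 : ℝ) + 1) * (M.VL T * M'.VL T)) := by ring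
  rw [h6] at h3
  rw [h7]
  linarith

theorem P12_wb (hT : T.OK W0) (hS : S.OK3 T W0 Z) (hM : M.OK3 T W0 δ0 δ1) (hM' : M'.OK3 T W0 δ0 δ1)
    (h1 : flK (16 * ((T.F S.k : ℕ) : ℝ)) * (1 / 2) ^ b1 ≤ 1 / 2)
    (h2 : flK (2 * ((T.F S.k : ℕ) : ℝ)) * (1 / 2) ^ b2 ≤ 1 / 20) {μ : S.TX} {ν : S.TY} (hμ : μ ∈ S.MX) (hν : ν ∈ S.MY)
    (hb : ¬ S.badpair T 0 T.y0 μ ν) (he : ¬ S.evp T μ ν) {X X' : ℤ} (hX : IsCoprime X (W0 : ℤ)) (hXX : X ≡ X' [ZMOD (W0 : ℤ)]) :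
    1 / 8 * (1 / (2 ^ T.base.card * ((W0 : ℝ) ^ T.r) ^ S.k * T.D)) * VS2 S T * (M.VL T * M'.VL T) ≤ M.wb2 M' T b1 b2 μ ν X X' := by
  classical
  have _ := hXX
  obtain ⟨hV, c1, c2, c3⟩ := P12_dif hT hS hM hM' h2
  obtain ⟨m4, m5, m6, m7, m8⟩ := P12_m hT hS
  have h5 : 5 ≤ T.p0 := by
    have h6 := hS.p0_lo
    have h8 := Dat.F_ge T S.k
    have h7 : 1 ≤ (T.F S.k) ^ 2 := Nat.one_le_pow _ _ (by omega)
    omega
  obtain ⟨f, hf⟩ : ∃ f : ℕ → Prop → ℝ, ∀ p B, f p B =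
    lavP T S.k p (ycl T p X) (ycl T p X') B (aq (p ^ (padicValNat p T.E + 1)) μ.1)
      (aq (p ^ (padicValNat p T.E + 1)) ν.1) := ⟨_, fun _ _ => rfl⟩
  have hf0 : ∀ p B, 0 ≤ f p B := fun p B => by
    rw [hf]
    exact (P01_nonneg _ _ _ _ _ _ _ _).1
  have hf1 : ∀ p, p ∉ T.base → f p False = 1 := fun p hp => by
    rw [hf, P01_false]
    exact Q14_one hp _ _ _
  have hbase : 1 / (2 ^ T.base.card * ((W0 : ℝ) ^ T.r) ^ S.k * T.D) ≤ ∏ p ∈ T.base, f p False := by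
    have h6 := (Q18_base (X := X) hT hS hμ hν hb).2
    refine h6.trans (le_of_eq (prod_congr rfl fun p _ => ?_))
    rw [hf, P01_false]
  have hW0 : 0 < W0 := Nat.pos_of_ne_zero hT.W0_sq.ne_zero
  have hbp : 0 < 1 / (2 ^ T.base.card * ((W0 : ℝ) ^ T.r) ^ S.k * T.D) := by
    have h6 : (0 : ℝ) < W0 := by exact_mod_cast hW0
    have h7 : (0 : ℝ) < T.D := by exact_mod_cast hT.D_pos
    positivity
  have hf2 : ∀ p ∈ T.base, f p False ≠ 0 := by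
    have h6 : ∏ p ∈ T.base, f p False ≠ 0 := (hbp.trans_le hbase).ne'
    rwa [prod_ne_zero_iff] at h6
  have hfp : ∀ p, 0 < f p False := by
    intro p
    by_cases hp : p ∈ T.base
    · exact lt_of_le_of_ne (hf0 p False) (hf2 p hp).symm
    · rw [hf1 p hp]
      exact one_pos
  -- the mean value
  have hwb : M.wb2 M' T b1 b2 μ ν X X' = (∏ p ∈ T.base, f p False) *
      ∑ d ∈ T.PS.powerset, M.kap2 M' T b1 b2 d * ∏ p ∈ d, (f p True / f p False) := by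
    rw [← Q13_id T.PS T.base f hf1 hf2]
    unfold Msr.wb2 MS.Pb2
    refine sum_congr rfl fun d _ => ?_
    congr 1
    refine prod_congr rfl fun p _ => ?_
    rw [hf]
  obtain ⟨g, hg⟩ : ∃ g : ℕ → ℝ, ∀ p, g p = f p True / f p False := ⟨_, fun _ => rfl⟩
  have hg1 : ∀ r ∈ T.PS, 0 ≤ g r ∧ g r ≤ (16 * ((T.F S.k : ℕ) : ℝ)) / r ∧ g r ≤ 2 / 3 := by
    intro r hr
    obtain ⟨c1, c2, c3⟩ := P12_PS hr
    have h6 := P01_bad hT h5 hr (Q14_good hT hS hμ hν hb hr) (Q14_Bk hT hS hμ hν he hr) (ycl T r X) (ycl T r X')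
    rw [← hf, ← hf] at h6
    have h7 : g r ≤ (16 * ((T.F S.k : ℕ) : ℝ)) / r := by
      rw [hg, div_le_iff₀ (hfp r)]
      exact h6
    have h8 : (T.p0 : ℝ) ≤ r := by exact_mod_cast c2
    refine ⟨?_, h7, h7.trans (P12_small m4 (by linarith) (le_refl _))⟩
    rw [hg]
    exact div_nonneg (hf0 _ _) (hf0 _ _)
  have hP : ∀ r ∈ T.PS, r.Prime ∧ r ≤ T.y0 := fun r hr => ⟨(P12_PS hr).1, (P12_PS hr).2.2⟩
  have hκ : (0 : ℝ) ≤ 16 * ((T.F S.k : ℕ) : ℝ) := by positivity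
  have hU := flUp_dens hκ hP m7 hg1 b1
  have hL := flLo_dens hκ hP m7 hg1 b1
  obtain ⟨V, hVd⟩ : ∃ V : ℝ, V = ∏ r ∈ T.PS, (1 - g r) := ⟨_, rfl⟩
  obtain ⟨U, hUd⟩ : ∃ U : ℝ, U = ∑ d ∈ T.PS.powerset, flUp b1 T.y0 T.PS d * ∏ r ∈ d, g r :=
    ⟨_, rfl⟩
  obtain ⟨L, hLd⟩ : ∃ L : ℝ, L = ∑ d ∈ T.PS.powerset, flLo b1 T.y0 T.PS d * ∏ r ∈ d, g r :=
    ⟨_, rfl⟩
  rw [← hVd, ← hUd] at hU
  rw [← hVd, ← hLd] at hL
  have hVS0 : 0 ≤ VS2 S T := by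
    unfold VS2
    refine prod_nonneg fun r hr => ?_
    obtain ⟨c1, c2, c3⟩ := P12_PS hr
    have h8 : (T.p0 : ℝ) ≤ r := by exact_mod_cast c2
    have h9 := P12_small m4 (by linarith : 64 * ((T.F S.k : ℕ) : ℝ) ^ 2 ≤ (r : ℝ)) (le_refl 16)
    linarith
  have hVS : VS2 S T ≤ V := by
    rw [hVd]
    unfold VS2
    refine prod_le_prod (fun r hr => ?_) fun r hr => ?_
    · obtain ⟨c1, c2, c3⟩ := P12_PS hr
      have h8 : (T.p0 : ℝ) ≤ r := by exact_mod_cast c2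
      have h9 := P12_small m4 (by linarith : 64 * ((T.F S.k : ℕ) : ℝ) ^ 2 ≤ (r : ℝ)) (le_refl 16)
      linarith
    · linarith [(hg1 r hr).2.1]
  have hV0 : 0 ≤ V := hVS0.trans hVS
  have hU1 : U ≤ 3 / 2 * V :=
    hU.2.trans (mul_le_mul_of_nonneg_right (by linarith) hV0)
  have hL1 : 1 / 2 * V ≤ L :=
    le_trans (mul_le_mul_of_nonneg_right (by linarith) hV0) hL.1
  have hU0 : 0 ≤ U := hV0.trans hU.1
  have hsum : ∑ d ∈ T.PS.powerset, M.kap2 M' T b1 b2 d * ∏ p ∈ d, (f p True / f p False) =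
      L * M.Mp M' T b2 - U * (M.Mp M' T b2 - M.Mm M' T b2) := by
    rw [hLd, hUd, sum_mul, sum_mul, ← sum_sub_distrib]
    refine sum_congr rfl fun d _ => ?_
    have h6 : ∏ p ∈ d, (f p True / f p False) = ∏ p ∈ d, g p :=
      prod_congr rfl fun p _ => (hg p).symm
    rw [h6]
    unfold Msr.kap2
    have h7 : wt false b1 T.y0 T.PS d = flLo b1 T.y0 T.PS d := rfl
    have h8 : wt true b1 T.y0 T.PS d = flUp b1 T.y0 T.PS d := rfl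
    rw [h7, h8]
    ring
  rw [hwb, hsum]
  have hbr : 1 / 8 * (VS2 S T * (M.VL T * M'.VL T)) ≤
      L * M.Mp M' T b2 - U * (M.Mp M' T b2 - M.Mm M' T b2) := by
    have k1 : (1 / 2 * V) * (M.VL T * M'.VL T) ≤ L * M.Mp M' T b2 :=
      mul_le_mul hL1 c1 hV.le (by linarith)
    have k2 : U * (M.Mp M' T b2 - M.Mm M' T b2) ≤ U * (21 / 100 * (M.VL T * M'.VL T)) :=
      mul_le_mul_of_nonneg_left ((le_abs_self _).trans c3) hU0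
    have k3 : U * (21 / 100 * (M.VL T * M'.VL T)) ≤ (3 / 2 * V) * (21 / 100 * (M.VL T * M'.VL T)) :=
      mul_le_mul_of_nonneg_right hU1 (by linarith)
    have k4 : VS2 S T * (M.VL T * M'.VL T) ≤ V * (M.VL T * M'.VL T) := mul_le_mul_of_nonneg_right hVS hV.le
    have k5 : 0 ≤ V * (M.VL T * M'.VL T) := mul_nonneg hV0 hV.le
    have k6 : (1 / 2 * V) * (M.VL T * M'.VL T) = 1 / 2 * (V * (M.VL T * M'.VL T)) := by ring
    have k7 : (3 / 2 * V) * (21 / 100 * (M.VL T * M'.VL T)) = 63 / 200 * (V * (M.VL T * M'.VL T)) := by ring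
    rw [k6] at k1
    rw [k7] at k3
    linarith
  have hbr0 : 0 ≤ 1 / 8 * (VS2 S T * (M.VL T * M'.VL T)) := by
    have := mul_nonneg hVS0 hV.le
    linarith
  calc 1 / 8 * (1 / (2 ^ T.base.card * ((W0 : ℝ) ^ T.r) ^ S.k * T.D)) * VS2 S T * (M.VL T * M'.VL T) =
        (1 / (2 ^ T.base.card * ((W0 : ℝ) ^ T.r) ^ S.k * T.D)) * (1 / 8 * (VS2 S T * (M.VL T * M'.VL T))) := by ring
    _ ≤ _ := mul_le_mul hbase hbr hbr0 (hbp.le.trans hbase)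

end Pool.Agent.Lib.TT3
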