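import Pool.Agent.Lib.MP_092512_nt.TT.P.P13
import Pool.Agent.Lib.MP_092512_nt.TT.C.Q27

/-!
# P14: the forbidden primes for the pair

The conditions `Cd n`, `Cd' n'` and `fm ≥ 0` split: for the term `fm (X n)` sum over `n'` first (`P13_clq`: factor `3 W'`), for the term `fm (X' n')` sum over `n` first (`P13_cl`: factor `9 W`). `gp2` implies `gp` for `M` and for `M'`.
-/

set_option autoImplicit false

open Finset

namespace Pool.Agent.Lib.TT3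

open Pool.Agent.Lib.TTC

variable {S : MS} {T : Dat} {W0 : ℕ} {Z : Fin (S.k + 1) → ℕ} {M M' : Msr S} {δ0 δ1 : ℝ}

private theorem P14_split {α β : Type*} (A : Finset α) (B : Finset β) (w : α → ℝ) (w' : β → ℝ) (i f : α → ℝ) (i' f' : β → ℝ) :
    ∑ n ∈ A, ∑ n' ∈ B, w n * w' n' * (i n * i' n' * (f n + f' n')) =
      (∑ n ∈ A, w n * (i n * f n)) * (∑ n' ∈ B, w' n' * i' n') + (∑ n ∈ A, w n * i n) * ∑ n' ∈ B, w' n' * (i' n' * f' n') := by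
  rw [sum_mul_sum, sum_mul_sum, ← sum_add_distrib]
  refine sum_congr rfl fun n _ => ?_
  rw [← sum_add_distrib]
  exact sum_congr rfl fun n' _ => by ring

private theorem P14_cl1 (M : Msr S) (μ : S.TX) (ν : S.TY) : M.cl μ ν 1 0 = ∑ n ∈ range (M.nm + 1), M.Om μ ν n := by
  unfold Msr.cl
  rw [filter_true_of_mem fun n _ => Nat.modEq_one]

theorem P14 (hT : T.OK W0) (hS : S.OK3 T W0 Z) (hM : M.OK3 T W0 δ0 δ1) (hM' : M'.OK3 T W0 δ0 δ1) (hK : 4 * Real.log T.N ≤ T.y0)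
    (hm : ∀ μ ∈ S.MX, ∀ ν ∈ S.MY, (T.N : ℝ) ^ (-δ1) ≤ M'.m1 μ ν) (F F' : ℝ)
    (hF : ∑ μ ∈ S.MX, ∑ ν ∈ S.MY, ind (M.gp T μ ν) * ∑ n ∈ range (M.nm + 1), M.Om μ ν n *
      (ind (M.Cd T μ ν n) * ∑ c ∈ S.CC, M.fm T c μ ν (M.X μ ν n)) ≤ F)
    (hF' : ∑ μ ∈ S.MX, ∑ ν ∈ S.MY, ind (M'.gp T μ ν) * ∑ n ∈ range (M'.nm + 1), M'.Om μ ν n *
      (ind (M'.Cd T μ ν n) * ∑ c ∈ S.CC, M'.fm T c μ ν (M'.X μ ν n)) ≤ F') :
    ∑ μ ∈ S.MX, ∑ ν ∈ S.MY, ind (M.gp2 M' T μ ν) * M.S2 M' μ ν (fun n n' => ind (M.Cd T μ ν n) * ind (M'.Cd T μ ν n') *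
      ∑ c ∈ S.CC, (M.fm T c μ ν (M.X μ ν n) + M'.fm T c μ ν (M'.X μ ν n'))) ≤ 3 * M'.W * F + 9 * M.W * F' := by
  classical
  have hind1 : ∀ P : Prop, P → ind P = 1 := fun P h => by unfold ind; exact if_pos h
  have hind0 : ∀ P : Prop, ¬ P → ind P = 0 := fun P h => by unfold ind; exact if_neg h
  have hindn : ∀ P : Prop, 0 ≤ ind P := fun P => by
    by_cases h : P
    · rw [hind1 P h]
      norm_num
    · rw [hind0 P h]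
  have hind_le : ∀ P : Prop, ind P ≤ 1 := fun P => by
    by_cases h : P
    · rw [hind1 P h]
    · rw [hind0 P h]
      norm_num
  have hfm : ∀ (Q : Msr S) (c : S.Col) (μ : S.TX) (ν : S.TY) (X : ℕ), 0 ≤ Q.fm T c μ ν X := fun Q c μ ν X => by
    unfold Msr.fm
    split_ifs
    · positivity
    · exact le_rfl
  have hW := hM.W_pos
  have hW' := hM'.W_pos
  obtain ⟨A, hA⟩ : ∃ A : S.TX → S.TY → ℝ, ∀ μ ν, A μ ν = ∑ n ∈ range (M.nm + 1), M.Om μ ν n *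
      (ind (M.Cd T μ ν n) * ∑ c ∈ S.CC, M.fm T c μ ν (M.X μ ν n)) := ⟨_, fun _ _ => rfl⟩
  obtain ⟨B, hB⟩ : ∃ B : S.TX → S.TY → ℝ, ∀ μ ν, B μ ν = ∑ n ∈ range (M'.nm + 1), M'.Om μ ν n *
      (ind (M'.Cd T μ ν n) * ∑ c ∈ S.CC, M'.fm T c μ ν (M'.X μ ν n)) := ⟨_, fun _ _ => rfl⟩
  have hA0 : ∀ μ ν, 0 ≤ A μ ν := fun μ ν => by
    rw [hA]
    exact sum_nonneg fun n _ => mul_nonneg (hM.Om_nonneg _ _ _) (mul_nonneg (hindn _) (sum_nonneg fun c _ => hfm _ _ _ _ _))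
  have hB0 : ∀ μ ν, 0 ≤ B μ ν := fun μ ν => by
    rw [hB]
    exact sum_nonneg fun n _ => mul_nonneg (hM'.Om_nonneg _ _ _) (mul_nonneg (hindn _) (sum_nonneg fun c _ => hfm _ _ _ _ _))
  have key : ∀ μ ∈ S.MX, ∀ ν ∈ S.MY, ind (M.gp2 M' T μ ν) * M.S2 M' μ ν (fun n n' => ind (M.Cd T μ ν n) * ind (M'.Cd T μ ν n') *
      ∑ c ∈ S.CC, (M.fm T c μ ν (M.X μ ν n) + M'.fm T c μ ν (M'.X μ ν n'))) ≤
      3 * M'.W * (ind (M.gp T μ ν) * A μ ν) + 9 * M.W * (ind (M'.gp T μ ν) * B μ ν) := by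
    intro μ hμ ν hν
    by_cases hg : M.gp2 M' T μ ν
    swap
    · rw [hind0 _ hg, zero_mul]
      exact add_nonneg (mul_nonneg (by positivity) (mul_nonneg (hindn _) (hA0 _ _))) (mul_nonneg (by positivity) (mul_nonneg (hindn _) (hB0 _ _)))
    have hg1 : M.gp T μ ν := ⟨hg.1, hg.2.2⟩
    have hg2 : M'.gp T μ ν := ⟨hg.2.1, hg.2.2⟩
    rw [hind1 _ hg, hind1 _ hg1, hind1 _ hg2, one_mul, one_mul, one_mul]
    have hm0 := P13_pos hT hS hM' hK hμ hν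
    have e1 : M.S2 M' μ ν (fun n n' => ind (M.Cd T μ ν n) * ind (M'.Cd T μ ν n') *
      ∑ c ∈ S.CC, (M.fm T c μ ν (M.X μ ν n) + M'.fm T c μ ν (M'.X μ ν n'))) =
      A μ ν * ((M'.m1 μ ν)⁻¹ * ∑ n' ∈ range (M'.nm + 1), M'.Om μ ν n' * ind (M'.Cd T μ ν n')) +
        ((M'.m1 μ ν)⁻¹ * ∑ n ∈ range (M.nm + 1), M.Om μ ν n * ind (M.Cd T μ ν n)) * B μ ν := by
      unfold Msr.S2
      simp only [sum_add_distrib]
      rw [P14_split, hA, hB]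
      ring
    rw [e1]
    have c1 : (M'.m1 μ ν)⁻¹ * ∑ n' ∈ range (M'.nm + 1), M'.Om μ ν n' * ind (M'.Cd T μ ν n') ≤ 3 * M'.W := by
      refine le_trans (mul_le_mul_of_nonneg_left ?_ (inv_nonneg.2 hm0.le)) (P13_clq hT hS hM' hK hμ hν (hm μ hμ ν hν))
      rw [P14_cl1]
      exact sum_le_sum fun n _ => mul_le_of_le_one_right (hM'.Om_nonneg _ _ _) (hind_le _)
    have c2 : (M'.m1 μ ν)⁻¹ * ∑ n ∈ range (M.nm + 1), M.Om μ ν n * ind (M.Cd T μ ν n) ≤ 9 * M.W := by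
      refine le_trans (mul_le_mul_of_nonneg_left ?_ (inv_nonneg.2 hm0.le)) (P13_cl hT hS hM hM' hK hμ hν (hm μ hμ ν hν))
      rw [P14_cl1]
      exact sum_le_sum fun n _ => mul_le_of_le_one_right (hM.Om_nonneg _ _ _) (hind_le _)
    have d1 := mul_le_mul_of_nonneg_left c1 (hA0 μ ν)
    have d2 := mul_le_mul_of_nonneg_right c2 (hB0 μ ν)
    linarith
  refine (sum_le_sum fun μ hμ => sum_le_sum fun ν hν => key μ hμ ν hν).trans ?_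
  have e4 : ∑ μ ∈ S.MX, ∑ ν ∈ S.MY, (3 * M'.W * (ind (M.gp T μ ν) * A μ ν) + 9 * M.W * (ind (M'.gp T μ ν) * B μ ν)) =
      3 * M'.W * (∑ μ ∈ S.MX, ∑ ν ∈ S.MY, ind (M.gp T μ ν) * A μ ν) + 9 * M.W * ∑ μ ∈ S.MX, ∑ ν ∈ S.MY, ind (M'.gp T μ ν) * B μ ν := by
    simp only [sum_add_distrib, ← mul_sum]
  rw [e4]
  have f1 : ∑ μ ∈ S.MX, ∑ ν ∈ S.MY, ind (M.gp T μ ν) * A μ ν ≤ F := by
    refine le_trans (le_of_eq ?_) hF
    exact sum_congr rfl fun μ _ => sum_congr rfl fun ν _ => by rw [hA]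
  have f2 : ∑ μ ∈ S.MX, ∑ ν ∈ S.MY, ind (M'.gp T μ ν) * B μ ν ≤ F' := by
    refine le_trans (le_of_eq ?_) hF'
    exact sum_congr rfl fun μ _ => sum_congr rfl fun ν _ => by rw [hB]
  exact add_le_add (mul_le_mul_of_nonneg_left f1 (by positivity)) (mul_le_mul_of_nonneg_left f2 (by positivity))

end Pool.Agent.Lib.TT3
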