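import Pool.Agent.Lib.MP_092512_nt.TT.P.K8
import Pool.Agent.Lib.MP_092512_nt.TT.P.P02
import Pool.Agent.Lib.MP_092512_nt.TT.P.P08
import Pool.Agent.Lib.MP_092512_nt.TT.C.Q03
import Pool.Agent.Lib.MP_092512_nt.TT.C.Q27

/-!
# P15: PAIR2 from the second moments (Chebyshev, Markov)

`e0` is any positive number with `2 e0 ≤ |CC| wb2` for good pairs of tuples. `SS`, `SL`, `SF`, `SN` bound the four sums.
`P15_cyc`: if `∑_c (fm c X + fm c X') < RR2`, then one colouring has `fm c X + fm c X' < w2 ≤ [LL, bad2 = ∅, hits = ∅, hits' = ∅]` (`P02`), so `fm c X < 1`, `fm c X' < 1`, and `K8_one` for `X` and for `X'` (`LL` for `X'` from `LL` for `X`: `X ≡ X' (W0)`).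
`X = l X'` with `X'` free of primes `≤ y0` (`Cd`), so a prime `p ≤ y0` divides `X` only if `p = l`.
Then as in `Q28`: `ind (¬ Linked2) ≤ ∑ (fm + fm')/e0 + 2 ((RR2 - RR21)² + (RR21 - |CC| wb2)²)/e0²`.
-/

set_option autoImplicit false

open Finset

namespace Pool.Agent.Lib.TT3

open Pool.Agent.Lib.TTC

variable {S : MS} {T : Dat} {W0 : ℕ} {Z : Fin (S.k + 1) → ℕ} {M M' : Msr S} {δ0 δ1 : ℝ} {b1 b2 pb : ℕ}

private theorem P15_ind1 {P : Prop} (h : P) : ind P = 1 := by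
  unfold ind
  exact if_pos h

private theorem P15_ind0 {P : Prop} (h : ¬ P) : ind P = 0 := by
  unfold ind
  exact if_neg h

private theorem P15_indn (P : Prop) : 0 ≤ ind P := by
  by_cases h : P
  · rw [P15_ind1 h]
    norm_num
  · rw [P15_ind0 h]

private theorem P15_indl (P : Prop) : ind P ≤ 1 := by
  by_cases h : P
  · rw [P15_ind1 h]
  · rw [P15_ind0 h]
    norm_num

private theorem P15_fm (Q : Msr S) (T : Dat) (c : S.Col) (μ : S.TX) (ν : S.TY) (X : ℕ) : 0 ≤ Q.fm T c μ ν X := by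
  unfold Msr.fm
  split_ifs
  · positivity
  · exact le_rfl

private theorem P15_l {T : Dat} {W0 : ℕ} (hT : T.OK W0) {X : ℕ} (hX : ∃ X' : ℕ, X = T.l * X' ∧ 0 < X' ∧ ∀ p : ℕ, p.Prime → p ≤ T.y0 → ¬ p ∣ X')
    {p : ℕ} (hp : p.Prime) (hpy : p ≤ T.y0) : ¬ p ∣ X ∨ p = T.l := by
  obtain ⟨X', rfl, -, h⟩ := hX
  by_cases h1 : p ∣ T.l * X'
  · rcases (Nat.Prime.dvd_mul hp).1 h1 with h2 | h2
    · rcases hT.l_or with h3 | h3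
      · rw [h3, Nat.dvd_one] at h2
        exact absurd h2 hp.ne_one
      · exact Or.inr ((Nat.prime_dvd_prime_iff_eq hp h3.1).1 h2)
    · exact absurd h2 (h p hp hpy)
  · exact Or.inl h1

theorem P15_cls {T : Dat} {W0 : ℕ} (hT : T.OK W0) {X : ℕ} (h : T.Y X ≡ T.yc [MOD W0 ^ T.r]) :
    ∀ p : ℕ, p.Prime → p < T.p0 → T.Y X ≡ T.yc [MOD p ^ T.r] :=
  fun p hp hp0 => h.of_dvd (pow_dvd_pow_of_dvd ((hT.W0_pr p hp).2 hp0) _)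

theorem P15_XX {T : Dat} {W0 : ℕ} (hT : T.OK W0) {X X' : ℕ} (h : T.Y X ≡ T.yc [MOD W0 ^ T.r]) (h' : T.Y X' ≡ T.yc [MOD W0 ^ T.r])
    (h0 : 0 < T.Y X) (h0' : 0 < T.Y X') : (X : ℤ) ≡ (X' : ℤ) [ZMOD (W0 : ℤ)] := by
  have e : ∀ Z : ℕ, 0 < T.Y Z → ((T.Y Z : ℕ) : ℤ) = (Z : ℤ) - T.D * T.h := by
    intro Z hZ
    refine T.Y_cast ?_
    unfold Dat.Y at hZ
    have h7 := Int.lt_toNat.1 hZ
    push_cast at h7
    linarith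
  have h1 : T.Y X ≡ T.Y X' [MOD W0] :=
    (h.trans h'.symm).of_dvd (dvd_pow_self W0 (by have := hT.r_pos; omega))
  have h2 := (Int.natCast_modEq_iff).2 h1
  rw [e X h0, e X' h0'] at h2
  have h3 : (X : ℤ) = (X - T.D * T.h) + T.D * T.h := by ring
  have h4 : (X' : ℤ) = (X' - T.D * T.h) + T.D * T.h := by ring
  rw [h3, h4]
  exact h2.add_right _

private theorem P15_cop {T : Dat} {W0 : ℕ} (hT : T.OK W0) {X : ℕ} (hX : ∃ X' : ℕ, X = T.l * X' ∧ 0 < X' ∧ ∀ p : ℕ, p.Prime → p ≤ T.y0 → ¬ p ∣ X') :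
    IsCoprime (X : ℤ) (W0 : ℤ) := by
  rw [Nat.isCoprime_iff_coprime]
  refine Nat.coprime_of_dvd fun p hp h1 h2 => ?_
  have h3 := (hT.W0_pr p hp).1 h2
  have h4 := hT.p0_le
  have h5 := hT.y_le
  rcases P15_l hT hX hp (by omega) with h6 | h6
  · exact h6 h1
  · rcases hT.l_or with h7 | h7
    · exact hp.ne_one (h6.trans h7)
    · omega

/-- one pair `n`, `n'` of a good pair of tuples -/
private theorem P15_one {e0 f r r1 w : ℝ} (he0 : 0 < e0) (hf : 0 ≤ f) (h : 2 * e0 ≤ w) (hr : r ≤ f) :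
    1 ≤ f / e0 + 2 / e0 ^ 2 * ((r - r1) ^ 2 + (r1 - w) ^ 2) := by
  have h0 : 0 ≤ 2 / e0 ^ 2 * ((r - r1) ^ 2 + (r1 - w) ^ 2) := by positivity
  by_cases h1 : e0 ≤ f
  · have h2 : 1 ≤ f / e0 := (one_le_div he0).2 h1
    linarith
  · push Not at h1
    have h2 : 0 ≤ f / e0 := div_nonneg hf he0.le
    have h3 : e0 ^ 2 ≤ (w - r) ^ 2 := by
      have h4 : e0 ≤ w - r := by linarith
      nlinarith
    have h5 : (w - r) ^ 2 ≤ 2 * ((r - r1) ^ 2 + (r1 - w) ^ 2) := by nlinarith [sq_nonneg ((r - r1) - (r1 - w))]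
    have h6 : 1 ≤ 2 / e0 ^ 2 * ((r - r1) ^ 2 + (r1 - w) ^ 2) := by
      rw [div_mul_eq_mul_div, one_le_div (by positivity)]
      exact h3.trans h5
    linarith

/-- monotonicity of the double sum -/
private theorem P15_mono {μ : S.TX} {ν : S.TY} (hO : ∀ n, 0 ≤ M.Om μ ν n) (hO' : ∀ n, 0 ≤ M'.Om μ ν n) (hm : 0 < M'.m1 μ ν) {F G : ℕ → ℕ → ℝ}
    (h : ∀ n n', M.Om μ ν n ≠ 0 → M'.Om μ ν n' ≠ 0 → F n n' ≤ G n n') : M.S2 M' μ ν F ≤ M.S2 M' μ ν G := by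
  unfold Msr.S2
  refine mul_le_mul_of_nonneg_left (sum_le_sum fun n _ => sum_le_sum fun n' _ => ?_) (inv_nonneg.2 hm.le)
  by_cases h1 : M.Om μ ν n = 0
  · rw [h1]
    simp
  by_cases h2 : M'.Om μ ν n' = 0
  · rw [h2]
    simp
  exact mul_le_mul_of_nonneg_left (h n n' h1 h2) (mul_nonneg (hO n) (hO' n'))

private theorem P15_nn {μ : S.TX} {ν : S.TY} (hO : ∀ n, 0 ≤ M.Om μ ν n) (hO' : ∀ n, 0 ≤ M'.Om μ ν n) (hm : 0 < M'.m1 μ ν) {F : ℕ → ℕ → ℝ}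
    (h : ∀ n n', 0 ≤ F n n') : 0 ≤ M.S2 M' μ ν F := by
  unfold Msr.S2
  exact mul_nonneg (inv_nonneg.2 hm.le) (sum_nonneg fun n _ => sum_nonneg fun n' _ => mul_nonneg (mul_nonneg (hO n) (hO' n')) (h n n'))

private theorem P15_lin {μ : S.TX} {ν : S.TY} (a b : ℝ) (F G H : ℕ → ℕ → ℝ) :
    M.S2 M' μ ν (fun n n' => a * F n n' + b * (G n n' + H n n')) = a * M.S2 M' μ ν F + b * (M.S2 M' μ ν G + M.S2 M' μ ν H) := by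
  unfold Msr.S2
  have h1 : ∀ n ∈ range (M.nm + 1), ∀ n' ∈ range (M'.nm + 1), M.Om μ ν n * M'.Om μ ν n' * (a * F n n' + b * (G n n' + H n n')) =
      a * (M.Om μ ν n * M'.Om μ ν n' * F n n') + b * (M.Om μ ν n * M'.Om μ ν n' * G n n') + b * (M.Om μ ν n * M'.Om μ ν n' * H n n') := by
    intro n _ n' _
    ring
  rw [sum_congr rfl fun n hn => sum_congr rfl fun n' hn' => h1 n hn n' hn']
  simp only [sum_add_distrib, ← mul_sum]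
  ring

theorem P15_cyc (hT : T.OK W0) (hS : S.OK3 T W0 Z) (b1 b2 : ℕ) {μ : S.TX} {ν : S.TY} (hμ : μ ∈ S.MX) (hν : ν ∈ S.MY)
    (hcop : (S.prX id μ).Coprime (S.prY id ν)) {X X' : ℕ}
    (h1 : S.prX id μ ∣ X) (h2 : S.prY id ν ∣ T.Y X) (h4 : 4 * (T.D * T.h.natAbs) < T.Y X)
    (hX : ∃ X1 : ℕ, X = T.l * X1 ∧ 0 < X1 ∧ ∀ p : ℕ, p.Prime → p ≤ T.y0 → ¬ p ∣ X1)
    (hY : 0 < T.Y X ∧ ∀ p : ℕ, p.Prime → p ≤ T.y0 → ¬ p ∣ T.Y X)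
    (h1' : S.prX id μ ∣ X') (h2' : S.prY id ν ∣ T.Y X') (h4' : 4 * (T.D * T.h.natAbs) < T.Y X')
    (hX' : ∃ X1 : ℕ, X' = T.l * X1 ∧ 0 < X1 ∧ ∀ p : ℕ, p.Prime → p ≤ T.y0 → ¬ p ∣ X1)
    (hY' : 0 < T.Y X' ∧ ∀ p : ℕ, p.Prime → p ≤ T.y0 → ¬ p ∣ T.Y X')
    (hXX : T.Y X ≡ T.yc [MOD W0 ^ T.r] ∧ T.Y X' ≡ T.yc [MOD W0 ^ T.r])
    (hw : ∑ c ∈ S.CC, (M.fm T c μ ν X + M'.fm T c μ ν X') < M.RR2 M' T b1 b2 μ ν X X') : S.Linked2 T μ ν X X' := by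
  obtain ⟨c, hc, hlt⟩ := exists_lt_of_sum_lt hw
  have hy0 : 2 ≤ T.y0 := by
    have h1 := hS.p0_lo
    have h2 := hT.p0_le
    have h3 := hT.y_le
    have h5 := T.F_ge S.k
    have h4 : 1 ≤ (T.F S.k) ^ 2 := Nat.one_le_pow _ _ (by omega)
    omega
  have hz : 2 ≤ T.z := by have := hT.y0_lt; omega
  have hk := P02_51 (M := M) (M' := M') (T := T) (c := c) (μ := μ) (ν := ν) hy0 hz b1 b2 (X : ℤ) (X' : ℤ)
  have f1 := P15_fm M T c μ ν X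
  have f2 := P15_fm M' T c μ ν X'
  by_cases hall : S.LL T c μ ν (X : ℤ) ∧ S.bad T c μ ν (X : ℤ) = ∅ ∧ S.bad T c μ ν (X' : ℤ) = ∅ ∧
      S.hits T M.v M.x0 M.t2 c μ ν (X : ℤ) = ∅ ∧ S.hits T M'.v M'.x0 M'.t2 c μ ν (X' : ℤ) = ∅
  swap
  · rw [P15_ind0 hall] at hk
    linarith
  rw [P15_ind1 hall] at hk
  obtain ⟨a1, a2, a3, a4, a5⟩ := hall
  refine ⟨c, K8_one M hT hS hc hμ hν hcop h1 h2 h4 (P15_cls hT hXX.1) (fun p hp hpy => ⟨hY.2 p hp hpy, P15_l hT hX hp hpy⟩) a1 a2 a4 (by linarith),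
    K8_one M' hT hS hc hμ hν hcop h1' h2' h4' (P15_cls hT hXX.2) (fun p hp hpy => ⟨hY'.2 p hp hpy, P15_l hT hX' hp hpy⟩) ((P02_LL hT (P15_XX hT hXX.1 hXX.2 hY.1 hY'.1)).1 a1) a3 a5 (by linarith)⟩

theorem P15 (hT : T.OK W0) (hS : S.OK3 T W0 Z) (hM : M.OK3 T W0 δ0 δ1) (hM' : M'.OK3 T W0 δ0 δ1) (e0 : ℝ) (he0 : 0 < e0)
    (hm : ∀ μ ∈ S.MX, ∀ ν ∈ S.MY, 0 < M'.m1 μ ν)
    (hwb : ∀ μ ∈ S.MX, ∀ ν ∈ S.MY, ¬ S.badpair T 0 T.y0 μ ν → ¬ S.evp T μ ν → ∀ X X' : ℤ, IsCoprime X (W0 : ℤ) → X ≡ X' [ZMOD (W0 : ℤ)] →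
      2 * e0 ≤ S.CC.card * M.wb2 M' T b1 b2 μ ν X X')
    (SS SL SF SN : ℝ)
    (hSS : ∑ μ ∈ S.MX, ∑ ν ∈ S.MY, ind (M.gp2 M' T μ ν) * M.S2 M' μ ν (fun n n' =>
      cg W0 (M.X μ ν n) (M'.X μ ν n') *
        (M.RR21 M' T b1 b2 μ ν (M.X μ ν n) (M'.X μ ν n') - (S.CC.card : ℝ) * M.wb2 M' T b1 b2 μ ν (M.X μ ν n) (M'.X μ ν n')) ^ 2) ≤ SS)
    (hSL : ∑ μ ∈ S.MX, ∑ ν ∈ S.MY, ind (M.gp2 M' T μ ν) * M.S2 M' μ ν (fun n n' =>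
      cg W0 (M.X μ ν n) (M'.X μ ν n') *
        (M.RR2 M' T b1 b2 μ ν (M.X μ ν n) (M'.X μ ν n') - M.RR21 M' T b1 b2 μ ν (M.X μ ν n) (M'.X μ ν n')) ^ 2) ≤ SL)
    (hSF : ∑ μ ∈ S.MX, ∑ ν ∈ S.MY, ind (M.gp2 M' T μ ν) * M.S2 M' μ ν (fun n n' => ind (M.Cd T μ ν n) * ind (M'.Cd T μ ν n') *
      ∑ c ∈ S.CC, (M.fm T c μ ν (M.X μ ν n) + M'.fm T c μ ν (M'.X μ ν n'))) ≤ SF)
    (hSN : ∑ μ ∈ S.MX, ∑ ν ∈ S.MY, ind (¬ M.gp2 M' T μ ν ∧ ¬ S.badpair T 0 pb μ ν ∧ ¬ S.evp T μ ν) * M.S2 M' μ ν (fun _ _ => 1) ≤ SN) :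
    ∑ μ ∈ S.MX, ∑ ν ∈ S.MY, ind (¬ S.badpair T 0 pb μ ν ∧ ¬ S.evp T μ ν) * M.S2 M' μ ν (fun n n' => ind (M.Cd T μ ν n) * (ind (M'.Cd T μ ν n') *
      (ind (T.Y (M.X μ ν n) ≡ T.yc [MOD W0 ^ T.r] ∧ T.Y (M'.X μ ν n') ≡ T.yc [MOD W0 ^ T.r]) * ind (¬ S.Linked2 T μ ν (M.X μ ν n) (M'.X μ ν n'))))) ≤
    SF / e0 + 2 * (SL + SS) / e0 ^ 2 + SN := by
  classical
  obtain ⟨F1, hF1⟩ : ∃ F1 : S.TX → S.TY → ℝ, ∀ μ ν, F1 μ ν = M.S2 M' μ ν (fun n n' => ind (M.Cd T μ ν n) * ind (M'.Cd T μ ν n') *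
      ∑ c ∈ S.CC, (M.fm T c μ ν (M.X μ ν n) + M'.fm T c μ ν (M'.X μ ν n'))) := ⟨_, fun _ _ => rfl⟩
  obtain ⟨F2, hF2⟩ : ∃ F2 : S.TX → S.TY → ℝ, ∀ μ ν, F2 μ ν = M.S2 M' μ ν (fun n n' => cg W0 (M.X μ ν n) (M'.X μ ν n') *
        (M.RR2 M' T b1 b2 μ ν (M.X μ ν n) (M'.X μ ν n') - M.RR21 M' T b1 b2 μ ν (M.X μ ν n) (M'.X μ ν n')) ^ 2) := ⟨_, fun _ _ => rfl⟩
  obtain ⟨F3, hF3⟩ : ∃ F3 : S.TX → S.TY → ℝ, ∀ μ ν, F3 μ ν = M.S2 M' μ ν (fun n n' => cg W0 (M.X μ ν n) (M'.X μ ν n') *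
        (M.RR21 M' T b1 b2 μ ν (M.X μ ν n) (M'.X μ ν n') - (S.CC.card : ℝ) * M.wb2 M' T b1 b2 μ ν (M.X μ ν n) (M'.X μ ν n')) ^ 2) := ⟨_, fun _ _ => rfl⟩
  obtain ⟨F4, hF4⟩ : ∃ F4 : S.TX → S.TY → ℝ, ∀ μ ν, F4 μ ν = M.S2 M' μ ν (fun _ _ => 1) := ⟨_, fun _ _ => rfl⟩
  simp only [← hF1] at hSF
  simp only [← hF2] at hSL
  simp only [← hF3] at hSS
  simp only [← hF4] at hSN
  have hcgn : ∀ x x' : ℤ, 0 ≤ cg W0 x x' := fun x x' => P15_indn _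
  have key : ∀ μ ∈ S.MX, ∀ ν ∈ S.MY, ind (¬ S.badpair T 0 pb μ ν ∧ ¬ S.evp T μ ν) * M.S2 M' μ ν (fun n n' => ind (M.Cd T μ ν n) * (ind (M'.Cd T μ ν n') *
      (ind (T.Y (M.X μ ν n) ≡ T.yc [MOD W0 ^ T.r] ∧ T.Y (M'.X μ ν n') ≡ T.yc [MOD W0 ^ T.r]) * ind (¬ S.Linked2 T μ ν (M.X μ ν n) (M'.X μ ν n'))))) ≤
      (ind (M.gp2 M' T μ ν) * F1 μ ν) / e0 + 2 / e0 ^ 2 * (ind (M.gp2 M' T μ ν) * F2 μ ν + ind (M.gp2 M' T μ ν) * F3 μ ν) +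
        ind (¬ M.gp2 M' T μ ν ∧ ¬ S.badpair T 0 pb μ ν ∧ ¬ S.evp T μ ν) * F4 μ ν := by
    intro μ hμ ν hν
    have hO : ∀ n, 0 ≤ M.Om μ ν n := fun n => hM.Om_nonneg _ _ _
    have hO' : ∀ n, 0 ≤ M'.Om μ ν n := fun n => hM'.Om_nonneg _ _ _
    have hm0 := hm μ hμ ν hν
    have n1 : 0 ≤ F1 μ ν := by
      rw [hF1]
      exact P15_nn hO hO' hm0 fun n n' => mul_nonneg (mul_nonneg (P15_indn _) (P15_indn _))
        (sum_nonneg fun c _ => add_nonneg (P15_fm _ _ _ _ _ _) (P15_fm _ _ _ _ _ _))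
    have n2 : 0 ≤ F2 μ ν := by
      rw [hF2]
      exact P15_nn hO hO' hm0 fun n n' => mul_nonneg (hcgn _ _) (sq_nonneg _)
    have n3 : 0 ≤ F3 μ ν := by
      rw [hF3]
      exact P15_nn hO hO' hm0 fun n n' => mul_nonneg (hcgn _ _) (sq_nonneg _)
    have n4 : 0 ≤ F4 μ ν := by
      rw [hF4]
      exact P15_nn hO hO' hm0 fun n n' => zero_le_one
    have r1 : 0 ≤ (ind (M.gp2 M' T μ ν) * F1 μ ν) / e0 := div_nonneg (mul_nonneg (P15_indn _) n1) he0.le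
    have r2 : 0 ≤ 2 / e0 ^ 2 * (ind (M.gp2 M' T μ ν) * F2 μ ν + ind (M.gp2 M' T μ ν) * F3 μ ν) :=
      mul_nonneg (by positivity) (add_nonneg (mul_nonneg (P15_indn _) n2) (mul_nonneg (P15_indn _) n3))
    have r4 : 0 ≤ ind (¬ M.gp2 M' T μ ν ∧ ¬ S.badpair T 0 pb μ ν ∧ ¬ S.evp T μ ν) * F4 μ ν := mul_nonneg (P15_indn _) n4
    by_cases hbp : ¬ S.badpair T 0 pb μ ν ∧ ¬ S.evp T μ ν
    swap
    · rw [P15_ind0 hbp, zero_mul]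
      linarith
    rw [P15_ind1 hbp, one_mul]
    by_cases hgp : M.gp2 M' T μ ν
    · have hgp' := hgp
      obtain ⟨hadm, -, hnb, hne⟩ := hgp'
      have hmain : M.S2 M' μ ν (fun n n' => ind (M.Cd T μ ν n) * (ind (M'.Cd T μ ν n') *
          (ind (T.Y (M.X μ ν n) ≡ T.yc [MOD W0 ^ T.r] ∧ T.Y (M'.X μ ν n') ≡ T.yc [MOD W0 ^ T.r]) * ind (¬ S.Linked2 T μ ν (M.X μ ν n) (M'.X μ ν n'))))) ≤
          1 / e0 * F1 μ ν + 2 / e0 ^ 2 * (F2 μ ν + F3 μ ν) := by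
        rw [hF1, hF2, hF3, ← P15_lin]
        refine P15_mono hO hO' hm0 fun n n' hO1 hO2 => ?_
        have hfm : 0 ≤ ∑ c ∈ S.CC, (M.fm T c μ ν (M.X μ ν n) + M'.fm T c μ ν (M'.X μ ν n')) :=
          sum_nonneg fun c _ => add_nonneg (P15_fm _ _ _ _ _ _) (P15_fm _ _ _ _ _ _)
        have q1 : 0 ≤ 1 / e0 * (ind (M.Cd T μ ν n) * ind (M'.Cd T μ ν n') *
            ∑ c ∈ S.CC, (M.fm T c μ ν (M.X μ ν n) + M'.fm T c μ ν (M'.X μ ν n'))) :=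
          mul_nonneg (by positivity) (mul_nonneg (mul_nonneg (P15_indn _) (P15_indn _)) hfm)
        have q2 : 0 ≤ 2 / e0 ^ 2 * (cg W0 (M.X μ ν n) (M'.X μ ν n') *
              (M.RR2 M' T b1 b2 μ ν (M.X μ ν n) (M'.X μ ν n') - M.RR21 M' T b1 b2 μ ν (M.X μ ν n) (M'.X μ ν n')) ^ 2 +
            cg W0 (M.X μ ν n) (M'.X μ ν n') *
              (M.RR21 M' T b1 b2 μ ν (M.X μ ν n) (M'.X μ ν n') - (S.CC.card : ℝ) * M.wb2 M' T b1 b2 μ ν (M.X μ ν n) (M'.X μ ν n')) ^ 2) :=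
          mul_nonneg (by positivity) (add_nonneg (mul_nonneg (hcgn _ _) (sq_nonneg _)) (mul_nonneg (hcgn _ _) (sq_nonneg _)))
        by_cases hCd : M.Cd T μ ν n
        swap
        · rw [P15_ind0 hCd, zero_mul, zero_mul, zero_mul, mul_zero]
          linarith
        by_cases hCd' : M'.Cd T μ ν n'
        swap
        · rw [P15_ind0 hCd'] at q1
          rw [P15_ind0 hCd', zero_mul, mul_zero]
          linarith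
        by_cases hYY : T.Y (M.X μ ν n) ≡ T.yc [MOD W0 ^ T.r] ∧ T.Y (M'.X μ ν n') ≡ T.yc [MOD W0 ^ T.r]
        swap
        · rw [P15_ind0 hYY, zero_mul, mul_zero, mul_zero]
          linarith
        by_cases hL : S.Linked2 T μ ν (M.X μ ν n) (M'.X μ ν n')
        · rw [P15_ind0 (not_not.2 hL), mul_zero, mul_zero, mul_zero]
          linarith
        have hCd1 := hCd
        have hCd2 := hCd'
        obtain ⟨d1, d2⟩ := hCd1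
        obtain ⟨d1', d2'⟩ := hCd2
        have hXX : (M.X μ ν n : ℤ) ≡ (M'.X μ ν n' : ℤ) [ZMOD (W0 : ℤ)] := P15_XX hT hYY.1 hYY.2 d2.1 d2'.1
        have hcop : IsCoprime (M.X μ ν n : ℤ) (W0 : ℤ) := P15_cop hT d1
        have hcg : cg W0 (M.X μ ν n) (M'.X μ ν n') = 1 := P15_ind1 ⟨hcop, hXX⟩
        rw [P15_ind1 hCd, P15_ind1 hCd', P15_ind1 hYY, P15_ind1 hL, hcg, one_mul, one_mul, one_mul, one_mul, one_mul, one_mul]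
        have hRf : M.RR2 M' T b1 b2 μ ν (M.X μ ν n) (M'.X μ ν n') ≤ ∑ c ∈ S.CC, (M.fm T c μ ν (M.X μ ν n) + M'.fm T c μ ν (M'.X μ ν n')) := by
          by_contra hlt
          push Not at hlt
          exact hL (P15_cyc hT hS b1 b2 hμ hν hadm.2 (hM.X_dvd μ ν n hO1) (hM.Y_dvd μ ν n hO1) (hM.Y_lo μ ν n hO1)
            d1 d2 (hM'.X_dvd μ ν n' hO2) (hM'.Y_dvd μ ν n' hO2) (hM'.Y_lo μ ν n' hO2) d1' d2' hYY hlt)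
        have h9 := P15_one he0 hfm (hwb μ hμ ν hν hnb hne _ _ hcop hXX) hRf (r1 := M.RR21 M' T b1 b2 μ ν (M.X μ ν n) (M'.X μ ν n'))
        rw [div_eq_inv_mul, inv_eq_one_div] at h9
        exact h9
      rw [P15_ind1 hgp, one_mul, one_mul, one_mul]
      have e1 : 1 / e0 * F1 μ ν = F1 μ ν / e0 := by ring
      rw [e1] at hmain
      linarith
    · have h1 : M.S2 M' μ ν (fun n n' => ind (M.Cd T μ ν n) * (ind (M'.Cd T μ ν n') *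
          (ind (T.Y (M.X μ ν n) ≡ T.yc [MOD W0 ^ T.r] ∧ T.Y (M'.X μ ν n') ≡ T.yc [MOD W0 ^ T.r]) * ind (¬ S.Linked2 T μ ν (M.X μ ν n) (M'.X μ ν n'))))) ≤ F4 μ ν := by
        rw [hF4]
        refine P15_mono hO hO' hm0 fun n n' _ _ => ?_
        exact mul_le_one₀ (P15_indl _) (mul_nonneg (P15_indn _) (mul_nonneg (P15_indn _) (P15_indn _)))
          (mul_le_one₀ (P15_indl _) (mul_nonneg (P15_indn _) (P15_indn _)) (mul_le_one₀ (P15_indl _) (P15_indn _) (P15_indl _)))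
      rw [P15_ind1 (⟨hgp, hbp⟩ : ¬ M.gp2 M' T μ ν ∧ ¬ S.badpair T 0 pb μ ν ∧ ¬ S.evp T μ ν), one_mul]
      linarith
  refine (sum_le_sum fun μ hμ => sum_le_sum fun ν hν => key μ hμ ν hν).trans ?_
  have e4 : ∑ μ ∈ S.MX, ∑ ν ∈ S.MY, ((ind (M.gp2 M' T μ ν) * F1 μ ν) / e0 + 2 / e0 ^ 2 * (ind (M.gp2 M' T μ ν) * F2 μ ν +
      ind (M.gp2 M' T μ ν) * F3 μ ν) + ind (¬ M.gp2 M' T μ ν ∧ ¬ S.badpair T 0 pb μ ν ∧ ¬ S.evp T μ ν) * F4 μ ν) =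
      (∑ μ ∈ S.MX, ∑ ν ∈ S.MY, ind (M.gp2 M' T μ ν) * F1 μ ν) / e0 +
        2 / e0 ^ 2 * (∑ μ ∈ S.MX, ∑ ν ∈ S.MY, ind (M.gp2 M' T μ ν) * F2 μ ν + ∑ μ ∈ S.MX, ∑ ν ∈ S.MY, ind (M.gp2 M' T μ ν) * F3 μ ν) +
        ∑ μ ∈ S.MX, ∑ ν ∈ S.MY, ind (¬ M.gp2 M' T μ ν ∧ ¬ S.badpair T 0 pb μ ν ∧ ¬ S.evp T μ ν) * F4 μ ν := by
    simp only [sum_add_distrib, ← sum_div, ← mul_sum]
  rw [e4]
  have g1 := div_le_div_of_nonneg_right hSF he0.le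
  have g2 : 2 / e0 ^ 2 * (∑ μ ∈ S.MX, ∑ ν ∈ S.MY, ind (M.gp2 M' T μ ν) * F2 μ ν + ∑ μ ∈ S.MX, ∑ ν ∈ S.MY, ind (M.gp2 M' T μ ν) * F3 μ ν) ≤
      2 / e0 ^ 2 * (SL + SS) := mul_le_mul_of_nonneg_left (add_le_add hSL hSS) (by positivity)
  have g3 : 2 / e0 ^ 2 * (SL + SS) = 2 * (SL + SS) / e0 ^ 2 := by ring
  linarith

end Pool.Agent.Lib.TT3
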