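import Pool.Agent.Lib.MP_092512_nt.TT.P.D3
import Pool.Agent.Lib.MP_092512_nt.TT.C.QN0

/-!
# QN0: the hypotheses of PAIR2 with exponents

`PH3` is `PH` (TC/QN0) with the predicates `OK3`, `An3` (one measure). `PC.OK2`: constants for the pair. `PH2`: two measures with the same data; `hm1` (`1/m1' ≤ N^(δ1/16)`) for the second measure.
-/

set_option autoImplicit false

open Finset

namespace Pool.Agent.Lib.TT3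

open Pool.Agent.Lib.TTC

/-- the hypotheses for one measure -/
structure PH3 (c : PC) (S : MS) (T : Dat) (M : Msr S) (W0 : ℕ) (Z : Fin (S.k + 1) → ℕ) (p1 Q0 pb : ℕ) (η : ℝ) : Prop where
  hT : T.OK W0
  hS : S.OK3 T W0 Z
  hA : S.An3 T p1 Q0 η c.Cα
  hM : M.OK3 T W0 c.δ0 c.δ1
  hk : S.k = c.k
  hF : T.F S.k = c.F
  hWr : W0 ^ T.r ≤ c.W1
  hD : (T.D : ℝ) ≤ (Real.log T.N) ^ c.CD
  hy1 : (Real.log T.N) ^ c.CY ≤ T.y0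
  hy2 : (T.y0 : ℝ) ≤ (Real.log T.N) ^ (c.CY + 1)
  hz1 : Real.exp (Real.log T.N / (Real.log (Real.log T.N)) ^ 2) ≤ T.z
  hz2 : (T.z : ℝ) ≤ (T.N : ℝ) ^ c.ζ
  hp2 : (p1 : ℝ) ≤ (Real.log T.N) ^ (2 * c.CY + 5)
  hQ : (Real.log T.N) ^ c.A ≤ Q0
  hη : η ≤ 1 / (Real.log T.N) ^ c.Cη
  hC1 : T.D * (Real.log T.N) ^ (5 * c.F + c.B + 10) ≤ S.CC.card
  hC2 : ((c.k + 1 : ℕ) : ℝ) ^ (2 * S.n0) ≤ 2 * S.CC.card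
  hC3 : 4 ^ c.k * ((c.k * (c.k + 1) : ℕ) : ℝ) ^ (2 * S.n0) * (Real.log T.N) ^ (c.B + 10) ≤ (S.CC.card : ℝ) ^ 2
  hcard : (S.MX.card : ℝ) * S.MY.card ≤ (T.N : ℝ) ^ (c.δ1 / 8)
  hrX : 1 / (Real.log T.N) ^ c.Cf ≤ ∑ μ ∈ S.MX, S.prX (fun l => 1 / (l : ℝ)) μ
  hrY : 1 / (Real.log T.N) ^ c.Cf ≤ ∑ ν ∈ S.MY, S.prY (fun l => 1 / (l : ℝ)) ν
  hpb : Real.log T.N ≤ pb

theorem PH3.hW {c : PC} {S : MS} {T : Dat} {M : Msr S} {W0 : ℕ} {Z : Fin (S.k + 1) → ℕ} {p1 Q0 pb : ℕ} {η : ℝ}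
    (h : PH3 c S T M W0 Z p1 Q0 pb η) : W0 ≤ c.W1 :=
  (Nat.le_self_pow (by have := h.hT.r_pos; omega) _).trans h.hWr

/-- relations between the constants for the pair -/
structure _root_.Pool.Agent.Lib.TTC.PC.OK2 (c : PC) : Prop extends c.OK where
  f1' : flK (16 * ((c.F : ℕ) : ℝ)) * (1 / 2) ^ c.b1 ≤ 1 / 2
  Y1' : c.CD + 24 * c.F + c.B + 40 ≤ c.CY

/-- the hypotheses of PAIR2 -/
structure PH2 (c : PC) (S : MS) (T : Dat) (M M' : Msr S) (W0 : ℕ) (Z : Fin (S.k + 1) → ℕ) (p1 Q0 pb : ℕ) (η : ℝ) : Prop where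
  h : PH3 c S T M W0 Z p1 Q0 pb η
  h' : PH3 c S T M' W0 Z p1 Q0 pb η
  hC1' : T.D * (Real.log T.N) ^ (16 * c.F + c.B + 20) ≤ S.CC.card
  hC3' : 4 ^ c.k * ((c.k * (c.k + 1) : ℕ) : ℝ) ^ (2 * S.n0) * (Real.log T.N) ^ (c.B + 14) ≤ (S.CC.card : ℝ) ^ 2
  hm1 : ∀ μ ∈ S.MX, ∀ ν ∈ S.MY, 1 ≤ (T.N : ℝ) ^ (c.δ1 / 16) * M'.m1 μ ν

end Pool.Agent.Lib.TT3
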