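import Pool.Agent.Lib.MP_092512_nt.TT.P.PN1
import Pool.Agent.Lib.MP_092512_nt.TT.P.QN2

/-!
# PN3: the main term for the pair

As `TC/QN5a`: `wb2 ≥ (1/8) 1/(2^|base| W0^k D) VS2 VL VL' ≥ K^(-2 F - 1/5)/(8 D) ≥ 2/(D K^(2F+4))`.
-/

set_option autoImplicit false

open Finset

namespace Pool.Agent.Lib.TT3

open Pool.Agent.Lib.TTC

theorem PN3 (c : PC) (hc : c.OK2) : ∃ N0 : ℕ, ∀ (S : MS) (T : Dat) (M M' : Msr S) (W0 : ℕ) (Z : Fin (S.k + 1) → ℕ) (p1 Q0 pb : ℕ) (η : ℝ),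
    PH2 c S T M M' W0 Z p1 Q0 pb η → N0 ≤ T.N → 0 < E02 S T ∧ ∀ μ ∈ S.MX, ∀ ν ∈ S.MY, ¬ S.badpair T 0 T.y0 μ ν → ¬ S.evp T μ ν → ∀ X X' : ℤ, IsCoprime X (W0 : ℤ) →
      X ≡ X' [ZMOD (W0 : ℤ)] → 2 * E02 S T ≤ S.CC.card * M.wb2 M' T c.b1 c.b2 μ ν X X' := by
  obtain ⟨N1, h1⟩ := QN1 c hc.toOK
  obtain ⟨N2, h2⟩ := QN2 c hc.toOK
  obtain ⟨N3, h3⟩ := PN1 c hc.toOK
  refine ⟨max (max (max N1 N2) N3) ⌈Real.exp 16⌉₊, ?_⟩
  intro S T M M' W0 Z p1 Q0 pb η HH hN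
  have H := HH.h
  have q1 : N1 ≤ T.N := (le_max_left _ _).trans ((le_max_left _ _).trans ((le_max_left _ _).trans hN))
  have q2 : N2 ≤ T.N := (le_max_right _ _).trans ((le_max_left _ _).trans ((le_max_left _ _).trans hN))
  have q3 : N3 ≤ T.N := (le_max_right _ _).trans ((le_max_left _ _).trans hN)
  obtain ⟨g1, -, -, -, g3, -, -, -⟩ := h1 S T M W0 Z p1 Q0 pb η H q1
  obtain ⟨v1, -, -, -⟩ := h2 S T M W0 Z p1 Q0 pb η H q2
  obtain ⟨v1', -, -, -⟩ := h2 S T M' W0 Z p1 Q0 pb η HH.h' q2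
  obtain ⟨-, -, -, -, g2⟩ := h3 S T M W0 Z p1 Q0 pb η H q3
  have hN0 : (0 : ℝ) < T.N := by
    have := H.hT.N_pos
    have h3 : 0 < T.N := by omega
    exact_mod_cast h3
  have hK : 16 ≤ Real.log T.N := by
    rw [Real.le_log_iff_exp_le hN0]
    exact (Nat.le_ceil _).trans (by exact_mod_cast (le_max_right _ _).trans hN)
  set K : ℝ := Real.log T.N with hKd
  have hK0 : 0 < K := by linarith
  have hK1 : 1 ≤ K := by linarith
  have hD : (0 : ℝ) < T.D := by exact_mod_cast H.hT.D_pos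
  have hCC : (0 : ℝ) < S.CC.card := by
    refine lt_of_lt_of_le ?_ H.hC1
    rw [← hKd]
    positivity
  have hE : 0 < E02 S T := by
    unfold E02
    rw [← hKd]
    positivity
  refine ⟨hE, ?_⟩
  intro μ hμ ν hν hb he X X' hX hXX
  have hk := H.hF
  have hwb := P12_wb H.hT H.hS H.hM HH.h'.hM (b1 := c.b1) (b2 := c.b2) (by rw [hk]; exact hc.f1')
    (by rw [hk]; exact hc.f2) hμ hν hb he hX hXX
  have hW0 : 0 < W0 := Nat.pos_of_ne_zero H.hT.W0_sq.ne_zero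
  have hW1 : (1 : ℝ) ≤ (W0 : ℝ) ^ T.r := one_le_pow₀ (by exact_mod_cast hW0)
  have b1 : (2 : ℝ) ^ T.base.card ≤ K ^ (1 / 100 : ℝ) :=
    (pow_le_pow_left₀ (by norm_num) (by norm_num) _).trans g1
  have b2 : ((W0 : ℝ) ^ T.r) ^ S.k ≤ K ^ (1 / 100 : ℝ) :=
    (pow_le_pow_right₀ hW1 (Nat.le_succ _)).trans g3
  have b3 : (2 : ℝ) ^ T.base.card * ((W0 : ℝ) ^ T.r) ^ S.k * T.D ≤ K ^ (1 / 50 : ℝ) * T.D := by
    apply mul_le_mul_of_nonneg_right _ hD.le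
    calc (2 : ℝ) ^ T.base.card * ((W0 : ℝ) ^ T.r) ^ S.k ≤ K ^ (1 / 100 : ℝ) * K ^ (1 / 100 : ℝ) :=
          mul_le_mul b1 b2 (by positivity) (by positivity)
      _ = K ^ (1 / 50 : ℝ) := by
          rw [← Real.rpow_add hK0]
          norm_num
  have b4 : K ^ (-(1 / 50) : ℝ) / T.D ≤ 1 / ((2 : ℝ) ^ T.base.card * ((W0 : ℝ) ^ T.r) ^ S.k * T.D) := by
    have e1 : K ^ (-(1 / 50) : ℝ) / T.D = 1 / (K ^ (1 / 50 : ℝ) * T.D) := by
      rw [Real.rpow_neg hK0.le]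
      field_simp
    rw [e1]
    have : (0 : ℝ) < (W0 : ℝ) ^ T.r := by linarith
    exact one_div_le_one_div_of_le (by positivity) b3
  have hV0 : 0 ≤ VS2 S T := le_trans (by positivity) g2
  have b5 : 1 / 8 * (K ^ (-(1 / 50) : ℝ) / T.D) * K ^ (-(3 / 100) : ℝ) *
      (K ^ (-(c.F : ℝ) - 1 / 20) * K ^ (-(c.F : ℝ) - 1 / 20)) ≤ M.wb2 M' T c.b1 c.b2 μ ν X X' := by
    refine le_trans ?_ hwb
    have : (0 : ℝ) < (W0 : ℝ) ^ T.r := by linarith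
    apply mul_le_mul _ (mul_le_mul v1 v1' (by positivity) (le_trans (by positivity) v1)) (by positivity) (by positivity)
    apply mul_le_mul _ g2 (by positivity) (by positivity)
    exact mul_le_mul_of_nonneg_left b4 (by norm_num)
  have b6 : 2 / (T.D * K ^ (2 * T.F S.k + 4)) ≤ 1 / 8 * (K ^ (-(1 / 50) : ℝ) / T.D) * K ^ (-(3 / 100) : ℝ) *
      (K ^ (-(c.F : ℝ) - 1 / 20) * K ^ (-(c.F : ℝ) - 1 / 20)) := by
    have e1 : 1 / 8 * (K ^ (-(1 / 50) : ℝ) / T.D) * K ^ (-(3 / 100) : ℝ) *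
        (K ^ (-(c.F : ℝ) - 1 / 20) * K ^ (-(c.F : ℝ) - 1 / 20)) = 1 / 8 * K ^ (-(2 * (c.F : ℝ)) - 3 / 20) / T.D := by
      have e2 : K ^ (-(2 * (c.F : ℝ)) - 3 / 20) =
          K ^ (-(1 / 50) : ℝ) * K ^ (-(3 / 100) : ℝ) * (K ^ (-(c.F : ℝ) - 1 / 20) * K ^ (-(c.F : ℝ) - 1 / 20)) := by
        rw [← Real.rpow_add hK0, ← Real.rpow_add hK0, ← Real.rpow_add hK0]
        congr 1
        ring
      rw [e2]
      ring
    have e3 : K ^ (-(2 * (c.F : ℝ)) - 3 / 20) * K ^ (2 * T.F S.k + 4) = K ^ (77 / 20 : ℝ) := by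
      rw [← Real.rpow_natCast K (2 * T.F S.k + 4), ← Real.rpow_add hK0, hk]
      congr 1
      push_cast
      ring
    have e4 : 16 ≤ K ^ (77 / 20 : ℝ) := by
      calc (16 : ℝ) ≤ K := hK
        _ = K ^ (1 : ℝ) := (Real.rpow_one _).symm
        _ ≤ K ^ (77 / 20 : ℝ) := Real.rpow_le_rpow_of_exponent_le hK1 (by norm_num)
    rw [e1, div_le_div_iff₀ (by positivity) hD]
    calc 2 * (T.D : ℝ) = (1 / 8 * 16) * T.D := by ring
      _ ≤ (1 / 8 * K ^ (77 / 20 : ℝ)) * T.D := by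
          apply mul_le_mul_of_nonneg_right _ hD.le
          linarith
      _ = 1 / 8 * K ^ (-(2 * (c.F : ℝ)) - 3 / 20) * (T.D * K ^ (2 * T.F S.k + 4)) := by
          rw [← e3]
          ring
  calc 2 * E02 S T = S.CC.card * (2 / (T.D * K ^ (2 * T.F S.k + 4))) := by
        unfold E02
        rw [← hKd]
        ring
    _ ≤ _ := mul_le_mul_of_nonneg_left (b6.trans b5) hCC.le

end Pool.Agent.Lib.TT3
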