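import Pool.Agent.Lib.MP_092512_nt.TT.P.PN2
import Pool.Agent.Lib.MP_092512_nt.TT.P.P13
import Pool.Agent.Lib.MP_092512_nt.TT.P.Q26

/-!
# PN7: masses for the pair

As `TC/QN5e`: `Q26` (`TT3.Q26`) for `M` and for `M'` (`m1 ≤ 4 m1'`, `P13_ratio`, and `tot1' ≤ 4 tot1`, `P13_tot`: factor `16`).
* `PN7_xi`: `(adm0 ∧ adm0') ∧ ¬ (adm ∧ adm')` implies `adm0 ∧ ¬ adm` or `adm0' ∧ ¬ adm'`; `Q26_adm0`: `exp(-K^(1/5)) ≤ K^(-E)`.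
* `PN7`: `P13`: `6 W W' mN + 3 W' |MX| |MY| N^(-δ1) W`; `mN ≤ tot1/K^(B+3)/6 ..` (`y0 ≥ K^CY`, `pb ≥ K`, `k - 2 ≥ B + 3`).
-/

set_option autoImplicit false

open Finset

namespace Pool.Agent.Lib.TT3

open Pool.Agent.Lib.TTC

private theorem PN7_m1 {S : MS} {T : Dat} {W0 : ℕ} {Z : Fin (S.k + 1) → ℕ} {M : Msr S} {δ0 δ1 : ℝ} (hT : T.OK W0) (hS : S.OK3 T W0 Z)
    (hM : M.OK3 T W0 δ0 δ1) (hK : 4 * Real.log T.N ≤ T.y0) {μ : S.TX} {ν : S.TY} (hμ : μ ∈ S.MX) (hν : ν ∈ S.MY) : 0 ≤ M.m1 μ ν :=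
  (P13_pos hT hS hM hK hμ hν).le

/-- change of the measure -/
private theorem PN7_ch {S : MS} {T : Dat} {W0 : ℕ} {Z : Fin (S.k + 1) → ℕ} {M M' : Msr S} {δ0 δ1 : ℝ} (hT : T.OK W0) (hS : S.OK3 T W0 Z)
    (hM : M.OK3 T W0 δ0 δ1) (hM' : M'.OK3 T W0 δ0 δ1) (hK : 4 * Real.log T.N ≤ T.y0) (P : S.TX → S.TY → Prop) {θ : ℝ} (hθ : 0 ≤ θ)
    (h : ∑ μ ∈ S.MX, ∑ ν ∈ S.MY, M'.m1 μ ν * ind (P μ ν) ≤ θ * M'.tot1) :
    ∑ μ ∈ S.MX, ∑ ν ∈ S.MY, M.m1 μ ν * ind (P μ ν) ≤ 16 * θ * M.tot1 := by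
  have h1 : ∑ μ ∈ S.MX, ∑ ν ∈ S.MY, M.m1 μ ν * ind (P μ ν) ≤ 4 * ∑ μ ∈ S.MX, ∑ ν ∈ S.MY, M'.m1 μ ν * ind (P μ ν) := by
    rw [mul_sum]
    refine sum_le_sum fun μ hμ => ?_
    rw [mul_sum]
    refine sum_le_sum fun ν hν => ?_
    rw [← mul_assoc]
    exact mul_le_mul_of_nonneg_right (P13_ratio hT hS hM hM' hK hμ hν) (ind_nonneg _)
  have h2 := P13_tot hT hS hM' hM hK
  have h3 : θ * M'.tot1 ≤ θ * (4 * M.tot1) := mul_le_mul_of_nonneg_left h2 hθ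
  linarith

private theorem PN7_y0 {K y0 : ℝ} {CY : ℕ} (hK : 4 ≤ K) (hCY : 2 ≤ CY) (h : K ^ CY ≤ y0) : 4 * K ≤ y0 := by
  refine le_trans ?_ h
  calc 4 * K ≤ K ^ 2 := by nlinarith
    _ ≤ K ^ CY := pow_le_pow_right₀ (by linarith) hCY

private theorem PN7_z (m : ℕ) : ∀ᶠ K : ℝ in Filter.atTop, K ^ m ≤ Real.exp (K / (Real.log K) ^ 2) := by
  have h1 := (isLittleO_log_rpow_rpow_atTop (3 : ℝ) one_pos).bound (c := 1 / ((m : ℝ) + 1)) (by positivity)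
  filter_upwards [h1, Filter.eventually_ge_atTop (3 : ℝ)] with K h1 h3
  have hK : 0 < K := by linarith
  have hl : 0 < Real.log K := Real.log_pos (by linarith)
  have h4 : ((3 : ℕ) : ℝ) = 3 := by norm_num
  rw [← h4, Real.rpow_natCast, Real.rpow_one, Real.norm_eq_abs, Real.norm_eq_abs, abs_of_pos hK, abs_of_pos (pow_pos hl 3)] at h1
  have h5 : ((m : ℝ) + 1) * (Real.log K) ^ 3 ≤ K := by
    have h6 := mul_le_mul_of_nonneg_left h1 (by positivity : (0 : ℝ) ≤ (m : ℝ) + 1)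
    have h7 : ((m : ℝ) + 1) * (1 / ((m : ℝ) + 1) * K) = K := by
      field_simp
    linarith
  have h6 : (m : ℝ) * Real.log K ≤ K / (Real.log K) ^ 2 := by
    rw [le_div_iff₀ (by positivity)]
    calc (m : ℝ) * Real.log K * (Real.log K) ^ 2 = (m : ℝ) * (Real.log K) ^ 3 := by ring
      _ ≤ ((m : ℝ) + 1) * (Real.log K) ^ 3 := mul_le_mul_of_nonneg_right (by linarith) (pow_pos hl 3).le
      _ ≤ K := h5
  calc K ^ m = Real.exp ((m : ℝ) * Real.log K) := by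
        rw [Real.exp_nat_mul, Real.exp_log hK]
    _ ≤ _ := Real.exp_le_exp.2 h6

theorem PN7_xi (c : PC) (hc : c.OK) (E : ℕ) : ∃ N0 : ℕ, ∀ (S : MS) (T : Dat) (M M' : Msr S) (W0 : ℕ) (Z : Fin (S.k + 1) → ℕ) (p1 Q0 pb : ℕ) (η : ℝ),
    PH3 c S T M W0 Z p1 Q0 pb η → PH3 c S T M' W0 Z p1 Q0 pb η → N0 ≤ T.N →
    ∑ μ ∈ S.MX, ∑ ν ∈ S.MY, M.m1 μ ν * ind ((M.adm0 μ ν ∧ M'.adm0 μ ν) ∧ ¬ (M.adm μ ν ∧ M'.adm μ ν)) ≤ 1 / (Real.log T.N) ^ E * M.tot1 := by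
  have hlog : Filter.Tendsto (fun N : ℕ => Real.log (N : ℝ)) Filter.atTop Filter.atTop :=
    Real.tendsto_log_atTop.comp (tendsto_natCast_atTop_atTop (R := ℝ))
  have hx5 : Filter.Tendsto (fun N : ℕ => (Real.log (N : ℝ)) ^ (1 / 5 : ℝ)) Filter.atTop Filter.atTop :=
    (tendsto_rpow_atTop (by norm_num : (0 : ℝ) < 1 / 5)).comp hlog
  have hpe : Filter.Tendsto (fun N : ℕ => ((Real.log (N : ℝ)) ^ (1 / 5 : ℝ)) ^ (5 * (E + 5)) * Real.exp (-(Real.log (N : ℝ)) ^ (1 / 5 : ℝ)))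
      Filter.atTop (nhds 0) := (Real.tendsto_pow_mul_exp_neg_atTop_nhds_zero (5 * (E + 5))).comp hx5
  obtain ⟨N1, hN1⟩ := Filter.eventually_atTop.1 (hlog.eventually_ge_atTop (204 : ℝ))
  obtain ⟨N2, hN2⟩ := Filter.eventually_atTop.1 (hx5.eventually_ge_atTop (2 : ℝ))
  obtain ⟨N3, hN3⟩ := Filter.eventually_atTop.1 (hpe.eventually (gt_mem_nhds (by norm_num : (0 : ℝ) < 1)))
  refine ⟨N1 + N2 + N3, fun S T M M' W0 Z p1 Q0 pb η h h' hN => ?_⟩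
  have k1 := hN1 T.N (by omega)
  have k2 := hN2 T.N (by omega)
  have k3 := hN3 T.N (by omega)
  set K := Real.log (T.N : ℝ) with hKd
  have hK0 : 0 < K := by linarith
  have hKy : 4 * K ≤ T.y0 := PN7_y0 (by linarith) (by have := hc.Y1; omega) h.hy1
  have he4 : 4 ≤ Real.exp (K ^ (1 / 5 : ℝ)) := by
    have h1 : Real.exp 2 ≤ Real.exp (K ^ (1 / 5 : ℝ)) := Real.exp_le_exp.2 k2
    have h2 : (4 : ℝ) ≤ Real.exp 2 := by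
      have h3 := Real.exp_one_gt_d9
      have h4 : Real.exp 2 = Real.exp 1 * Real.exp 1 := by
        rw [← Real.exp_add]
        norm_num
      rw [h4]
      nlinarith
    linarith
  obtain ⟨θ, hθ⟩ : ∃ θ, θ = 12 * K ^ 4 * Real.exp (-K ^ (1 / 5 : ℝ)) := ⟨_, rfl⟩
  have hθ0 : 0 ≤ θ := by
    rw [hθ]
    positivity
  have a1 := Q26_adm0 h.hT h.hS h.hA h.hM he4
  have a2 := PN7_ch h.hT h.hS h.hM h'.hM hKy (fun μ ν => M'.adm0 μ ν ∧ ¬ M'.adm μ ν) hθ0 (by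
    rw [hθ]
    exact Q26_adm0 h'.hT h'.hS h'.hA h'.hM he4)
  rw [← hKd, ← hθ] at a1
  have hx : 17 * θ ≤ 1 / K ^ E := by
    have e1 : (K ^ (1 / 5 : ℝ)) ^ (5 * (E + 5)) = K ^ (E + 5) := by
      rw [← Real.rpow_natCast, ← Real.rpow_mul hK0.le, ← Real.rpow_natCast]
      congr 1
      push_cast
      ring
    rw [e1] at k3
    rw [hθ, le_div_iff₀ (by positivity)]
    have e2 : K ^ (E + 5) = K ^ E * K ^ 4 * K := by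
      rw [pow_add]
      ring
    rw [e2] at k3
    have e3 : 0 ≤ K ^ E * K ^ 4 * Real.exp (-K ^ (1 / 5 : ℝ)) := by positivity
    have e4 : 204 * (K ^ E * K ^ 4 * Real.exp (-K ^ (1 / 5 : ℝ))) ≤ K * (K ^ E * K ^ 4 * Real.exp (-K ^ (1 / 5 : ℝ))) :=
      mul_le_mul_of_nonneg_right k1 e3
    have e5 : K * (K ^ E * K ^ 4 * Real.exp (-K ^ (1 / 5 : ℝ))) = K ^ E * K ^ 4 * K * Real.exp (-K ^ (1 / 5 : ℝ)) := by ring
    have e6 : 17 * (12 * K ^ 4 * Real.exp (-K ^ (1 / 5 : ℝ))) * K ^ E = 204 * (K ^ E * K ^ 4 * Real.exp (-K ^ (1 / 5 : ℝ))) := by ring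
    rw [e6]
    linarith
  have ht : 0 ≤ M.tot1 := by
    unfold Msr.tot1
    exact sum_nonneg fun μ hμ => sum_nonneg fun ν hν => PN7_m1 h.hT h.hS h.hM hKy hμ hν
  have hpt : ∑ μ ∈ S.MX, ∑ ν ∈ S.MY, M.m1 μ ν * ind ((M.adm0 μ ν ∧ M'.adm0 μ ν) ∧ ¬ (M.adm μ ν ∧ M'.adm μ ν)) ≤
      ∑ μ ∈ S.MX, ∑ ν ∈ S.MY, M.m1 μ ν * ind (M.adm0 μ ν ∧ ¬ M.adm μ ν) + ∑ μ ∈ S.MX, ∑ ν ∈ S.MY, M.m1 μ ν * ind (M'.adm0 μ ν ∧ ¬ M'.adm μ ν) := by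
    rw [← sum_add_distrib]
    refine sum_le_sum fun μ hμ => ?_
    rw [← sum_add_distrib]
    refine sum_le_sum fun ν hν => ?_
    rw [← mul_add]
    refine mul_le_mul_of_nonneg_left ?_ (PN7_m1 h.hT h.hS h.hM hKy hμ hν)
    by_cases hq : (M.adm0 μ ν ∧ M'.adm0 μ ν) ∧ ¬ (M.adm μ ν ∧ M'.adm μ ν)
    · rw [ind_true hq]
      obtain ⟨⟨q1, q2⟩, q3⟩ := hq
      by_cases q4 : M.adm μ ν
      · rw [ind_true (⟨q2, fun q5 => q3 ⟨q4, q5⟩⟩ : M'.adm0 μ ν ∧ ¬ M'.adm μ ν)]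
        linarith [ind_nonneg (M.adm0 μ ν ∧ ¬ M.adm μ ν)]
      · rw [ind_true (⟨q1, q4⟩ : M.adm0 μ ν ∧ ¬ M.adm μ ν)]
        linarith [ind_nonneg (M'.adm0 μ ν ∧ ¬ M'.adm μ ν)]
    · rw [ind_false hq]
      exact add_nonneg (ind_nonneg _) (ind_nonneg _)
  have hfin : 17 * θ * M.tot1 ≤ 1 / K ^ E * M.tot1 := mul_le_mul_of_nonneg_right hx ht
  linarith

theorem PN7 (c : PC) (hc : c.OK2) : ∃ N0 : ℕ, ∀ (S : MS) (T : Dat) (M M' : Msr S) (W0 : ℕ) (Z : Fin (S.k + 1) → ℕ) (p1 Q0 pb : ℕ) (η : ℝ),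
    PH2 c S T M M' W0 Z p1 Q0 pb η → N0 ≤ T.N →
    ∑ μ ∈ S.MX, ∑ ν ∈ S.MY, ind (¬ M.gp2 M' T μ ν ∧ ¬ S.badpair T 0 pb μ ν ∧ ¬ S.evp T μ ν) * M.S2 M' μ ν (fun _ _ => 1) ≤
      M.W * M'.W * M.tot1 / (Real.log T.N) ^ (c.B + 1) := by
  set C : ℝ := ((c.k + 1 : ℕ) : ℝ) ^ 2 * (6 * c.Cα) ^ (c.k - 1) * 2 with hC
  have hα := hc.α1
  have hC0 : 0 ≤ C := by positivity
  obtain ⟨N0, hN0⟩ := Filter.eventually_atTop.1
    ((Real.tendsto_log_atTop.comp (tendsto_natCast_atTop_atTop (R := ℝ))).eventually_ge_atTop (4000 + 24 * C + c.W1))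
  obtain ⟨N2, hN2⟩ := Filter.eventually_atTop.1
    ((Real.tendsto_log_atTop.comp (tendsto_natCast_atTop_atTop (R := ℝ))).eventually (PN7_z (c.CY + 2)))
  obtain ⟨N1, hN1⟩ := PN2 c hc.toOK (c.B + 2)
  refine ⟨N0 + N1 + N2 + 3, fun S T M M' W0 Z p1 Q0 pb η hh hN => ?_⟩
  have h := hh.h
  have h' := hh.h'
  have hKW : 4000 + 24 * C + c.W1 ≤ Real.log T.N := hN0 T.N (by omega)
  have hW1n : (0 : ℝ) ≤ c.W1 := Nat.cast_nonneg _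
  have hK : 4000 + 24 * C ≤ Real.log T.N := by linarith
  obtain ⟨-, -, -, -, -, hcardN⟩ := hN1 S T M M' W0 Z p1 Q0 pb η h h' (by omega)
  set K := Real.log (T.N : ℝ) with hKd
  have hK24 : 4000 ≤ K := by linarith
  have hK1 : 1 ≤ K := by linarith
  have hK0 : 0 < K := by linarith
  have hk := hc.k1
  have hY := hc.Y1
  have hA := hc.A1
  have hy0 : 0 < (T.y0 : ℝ) := lt_of_lt_of_le (by positivity) h.hy1
  have hKy : 4 * K ≤ T.y0 := PN7_y0 (by linarith) (by omega) h.hy1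
  have ht : 0 ≤ M.tot1 := by
    unfold Msr.tot1
    exact sum_nonneg fun μ hμ => sum_nonneg fun ν hν => PN7_m1 h.hT h.hS h.hM hKy hμ hν
  have hpb0 : 1 ≤ pb := by
    have h1 : (1 : ℝ) ≤ pb := hK1.trans h.hpb
    exact_mod_cast h1
  have hEK : (T.E : ℝ) ≤ K ^ (c.CD + 1) := by
    have g1 : (T.M : ℝ) ≤ K := by
      have g2 : T.M ≤ c.W1 := by
        rw [h.hT.M_eq]
        exact (Nat.pow_le_pow_right h.hT.W0_pos (Nat.sub_le _ _)).trans h.hWr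
      have g3 : (T.M : ℝ) ≤ c.W1 := by exact_mod_cast g2
      linarith
    unfold Dat.E
    rw [Nat.cast_mul, pow_succ]
    exact mul_le_mul h.hD g1 (Nat.cast_nonneg _) (by positivity)
  have hQ : T.y0 * T.E ≤ Q0 := by
    have h1 : (T.y0 : ℝ) * T.E ≤ Q0 := by
      calc (T.y0 : ℝ) * T.E ≤ K ^ (c.CY + 1) * K ^ (c.CD + 1) := by
            apply mul_le_mul h.hy2 hEK (Nat.cast_nonneg _) (by positivity)
        _ = K ^ (c.CY + 1 + (c.CD + 1)) := (pow_add K (c.CY + 1) (c.CD + 1)).symm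
        _ ≤ K ^ c.A := pow_le_pow_right₀ hK1 (by omega)
        _ ≤ Q0 := h.hQ
    exact_mod_cast h1
  have hzy : K * T.y0 ≤ T.z := by
    calc K * T.y0 ≤ K * K ^ (c.CY + 1) := mul_le_mul_of_nonneg_left h.hy2 hK0.le
      _ = K ^ (c.CY + 2) := by ring
      _ ≤ Real.exp (K / (Real.log K) ^ 2) := hN2 T.N (by omega)
      _ ≤ T.z := h.hz1
  obtain ⟨θ, hθ⟩ : ∃ θ, θ = 12 * K ^ 4 / (T.y0 : ℝ) := ⟨_, rfl⟩
  have hθ0 : 0 ≤ θ := by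
    rw [hθ]
    positivity
  have h1 := Q26_adm h.hT h.hS h.hA h.hM hzy
  have h1' := PN7_ch h.hT h.hS h.hM h'.hM hKy (fun μ ν => ¬ M'.adm μ ν) hθ0 (by
    rw [hθ]
    exact Q26_adm h'.hT h'.hS h'.hA h'.hM hzy)
  have h2 := Q26_bad h.hT h.hS h.hA h.hM hQ hpb0
  rw [← hKd, ← hθ] at h1
  have e1 : 17 * θ ≤ 1 / 12 * (1 / K ^ (c.B + 2)) := by
    have h3 : θ ≤ 12 * K ^ 4 / K ^ c.CY := by
      rw [hθ]
      exact div_le_div_of_nonneg_left (by positivity) (by positivity) h.hy1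
    have h4 : 12 * K ^ 4 / K ^ c.CY ≤ 1 / 204 * (1 / K ^ (c.B + 2)) := by
      rw [div_le_iff₀ (by positivity)]
      have h4 : K ^ (c.B + 2 + 4 + 1) ≤ K ^ c.CY := pow_le_pow_right₀ hK1 (by omega)
      have h5 : 1 / 204 * (1 / K ^ (c.B + 2)) * K ^ (c.B + 2 + 4 + 1) = 1 / 204 * (K ^ 4 * K) := by
        have h6 : K ^ (c.B + 2 + 4 + 1) = K ^ (c.B + 2) * (K ^ 4 * K) := by
          rw [pow_add, pow_add, pow_one]
          ring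
        have h7 : K ^ (c.B + 2) ≠ 0 := by positivity
        rw [h6, mul_assoc, ← mul_assoc (1 / K ^ (c.B + 2)), one_div_mul_cancel h7, one_mul]
      calc 12 * K ^ 4 ≤ 1 / 204 * (K ^ 4 * K) := by nlinarith [pow_pos hK0 4]
        _ = 1 / 204 * (1 / K ^ (c.B + 2)) * K ^ (c.B + 2 + 4 + 1) := h5.symm
        _ ≤ _ := by gcongr
    linarith
  have e2 : ((S.k + 1 : ℕ) : ℝ) ^ 2 * (6 * c.Cα) ^ (S.k - 1) * (2 / (pb : ℝ) ^ (S.k - 2)) ≤ 1 / 24 * (1 / K ^ (c.B + 2)) := by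
    rw [h.hk]
    have h3 : K ^ (c.B + 3) ≤ (pb : ℝ) ^ (c.k - 2) :=
      (pow_le_pow_right₀ hK1 (by omega)).trans (pow_le_pow_left₀ hK0.le h.hpb _)
    have h4 : 2 / (pb : ℝ) ^ (c.k - 2) ≤ 2 / K ^ (c.B + 3) := div_le_div_of_nonneg_left (by norm_num) (by positivity) h3
    calc ((c.k + 1 : ℕ) : ℝ) ^ 2 * (6 * c.Cα) ^ (c.k - 1) * (2 / (pb : ℝ) ^ (c.k - 2)) ≤
          ((c.k + 1 : ℕ) : ℝ) ^ 2 * (6 * c.Cα) ^ (c.k - 1) * (2 / K ^ (c.B + 3)) := by gcongr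
      _ = C / K ^ (c.B + 3) := by rw [hC]; ring
      _ ≤ 1 / 24 * (1 / K ^ (c.B + 2)) := by
          rw [div_le_iff₀ (by positivity)]
          have h5 : 1 / 24 * (1 / K ^ (c.B + 2)) * K ^ (c.B + 3) = K / 24 := by
            have h7 : K ^ (c.B + 2) ≠ 0 := by positivity
            have h6 : K ^ (c.B + 3) = K ^ (c.B + 2) * K := pow_succ K (c.B + 2)
            rw [h6, mul_assoc, ← mul_assoc (1 / K ^ (c.B + 2)), one_div_mul_cancel h7, one_mul]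
            ring
          rw [h5]
          linarith
  have f2 := mul_le_mul_of_nonneg_right e2 ht
  have f1 := mul_le_mul_of_nonneg_right e1 ht
  have hmN : ∑ μ ∈ S.MX, ∑ ν ∈ S.MY, M.m1 μ ν * ind (¬ M.adm μ ν) + ∑ μ ∈ S.MX, ∑ ν ∈ S.MY, M.m1 μ ν * ind (¬ M'.adm μ ν) +
      ∑ μ ∈ S.MX, ∑ ν ∈ S.MY, M.m1 μ ν * ind (S.badpair T pb T.y0 μ ν) ≤ 1 / 8 * (1 / K ^ (c.B + 2)) * M.tot1 := by
    linarith
  have hN1r : (1 : ℝ) ≤ T.N := by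
    have := h.hT.N_pos
    exact_mod_cast (by omega : 1 ≤ T.N)
  have hδ := hc.δ1p
  have hm : ∀ μ ∈ S.MX, ∀ ν ∈ S.MY, (T.N : ℝ) ^ (-c.δ1) ≤ M'.m1 μ ν := by
    intro μ hμ ν hν
    have h3 := hh.hm1 μ hμ ν hν
    have h4 : (T.N : ℝ) ^ (c.δ1 / 16) ≤ (T.N : ℝ) ^ c.δ1 := Real.rpow_le_rpow_of_exponent_le hN1r (by linarith)
    have h5 := PN7_m1 h.hT h.hS h'.hM hKy hμ hν
    have h6 : 0 < (T.N : ℝ) ^ c.δ1 := Real.rpow_pos_of_pos (by linarith) _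
    rw [Real.rpow_neg (by linarith), inv_le_iff_one_le_mul₀ h6]
    calc 1 ≤ (T.N : ℝ) ^ (c.δ1 / 16) * M'.m1 μ ν := h3
      _ ≤ (T.N : ℝ) ^ c.δ1 * M'.m1 μ ν := mul_le_mul_of_nonneg_right h4 h5
      _ = M'.m1 μ ν * (T.N : ℝ) ^ c.δ1 := mul_comm _ _
  have hP := P13 h.hT h.hS h.hM h'.hM hKy (pb := pb) hm _ hmN
  refine hP.trans ?_
  have hW := h.hM.W_pos
  have hW' := h'.hM.W_pos
  have g1 : 3 * M'.W * (S.MX.card * S.MY.card * ((T.N : ℝ) ^ (-c.δ1) * M.W)) ≤ 3 * M'.W * (M.W * M.tot1 / K ^ (c.B + 2)) :=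
    mul_le_mul_of_nonneg_left hcardN (by positivity)
  have g2 : 6 * M.W * M'.W * (1 / 8 * (1 / K ^ (c.B + 2)) * M.tot1) + 3 * M'.W * (M.W * M.tot1 / K ^ (c.B + 2)) =
      15 / 4 * (M.W * M'.W * M.tot1 / K ^ (c.B + 2)) := by ring
  have g3 : M.W * M'.W * M.tot1 / K ^ (c.B + 1) = K * (M.W * M'.W * M.tot1 / K ^ (c.B + 2)) := by
    rw [pow_succ K (c.B + 1)]
    field_simp
  have g4 : 0 ≤ M.W * M'.W * M.tot1 / K ^ (c.B + 2) := by positivity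
  rw [g3]
  nlinarith

end Pool.Agent.Lib.TT3
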