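import Pool.Agent.Lib.MP_092512_nt.TT.C.QN0
import Pool.Agent.Lib.MP_092512_nt.TT.C.Q11
import Pool.Agent.Lib.MP_092512_nt.TT.C.Q21
import Pool.Agent.Lib.MP_092512_nt.TT.P.QN0

/-!
# QN3: sizes of moduli, equidistribution for the weights of the measure

`K = log N`.
* moduli: `∏_{p ∈ base ∪ d ∪ d'} p^(v+1)`: for `p ∈ base` `p^(v+1) ≤ p^(2v)` (`v ≥ 1`), so the primes of `base` contribute at most `D²`, the others (`v = 0`) at most `∏ d ∏ d' ≤ y0^(24 b1)`; `p1 ≤ K^(2 CY + 2)`, `y0 ≤ 2 K^CY ≤ K^(CY+1)`: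
  total `≤ K^(2 CD + 24 b1 (CY + 1) + 2 CY + 2) ≤ K^A ≤ Q0`.
* `|DS b1| ≤ y0^(12 b1) + 1 ≤ 2 K^(12 b1 (CY+1))` (the sets `d` of primes are determined by their products `≤ y0^(12 b1)`).
* `W0 y0^(24 b1) z^(24 b2) ≤ N^δ0` (`z ≤ N^ζ`, `24 b2 ζ ≤ δ0/2`, the rest is a power of `K`).
* `Q11_sw` with `ε = 2/exp(K^(1/5))` (`|hX l - 1/l| ≤ 2/l²`, `l ≥ exp (K^(1/5))` by `An.F_lo`): `η' = η + 16 exp(-K^(1/5)) ≤ 2/K^Cη`.
* `(1 + η')^(2 n0) - 1 ≤ 4 n0 η' ≤ 1/K^(Cη - 2)` (`2 n0 ≤ K` by `hS.num`, `2 n0 η' ≤ 1`), `(1 + η')^(2 n0) ≤ 2`.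
-/

set_option autoImplicit false

open Finset

namespace Pool.Agent.Lib.TT3

open Pool.Agent.Lib.TTC

private theorem QN3_ev (E : ℕ) (W : ℝ) {δ : ℝ} (hδ : 0 < δ) :
    ∀ᶠ t : ℝ in Filter.atTop, W * t ^ E ≤ Real.exp (δ * t) := by
  have h1 := (isLittleO_pow_exp_pos_mul_atTop E hδ).bound (c := 1 / (|W| + 1)) (by positivity)
  filter_upwards [h1, Filter.eventually_ge_atTop 0] with t ht ht0
  rw [Real.norm_of_nonneg (by positivity), Real.norm_of_nonneg (Real.exp_pos _).le, div_mul_eq_mul_div,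
    one_mul, le_div_iff₀ (by positivity)] at ht
  have h2 : W * t ^ E ≤ t ^ E * (|W| + 1) := by
    have h3 : 0 ≤ t ^ E := by positivity
    have h4 := mul_le_mul_of_nonneg_right (le_abs_self W) h3
    linarith
  exact h2.trans ht

private theorem QN3_ev2 (E : ℕ) (W : ℝ) :
    ∀ᶠ t : ℝ in Filter.atTop, W * t ^ E ≤ Real.exp (t ^ (1 / 5 : ℝ)) := by
  have h1 := (tendsto_rpow_atTop (show (0 : ℝ) < 1 / 5 by norm_num)).eventually (QN3_ev (5 * E) W one_pos)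
  filter_upwards [h1, Filter.eventually_ge_atTop 0] with t ht ht0
  rw [one_mul] at ht
  refine le_trans (le_of_eq ?_) ht
  rw [pow_mul, ← Real.rpow_natCast (t ^ (1 / 5 : ℝ)) 5, ← Real.rpow_mul ht0]
  norm_num

private theorem QN3_base (S : Dat) {W0 : ℕ} (hT : S.OK W0) {p : ℕ} (hp : p ∈ S.base) : p.Prime ∧ p ∣ S.D := by
  unfold Dat.base at hp
  rw [mem_filter] at hp
  refine ⟨hp.2.1, ?_⟩
  rcases hp.2.2 with h | h
  · exact ((dvd_pow ((hT.W0_pr p hp.2.1).2 h) two_ne_zero).trans hT.W0_D2)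
  · exact h

private theorem QN3_prod (T : Dat) {W0 : ℕ} (hT : T.OK W0) {d d' : Finset ℕ} (hd : d ⊆ T.PS) (hd' : d' ⊆ T.PS) :
    ∏ p ∈ T.base ∪ d ∪ d', p ^ (padicValNat p T.E + 1) ≤ T.E ^ 2 * ((∏ p ∈ d, p) * ∏ p ∈ d', p) := by
  classical
  have hD := hT.E_pos
  have hpr : ∀ p ∈ d ∪ d', p.Prime ∧ p ≤ T.y0 := by
    intro p hp
    have h3 : p ∈ T.PS := (union_subset hd hd') hp
    unfold Dat.PS at h3
    rw [mem_filter, mem_range] at h3
    exact ⟨h3.2.1, by omega⟩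
  have h1 : T.base ∪ d ∪ d' = T.base ∪ ((d ∪ d') \ T.base) := by
    rw [union_assoc, union_sdiff_self_eq_union]
  rw [h1, prod_union disjoint_sdiff]
  refine Nat.mul_le_mul ?_ ?_
  · calc ∏ p ∈ T.base, p ^ (padicValNat p T.E + 1) ≤ ∏ p ∈ T.base, (p ^ padicValNat p T.E) ^ 2 := by
          refine prod_le_prod' fun p hp => ?_
          obtain ⟨hpp, hpd⟩ := QN3_base T hT hp
          replace hpd := (hT.dvdE hpp).2 hpd
          rw [← pow_mul]
          refine Nat.pow_le_pow_right hpp.pos ?_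
          have : Fact p.Prime := ⟨hpp⟩
          have := one_le_padicValNat_of_dvd hD.ne' hpd
          omega
      _ = (∏ p ∈ T.base, p ^ padicValNat p T.E) ^ 2 := prod_pow _ _ _
      _ ≤ T.E ^ 2 := by
          refine Nat.pow_le_pow_left ?_ 2
          calc ∏ p ∈ T.base, p ^ padicValNat p T.E ≤ ∏ p ∈ T.E.primeFactors, p ^ padicValNat p T.E := by
                refine prod_le_prod_of_subset_of_one_le' ?_ ?_
                · intro p hp
                  obtain ⟨hpp, hpd⟩ := QN3_base T hT hp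
                  exact Nat.mem_primeFactors.2 ⟨hpp, (hT.dvdE hpp).2 hpd, hD.ne'⟩
                · intro p hp _
                  exact Nat.one_le_pow _ _ (Nat.prime_of_mem_primeFactors hp).pos
            _ = T.E := by
                have h2 := Nat.prod_factorization_pow_eq_self hD.ne'
                conv_rhs => rw [← h2]
                rw [Finsupp.prod, Nat.support_factorization]
                refine prod_congr rfl fun p hp => ?_
                rw [Nat.factorization_def _ (Nat.prime_of_mem_primeFactors hp)]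
  · calc ∏ p ∈ (d ∪ d') \ T.base, p ^ (padicValNat p T.E + 1) = ∏ p ∈ (d ∪ d') \ T.base, p := by
          refine prod_congr rfl fun p hp => ?_
          rw [mem_sdiff] at hp
          have h2 : ¬ p ∣ T.E := by
            intro h
            refine hp.2 ?_
            unfold Dat.base
            rw [mem_filter, mem_range]
            exact ⟨by have := (hpr p hp.1).2; omega, (hpr p hp.1).1, Or.inr ((hT.dvdE (hpr p hp.1).1).1 h)⟩
          rw [padicValNat.eq_zero_of_not_dvd h2, zero_add, pow_one]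
      _ ≤ ∏ p ∈ d ∪ d', p := by
          refine prod_le_prod_of_subset_of_one_le' sdiff_subset ?_
          intro p hp _
          exact (hpr p hp).1.pos
      _ ≤ (∏ p ∈ d, p) * ∏ p ∈ d', p := by
          rw [← prod_union_inter]
          refine Nat.le_mul_of_pos_right _ (prod_pos fun p hp => ?_)
          exact (hpr p (mem_union_left _ (mem_inter.1 hp).1)).1.pos

private theorem QN3_DS (T : Dat) (b1 : ℕ) : (T.DS b1).card ≤ T.y0 ^ (12 * b1) + 1 := by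
  have h1 : (T.DS b1).card ≤ (range (T.y0 ^ (12 * b1) + 1)).card := by
    refine card_le_card_of_injOn (fun d => ∏ p ∈ d, p) ?_ ?_
    · intro d hd
      rw [mem_coe] at hd
      unfold Dat.DS at hd
      rw [mem_filter] at hd
      rw [mem_coe, mem_range]
      exact Nat.lt_succ_of_le hd.2
    · intro d hd d' hd' h
      rw [mem_coe] at hd hd'
      unfold Dat.DS at hd hd'
      rw [mem_filter, mem_powerset] at hd hd'
      have hp : ∀ e ⊆ T.PS, ∀ p ∈ e, p.Prime := by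
        intro e he p hp
        have := he hp
        unfold Dat.PS at this
        exact (mem_filter.1 this).2.1
      have h2 : (∏ p ∈ d, p).primeFactors = d := Nat.primeFactors_prod (hp d hd.1)
      have h3 : (∏ p ∈ d', p).primeFactors = d' := Nat.primeFactors_prod (hp d' hd'.1)
      have h' : ∏ p ∈ d, p = ∏ p ∈ d', p := h
      rw [← h2, h', h3]
  rwa [card_range] at h1

private theorem QN3_pow {η : ℝ} {n : ℕ} (hη : 0 ≤ η) (h : (n : ℝ) * η ≤ 1) :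
    (1 + η) ^ n - 1 ≤ 2 * (n * η) := by
  have h1 : (1 + η) ^ n ≤ Real.exp (n * η) := by
    rw [Real.exp_nat_mul]
    refine pow_le_pow_left₀ (by linarith) ?_ n
    have := Real.add_one_le_exp η
    linarith
  have h2 : 0 ≤ (n : ℝ) * η := by positivity
  have h3 : |Real.exp (n * η) - 1 - n * η| ≤ (n * η) ^ 2 := by
    apply Real.abs_exp_sub_one_sub_id_le
    rw [abs_of_nonneg h2]
    exact h
  have h4 := (abs_le.1 h3).2
  nlinarith

private theorem QN3_h {K : ℝ} {h : ℕ → ℝ} {P : Finset ℕ} {N D Q0 : ℕ} {η : ℝ}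
    (hK : 8 ≤ Real.exp (K ^ (1 / 5 : ℝ)))
    (hη : 0 ≤ η) (hη1 : η ≤ 1) (hP : ∀ l ∈ P, l.Prime ∧ Real.exp (K ^ (1 / 5 : ℝ)) ≤ l)
    (hh : ∀ p : ℕ, p.Prime → 0 ≤ h p ∧ |h p - 1 / p| ≤ 2 / (p : ℝ) ^ 2)
    (hs : SWc N D (fun l => 1 / (l : ℝ)) η Q0 P) :
    SWc N D h (η + 8 * (2 / Real.exp (K ^ (1 / 5 : ℝ)))) Q0 P := by
  have he : 0 < Real.exp (K ^ (1 / 5 : ℝ)) := Real.exp_pos _
  refine Q11_sw hη hη1 (by positivity) ?_ (fun l hl => (hP l hl).1.pos) ?_ hs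
  · rw [div_le_iff₀ he]
    linarith
  · intro l hl
    have hl0 : (0 : ℝ) < l := by exact_mod_cast (hP l hl).1.pos
    refine (hh l (hP l hl).1).2.trans ?_
    have h1 : (2 : ℝ) / (l : ℝ) ^ 2 = 2 / l * (1 / l) := by
      field_simp
    rw [h1]
    refine mul_le_mul_of_nonneg_right ?_ (by positivity)
    exact div_le_div_of_nonneg_left (by norm_num) he (hP l hl).2

theorem QN3 (c : PC) (hc : c.OK) : ∃ N0 : ℕ, ∀ (S : MS) (T : Dat) (M : Msr S) (W0 : ℕ) (Z : Fin (S.k + 1) → ℕ) (p1 Q0 pb : ℕ) (η : ℝ),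
    PH3 c S T M W0 Z p1 Q0 pb η → N0 ≤ T.N →
    (∀ d ∈ T.DS c.b1, ∀ d' ∈ T.DS c.b1, (∏ p ∈ T.base ∪ d ∪ d', p ^ (padicValNat p T.E + 1)) * p1 ≤ Q0) ∧ T.y0 * T.E ≤ Q0 ∧
    ((T.DS c.b1).card : ℝ) ≤ 2 * (Real.log T.N) ^ (12 * c.b1 * (c.CY + 1)) ∧
    (W0 : ℝ) * (T.y0 : ℝ) ^ (24 * c.b1) * (T.z : ℝ) ^ (24 * c.b2) ≤ (T.N : ℝ) ^ c.δ0 ∧
    (W0 : ℝ) * (T.y0 : ℝ) ^ (24 * c.b1) ≤ (T.N : ℝ) ^ c.δ0 ∧ (T.z : ℝ) ≤ (T.N : ℝ) ^ c.δ0 ∧
    ∃ η' : ℝ, 0 ≤ η' ∧ (∀ f, SWc T.N T.E M.hX η' Q0 (S.FX f)) ∧ (∀ f, SWc T.N T.E M.hY η' Q0 (S.FY f)) ∧ (1 + η') ^ (2 * S.n0) ≤ 2 ∧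
      (1 + η') ^ (2 * S.n0) - 1 ≤ (Real.log T.N) ^ 2 / (Real.log T.N) ^ c.Cη := by
  classical
  have hlog : Filter.Tendsto (fun n : ℕ => Real.log (n : ℝ)) Filter.atTop Filter.atTop :=
    Real.tendsto_log_atTop.comp tendsto_natCast_atTop_atTop
  have ev1 := hlog.eventually (QN3_ev ((c.CY + 1) * (24 * c.b1)) c.W1 (show 0 < c.δ0 / 2 by
    have := hc.δ0p; positivity))
  have ev2 := hlog.eventually (QN3_ev2 c.Cη 16)
  have ev3 := hlog.eventually (QN3_ev2 0 8)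
  obtain ⟨N0, hN0⟩ := Filter.eventually_atTop.mp (ev1.and (ev2.and (ev3.and
    ((hlog.eventually_ge_atTop (4 + c.W1)).and (Filter.eventually_ge_atTop 3)))))
  refine ⟨N0, fun S T M W0 Z p1 Q0 pb η H hN => ?_⟩
  obtain ⟨e1, e2, e3, e4, e5⟩ := hN0 T.N hN
  obtain ⟨K, hK⟩ : ∃ K : ℝ, K = Real.log T.N := ⟨_, rfl⟩
  rw [← hK] at e1 e2 e3 e4
  rw [pow_zero, mul_one] at e3
  have hW1n : (0 : ℝ) ≤ c.W1 := Nat.cast_nonneg _
  have hK1 : (1 : ℝ) ≤ K := by linarith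
  have hN0' : (0 : ℝ) < T.N := by
    have : 0 < T.N := by omega
    exact_mod_cast this
  have hexp : ∀ a : ℝ, (T.N : ℝ) ^ a = Real.exp (K * a) := by
    intro a
    rw [Real.rpow_def_of_pos hN0', hK]
  have hy1 : K ^ c.CY ≤ T.y0 := by rw [hK]; exact H.hy1
  have hy1' : (1 : ℝ) ≤ T.y0 := (one_le_pow₀ hK1).trans hy1
  have hy2 : (T.y0 : ℝ) ≤ K ^ (c.CY + 1) := by rw [hK]; exact H.hy2
  have hyp : ∀ n : ℕ, (T.y0 : ℝ) ^ n ≤ K ^ ((c.CY + 1) * n) := by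
    intro n
    rw [pow_mul]
    exact pow_le_pow_left₀ (Nat.cast_nonneg _) hy2 n
  have hD : (T.D : ℝ) ≤ K ^ c.CD := by rw [hK]; exact H.hD
  have hE : (T.E : ℝ) ≤ K ^ (c.CD + 1) := by
    have g1 : (T.M : ℝ) ≤ K := by
      have g2 : T.M ≤ c.W1 := by
        rw [H.hT.M_eq]
        exact (Nat.pow_le_pow_right H.hT.W0_pos (Nat.sub_le _ _)).trans H.hWr
      have g3 : (T.M : ℝ) ≤ c.W1 := by exact_mod_cast g2
      linarith
    unfold Dat.E
    rw [Nat.cast_mul, pow_succ]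
    exact mul_le_mul hD g1 (Nat.cast_nonneg _) (by positivity)
  have hp2 : (p1 : ℝ) ≤ K ^ (2 * c.CY + 5) := by rw [hK]; exact H.hp2
  have hQ : K ^ c.A ≤ Q0 := by rw [hK]; exact H.hQ
  have hA1 := hc.A1
  have hη1 := hc.η1
  have hz0 : (1 : ℝ) ≤ T.z := by
    have h1 := H.hT.y0_lt
    have : 1 ≤ T.z := by omega
    exact_mod_cast this
  have hz2 : (T.z : ℝ) ≤ Real.exp (K * c.ζ) := by
    rw [← hexp]
    exact H.hz2
  have hb2 : (1 : ℝ) ≤ c.b2 := by exact_mod_cast hc.b2p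
  have hζ := hc.ζp
  have hζ0 := hc.ζ0
  have hK0 : 0 < K := by linarith
  have hW : (W0 : ℝ) * (T.y0 : ℝ) ^ (24 * c.b1) ≤ Real.exp (K * (c.δ0 / 2)) := by
    have h1 : (W0 : ℝ) ≤ c.W1 := by exact_mod_cast H.hW
    calc (W0 : ℝ) * (T.y0 : ℝ) ^ (24 * c.b1) ≤ c.W1 * K ^ ((c.CY + 1) * (24 * c.b1)) :=
          mul_le_mul h1 (hyp _) (by positivity) (Nat.cast_nonneg _)
      _ ≤ Real.exp (c.δ0 / 2 * K) := e1
      _ = Real.exp (K * (c.δ0 / 2)) := by rw [mul_comm]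
  have hzz : (T.z : ℝ) ^ (24 * c.b2) ≤ Real.exp (K * (c.δ0 / 2)) := by
    calc (T.z : ℝ) ^ (24 * c.b2) ≤ (Real.exp (K * c.ζ)) ^ (24 * c.b2) :=
          pow_le_pow_left₀ (Nat.cast_nonneg _) hz2 _
      _ = Real.exp (((24 * c.b2 : ℕ) : ℝ) * (K * c.ζ)) := by rw [← Real.exp_nat_mul]
      _ ≤ Real.exp (K * (c.δ0 / 2)) := by
          apply Real.exp_le_exp.mpr
          push_cast
          have h1 : 24 * (c.b2 : ℝ) * c.ζ ≤ c.δ0 / 2 := by
            have : 0 ≤ (c.b2 : ℝ) * c.ζ := by positivity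
            linarith
          calc 24 * (c.b2 : ℝ) * (K * c.ζ) = K * (24 * (c.b2 : ℝ) * c.ζ) := by ring
            _ ≤ K * (c.δ0 / 2) := mul_le_mul_of_nonneg_left h1 hK0.le
  refine ⟨?_, ?_, ?_, ?_, ?_, ?_, ?_⟩
  · intro d hd d' hd'
    unfold Dat.DS at hd hd'
    rw [mem_filter, mem_powerset] at hd hd'
    have h1 := QN3_prod T H.hT hd.1 hd'.1
    have h2 : ((∏ p ∈ T.base ∪ d ∪ d', p ^ (padicValNat p T.E + 1)) * p1 : ℕ) ≤
        T.E ^ 2 * (T.y0 ^ (12 * c.b1) * T.y0 ^ (12 * c.b1)) * p1 := by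
      refine Nat.mul_le_mul_right _ (h1.trans ?_)
      exact Nat.mul_le_mul_left _ (Nat.mul_le_mul hd.2 hd'.2)
    refine h2.trans ?_
    have h3 : ((T.E ^ 2 * (T.y0 ^ (12 * c.b1) * T.y0 ^ (12 * c.b1)) * p1 : ℕ) : ℝ) ≤ (Q0 : ℝ) := by
      push_cast
      refine le_trans ?_ hQ
      calc (T.E : ℝ) ^ 2 * ((T.y0 : ℝ) ^ (12 * c.b1) * (T.y0 : ℝ) ^ (12 * c.b1)) * p1 ≤
          (K ^ (c.CD + 1)) ^ 2 * (K ^ ((c.CY + 1) * (12 * c.b1)) * K ^ ((c.CY + 1) * (12 * c.b1))) *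
            K ^ (2 * c.CY + 5) := by
            have := hyp (12 * c.b1)
            gcongr
        _ = K ^ ((c.CD + 1) * 2 + ((c.CY + 1) * (12 * c.b1) + (c.CY + 1) * (12 * c.b1)) + (2 * c.CY + 5)) := by
            rw [← pow_mul, ← pow_add, ← pow_add, ← pow_add]
        _ ≤ K ^ c.A := by
            refine pow_le_pow_right₀ hK1 ?_
            refine le_trans (le_of_eq ?_) (le_trans (Nat.le_add_right _ 3) hA1)
            ring
    exact_mod_cast h3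
  · have h3 : ((T.y0 * T.E : ℕ) : ℝ) ≤ (Q0 : ℝ) := by
      rw [Nat.cast_mul]
      refine le_trans ?_ hQ
      calc (T.y0 : ℝ) * T.E ≤ K ^ (c.CY + 1) * K ^ (c.CD + 1) :=
            mul_le_mul hy2 hE (Nat.cast_nonneg _) (by positivity)
        _ = K ^ (c.CY + 1 + (c.CD + 1)) := by rw [← pow_add]
        _ ≤ K ^ c.A := by
            refine pow_le_pow_right₀ hK1 ?_
            have : 0 ≤ 24 * c.b1 * (c.CY + 1) := Nat.zero_le _
            omega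
    exact_mod_cast h3
  · rw [← hK]
    have h1 : ((T.DS c.b1).card : ℝ) ≤ (T.y0 : ℝ) ^ (12 * c.b1) + 1 := by
      exact_mod_cast QN3_DS T c.b1
    have h2 := hyp (12 * c.b1)
    have h3 : (c.CY + 1) * (12 * c.b1) = 12 * c.b1 * (c.CY + 1) := by ring
    rw [h3] at h2
    have h4 : (1 : ℝ) ≤ K ^ (12 * c.b1 * (c.CY + 1)) := one_le_pow₀ hK1
    linarith
  · rw [hexp]
    calc (W0 : ℝ) * (T.y0 : ℝ) ^ (24 * c.b1) * (T.z : ℝ) ^ (24 * c.b2) ≤
        Real.exp (K * (c.δ0 / 2)) * Real.exp (K * (c.δ0 / 2)) :=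
          mul_le_mul hW hzz (by positivity) (Real.exp_pos _).le
      _ = Real.exp (K * c.δ0) := by rw [← Real.exp_add]; ring_nf
  · rw [hexp]
    refine hW.trans (Real.exp_le_exp.mpr ?_)
    have := hc.δ0p
    nlinarith
  · rw [hexp]
    refine hz2.trans (Real.exp_le_exp.mpr ?_)
    refine mul_le_mul_of_nonneg_left ?_ hK0.le
    nlinarith
  · have hηn := H.hA.η_nn
    have hη : η ≤ 1 / K ^ c.Cη := by rw [hK]; exact H.hη
    have hKη : (1 : ℝ) ≤ K ^ c.Cη := one_le_pow₀ hK1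
    have hKη0 : (0 : ℝ) < K ^ c.Cη := by linarith
    have hη1 : η ≤ 1 := by
      refine hη.trans ?_
      rw [div_le_one hKη0]
      exact hKη
    have he : 0 < Real.exp (K ^ (1 / 5 : ℝ)) := Real.exp_pos _
    have hε : 8 * (2 / Real.exp (K ^ (1 / 5 : ℝ))) ≤ 1 / K ^ c.Cη := by
      rw [← mul_div_assoc, div_le_div_iff₀ he hKη0]
      linarith
    refine ⟨η + 8 * (2 / Real.exp (K ^ (1 / 5 : ℝ))), by positivity, ?_, ?_, ?_⟩
    · intro f
      refine QN3_h e3 hηn hη1 (fun l hl => ⟨(H.hS.FX_mem f l hl).1, ?_⟩) H.hM.hX_nonneg (H.hA.swX f)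
      rw [hK]
      exact H.hA.F_lo f l (mem_union_left _ hl)
    · intro f
      refine QN3_h e3 hηn hη1 (fun l hl => ⟨(H.hS.FY_mem f l hl).1, ?_⟩) H.hM.hY_nonneg (H.hA.swY f)
      rw [hK]
      exact H.hA.F_lo f l (mem_union_right _ hl)
    · rw [← hK]
      obtain ⟨η', hη'⟩ : ∃ η' : ℝ, η' = η + 8 * (2 / Real.exp (K ^ (1 / 5 : ℝ))) := ⟨_, rfl⟩
      rw [← hη']
      have hn : ((2 * S.n0 : ℕ) : ℝ) ≤ K := by
        rw [hK]
        refine le_trans ?_ H.hS.num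
        exact_mod_cast (by omega : 2 * S.n0 ≤ 3 * (S.k + 1) + 2 * S.n0 + S.nX + S.nY)
      have h0 : 0 ≤ η' := by rw [hη']; positivity
      have h1 : η' ≤ 2 / K ^ c.Cη := by
        rw [hη']
        have : (2 : ℝ) / K ^ c.Cη = 1 / K ^ c.Cη + 1 / K ^ c.Cη := by ring
        linarith
      have h2 : ((2 * S.n0 : ℕ) : ℝ) * η' ≤ K * (2 / K ^ c.Cη) :=
        mul_le_mul hn h1 h0 hK0.le
      have h3 : K ^ 2 ≤ K ^ c.Cη := pow_le_pow_right₀ hK1 (by omega)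
      have h4 : K ^ 2 / K ^ c.Cη ≤ 1 := by
        rw [div_le_one hKη0]
        exact h3
      have h5 : 2 * (K * (2 / K ^ c.Cη)) ≤ K ^ 2 / K ^ c.Cη := by
        have h6 : 2 * (K * (2 / K ^ c.Cη)) = (4 * K) / K ^ c.Cη := by ring
        rw [h6]
        refine div_le_div_of_nonneg_right ?_ hKη0.le
        nlinarith
      have h7 := QN3_pow (n := 2 * S.n0) h0 (by linarith)
      constructor
      · linarith
      · linarith

end Pool.Agent.Lib.TT3
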