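import Pool.Agent.Lib.MP_092512_nt.TT.P.PN1
import Pool.Agent.Lib.MP_092512_nt.TT.P.PN2
import Pool.Agent.Lib.MP_092512_nt.TT.P.PN7
import Pool.Agent.Lib.MP_092512_nt.TT.P.QN2
import Pool.Agent.Lib.MP_092512_nt.TT.P.QN3
import Pool.Agent.Lib.MP_092512_nt.TT.P.P10

/-!
# PN4: the second moment with the mean values of the large sieves for the pair

As `TC/QN5b`. `K = log N`, `m = k + 1`, `E02 = |CC|/(D K^(2k+6))`, `κ = 2 (NJ y0 + 1) VL VL' ≤ K^(-2m + 1/5)` (`P12_kap`), `nF = (k+1)^(k+1) (k+1)^(2 n0) ≤ 2 (k+1)^(k+1) |CC|`, `nD = 4^k (k (k+1))^(2 n0) ≤ |CC|²/K^(B+14)` (`hC3'`).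
`κ²/E02² ≤ D² K^(8 + 2/5)/|CC|²`: the three terms of `P10`: `|DS|² ((1+η')^(2n0) - 1 + ξ) D² K^9 ≤ K^(24 b1 (CY+1) + 2 CD + 12 - Cη)` (`ξ` from `PN7_xi`); `nD`-term `≤ K^9 K^(1/4) · 8/K^(B+14)`; `nF`-term `≤ 8 nF D K^9/|CC|² ≤ K^10 D/|CC|` (`hC1'`); errors by `PN2` with `E` large.
-/

set_option autoImplicit false

open Finset

namespace Pool.Agent.Lib.TT3

open Pool.Agent.Lib.TTC

private theorem PN4_p1 {K x d s e : ℝ} {A CD B Cη : ℕ} (hK : 1 ≤ K) (hx : 0 ≤ x) (h12 : 128 * x ^ 22 ≤ K ^ 2) (hd0 : 0 ≤ d)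
    (hd : d ≤ K ^ CD) (hs0 : 0 ≤ s) (hs : s ≤ 2 * K ^ A) (he0 : 0 ≤ e) (he : e ≤ 2 * (K ^ 2 / K ^ Cη)) (hE : 2 * CD + 2 * A + B + 14 ≤ Cη) :
    s ^ 2 * e * (16 * x ^ 22 * d ^ 2 * K ^ (B + 10)) ≤ 1 := by
  have hK0 : 0 < K := by linarith
  have hs2 : s ^ 2 ≤ 4 * K ^ (2 * A) := by
    calc s ^ 2 ≤ (2 * K ^ A) ^ 2 := pow_le_pow_left₀ hs0 hs 2
      _ = 4 * K ^ (2 * A) := by ring
  have hd2 : d ^ 2 ≤ K ^ (2 * CD) := by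
    calc d ^ 2 ≤ (K ^ CD) ^ 2 := pow_le_pow_left₀ hd0 hd 2
      _ = K ^ (2 * CD) := by ring
  have h1 : s ^ 2 * e ≤ 4 * K ^ (2 * A) * (2 * (K ^ 2 / K ^ Cη)) := mul_le_mul hs2 he he0 (by positivity)
  have h2 : 16 * x ^ 22 * d ^ 2 * K ^ (B + 10) ≤ 16 * x ^ 22 * K ^ (2 * CD) * K ^ (B + 10) :=
    mul_le_mul_of_nonneg_right (mul_le_mul_of_nonneg_left hd2 (by positivity)) (by positivity)
  calc s ^ 2 * e * (16 * x ^ 22 * d ^ 2 * K ^ (B + 10))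
      ≤ (4 * K ^ (2 * A) * (2 * (K ^ 2 / K ^ Cη))) * (16 * x ^ 22 * K ^ (2 * CD) * K ^ (B + 10)) :=
        mul_le_mul h1 h2 (by positivity) (by positivity)
    _ = (128 * x ^ 22) * (K ^ (2 * A) * K ^ 2 * K ^ (2 * CD) * K ^ (B + 10)) / K ^ Cη := by ring
    _ ≤ K ^ 2 * (K ^ (2 * A) * K ^ 2 * K ^ (2 * CD) * K ^ (B + 10)) / K ^ Cη :=
        div_le_div_of_nonneg_right (mul_le_mul_of_nonneg_right h12 (by positivity)) (by positivity)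
    _ = K ^ (2 * CD + 2 * A + B + 14) / K ^ Cη := by
        congr 1
        ring
    _ ≤ 1 := div_le_one_of_le₀ (pow_le_pow_right₀ hK hE) (by positivity)

private theorem PN4_p2 {K x d n P nD U4 U5 MA q : ℝ} {B : ℕ} (hK : 0 ≤ K) (hx : 1 ≤ x) (h32 : 160 * x ^ 42 ≤ K ^ 2) (hd : 0 < d)
    (hP0 : 0 ≤ P) (hP : P ≤ 2) (hn0 : 0 ≤ nD) (hn : nD * K ^ (B + 12) ≤ n ^ 2) (h4a : 0 ≤ U4) (h4 : U4 ≤ x ^ 3) (h5a : 0 ≤ U5)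
    (h5 : U5 ≤ x ^ 10 / d) (hma : 0 ≤ MA) (hm : MA ≤ x ^ 5 / d ^ 2) (hq0 : 0 ≤ q) (hq : q ≤ 1) :
    P * (nD * (U4 * (MA * (1 + q)) + 3 * U5 ^ 2)) * (16 * x ^ 22 * d ^ 2 * K ^ (B + 10)) ≤ n ^ 2 := by
  have hx0 : 0 < x := by linarith
  have h1 : U4 * (MA * (1 + q)) ≤ x ^ 3 * (x ^ 5 / d ^ 2 * 2) :=
    mul_le_mul h4 (mul_le_mul hm (by linarith) (by linarith) (by positivity)) (mul_nonneg hma (by linarith)) (by positivity)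
  have h2 : U5 ^ 2 ≤ (x ^ 10 / d) ^ 2 := pow_le_pow_left₀ h5a h5 2
  have h3 : x ^ 8 ≤ x ^ 20 := pow_le_pow_right₀ hx (by norm_num)
  have h6 : U4 * (MA * (1 + q)) + 3 * U5 ^ 2 ≤ 5 * x ^ 20 / d ^ 2 := by
    have h7 : x ^ 3 * (x ^ 5 / d ^ 2 * 2) = 2 * x ^ 8 / d ^ 2 := by ring
    have h8 : (x ^ 10 / d) ^ 2 = x ^ 20 / d ^ 2 := by
      rw [div_pow]
      ring
    have h9 : 2 * x ^ 8 / d ^ 2 ≤ 2 * x ^ 20 / d ^ 2 := div_le_div_of_nonneg_right (by linarith) (by positivity)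
    have h10 : 5 * x ^ 20 / d ^ 2 = 2 * x ^ 20 / d ^ 2 + 3 * (x ^ 20 / d ^ 2) := by ring
    rw [h7] at h1
    rw [h8] at h2
    rw [h10]
    linarith
  have h7 : 0 ≤ U4 * (MA * (1 + q)) + 3 * U5 ^ 2 := by
    have : 0 ≤ MA * (1 + q) := mul_nonneg hma (by linarith)
    positivity
  have h8 : P * (nD * (U4 * (MA * (1 + q)) + 3 * U5 ^ 2)) ≤ 2 * (nD * (5 * x ^ 20 / d ^ 2)) :=
    mul_le_mul hP (mul_le_mul_of_nonneg_left h6 hn0) (mul_nonneg hn0 h7) zero_le_two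
  calc P * (nD * (U4 * (MA * (1 + q)) + 3 * U5 ^ 2)) * (16 * x ^ 22 * d ^ 2 * K ^ (B + 10))
      ≤ 2 * (nD * (5 * x ^ 20 / d ^ 2)) * (16 * x ^ 22 * d ^ 2 * K ^ (B + 10)) :=
        mul_le_mul_of_nonneg_right h8 (by positivity)
    _ = (160 * x ^ 42) * (K ^ (B + 10) * nD) := by
        field_simp
        ring
    _ ≤ K ^ 2 * (K ^ (B + 10) * nD) := mul_le_mul_of_nonneg_right h32 (by positivity)
    _ = nD * K ^ (B + 12) := by ring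
    _ ≤ n ^ 2 := hn

private theorem PN4_p3 {K x d n P nF cm U4 U5 U6 : ℝ} {m B : ℕ} (hK : 1 ≤ K) (hx : 1 ≤ x) (h32 : 256 * cm * x ^ 42 ≤ K ^ 2) (hd : 1 ≤ d)
    (hP0 : 0 ≤ P) (hP : P ≤ 2) (hnF : 0 ≤ nF) (hn0 : 0 ≤ n) (hF : nF ≤ 2 * cm * n) (hn : d * K ^ (16 * m + B + 20) ≤ n)
    (h4a : 0 ≤ U4) (h4 : U4 ≤ x ^ 3) (h5a : 0 ≤ U5)
    (h5 : U5 ≤ x ^ 10 / d) (h6a : 0 ≤ U6) (h6 : U6 ≤ x ^ 2 / d) :
    P * (nF * (U4 * U6 + 3 * U5 ^ 2)) * (16 * x ^ 22 * d ^ 2 * K ^ (B + 10)) ≤ n ^ 2 := by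
  have hx0 : 0 < x := by linarith
  have hd0 : 0 < d := by linarith
  have hK0 : 0 < K := by linarith
  have h1 : U4 * U6 ≤ x ^ 3 * (x ^ 2 / d) := mul_le_mul h4 h6 h6a (by positivity)
  have h2 : U5 ^ 2 ≤ (x ^ 10 / d) ^ 2 := pow_le_pow_left₀ h5a h5 2
  have h3 : x ^ 5 ≤ x ^ 20 := pow_le_pow_right₀ hx (by norm_num)
  have h7 : U4 * U6 + 3 * U5 ^ 2 ≤ 4 * x ^ 20 / d := by
    have e1 : x ^ 3 * (x ^ 2 / d) = x ^ 5 / d := by ring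
    have e2 : (x ^ 10 / d) ^ 2 ≤ x ^ 20 / d := by
      have e3 : (x ^ 10 / d) ^ 2 = x ^ 20 / (d * d) := by
        rw [div_pow]
        ring
      rw [e3]
      exact div_le_div_of_nonneg_left (by positivity) hd0 (by nlinarith)
    have e4 : x ^ 5 / d ≤ x ^ 20 / d := div_le_div_of_nonneg_right h3 hd0.le
    have e5 : 4 * x ^ 20 / d = x ^ 20 / d + 3 * (x ^ 20 / d) := by ring
    rw [e5]
    rw [e1] at h1
    linarith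
  have h8 : 0 ≤ U4 * U6 + 3 * U5 ^ 2 := by positivity
  have h9 : P * (nF * (U4 * U6 + 3 * U5 ^ 2)) ≤ 2 * ((2 * cm * n) * (4 * x ^ 20 / d)) :=
    mul_le_mul hP (mul_le_mul hF h7 h8 (hnF.trans hF)) (mul_nonneg hnF h8) zero_le_two
  have h10 : K ^ (B + 12) ≤ K ^ (16 * m + B + 20) := pow_le_pow_right₀ hK (by omega)
  calc P * (nF * (U4 * U6 + 3 * U5 ^ 2)) * (16 * x ^ 22 * d ^ 2 * K ^ (B + 10))
      ≤ 2 * ((2 * cm * n) * (4 * x ^ 20 / d)) * (16 * x ^ 22 * d ^ 2 * K ^ (B + 10)) :=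
        mul_le_mul_of_nonneg_right h9 (by positivity)
    _ = (256 * cm * x ^ 42) * (d * K ^ (B + 10) * n) := by
        field_simp
        ring
    _ ≤ K ^ 2 * (d * K ^ (B + 10) * n) := mul_le_mul_of_nonneg_right h32 (by positivity)
    _ = (d * K ^ (B + 12)) * n := by ring
    _ ≤ (d * K ^ (16 * m + B + 20)) * n := mul_le_mul_of_nonneg_right (mul_le_mul_of_nonneg_left h10 hd0.le) hn0
    _ ≤ n * n := mul_le_mul_of_nonneg_right hn hn0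
    _ = n ^ 2 := by ring

private theorem PN4_p4 {K x d s n w er : ℝ} {A CD B E : ℕ} (hK : 1 ≤ K) (hx : 0 ≤ x) (h12 : 128 * x ^ 22 ≤ K ^ 2) (hd0 : 0 ≤ d)
    (hd : d ≤ K ^ CD) (hs0 : 0 ≤ s) (hs : s ≤ 2 * K ^ A) (hw : 0 ≤ w) (he0 : 0 ≤ er) (he : er ≤ w / K ^ E) (hE : 2 * CD + 2 * A + B + 12 ≤ E) :
    n ^ 2 * (2 * s ^ 2 * er) * (16 * x ^ 22 * d ^ 2 * K ^ (B + 10)) ≤ w * n ^ 2 := by
  have hK0 : 0 < K := by linarith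
  have hs2 : s ^ 2 ≤ 4 * K ^ (2 * A) := by
    calc s ^ 2 ≤ (2 * K ^ A) ^ 2 := pow_le_pow_left₀ hs0 hs 2
      _ = 4 * K ^ (2 * A) := by ring
  have hd2 : d ^ 2 ≤ K ^ (2 * CD) := by
    calc d ^ 2 ≤ (K ^ CD) ^ 2 := pow_le_pow_left₀ hd0 hd 2
      _ = K ^ (2 * CD) := by ring
  have h1 : s ^ 2 * er ≤ 4 * K ^ (2 * A) * (w / K ^ E) := mul_le_mul hs2 he he0 (by positivity)
  have h2 : 16 * x ^ 22 * d ^ 2 * K ^ (B + 10) ≤ 16 * x ^ 22 * K ^ (2 * CD) * K ^ (B + 10) :=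
    mul_le_mul_of_nonneg_right (mul_le_mul_of_nonneg_left hd2 (by positivity)) (by positivity)
  have h3 : (s ^ 2 * er) * (16 * x ^ 22 * d ^ 2 * K ^ (B + 10)) ≤
      (4 * K ^ (2 * A) * (w / K ^ E)) * (16 * x ^ 22 * K ^ (2 * CD) * K ^ (B + 10)) :=
    mul_le_mul h1 h2 (by positivity) (by positivity)
  have h4 : 2 * ((4 * K ^ (2 * A) * (w / K ^ E)) * (16 * x ^ 22 * K ^ (2 * CD) * K ^ (B + 10))) =
      w * ((128 * x ^ 22) * (K ^ (2 * A) * K ^ (2 * CD) * K ^ (B + 10)) / K ^ E) := by ring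
  have h5 : (128 * x ^ 22) * (K ^ (2 * A) * K ^ (2 * CD) * K ^ (B + 10)) / K ^ E ≤ 1 := by
    refine div_le_one_of_le₀ ?_ (by positivity)
    calc (128 * x ^ 22) * (K ^ (2 * A) * K ^ (2 * CD) * K ^ (B + 10))
        ≤ K ^ 2 * (K ^ (2 * A) * K ^ (2 * CD) * K ^ (B + 10)) := mul_le_mul_of_nonneg_right h12 (by positivity)
      _ = K ^ (2 * CD + 2 * A + B + 12) := by ring
      _ ≤ K ^ E := pow_le_pow_right₀ hK hE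
  have h6 : 2 * ((s ^ 2 * er) * (16 * x ^ 22 * d ^ 2 * K ^ (B + 10))) ≤ w := by
    have h7 := mul_le_mul_of_nonneg_left h5 hw
    linarith
  have h8 := mul_le_mul_of_nonneg_left h6 (sq_nonneg n)
  calc n ^ 2 * (2 * s ^ 2 * er) * (16 * x ^ 22 * d ^ 2 * K ^ (B + 10))
      = n ^ 2 * (2 * ((s ^ 2 * er) * (16 * x ^ 22 * d ^ 2 * K ^ (B + 10)))) := by ring
    _ ≤ n ^ 2 * w := h8
    _ = w * n ^ 2 := by ring

private theorem PN4_ar {K x d n w κ s e1 ξ P nD nF cm U4 U5 U6 MA q er : ℝ} {m A CD B Cη E : ℕ} (hx : 1 ≤ x) (hxK : x ^ 100 = K)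
    (hcm : 1 ≤ cm) (hKc : 256 * cm ≤ K) (hd1 : 1 ≤ d) (hd : d ≤ K ^ CD) (hw : 0 ≤ w) (hn0 : 0 ≤ n)
    (hκ0 : 0 ≤ κ) (hκ : κ ≤ 2 * x ^ 11 / K ^ (2 * m)) (hs0 : 0 ≤ s) (hs : s ≤ 2 * K ^ A)
    (he0 : 0 ≤ e1) (he : e1 ≤ K ^ 2 / K ^ Cη) (hξ0 : 0 ≤ ξ) (hξ : ξ ≤ K ^ 2 / K ^ Cη) (hE1 : 2 * CD + 2 * A + B + 14 ≤ Cη)
    (hP0 : 0 ≤ P) (hP : P ≤ 2) (hnD0 : 0 ≤ nD) (hnD : nD * K ^ (B + 12) ≤ n ^ 2)
    (hnF : 0 ≤ nF) (hF : nF ≤ 2 * cm * n) (hn : d * K ^ (16 * m + B + 20) ≤ n)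
    (h4a : 0 ≤ U4) (h4 : U4 ≤ x ^ 3) (h5a : 0 ≤ U5) (h5 : U5 ≤ x ^ 10 / d) (h6a : 0 ≤ U6) (h6 : U6 ≤ x ^ 2 / d)
    (hma : 0 ≤ MA) (hm : MA ≤ x ^ 5 / d ^ 2) (hq0 : 0 ≤ q) (hq : q ≤ 1)
    (her0 : 0 ≤ er) (her : er ≤ w / K ^ E) (hE2 : 2 * CD + 2 * A + B + 12 ≤ E) :
    κ ^ 2 * (w * (n ^ 2 * s ^ 2 * (e1 + ξ) + P * (nD * (U4 * (MA * (1 + q)) + 3 * U5 ^ 2) + nF * (U4 * U6 + 3 * U5 ^ 2))) +
      n ^ 2 * (2 * s ^ 2 * er)) ≤ (n / (d * K ^ (2 * m + 4))) ^ 2 * (w / K ^ (B + 2)) := by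
  have hx0 : 0 < x := by linarith
  have hd0 : 0 < d := by linarith
  have hK256 : 256 ≤ K := by nlinarith
  have hK : 1 ≤ K := by linarith
  have hK0 : 0 < K := by linarith
  have hx12 : x ^ 22 ≤ K := by
    rw [← hxK]
    exact pow_le_pow_right₀ hx (by norm_num)
  have hx32 : x ^ 42 ≤ K := by
    rw [← hxK]
    exact pow_le_pow_right₀ hx (by norm_num)
  have g1 : 128 * x ^ 22 ≤ K ^ 2 := by nlinarith
  have g2 : 160 * x ^ 42 ≤ K ^ 2 := by nlinarith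
  have g3 : 256 * cm * x ^ 42 ≤ K ^ 2 := by
    calc 256 * cm * x ^ 42 ≤ K * K := mul_le_mul hKc hx32 (by positivity) hK0.le
      _ = K ^ 2 := by ring
  have p1 := PN4_p1 (x := x) (d := d) (s := s) (e := e1 + ξ) (A := A) (CD := CD) (B := B) (Cη := Cη) hK hx0.le g1 hd0.le hd hs0 hs
    (add_nonneg he0 hξ0) (by linarith) hE1
  have p2 := PN4_p2 (B := B) hK0.le hx g2 hd0 hP0 hP hnD0 hnD h4a h4 h5a h5 hma hm hq0 hq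
  have p3 := PN4_p3 (B := B) (m := m) hK hx g3 hd1 hP0 hP hnF hn0 hF hn h4a h4 h5a h5 h6a h6
  have p4 := PN4_p4 (n := n) (A := A) (CD := CD) (B := B) (E := E) hK hx0.le g1 hd0.le hd hs0 hs hw her0 her hE2
  set F : ℝ := 16 * x ^ 22 * d ^ 2 * K ^ (B + 10) with hFd
  have hF0 : 0 < F := by positivity
  have hsum : w * (n ^ 2 * s ^ 2 * (e1 + ξ) + P * (nD * (U4 * (MA * (1 + q)) + 3 * U5 ^ 2) + nF * (U4 * U6 + 3 * U5 ^ 2))) +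
      n ^ 2 * (2 * s ^ 2 * er) ≤ 4 * (w * n ^ 2) / F := by
    rw [le_div_iff₀ hF0]
    have hwn : 0 ≤ w * n ^ 2 := by positivity
    have a1 := mul_le_mul_of_nonneg_left p1 hwn
    have a2 := mul_le_mul_of_nonneg_left p2 hw
    have a3 := mul_le_mul_of_nonneg_left p3 hw
    calc _ = w * n ^ 2 * (s ^ 2 * (e1 + ξ) * F) + w * (P * (nD * (U4 * (MA * (1 + q)) + 3 * U5 ^ 2)) * F) +
          w * (P * (nF * (U4 * U6 + 3 * U5 ^ 2)) * F) + n ^ 2 * (2 * s ^ 2 * er) * F := by ring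
      _ ≤ w * n ^ 2 * 1 + w * n ^ 2 + w * n ^ 2 + w * n ^ 2 := by linarith
      _ = 4 * (w * n ^ 2) := by ring
  have hκ2 : κ ^ 2 ≤ (2 * x ^ 11 / K ^ (2 * m)) ^ 2 := pow_le_pow_left₀ hκ0 hκ 2
  have hnn : 0 ≤ w * (n ^ 2 * s ^ 2 * (e1 + ξ) + P * (nD * (U4 * (MA * (1 + q)) + 3 * U5 ^ 2) + nF * (U4 * U6 + 3 * U5 ^ 2))) +
      n ^ 2 * (2 * s ^ 2 * er) := by
    have b1 : 0 ≤ MA * (1 + q) := mul_nonneg hma (by linarith)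
    positivity
  calc κ ^ 2 * (w * (n ^ 2 * s ^ 2 * (e1 + ξ) + P * (nD * (U4 * (MA * (1 + q)) + 3 * U5 ^ 2) + nF * (U4 * U6 + 3 * U5 ^ 2))) +
      n ^ 2 * (2 * s ^ 2 * er)) ≤ (2 * x ^ 11 / K ^ (2 * m)) ^ 2 * (4 * (w * n ^ 2) / F) :=
        mul_le_mul hκ2 hsum hnn (by positivity)
    _ = (n / (d * K ^ (2 * m + 4))) ^ 2 * (w / K ^ (B + 2)) := by
        rw [hFd, pow_add K (2 * m) 4, pow_add K B 10, pow_add K B 2]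
        field_simp
        ring

private theorem PN4_big (cm : ℝ) : ∃ N0 : ℕ, ∀ N : ℕ, N0 ≤ N → 256 * cm ≤ Real.log N ∧ 1 ≤ Real.log N := by
  have hlog : Filter.Tendsto (fun N : ℕ => Real.log N) Filter.atTop Filter.atTop :=
    Real.tendsto_log_atTop.comp tendsto_natCast_atTop_atTop
  have h1 := hlog.eventually (Filter.eventually_ge_atTop (256 * cm))
  have h2 := hlog.eventually (Filter.eventually_ge_atTop 1)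
  exact Filter.eventually_atTop.1 (h1.and h2)

open Classical in
private theorem PN4_nD (S : MS) : (((S.CC ×ˢ S.CC).filter fun q => ¬ Conn S.k q.1 q.2).card : ℝ) ≤
    4 ^ S.k * ((S.k * (S.k + 1) : ℕ) : ℝ) ^ (2 * S.n0) := by
  have h1 := T09 S.k (E := FE S.n0)
  have h2 : Fintype.card (FE S.n0) = 2 * S.n0 := by
    rw [Fintype.card_sum, Fintype.card_fin]
    ring
  rw [h2] at h1
  have h3 : ((S.CC ×ˢ S.CC).filter fun q => ¬ Conn S.k q.1 q.2).card ≤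
      ((univ : Finset ((FE S.n0 → Fin (S.k + 1)) × (FE S.n0 → Fin (S.k + 1)))).filter fun q => ¬ Conn S.k q.1 q.2).card :=
    card_le_card (filter_subset_filter _ (subset_univ _))
  have h4 := h3.trans h1
  calc (((S.CC ×ˢ S.CC).filter fun q => ¬ Conn S.k q.1 q.2).card : ℝ) ≤ ((4 ^ S.k * (S.k * (S.k + 1)) ^ (2 * S.n0) : ℕ) : ℝ) :=
        Nat.cast_le.2 h4
    _ = _ := by rw [Nat.cast_mul, Nat.cast_pow, Nat.cast_pow, Nat.cast_ofNat]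

open Classical in
private theorem PN4_nF (S : MS) : (((S.CC ×ˢ S.CC).filter fun q => Fun q.1 q.2).card : ℝ) ≤
    ((S.k + 1 : ℕ) : ℝ) ^ (S.k + 1) * ((S.k + 1 : ℕ) : ℝ) ^ (2 * S.n0) := by
  have h1 := T10_card S.k (E := FE S.n0)
  have h2 : Fintype.card (FE S.n0) = 2 * S.n0 := by
    rw [Fintype.card_sum, Fintype.card_fin]
    ring
  rw [h2] at h1
  have h3 : ((S.CC ×ˢ S.CC).filter fun q => Fun q.1 q.2).card ≤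
      ((univ : Finset ((FE S.n0 → Fin (S.k + 1)) × (FE S.n0 → Fin (S.k + 1)))).filter
        fun q => ∃ ψ : Fin (S.k + 1) → Fin (S.k + 1), q.2 = ψ ∘ q.1).card := by
    refine card_le_card fun q hq => ?_
    rw [mem_filter] at hq ⊢
    exact ⟨mem_univ _, hq.2⟩
  have h4 := h3.trans h1
  calc (((S.CC ×ˢ S.CC).filter fun q => Fun q.1 q.2).card : ℝ) ≤ (((S.k + 1) ^ (S.k + 1) * (S.k + 1) ^ (2 * S.n0) : ℕ) : ℝ) :=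
        Nat.cast_le.2 h4
    _ = _ := by rw [Nat.cast_mul, Nat.cast_pow, Nat.cast_pow]

theorem PN4 (c : PC) (hc : c.OK2) : ∃ N0 : ℕ, ∀ (S : MS) (T : Dat) (M M' : Msr S) (W0 : ℕ) (Z : Fin (S.k + 1) → ℕ) (p1 Q0 pb : ℕ) (η : ℝ),
    PH2 c S T M M' W0 Z p1 Q0 pb η → N0 ≤ T.N →
    ∑ μ ∈ S.MX, ∑ ν ∈ S.MY, ind (M.gp2 M' T μ ν) * M.S2 M' μ ν (fun n n' => cg W0 (M.X μ ν n) (M'.X μ ν n') *
      (M.RR21 M' T c.b1 c.b2 μ ν (M.X μ ν n) (M'.X μ ν n') - (S.CC.card : ℝ) * M.wb2 M' T c.b1 c.b2 μ ν (M.X μ ν n) (M'.X μ ν n')) ^ 2) ≤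
    E02 S T ^ 2 * (M.W * M'.W * M.tot1 / (Real.log T.N) ^ (c.B + 2)) := by
  have hc1 := hc.toOK
  obtain ⟨N1, hN1⟩ := QN1 c hc1
  obtain ⟨N2, hN2⟩ := QN1_U c hc1
  obtain ⟨N2', hN2'⟩ := PN1 c hc1
  obtain ⟨N3, hN3⟩ := QN2 c hc1
  obtain ⟨N4, hN4⟩ := QN3 c hc1
  obtain ⟨N5, hN5⟩ := PN2 c hc1 (2 * c.CD + 2 * (12 * c.b1 * (c.CY + 1)) + c.B + 12)
  obtain ⟨N6, hN6⟩ := PN4_big (((c.k + 1 : ℕ) : ℝ) ^ (c.k + 1))
  obtain ⟨N7, hN7⟩ := PN7_xi c hc1 c.Cη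
  refine ⟨N1 + N2 + N2' + N3 + N4 + N5 + N6 + N7, fun S T M M' W0 Z p1 Q0 pb η hPH2 hN => ?_⟩
  have hPH := hPH2.h
  have hPH' := hPH2.h'
  obtain ⟨-, -, -, -, -, -, hNJ, -⟩ := hN1 S T M W0 Z p1 Q0 pb η hPH (by omega)
  obtain ⟨-, -, -, -, u6a, u6b, maa, mab⟩ := hN2 S T M W0 Z p1 Q0 pb η hPH (by omega)
  obtain ⟨u4a, u4b, u5a, u5b, -⟩ := hN2' S T M W0 Z p1 Q0 pb η hPH (by omega)
  obtain ⟨-, hVL, -, -⟩ := hN3 S T M W0 Z p1 Q0 pb η hPH (by omega)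
  obtain ⟨-, hVLb, -, -⟩ := hN3 S T M' W0 Z p1 Q0 pb η hPH' (by omega)
  obtain ⟨hQ, -, hDS, -, hq, -, η', hη0, hsX, hsY, hP2, hP1⟩ := hN4 S T M W0 Z p1 Q0 pb η hPH (by omega)
  obtain ⟨ht1, her0, her, -⟩ := hN5 S T M M' W0 Z p1 Q0 pb η hPH hPH' (by omega)
  obtain ⟨b1, b2⟩ := hN6 T.N (by omega)
  have hξ := hN7 S T M M' W0 Z p1 Q0 pb η hPH hPH' (by omega)
  have hT := hPH.hT
  have hS := hPH.hS
  have hA := hPH.hA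
  have hM := hPH.hM
  have hM' := hPH'.hM
  have hk := hPH.hk
  have hF := hPH.hF
  have hf2 : flK (2 * ((T.F S.k : ℕ) : ℝ)) * (1 / 2) ^ c.b2 ≤ 1 / 20 := by
    rw [hF]
    exact hc1.f2
  have hVL0 : 0 ≤ M.VL T := (P12_Ml hT hS hM hf2).1.le
  have hVL0' : 0 ≤ M'.VL T := (P12_Ml hT hS hM' hf2).1.le
  obtain ⟨K, hK⟩ : ∃ K, K = Real.log T.N := ⟨_, rfl⟩
  rw [← hK] at hNJ u6b mab u4b u5b hVL hVLb hDS hP1 her b1 b2 hξ ⊢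
  have hK0 : 0 < K := by linarith
  obtain ⟨x, hx⟩ : ∃ x, x = K ^ (1 / 100 : ℝ) := ⟨_, rfl⟩
  rw [← hx] at hNJ
  have hx1 : 1 ≤ x := by rw [hx]; exact Real.one_le_rpow b2 (by norm_num)
  have hx0 : 0 < x := by linarith
  have hxp : ∀ j : ℕ, x ^ j = K ^ ((j : ℝ) / 100) := by
    intro j
    rw [hx, ← Real.rpow_natCast, ← Real.rpow_mul hK0.le]
    congr 1
    ring
  have hxK : x ^ 100 = K := by
    rw [hxp]
    norm_num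
  have hx2 : K ^ (1 / 50 : ℝ) = x ^ 2 := by
    rw [hxp]
    norm_num
  have hx3 : K ^ (3 / 100 : ℝ) = x ^ 3 := by
    rw [hxp]
    norm_num
  have hx5 : K ^ (1 / 20 : ℝ) = x ^ 5 := by
    rw [hxp]
    norm_num
  have hx10 : K ^ (1 / 10 : ℝ) = x ^ 10 := by
    rw [hxp]
    norm_num
  have hVe : K ^ (-(c.F : ℝ) + 1 / 20) = x ^ 5 / K ^ c.F := by
    rw [Real.rpow_add hK0, hx5, Real.rpow_neg hK0.le, Real.rpow_natCast]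
    ring
  rw [hVe] at hVL hVLb
  have hd1 : (1 : ℝ) ≤ T.D := by exact_mod_cast hT.D_pos
  have hw : 0 ≤ M.W * M'.W * M.tot1 := mul_nonneg (mul_pos hM.W_pos hM'.W_pos).le ht1.le
  have hξ0 : 0 ≤ 1 / K ^ c.Cη := by positivity
  have key := P10 (b1 := c.b1) (b2 := c.b2) (δ0 := c.δ0) (δ1 := c.δ1) (Q0 := Q0) (Cα := c.Cα) (η := η) (η' := η')
    (ξ := 1 / K ^ c.Cη) (V := (T.N : ℝ) ^ (c.δ1 / 16)) hT hS hA hM hM' hc1.δ1p.le hη0 hsX hsY hQ hc1.b1p hq hξ0 hPH2.hm1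
    (Real.rpow_nonneg (Nat.cast_nonneg _) _) hξ (2 * (((Pool.Agent.Lib.GT.NJ T.y0 : ℕ) : ℝ) + 1) * (M.VL T * M'.VL T))
    (fun d => P12_kap hT hS hM hM' hf2 d)
    (4 ^ S.k * ((S.k * (S.k + 1) : ℕ) : ℝ) ^ (2 * S.n0))
    (((S.k + 1 : ℕ) : ℝ) ^ (S.k + 1) * ((S.k + 1 : ℕ) : ℝ) ^ (2 * S.n0)) (PN4_nD S) (PN4_nF S)
  refine key.trans ?_
  have hE0 : E02 S T = (S.CC.card : ℝ) / (T.D * K ^ (2 * c.F + 4)) := by
    unfold E02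
    rw [hF, ← hK]
  rw [hE0]
  have hη1 := hc1.η1
  have hA24 : 24 * c.b1 * (c.CY + 1) = 2 * (12 * c.b1 * (c.CY + 1)) := by ring
  have hcm : (1 : ℝ) ≤ ((c.k + 1 : ℕ) : ℝ) ^ (c.k + 1) := by
    refine one_le_pow₀ ?_
    exact_mod_cast Nat.succ_pos c.k
  have hq0 : 0 ≤ 8 * ((T.F S.k : ℕ) : ℝ) ^ 2 / ((p1 : ℝ) - 1) := by
    have h1 : (2 : ℝ) ≤ p1 := by exact_mod_cast hA.p1_pr.two_le
    exact div_nonneg (by positivity) (by linarith)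
  have hq1 : 8 * ((T.F S.k : ℕ) : ℝ) ^ 2 / ((p1 : ℝ) - 1) ≤ 1 := by
    have h1 := hA.p1_lo
    have h2 := hT.p0_le
    have h3 := hT.y_le
    have h4 := hS.p0_lo
    have h5 : 64 * (T.F S.k) ^ 2 + 1 ≤ p1 := by omega
    have h6 : 64 * ((T.F S.k : ℕ) : ℝ) ^ 2 + 1 ≤ p1 := by exact_mod_cast h5
    have h7 : (0 : ℝ) ≤ ((T.F S.k : ℕ) : ℝ) ^ 2 := by positivity
    have h8 : (2 : ℝ) ≤ p1 := by exact_mod_cast hA.p1_pr.two_le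
    rw [div_le_one (by linarith)]
    linarith
  have hξC : 1 / K ^ c.Cη ≤ K ^ 2 / K ^ c.Cη := by
    refine div_le_div_of_nonneg_right ?_ (by positivity)
    exact one_le_pow₀ b2
  have hDK : (T.D : ℝ) ≤ K ^ c.CD := by
    rw [hK]
    exact hPH.hD
  have hnn1 : (0 : ℝ) ≤ 4 ^ S.k * ((S.k * (S.k + 1) : ℕ) : ℝ) ^ (2 * S.n0) := by positivity
  have hnn2 : (0 : ℝ) ≤ ((S.k + 1 : ℕ) : ℝ) ^ (S.k + 1) * ((S.k + 1 : ℕ) : ℝ) ^ (2 * S.n0) := by positivity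
  have hη2n : (0 : ℝ) ≤ (1 + η') ^ (2 * S.n0) := by positivity
  refine PN4_ar (m := c.F) (A := 12 * c.b1 * (c.CY + 1)) (CD := c.CD) (B := c.B) (Cη := c.Cη)
    (E := 2 * c.CD + 2 * (12 * c.b1 * (c.CY + 1)) + c.B + 12) (cm := ((c.k + 1 : ℕ) : ℝ) ^ (c.k + 1)) (x := x)
    hx1 hxK hcm b1 hd1 hDK hw (Nat.cast_nonneg _) ?_ ?_ (Nat.cast_nonneg _) hDS ?_ hP1 hξ0 hξC (by omega) hη2n hP2
    hnn1 ?_ hnn2 ?_ ?_ u4a (u4b.trans (le_of_eq hx3)) u5a ?_ u6a ?_ maa ?_ hq0 hq1 her0 her le_rfl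
  · exact mul_nonneg (by positivity) (mul_nonneg hVL0 hVL0')
  · calc 2 * (((Pool.Agent.Lib.GT.NJ T.y0 : ℕ) : ℝ) + 1) * (M.VL T * M'.VL T) ≤ 2 * x * ((x ^ 5 / K ^ c.F) * (x ^ 5 / K ^ c.F)) :=
          mul_le_mul (by linarith) (mul_le_mul hVL hVLb hVL0' (by positivity)) (mul_nonneg hVL0 hVL0') (by positivity)
      _ = 2 * x ^ 11 / K ^ (2 * c.F) := by
          rw [pow_mul' K 2 c.F]
          field_simp
  · have h1 : (1 : ℝ) ≤ (1 + η') ^ (2 * S.n0) := one_le_pow₀ (by linarith)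
    linarith
  · have h1 := hPH2.hC3'
    rw [← hK] at h1
    rw [hk]
    refine le_trans ?_ h1
    refine mul_le_mul_of_nonneg_left (pow_le_pow_right₀ b2 (by omega)) (by positivity)
  · have h1 := hPH.hC2
    rw [hk]
    calc ((c.k + 1 : ℕ) : ℝ) ^ (c.k + 1) * ((c.k + 1 : ℕ) : ℝ) ^ (2 * S.n0) ≤
          ((c.k + 1 : ℕ) : ℝ) ^ (c.k + 1) * (2 * (S.CC.card : ℝ)) := mul_le_mul_of_nonneg_left h1 (by positivity)
      _ = 2 * ((c.k + 1 : ℕ) : ℝ) ^ (c.k + 1) * (S.CC.card : ℝ) := by ring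
  · have h1 := hPH2.hC1'
    rw [← hK] at h1
    exact h1
  · rw [← hx10]
    exact u5b
  · rw [← hx2]
    exact u6b
  · rw [← hx5]
    exact mab

end Pool.Agent.Lib.TT3
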