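import Pool.Agent.Lib.MP_092512_nt.TT.P.PN1
import Pool.Agent.Lib.MP_092512_nt.TT.P.PN2
import Pool.Agent.Lib.MP_092512_nt.TT.P.QN2
import Pool.Agent.Lib.MP_092512_nt.TT.P.QN3
import Pool.Agent.Lib.MP_092512_nt.TT.P.P11
import Pool.Agent.Lib.MP_092512_nt.TT.P.P12

/-!
# PN5: the second moment of the large sieves for the pair

As `TC/QN5c`. `K = log N`, `m = F` (number of forms). `32 (NJ y0 + 3)² (Th0 (2 Th0' + 8) + 64 Th0') ≤ K^(6m + 1/2)` (`Th0 = 4 (NJ z + 1)² V3 ≤ K^(3m + 1/10)`), `1/E02² = D² K^(4m+8)/|CC|²`.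
First term: `K^(6m + 3/4) K^(4m+8) (th0 + 8 m²/(p1-1))`, `th0 + 8m²/(p1 - 1) ≤ K^(5/4)/y0 ≤ K^(5/4 - CY)` (`p1 > y0`), `CY ≥ 24 m + B + 40` (`Y1'`); second: `K^(6m + 1) nF D K^(4m+8)/|CC|² ≤ K^(10m + 10) D/|CC| ≤ K^(-6m - B - 10)` (`hC1'`). `|Ml| ≤ 2`: `P12_Ml2`.
-/

set_option autoImplicit false

open Finset

open Pool.Agent.Lib.GT (NJ)

namespace Pool.Agent.Lib.TT3

open Pool.Agent.Lib.TTC

private theorem PN5_mono {N D Q0 : ℕ} {h : ℕ → ℝ} {η η' : ℝ} {P : Finset ℕ} (hP : ∀ l ∈ P, 0 ≤ h l) (hη : η ≤ η')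
    (H : SWc N D h η Q0 P) : SWc N D h η' Q0 P := by
  classical
  intro Q hQ hQ0 κ u
  refine (H Q hQ hQ0 κ u).trans (mul_le_mul_of_nonneg_right hη ?_)
  exact div_nonneg (Finset.sum_nonneg fun l hl => hP l (Finset.mem_filter.1 hl).1) (Nat.cast_nonneg _)

private theorem PN5_T1 {K s D C P : ℝ} {m CY B CD : ℕ} (hK1 : 1000000 ≤ K) (hs1 : 1 ≤ s) (hs : s ^ 24 ≤ K) (hD : 0 < D)
    (hP : 0 ≤ P) (hCY : CD + 24 * m + B + 40 ≤ CY) :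
    128 * s ^ 2 * (P * (1184 * K ^ (6 * m) * s ^ 14 * (2 * (C ^ 2 * (s ^ 3 * ((s ^ 5 / D ^ 2) * (K ^ 2 / K ^ CY))))))) ≤
      (C / (D * K ^ (2 * m + 4))) ^ 2 * (P / K ^ (B + 2)) / 3 := by
  have hK0 : 0 < K := by linarith
  have hK1' : 1 ≤ K := by linarith
  have e : 128 * s ^ 2 * (P * (1184 * K ^ (6 * m) * s ^ 14 * (2 * (C ^ 2 * (s ^ 3 * ((s ^ 5 / D ^ 2) * (K ^ 2 / K ^ CY))))))) =
      (C / (D * K ^ (2 * m + 4))) ^ 2 * (P / K ^ (B + 2)) * (303104 * s ^ 24 * (K ^ (6 * m) * K ^ 2 * (K ^ (2 * m + 4)) ^ 2 * K ^ (B + 2)) / K ^ CY) := by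
    field_simp
    ring
  rw [e, div_eq_mul_inv _ (3 : ℝ)]
  refine mul_le_mul_of_nonneg_left ?_ (by positivity)
  rw [div_le_iff₀ (by positivity)]
  have h1 : K ^ (6 * m) * K ^ 2 * (K ^ (2 * m + 4)) ^ 2 * K ^ (B + 2) = K ^ (10 * m + B + 12) := by
    rw [← pow_mul, ← pow_add, ← pow_add, ← pow_add]
    congr 1
    ring
  rw [h1]
  have h2 : K ^ (10 * m + B + 12) * K ^ 2 ≤ K ^ CY := by
    rw [← pow_add]
    exact pow_le_pow_right₀ hK1' (by omega)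
  have h3 : 303104 * s ^ 24 * K ^ (10 * m + B + 12) ≤ (1 / 3) * (K ^ (10 * m + B + 12) * K ^ 2) := by
    have h4 : 303104 * s ^ 24 ≤ (1 / 3) * K ^ 2 := by nlinarith
    have h5 : 0 ≤ K ^ (10 * m + B + 12) := by positivity
    nlinarith
  have h6 : (3 : ℝ)⁻¹ = 1 / 3 := by norm_num
  rw [h6]
  linarith

private theorem PN5_T2 {K s D C P : ℝ} {m B : ℕ} (hK1 : 2000000 ≤ K) (hs1 : 1 ≤ s) (hs : s ^ 22 ≤ K) (hD : 0 < D)
    (hP : 0 ≤ P) (hC : 0 < C) (hCD : D * K ^ (16 * m + B + 20) ≤ C) :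
    128 * s ^ 2 * (P * (1184 * K ^ (6 * m) * s ^ 14 * (2 * ((s * C) * (s ^ 3 * (2 * (s ^ 2 / D))))))) ≤
      (C / (D * K ^ (2 * m + 4))) ^ 2 * (P / K ^ (B + 2)) / 3 := by
  have hK0 : 0 < K := by linarith
  have hK1' : 1 ≤ K := by linarith
  have e : 128 * s ^ 2 * (P * (1184 * K ^ (6 * m) * s ^ 14 * (2 * ((s * C) * (s ^ 3 * (2 * (s ^ 2 / D))))))) =
      (C / (D * K ^ (2 * m + 4))) ^ 2 * (P / K ^ (B + 2)) * (606208 * s ^ 22 * (K ^ (6 * m) * (K ^ (2 * m + 4)) ^ 2 * K ^ (B + 2)) * D / C) := by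
    field_simp
    ring
  rw [e, div_eq_mul_inv _ (3 : ℝ)]
  refine mul_le_mul_of_nonneg_left ?_ (by positivity)
  rw [div_le_iff₀ hC]
  have h1 : K ^ (6 * m) * (K ^ (2 * m + 4)) ^ 2 * K ^ (B + 2) = K ^ (10 * m + B + 10) := by
    rw [← pow_mul, ← pow_add, ← pow_add]
    congr 1
    ring
  rw [h1]
  have h2 : K ^ (10 * m + B + 10) * K ^ 2 ≤ K ^ (16 * m + B + 20) := by
    rw [← pow_add]
    exact pow_le_pow_right₀ hK1' (by omega)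
  have h4 : 606208 * s ^ 22 ≤ (1 / 3) * K ^ 2 := by nlinarith
  have h5 : 0 ≤ K ^ (10 * m + B + 10) * D := by positivity
  have h6 : (3 : ℝ)⁻¹ = 1 / 3 := by norm_num
  rw [h6]
  calc 606208 * s ^ 22 * K ^ (10 * m + B + 10) * D = 606208 * s ^ 22 * (K ^ (10 * m + B + 10) * D) := by ring
    _ ≤ (1 / 3) * K ^ 2 * (K ^ (10 * m + B + 10) * D) := mul_le_mul_of_nonneg_right h4 h5
    _ = (1 / 3) * (D * (K ^ (10 * m + B + 10) * K ^ 2)) := by ring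
    _ ≤ (1 / 3) * (D * K ^ (16 * m + B + 20)) := mul_le_mul_of_nonneg_left (mul_le_mul_of_nonneg_left h2 hD.le) (by norm_num)
    _ ≤ 1 / 3 * C := mul_le_mul_of_nonneg_left hCD (by norm_num)

private theorem PN5_T3 {K s D C P : ℝ} {m B e1 E CD : ℕ} (hK1 : 1000000 ≤ K) (hs1 : 1 ≤ s) (hs : s ^ 2 ≤ K) (hD : 0 < D)
    (hP : 0 ≤ P) (hDK : D ≤ K ^ CD) (hE : E = 2 * e1 + 2 * CD + 4 * m + B + 12) :
    128 * s ^ 2 * (C ^ 2 * ((2 * K ^ e1) ^ 2 * (P / K ^ E)) * 5) ≤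
      (C / (D * K ^ (2 * m + 4))) ^ 2 * (P / K ^ (B + 2)) / 3 := by
  have hK0 : 0 < K := by linarith
  have hK1' : 1 ≤ K := by linarith
  have e : 128 * s ^ 2 * (C ^ 2 * ((2 * K ^ e1) ^ 2 * (P / K ^ E)) * 5) =
      (C / (D * K ^ (2 * m + 4))) ^ 2 * (P / K ^ (B + 2)) * (2560 * s ^ 2 * (K ^ e1 * K ^ e1 * (K ^ (2 * m + 4)) ^ 2 * K ^ (B + 2)) * D ^ 2 / K ^ E) := by
    field_simp
    ring
  rw [e, div_eq_mul_inv _ (3 : ℝ)]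
  refine mul_le_mul_of_nonneg_left ?_ (by positivity)
  rw [div_le_iff₀ (by positivity)]
  have h1 : K ^ e1 * K ^ e1 * (K ^ (2 * m + 4)) ^ 2 * K ^ (B + 2) = K ^ (2 * e1 + 4 * m + B + 10) := by
    rw [← pow_mul, ← pow_add, ← pow_add, ← pow_add]
    congr 1
    ring
  rw [h1]
  have h2 : D ^ 2 ≤ K ^ (2 * CD) := by
    calc D ^ 2 ≤ (K ^ CD) ^ 2 := pow_le_pow_left₀ hD.le hDK 2
      _ = K ^ (2 * CD) := by rw [← pow_mul, mul_comm]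
  have h3 : K ^ E = K ^ (2 * e1 + 4 * m + B + 10) * K ^ (2 * CD) * K ^ 2 := by
    rw [← pow_add, ← pow_add, hE]
    congr 1
    ring
  rw [h3]
  have h4 : 2560 * s ^ 2 ≤ (1 / 3) * K ^ 2 := by nlinarith
  have h5 : 0 ≤ K ^ (2 * e1 + 4 * m + B + 10) := by positivity
  have h6 : (3 : ℝ)⁻¹ = 1 / 3 := by norm_num
  rw [h6]
  calc 2560 * s ^ 2 * K ^ (2 * e1 + 4 * m + B + 10) * D ^ 2
      ≤ (1 / 3) * K ^ 2 * K ^ (2 * e1 + 4 * m + B + 10) * K ^ (2 * CD) := by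
        refine mul_le_mul ?_ h2 (by positivity) (by positivity)
        exact mul_le_mul_of_nonneg_right h4 h5
    _ = 1 / 3 * (K ^ (2 * e1 + 4 * m + B + 10) * K ^ (2 * CD) * K ^ 2) := by ring

open Classical in
private theorem PN5_nF {S : MS} {k : ℕ} (hk : S.k = k) (hC2 : ((k + 1 : ℕ) : ℝ) ^ (2 * S.n0) ≤ 2 * S.CC.card) :
    (((S.CC ×ˢ S.CC).filter fun q => Fun q.1 q.2).card : ℝ) ≤ 2 * ((k + 1 : ℕ) : ℝ) ^ (k + 1) * S.CC.card := by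
  subst hk
  have h1 : ((S.CC ×ˢ S.CC).filter fun q => Fun q.1 q.2).card ≤
      ((univ : Finset ((FE S.n0 → Fin (S.k + 1)) × (FE S.n0 → Fin (S.k + 1)))).filter
        fun q => ∃ ψ : Fin (S.k + 1) → Fin (S.k + 1), q.2 = ψ ∘ q.1).card := by
    refine card_le_card ?_
    intro q hq
    rw [mem_filter] at hq ⊢
    exact ⟨mem_univ _, hq.2⟩
  have h2 := h1.trans (T10_card S.k (E := FE S.n0))
  have h3 : Fintype.card (FE S.n0) = 2 * S.n0 := by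
    rw [Fintype.card_sum, Fintype.card_fin]
    ring
  rw [h3] at h2
  have h4 : (((S.CC ×ˢ S.CC).filter fun q => Fun q.1 q.2).card : ℝ) ≤
      ((S.k + 1 : ℕ) : ℝ) ^ (S.k + 1) * ((S.k + 1 : ℕ) : ℝ) ^ (2 * S.n0) := by exact_mod_cast h2
  refine h4.trans ?_
  calc ((S.k + 1 : ℕ) : ℝ) ^ (S.k + 1) * ((S.k + 1 : ℕ) : ℝ) ^ (2 * S.n0) ≤ ((S.k + 1 : ℕ) : ℝ) ^ (S.k + 1) * (2 * S.CC.card) :=
        mul_le_mul_of_nonneg_left hC2 (by positivity)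
    _ = _ := by ring

/-- the abstract inequality -/
private theorem PN5_ar {K s P C D nj Th Th' η2 V4 MA th nF U6 ds er E0 : ℝ} {m B e1 E CD CY : ℕ} (hK1 : 2000000 ≤ K) (hs1 : 1 ≤ s)
    (hsle : ∀ j : ℕ, j ≤ 100 → s ^ j ≤ K) (hP0 : 0 ≤ P) (hCpos : 0 < C) (hD0 : 0 < D) (hDK : D ≤ K ^ CD) (hCD : D * K ^ (16 * m + B + 20) ≤ C)
    (hCY : CD + 24 * m + B + 40 ≤ CY) (hE : E = 2 * e1 + 2 * CD + 4 * m + B + 12) (hE0 : E0 = C / (D * K ^ (2 * m + 4)))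
    (hnj0 : 0 ≤ nj) (hnj : nj ≤ 2 * s) (hTh0 : 0 ≤ Th) (hTh : Th ≤ 4 * s ^ 7 * K ^ (3 * m)) (hTh0' : 0 ≤ Th') (hTh' : Th' ≤ 4 * s ^ 7 * K ^ (3 * m))
    (hη0 : 0 ≤ η2) (hη : η2 ≤ 2) (h40 : 0 ≤ V4) (h4 : V4 ≤ s ^ 3) (hMA0 : 0 ≤ MA) (hMA : MA ≤ s ^ 5 / D ^ 2) (hth0 : 0 ≤ th)
    (hth : th ≤ K ^ 2 / K ^ CY) (hnF0 : 0 ≤ nF) (hnF : nF ≤ s * C) (hU0 : 0 ≤ U6) (hU : U6 ≤ s ^ 2 / D) (hds0 : 0 ≤ ds) (hds : ds ≤ 2 * K ^ e1)
    (her0 : 0 ≤ er) (her : er ≤ P / K ^ E) :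
    32 * nj ^ 2 * (P * ((Th * (2 * Th' + 8) + 64 * Th') * (η2 * (C ^ 2 * (V4 * (MA * th)) + nF * (V4 * (2 * U6))))) +
      C ^ 2 * (ds ^ 2 * er) * 5) ≤ E0 ^ 2 * (P / K ^ (B + 2)) := by
  have hK0 : 0 < K := by linarith
  have hK1' : 1 ≤ K := by linarith
  have hX1 : C ^ 2 * (V4 * (MA * th)) ≤ C ^ 2 * (s ^ 3 * ((s ^ 5 / D ^ 2) * (K ^ 2 / K ^ CY))) := by
    refine mul_le_mul_of_nonneg_left ?_ (by positivity)
    refine mul_le_mul h4 ?_ (mul_nonneg hMA0 hth0) (by positivity)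
    exact mul_le_mul hMA hth hth0 (by positivity)
  have hX2 : nF * (V4 * (2 * U6)) ≤ (s * C) * (s ^ 3 * (2 * (s ^ 2 / D))) := by
    refine mul_le_mul hnF ?_ (mul_nonneg h40 (by linarith)) (by positivity)
    exact mul_le_mul h4 (by linarith) (by linarith) (by positivity)
  have hX10 : 0 ≤ C ^ 2 * (V4 * (MA * th)) := by positivity
  have hX20 : 0 ≤ nF * (V4 * (2 * U6)) := by positivity
  have hΘ1 : 1 ≤ 4 * s ^ 7 * K ^ (3 * m) := by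
    have h1 : 1 ≤ s ^ 7 := one_le_pow₀ hs1
    have h2 : 1 ≤ K ^ (3 * m) := one_le_pow₀ hK1'
    have h3 : 1 ≤ s ^ 7 * K ^ (3 * m) := by nlinarith
    linarith
  have hThh : Th * (2 * Th' + 8) + 64 * Th' ≤ 1184 * K ^ (6 * m) * s ^ 14 := by
    obtain ⟨Θ, hΘ⟩ : ∃ Θ, Θ = 4 * s ^ 7 * K ^ (3 * m) := ⟨_, rfl⟩
    rw [← hΘ] at hTh hTh' hΘ1
    have h1 : Th * (2 * Th' + 8) ≤ Θ * (2 * Θ + 8) := mul_le_mul hTh (by linarith) (by linarith) (by linarith)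
    have h2 : 1184 * K ^ (6 * m) * s ^ 14 = 74 * Θ ^ 2 := by
      rw [hΘ]
      have h3 : K ^ (6 * m) = (K ^ (3 * m)) ^ 2 := by
        rw [← pow_mul]
        congr 1
        ring
      rw [h3]
      ring
    rw [h2]
    nlinarith
  have hTh0'' : 0 ≤ Th * (2 * Th' + 8) + 64 * Th' := by positivity
  have hnj2 : 32 * nj ^ 2 ≤ 128 * s ^ 2 := by
    have := pow_le_pow_left₀ hnj0 hnj 2
    have e : (2 * s) ^ 2 = 4 * s ^ 2 := by ring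
    rw [e] at this
    linarith
  have hds2 : ds ^ 2 ≤ (2 * K ^ e1) ^ 2 := pow_le_pow_left₀ hds0 hds 2
  have hPE : 0 ≤ P / K ^ E := by positivity
  have hmain : 32 * nj ^ 2 * (P * ((Th * (2 * Th' + 8) + 64 * Th') * (η2 * (C ^ 2 * (V4 * (MA * th)) + nF * (V4 * (2 * U6))))) +
      C ^ 2 * (ds ^ 2 * er) * 5) ≤
      128 * s ^ 2 * (P * (1184 * K ^ (6 * m) * s ^ 14 * (2 *
      (C ^ 2 * (s ^ 3 * ((s ^ 5 / D ^ 2) * (K ^ 2 / K ^ CY))) + (s * C) * (s ^ 3 * (2 * (s ^ 2 / D)))))) +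
      C ^ 2 * ((2 * K ^ e1) ^ 2 * (P / K ^ E)) * 5) := by
    refine mul_le_mul hnj2 ?_ (by positivity) (by positivity)
    refine add_le_add ?_ ?_
    · refine mul_le_mul_of_nonneg_left ?_ hP0
      refine mul_le_mul hThh ?_ (by positivity) (by positivity)
      exact mul_le_mul hη (add_le_add hX1 hX2) (by positivity) (by norm_num)
    · refine mul_le_mul_of_nonneg_right ?_ (by norm_num)
      refine mul_le_mul_of_nonneg_left ?_ (by positivity)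
      exact mul_le_mul hds2 her her0 (by positivity)
  refine hmain.trans ?_
  have t1 := PN5_T1 (C := C) (m := m) (CY := CY) (B := B) (CD := CD) (by linarith) hs1 (hsle 24 (by norm_num)) hD0 hP0 hCY
  have t2 := PN5_T2 (m := m) (B := B) hK1 hs1 (hsle 22 (by norm_num)) hD0 hP0 hCpos hCD
  have t3 := PN5_T3 (C := C) (m := m) (B := B) (e1 := e1) (CD := CD) (E := E) (by linarith) hs1 (hsle 2 (by norm_num)) hD0 hP0 hDK hE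
  rw [← hE0] at t1 t2 t3
  have e1' : 128 * s ^ 2 * (P * (1184 * K ^ (6 * m) * s ^ 14 * (2 *
      (C ^ 2 * (s ^ 3 * ((s ^ 5 / D ^ 2) * (K ^ 2 / K ^ CY))) + (s * C) * (s ^ 3 * (2 * (s ^ 2 / D)))))) +
      C ^ 2 * ((2 * K ^ e1) ^ 2 * (P / K ^ E)) * 5) =
      128 * s ^ 2 * (P * (1184 * K ^ (6 * m) * s ^ 14 * (2 * (C ^ 2 * (s ^ 3 * ((s ^ 5 / D ^ 2) * (K ^ 2 / K ^ CY))))))) +
      128 * s ^ 2 * (P * (1184 * K ^ (6 * m) * s ^ 14 * (2 * ((s * C) * (s ^ 3 * (2 * (s ^ 2 / D))))))) +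
      128 * s ^ 2 * (C ^ 2 * ((2 * K ^ e1) ^ 2 * (P / K ^ E)) * 5) := by ring
  rw [e1']
  linarith

theorem PN5 (c : PC) (hc : c.OK2) : ∃ N0 : ℕ, ∀ (S : MS) (T : Dat) (M M' : Msr S) (W0 : ℕ) (Z : Fin (S.k + 1) → ℕ) (p1 Q0 pb : ℕ) (η : ℝ),
    PH2 c S T M M' W0 Z p1 Q0 pb η → N0 ≤ T.N →
    ∑ μ ∈ S.MX, ∑ ν ∈ S.MY, ind (M.gp2 M' T μ ν) * M.S2 M' μ ν (fun n n' => cg W0 (M.X μ ν n) (M'.X μ ν n') *
      (M.RR2 M' T c.b1 c.b2 μ ν (M.X μ ν n) (M'.X μ ν n') - M.RR21 M' T c.b1 c.b2 μ ν (M.X μ ν n) (M'.X μ ν n')) ^ 2) ≤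
    E02 S T ^ 2 * (M.W * M'.W * M.tot1 / (Real.log T.N) ^ (c.B + 2)) := by
  have hkk : Filter.Tendsto (fun N : ℕ => (Real.log N) ^ (1 / 100 : ℝ)) Filter.atTop Filter.atTop :=
    (tendsto_rpow_atTop (by norm_num)).comp (Real.tendsto_log_atTop.comp tendsto_natCast_atTop_atTop)
  have hc1 := hc.toOK
  obtain ⟨n1, h1⟩ := QN1 c hc1
  obtain ⟨n1', h1'⟩ := QN1_U c hc1
  obtain ⟨n1'', h1''⟩ := PN1 c hc1
  obtain ⟨n2, h2⟩ := QN2 c hc1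
  obtain ⟨n3, h3⟩ := QN3 c hc1
  obtain ⟨n4, h4⟩ := PN2 c hc1 (2 * (12 * c.b1 * (c.CY + 1)) + 2 * c.CD + 4 * c.F + c.B + 12)
  obtain ⟨n5, h5⟩ := (hkk.eventually_ge_atTop (2 * ((c.k + 1 : ℕ) : ℝ) ^ (c.k + 1) + 2000000 +
    (602 * ((c.F : ℕ) : ℝ) ^ 3 + 8 * ((c.F : ℕ) : ℝ) ^ 2))).exists_forall_of_atTop
  refine ⟨n1 + n1' + n1'' + n2 + n3 + n4 + n5, ?_⟩
  intro S T M M' W0 Z p1 Q0 pb η hPH2 hN
  have hPH := hPH2.h
  have hPH' := hPH2.h'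
  obtain ⟨-, -, -, -, -, -, hNJy, hNJz⟩ := h1 S T M W0 Z p1 Q0 pb η hPH (by omega)
  obtain ⟨-, -, -, -, hU60, hU6, hMA0, hMA⟩ := h1' S T M W0 Z p1 Q0 pb η hPH (by omega)
  obtain ⟨hV40, hV4, -, -, -⟩ := h1'' S T M W0 Z p1 Q0 pb η hPH (by omega)
  obtain ⟨-, -, hV30, hV3⟩ := h2 S T M W0 Z p1 Q0 pb η hPH (by omega)
  obtain ⟨-, -, hV30', hV3'⟩ := h2 S T M' W0 Z p1 Q0 pb η hPH' (by omega)
  obtain ⟨hQ0, -, hDS, hq, -, -, η1, hη10, hsX1, hsY1, hη12, -⟩ := h3 S T M W0 Z p1 Q0 pb η hPH (by omega)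
  obtain ⟨-, -, -, -, -, -, η2, hη20, hsX2, hsY2, hη22, -⟩ := h3 S T M' W0 Z p1 Q0 pb η hPH' (by omega)
  obtain ⟨htot, -, -, herL0, herL, -⟩ := h4 S T M M' W0 Z p1 Q0 pb η hPH hPH' (by omega)
  have hbig := h5 T.N (by omega)
  have hnF := PN5_nF hPH.hk hPH.hC2
  -- a common `η`
  have hη0 : 0 ≤ max η1 η2 := hη10.trans (le_max_left _ _)
  have hη2 : (1 + max η1 η2) ^ (2 * S.n0) ≤ 2 := by
    rcases le_total η1 η2 with h | h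
    · rw [max_eq_right h]
      exact hη22
    · rw [max_eq_left h]
      exact hη12
  have nnX : ∀ f, ∀ l ∈ S.FX f, 0 ≤ M.hX l := fun f l hl => (hPH.hM.hX_nonneg l (hPH.hS.FX_mem f l hl).1).1
  have nnY : ∀ f, ∀ l ∈ S.FY f, 0 ≤ M.hY l := fun f l hl => (hPH.hM.hY_nonneg l (hPH.hS.FY_mem f l hl).1).1
  have nnX' : ∀ f, ∀ l ∈ S.FX f, 0 ≤ M'.hX l := fun f l hl => (hPH'.hM.hX_nonneg l (hPH.hS.FX_mem f l hl).1).1
  have nnY' : ∀ f, ∀ l ∈ S.FY f, 0 ≤ M'.hY l := fun f l hl => (hPH'.hM.hY_nonneg l (hPH.hS.FY_mem f l hl).1).1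
  -- numbers
  have hk := hPH.hk
  have hF := hPH.hF
  obtain ⟨m1, hm1⟩ : ∃ m1 : ℕ, m1 = c.k + 1 := ⟨_, rfl⟩
  rw [← hm1] at hbig hnF
  obtain ⟨m, hm⟩ : ∃ m : ℕ, m = c.F := ⟨_, rfl⟩
  rw [← hm] at hbig
  obtain ⟨K, hK⟩ : ∃ K, K = Real.log T.N := ⟨_, rfl⟩
  rw [← hK] at hbig hNJy hNJz hU6 hMA hV4 hV3 hV3' hDS herL
  obtain ⟨s, hs⟩ : ∃ s, s = K ^ (1 / 100 : ℝ) := ⟨_, rfl⟩
  rw [← hs] at hbig hNJy hNJz
  have hmm : (0 : ℝ) ≤ 2 * (m1 : ℝ) ^ m1 := by positivity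
  have hm3 : (0 : ℝ) ≤ 602 * (m : ℝ) ^ 3 + 8 * (m : ℝ) ^ 2 := by positivity
  have hs200 : 2000000 ≤ s := by linarith
  have hs1 : 1 ≤ s := by linarith
  have hK0 : 0 ≤ K := by rw [hK]; exact Real.log_natCast_nonneg _
  have hsp : ∀ j : ℕ, s ^ j = K ^ ((j : ℝ) / 100) := by
    intro j
    rw [hs, ← Real.rpow_natCast, ← Real.rpow_mul hK0]
    congr 1
    ring
  have hsK : s ^ 100 = K := by
    rw [hsp]
    norm_num
  have hsle : ∀ j : ℕ, j ≤ 100 → s ^ j ≤ K := fun j hj => by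
    rw [← hsK]
    exact pow_le_pow_right₀ hs1 hj
  have hK200 : 2000000 ≤ K := by
    have := hsle 1 (by norm_num)
    rw [pow_one] at this
    linarith
  have hKpos : 0 < K := by linarith
  have hK1 : 1 ≤ K := by linarith
  have hs2 : K ^ (1 / 50 : ℝ) = s ^ 2 := by
    rw [hsp]
    norm_num
  have hs3 : K ^ (3 / 100 : ℝ) = s ^ 3 := by
    rw [hsp]
    norm_num
  have hs5 : K ^ (1 / 20 : ℝ) = s ^ 5 := by
    rw [hsp]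
    norm_num
  have hs3m : K ^ (3 * (c.F : ℝ) + 1 / 20) = K ^ (3 * m) * s ^ 5 := by
    rw [Real.rpow_add hKpos, hs5]
    congr 1
    rw [← Real.rpow_natCast]
    congr 1
    rw [hm]
    push_cast
    ring
  rw [hs2] at hU6
  rw [hs3] at hV4
  rw [hs5] at hMA
  rw [hs3m] at hV3 hV3'
  have hD0 : (0 : ℝ) < T.D := by exact_mod_cast hPH.hT.D_pos
  obtain ⟨P, hP⟩ : ∃ P, P = M.W * M'.W * M.tot1 := ⟨_, rfl⟩
  have hP0 : 0 ≤ P := by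
    rw [hP]
    exact (mul_pos (mul_pos hPH.hM.W_pos hPH'.hM.W_pos) htot).le
  rw [← hP] at herL ⊢
  obtain ⟨C, hC⟩ : ∃ C : ℝ, C = (S.CC.card : ℝ) := ⟨_, rfl⟩
  have hCD := hPH2.hC1'
  rw [← hK, ← hm, ← hC] at hCD
  have hCpos : 0 < C := lt_of_lt_of_le (by positivity) hCD
  have hE0 : E02 S T = C / (T.D * K ^ (2 * m + 4)) := by
    unfold E02
    rw [hF, ← hC, ← hK, ← hm]
  -- the small quantities
  have hy0 : K ^ c.CY ≤ T.y0 := by rw [hK]; exact hPH.hy1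
  have hKY : 0 < K ^ c.CY := by positivity
  have hy0p : (0 : ℝ) < T.y0 := lt_of_lt_of_le hKY hy0
  have hth : th0 S T + 8 * ((m : ℕ) : ℝ) ^ 2 / ((p1 : ℝ) - 1) ≤ K ^ 2 / K ^ c.CY := by
    have a1 : th0 S T ≤ 602 * (m : ℝ) ^ 3 * K / K ^ c.CY := by
      unfold th0
      rw [hF, ← hm, ← hK]
      have b1 : 300 * (m : ℝ) ^ 2 * K + 1 ≤ 301 * (m : ℝ) ^ 2 * K := by
        have b2 : (1 : ℝ) ≤ m := by
          have b3 := hc1.kF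
          rw [hm]
          exact_mod_cast (by omega : 1 ≤ c.F)
        have b3 : 1 ≤ (m : ℝ) ^ 2 * K := by
          have : 1 ≤ (m : ℝ) ^ 2 := one_le_pow₀ b2
          nlinarith
        linarith
      calc (300 * (m : ℝ) ^ 2 * K + 1) * (2 * (m : ℝ) / T.y0) ≤ (301 * (m : ℝ) ^ 2 * K) * (2 * (m : ℝ) / K ^ c.CY) := by
            refine mul_le_mul b1 ?_ (by positivity) (by positivity)
            exact div_le_div_of_nonneg_left (by positivity) hKY hy0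
        _ = 602 * (m : ℝ) ^ 3 * K / K ^ c.CY := by ring
    have a2 : 8 * (m : ℝ) ^ 2 / ((p1 : ℝ) - 1) ≤ 8 * (m : ℝ) ^ 2 * K / K ^ c.CY := by
      have b1 : (T.y0 : ℝ) ≤ (p1 : ℝ) - 1 := by
        have : T.y0 + 1 ≤ p1 := hPH.hA.p1_lo
        have : ((T.y0 + 1 : ℕ) : ℝ) ≤ p1 := by exact_mod_cast this
        push_cast at this
        linarith
      calc 8 * (m : ℝ) ^ 2 / ((p1 : ℝ) - 1) ≤ 8 * (m : ℝ) ^ 2 / K ^ c.CY :=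
            div_le_div_of_nonneg_left (by positivity) hKY (hy0.trans b1)
        _ ≤ _ := by
            refine div_le_div_of_nonneg_right ?_ hKY.le
            exact le_mul_of_one_le_right (by positivity) hK1
    have a3 : (602 * (m : ℝ) ^ 3 + 8 * (m : ℝ) ^ 2) * K ≤ K ^ 2 := by
      have b1 := hsle 1 (by norm_num)
      rw [pow_one] at b1
      rw [sq K]
      exact mul_le_mul_of_nonneg_right (by linarith) hK0
    calc th0 S T + 8 * ((m : ℕ) : ℝ) ^ 2 / ((p1 : ℝ) - 1) ≤ 602 * (m : ℝ) ^ 3 * K / K ^ c.CY + 8 * (m : ℝ) ^ 2 * K / K ^ c.CY :=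
          add_le_add a1 a2
      _ = (602 * (m : ℝ) ^ 3 + 8 * (m : ℝ) ^ 2) * K / K ^ c.CY := by ring
      _ ≤ _ := div_le_div_of_nonneg_right a3 hKY.le
  have hth0 : 0 ≤ th0 S T + 8 * ((m : ℕ) : ℝ) ^ 2 / ((p1 : ℝ) - 1) := by
    have b0 : 0 ≤ th0 S T := by
      unfold th0
      rw [← hK]
      positivity
    have b1 : (2 : ℝ) ≤ p1 := by exact_mod_cast hPH.hA.p1_pr.two_le
    have b2 : 0 ≤ 8 * ((m : ℕ) : ℝ) ^ 2 / ((p1 : ℝ) - 1) := div_nonneg (by positivity) (by linarith)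
    linarith
  have hThf : ∀ v : ℝ, 0 ≤ v → v ≤ K ^ (3 * m) * s ^ 5 → 4 * ((NJ T.z : ℝ) + 1) ^ 2 * v ≤ 4 * s ^ 7 * K ^ (3 * m) := by
    intro v hv0 hv
    have b1 : ((NJ T.z : ℝ) + 1) ^ 2 ≤ s ^ 2 := pow_le_pow_left₀ (by positivity) hNJz 2
    calc 4 * ((NJ T.z : ℝ) + 1) ^ 2 * v ≤ 4 * s ^ 2 * (K ^ (3 * m) * s ^ 5) :=
          mul_le_mul (by linarith) hv hv0 (by positivity)
      _ = _ := by ring
  have hy4 : 4 * Real.log T.N ≤ T.y0 := by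
    rw [← hK]
    have b1 : K ^ 2 ≤ K ^ c.CY := pow_le_pow_right₀ hK1 (by have := hc.Y1'; omega)
    have b2 : 4 * K ≤ K ^ 2 := by nlinarith
    linarith
  have hf2 : flK (2 * ((T.F S.k : ℕ) : ℝ)) * (1 / 2) ^ c.b2 ≤ 1 / 20 := by
    rw [hF]
    exact hc1.f2
  have hQ := P11 (V := (T.N : ℝ) ^ (c.δ1 / 16)) hPH.hT hPH.hS hPH.hA hPH.hM hPH'.hM hc1.δ1p.le hy4 hη0
    (fun f => PN5_mono (nnX f) (le_max_left _ _) (hsX1 f)) (fun f => PN5_mono (nnY f) (le_max_left _ _) (hsY1 f))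
    (fun f => PN5_mono (nnX' f) (le_max_right _ _) (hsX2 f)) (fun f => PN5_mono (nnY' f) (le_max_right _ _) (hsY2 f))
    hQ0 hc1.b1p hc1.b2p hq (fun b => (P12_Ml2 hPH.hT hPH.hS hPH.hM hf2 b).1) (fun b => (P12_Ml2 hPH.hT hPH.hS hPH'.hM hf2 b).1)
    hPH2.hm1 (Real.rpow_nonneg (Nat.cast_nonneg _) _) _ hnF
  refine hQ.trans ?_
  rw [← hP, hF, ← hm, ← hC, ← hK]
  refine PN5_ar (m := m) (B := c.B) (e1 := 12 * c.b1 * (c.CY + 1)) (CD := c.CD) (CY := c.CY)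
    (E := 2 * (12 * c.b1 * (c.CY + 1)) + 2 * c.CD + 4 * c.F + c.B + 12) (s := s) (D := (T.D : ℝ))
    hK200 hs1 hsle hP0 hCpos hD0 ?_ hCD ?_ (by rw [hm]) hE0 (by positivity) (by linarith) ?_ ?_ ?_ ?_ (by positivity) hη2 hV40 hV4
    hMA0 hMA hth0 hth (by positivity) ?_ hU60 hU6 (Nat.cast_nonneg _) hDS herL0 herL
  · rw [hK]
    exact hPH.hD
  · have := hc.Y1'
    rw [hm]
    exact this
  · unfold Msr.Th0
    positivity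
  · exact hThf _ hV30 hV3
  · unfold Msr.Th0
    positivity
  · exact hThf _ hV30' hV3'
  · exact mul_le_mul_of_nonneg_right (by linarith) hCpos.le

end Pool.Agent.Lib.TT3
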