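import Pool.Agent.Lib.MP_092512_nt.TT.P.S7G0
import Pool.Agent.Lib.MP_092512_nt.TT.C.U15

/-!
# S7E (TT): the class of `n` when a prime `p ∤ S` divides a form; composite windows of `Y`, `τ = prX`

`μ`, `ν`, `c` fixed, `n`, `n'` with `Bs`, `p ∣ fI f` for both, `f = (i, bb, w)`, `γ = α_i` or `β_i` prime to `p`, so `p ∣ t'_i - t_i`; `p ∤ SI`, `p ∤ v`. `tI_facts` for `X = X(n)`, `X(n')` gives two cycles; the short cofactors `A_l`, `B_l` (`l < k`)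
are the same, `e_k = SI/D` is the same.
`U15_Y` (C/U15.lean, `m = k + 1`): `(t'_i - t_i) Π = e_k (Y' - Y)`, `Π = ∏_{l≤i} α_l ∏_{l<i} A_l ∏_{i≤l≤k} β_l ∏_{i≤l<k} B_l`, and `Y' - Y = X' - X = v τ (n' - n)` (`X_eq`).
* `E_mark`: `p ∣ A_l` for some `l < i`, or `p ∣ B_l` for some `i ≤ l < k`: then `p ∣ Π`, so `p² ∣ (t'_i - t_i) Π`, `p² ∣ v τ (n' - n) e_k`, `p² ∣ τ (n' - n)`. If `p ∤ τ`: `p² ∣ n' - n`. If `p ∣ τ` then `τ = prX id μ` is squarefree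
  (distinct primes, `ix`), so `p ∣ n' - n`.
-/

set_option autoImplicit false

open Finset

namespace Pool.Agent.Lib.TT3

open Pool.Agent.Lib.TTC

variable {S : MS} {T : Dat} {M : Msr S} {W0 : ℕ} {δ0 δ1 : ℝ} {Z : ℕ → ℕ} {V : ℝ} {Cd : S.TX → S.TY → ℕ → Prop}

private theorem S7E_sqf (s : Finset ℕ) (hs : ∀ p ∈ s, p.Prime) : Squarefree (∏ p ∈ s, p) := by
  classical
  induction s using Finset.induction_on with
  | empty => rw [prod_empty]; exact squarefree_one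
  | insert a s ha ih =>
    rw [prod_insert ha]
    have h1 : a.Coprime (∏ p ∈ s, p) := by
      refine Nat.Coprime.prod_right fun q hq => ?_
      refine (Nat.coprime_primes (hs a (mem_insert_self _ _)) (hs q (mem_insert_of_mem hq))).2 ?_
      rintro rfl
      exact ha hq
    rw [Nat.squarefree_mul h1]
    exact ⟨(hs a (mem_insert_self _ _)).squarefree, ih fun q hq => hs q (mem_insert_of_mem hq)⟩

private theorem S7E_prX (h : S.H73 T M W0 δ0 δ1 Z V Cd) {μ : S.TX} (hμ : μ ∈ S.MX) : Squarefree (S.prX id μ) := by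
  classical
  have hg := h.geo
  have hμ' := hμ
  simp only [MS.MX, mem_product, Fintype.mem_piFinset] at hμ'
  have hinj := hg.ix μ hμ
  have h1 : S.prX id μ = ∏ j, (Sum.elim μ.1 (S.vX μ)) j := by
    unfold MS.prX MS.vX
    rw [Fintype.prod_sum_type, Fintype.prod_sum_type]
    simp only [id, Sum.elim_inl, Sum.elim_inr]
    rw [mul_assoc]
  have h2 : ∏ j, (Sum.elim μ.1 (S.vX μ)) j = ∏ p ∈ univ.image (Sum.elim μ.1 (S.vX μ)), p := by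
    rw [prod_image fun a _ b _ hab => hinj hab]
  rw [h1, h2]
  refine S7E_sqf _ fun p hp => ?_
  rw [mem_image] at hp
  obtain ⟨j, _, rfl⟩ := hp
  rcases j with i | j | j
  · exact (hg.wx i _ (hμ'.1 i)).1
  · exact (hg.fx j _ (hμ'.2.1 j)).1
  · exact (hg.ox j _ (hμ'.2.2 j)).1

/-- `τ` is squarefree -/
private theorem S7E_tau (h : S.H73 T M W0 δ0 δ1 Z V Cd) {μ : S.TX} {ν : S.TY} (hμ : μ ∈ S.MX) :
    Squarefree (M.tau μ ν) := by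
  rw [h.ok.tau_eq μ ν]
  exact S7E_prX h hμ

/-- the slope identity for two values of `n` -/
private theorem S7E_slope (h : S.H73 T M W0 δ0 δ1 Z V Cd) {c : S.Col} (hc : c ∈ S.CC) {μ : S.TX} {ν : S.TY} (hμ : μ ∈ S.MX) (hν : ν ∈ S.MY)
    {i n n' : ℕ} (hi : i < S.k + 1) (hB : M.Bs T Cd c μ ν n) (hB' : M.Bs T Cd c μ ν n') :
    ∃ ek : ℤ, ((T.D : ℤ) * ek = (S.SI T.N c μ ν : ℤ)) ∧
    (((S.tI T c μ ν (M.X μ ν n') i : ℕ) : ℤ) - ((S.tI T c μ ν (M.X μ ν n) i : ℕ) : ℤ)) *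
      ((∏ l ∈ range (i + 1), ((ext1 μ.1 l : ℕ) : ℤ)) * (∏ l ∈ range i, (S.AA T.N c μ ν (M.X μ ν n) l : ℤ)) *
        ((∏ l ∈ Ico i (S.k + 1), ((ext1 ν.1 l : ℕ) : ℤ)) * ∏ l ∈ Ico i S.k, (S.BB T.N c μ ν (T.Y (M.X μ ν n)) l : ℤ))) =
      ek * ((M.v : ℤ) * M.tau μ ν * ((n' : ℤ) - n)) := by
  have hg := h.geo
  have hYn := (Bs_facts h hc hμ hν hB).2.2.2.2.1
  have hYn' := (Bs_facts h hc hμ hν hB').2.2.2.2.1
  obtain ⟨ha, hO, hC, hLL⟩ := hB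
  obtain ⟨ha', hO', hC', hLL'⟩ := hB'
  have hD := h.cD c hc μ hμ ν hν n ha hO hC hLL
  obtain ⟨e, t, hcf, htI, -⟩ := tI_facts hg hc hμ hν ha.2 (h.ok.X_dvd μ ν n hO) (h.ok.Y_dvd μ ν n hO)
    (h.ok.Y_lo μ ν n hO) hD
  obtain ⟨e', t', hcf', htI', -⟩ := tI_facts hg hc hμ hν ha'.2 (h.ok.X_dvd μ ν n' hO') (h.ok.Y_dvd μ ν n' hO')
    (h.ok.Y_lo μ ν n' hO') hD
  have hek : e S.k = e' S.k := Nat.eq_of_mul_eq_mul_left hg.D0 (hcf.last.trans hcf'.last.symm)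
  have hAA : ∀ l < S.k + 1 - 1, S.AA T.N c μ ν (M.X μ ν n) l = S.AA T.N c μ ν (M.X μ ν n') l ∧
      S.BB T.N c μ ν (T.Y (M.X μ ν n)) l = S.BB T.N c μ ν (T.Y (M.X μ ν n')) l := by
    intro l hl
    rw [Nat.add_sub_cancel] at hl
    unfold MS.AA MS.BB
    rw [if_pos hl, if_pos hl, if_pos hl, if_pos hl]
    exact ⟨rfl, rfl⟩
  have hek' : e (S.k + 1 - 1) = e' (S.k + 1 - 1) := by
    rw [Nat.add_sub_cancel]
    exact hek
  have hU := U15_Y hcf.cyc hcf'.cyc hAA hek' hi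
  rw [Nat.add_sub_cancel] at hU
  refine ⟨(e S.k : ℤ), ?_, ?_⟩
  · exact_mod_cast hcf.last
  · rw [htI i hi, htI' i hi, hU]
    have e1 : (∏ l ∈ range (S.k + 1), (((ext1 ν.1 l : ℕ) : ℤ) * (S.BB T.N c μ ν (T.Y (M.X μ ν n)) l : ℤ))) =
        (M.X μ ν n : ℤ) - T.D * T.h := by
      have hh := congrArg (fun x : ℕ => (x : ℤ)) hcf.prodB
      simp only [Nat.cast_prod, Nat.cast_mul] at hh
      rw [hh, hYn]
    have e2 : (∏ l ∈ range (S.k + 1), (((ext1 ν.1 l : ℕ) : ℤ) * (S.BB T.N c μ ν (T.Y (M.X μ ν n')) l : ℤ))) =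
        (M.X μ ν n' : ℤ) - T.D * T.h := by
      have hh := congrArg (fun x : ℕ => (x : ℤ)) hcf'.prodB
      simp only [Nat.cast_prod, Nat.cast_mul] at hh
      rw [hh, hYn']
    rw [e1, e2, h.ok.X_eq μ ν n hO, h.ok.X_eq μ ν n' hO']
    ring

private theorem S7E_ek {p : ℕ} {ek : ℤ} {c : S.Col} {μ : S.TX} {ν : S.TY} (h1 : (T.D : ℤ) * ek = (S.SI T.N c μ ν : ℤ))
    (hS : ¬ p ∣ S.SI T.N c μ ν) : ¬ (p : ℤ) ∣ ek := by
  intro h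
  apply hS
  have h2 : (p : ℤ) ∣ (S.SI T.N c μ ν : ℤ) := by
    rw [← h1]
    exact Dvd.dvd.mul_left h _
  exact_mod_cast h2

private theorem S7E_mod {q n n' : ℕ} (h : (q : ℤ) ∣ (n' : ℤ) - n) : n ≡ n' [MOD q] :=
  (Nat.modEq_iff_dvd).2 h

theorem E_mark (h : S.H73 T M W0 δ0 δ1 Z V Cd) {c : S.Col} (hc : c ∈ S.CC) {μ : S.TX} {ν : S.TY} (hμ : μ ∈ S.MX) (hν : ν ∈ S.MY) {p n n' : ℕ}
    {f : ℕ × Bool × ℤ} (hp : p.Prime) (hi : f.1 < S.k + 1) (hS : ¬ p ∣ S.SI T.N c μ ν) (hv : ¬ p ∣ M.v)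
    (hγ : ¬ (p : ℤ) ∣ aI μ.1 f.1 ∧ ¬ (p : ℤ) ∣ aI ν.1 f.1)
    (hm : (∃ l < f.1, l < S.k ∧ (p : ℤ) ∣ S.AI T.N c μ ν l) ∨ ∃ l, f.1 ≤ l ∧ l < S.k ∧ (p : ℤ) ∣ S.BI T.N c μ ν l)
    (hB : M.Bs T Cd c μ ν n) (hB' : M.Bs T Cd c μ ν n') (ht : (p : ℤ) ∣ S.fI T c μ ν (M.X μ ν n) f) (ht' : (p : ℤ) ∣ S.fI T c μ ν (M.X μ ν n') f) :
    n ≡ n' [MOD (if p ∣ M.tau μ ν then p else p ^ 2)] := by
  obtain ⟨ek, h1, h2⟩ := S7E_slope h hc hμ hν hi hB hB'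
  have hpZ : Prime (p : ℤ) := Nat.prime_iff_prime_int.1 hp
  have hek := S7E_ek h1 hS
  have h3 : (p : ℤ) ∣ ((S.tI T c μ ν (M.X μ ν n') f.1 : ℕ) : ℤ) - ((S.tI T c μ ν (M.X μ ν n) f.1 : ℕ) : ℤ) := by
    have h4 := dvd_sub ht' ht
    unfold MS.fI at h4
    rw [add_sub_add_right_eq_sub, ← sub_mul] at h4
    refine (hpZ.dvd_or_dvd h4).resolve_right ?_
    split_ifs
    · exact hγ.1
    · exact hγ.2
  have hPi : (p : ℤ) ∣ (∏ l ∈ range (f.1 + 1), ((ext1 μ.1 l : ℕ) : ℤ)) * (∏ l ∈ range f.1, (S.AA T.N c μ ν (M.X μ ν n) l : ℤ)) *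
        ((∏ l ∈ Ico f.1 (S.k + 1), ((ext1 ν.1 l : ℕ) : ℤ)) * ∏ l ∈ Ico f.1 S.k, (S.BB T.N c μ ν (T.Y (M.X μ ν n)) l : ℤ)) := by
    rcases hm with ⟨l, hl, hlk, hd⟩ | ⟨l, hl, hlk, hd⟩
    · have e1 : (S.AA T.N c μ ν (M.X μ ν n) l : ℤ) = S.AI T.N c μ ν l := by
        unfold MS.AI MS.AA
        rw [if_pos hlk, if_pos hlk, if_pos hlk]
      refine Dvd.dvd.mul_right (Dvd.dvd.mul_left ?_ _) _
      refine dvd_trans ?_ (dvd_prod_of_mem _ (mem_range.2 hl))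
      rw [e1]
      exact hd
    · have e1 : (S.BB T.N c μ ν (T.Y (M.X μ ν n)) l : ℤ) = S.BI T.N c μ ν l := by
        unfold MS.BI MS.BB
        rw [if_pos hlk, if_pos hlk, if_pos hlk]
      refine Dvd.dvd.mul_left (Dvd.dvd.mul_left ?_ _) _
      refine dvd_trans ?_ (dvd_prod_of_mem _ (mem_Ico.2 ⟨hl, hlk⟩))
      rw [e1]
      exact hd
  have h4 : (p : ℤ) ^ 2 ∣ ek * ((M.v : ℤ) * ((M.tau μ ν : ℤ) * ((n' : ℤ) - n))) := by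
    have h5 := mul_dvd_mul h3 hPi
    rw [h2] at h5
    have h6 := h5
    have e3 : ek * ((M.v : ℤ) * ((M.tau μ ν : ℤ) * ((n' : ℤ) - n))) = ek * ((M.v : ℤ) * M.tau μ ν * ((n' : ℤ) - n)) := by ring
    rw [e3, pow_two]
    exact h6
  have hvZ : ¬ (p : ℤ) ∣ (M.v : ℤ) := fun hh => hv (Int.natCast_dvd_natCast.1 hh)
  have h7 : (p : ℤ) ^ 2 ∣ (M.tau μ ν : ℤ) * ((n' : ℤ) - n) := by
    have h8 := hpZ.pow_dvd_of_dvd_mul_left 2 hek h4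
    exact hpZ.pow_dvd_of_dvd_mul_left 2 hvZ h8
  by_cases hτ : p ∣ M.tau μ ν
  · rw [if_pos hτ]
    obtain ⟨w, hw⟩ := hτ
    have hsq : ¬ p ∣ w := by
      rintro ⟨w', rfl⟩
      have hs := S7E_tau (ν := ν) h hμ
      have := hs p ⟨w', by rw [hw]; ring⟩
      exact hp.one_lt.ne' (Nat.isUnit_iff.1 this)
    have h9 : (p : ℤ) * p ∣ p * ((w : ℤ) * ((n' : ℤ) - n)) := by
      have e4 : (p : ℤ) * ((w : ℤ) * ((n' : ℤ) - n)) = (M.tau μ ν : ℤ) * ((n' : ℤ) - n) := by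
        rw [hw]
        push_cast
        ring
      rw [e4, ← pow_two]
      exact h7
    have h10 := (mul_dvd_mul_iff_left (show (p : ℤ) ≠ 0 by exact_mod_cast hp.ne_zero)).1 h9
    rcases hpZ.dvd_or_dvd h10 with h11 | h11
    · exact absurd (Int.natCast_dvd_natCast.1 h11) hsq
    · exact S7E_mod h11
  · rw [if_neg hτ]
    have hτZ : ¬ (p : ℤ) ∣ (M.tau μ ν : ℤ) := fun hh => hτ (Int.natCast_dvd_natCast.1 hh)
    have h12 := hpZ.pow_dvd_of_dvd_mul_left 2 hτZ h7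
    refine S7E_mod ?_
    rw [Nat.cast_pow]
    exact h12

end Pool.Agent.Lib.TT3
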