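import Pool.Agent.Lib.MP_092512_nt.TT.P.D3
import Pool.Agent.Lib.MP_092512_nt.TT.P.G3
import Pool.Agent.Lib.MP_092512_nt.TT.C.S7F1
import Pool.Agent.Lib.MP_092512_nt.TT.C.S7B2
import Pool.Agent.Lib.MP_092512_nt.TT.P.S7F1

/-!
# S7F2: `q ∣ S` and `P ∣ Gz f`, `f = (i, bb, w)`: windows `0` and `h > i` of `X`

`mass_twoX` with `i := 0`, `j := h` (`h ≥ 1` since `i < h`), moduli `Q` (separation in the window `0`: `sepS`) and `Q1`: for `μ`, `μ'` with `μ.2 = μ'.2` which agree outside the windows `0`, `h`,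
the integer vectors agree except `α_0`, `α_h`; `P` (the same for both) divides `Gz f` for both; `Gz f` contains `a_i` only if `bb`, then `i ≥ 1`; the difference is `h (a_i or 1) (Gs i - Gs' i)`:
`G_unique` (its hypothesis on `a`, `a'` is only for `j > i ≥ 0`): `P ∣ α_h - α'_h`.
`S7F2w`: `P ∣ h α_i - w β_i`, `i ≥ 1`: windows `0` and `i`.
-/

set_option autoImplicit false

open Finset

namespace Pool.Agent.Lib.TT3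

open Pool.Agent.Lib.TTC

variable {S : MS} {T : Dat} {Z : ℕ → ℕ} {hX hY : ℕ → ℝ} {V : ℝ}

theorem S7F2 (hG : S.Geo3 T Z hX hY V) (c : S.Col) {q P : S.TX → S.TY → ℕ} (hq : S.Inv q) (hP : S.Inv P) {Q Q1 : ℕ} (hQ : 0 < Q) (hQ1 : 0 < Q1)
    {f : ℕ × Bool × ℤ} {h : ℕ} (hi : f.1 < h) (hh : h ≤ S.k) (h0 : f.1 = 0 → f.2.1 = false) (E : S.TX → S.TY → Prop)
    (hE : ∀ μ ∈ S.MX, ∀ ν ∈ S.MY, E μ ν → (q μ ν ∣ S.SI T.N c μ ν ∧ IsCoprime (q μ ν : ℤ) (S.RI T.N c μ ν 0) ∧ Q ≤ q μ ν) ∧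
      ((P μ ν).Prime ∧ Q1 ≤ P μ ν ∧ (((P μ ν : ℕ) : ℤ) ∣ S.GzI T c μ ν f ∧ ¬ ((P μ ν : ℕ) : ℤ) ∣ T.h) ∧ (h < S.k → ((P μ ν : ℕ) : ℤ) ∣ S.AI T.N c μ ν h) ∧
        (∀ l, l ≠ h → ¬ ((P μ ν : ℕ) : ℤ) ∣ S.AI T.N c μ ν l) ∧ (∀ l, l ≠ h → ¬ ((P μ ν : ℕ) : ℤ) ∣ aI μ.1 l) ∧
        (∀ l, h < l → ¬ ((P μ ν : ℕ) : ℤ) ∣ aI ν.1 l * S.BI T.N c μ ν (l - 1)))) :
    S.mass hX hY E ≤ V ^ 2 * (1 / Q + 1 / Z 0) * (1 / Q1 + 1 / Z h) * S.full hX hY := by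
  have hh' : h < S.k + 1 := by omega
  have h0h : (0 : Fin (S.k + 1)) ≠ ⟨h, hh'⟩ := by
    intro h0
    have h1 := congrArg Fin.val h0
    have h2 : (0 : ℕ) = h := h1
    omega
  refine mass_twoX hG E h0h hQ hQ1 ?_ ?_
  · intro μ hμ μ' hμ' ν hν h1 h1' hag hlt
    obtain ⟨⟨a1, a2, a3⟩, -⟩ := hE μ hμ ν hν h1
    obtain ⟨⟨b1, -, -⟩, -⟩ := hE μ' hμ' ν hν h1'
    rw [← hq μ μ' ν ν hag.1 rfl] at b1
    have := sepS hG c hμ hμ' hν hag a1 b1 a2 hlt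
    omega
  · intro μ hμ μ' hμ' ν hν h1 h1' hag hag' hlt
    obtain ⟨-, a1, a2, ⟨a3, a3'⟩, a4, a5, a6, a7⟩ := hE μ hμ ν hν h1
    obtain ⟨-, -, -, ⟨b3, -⟩, -⟩ := hE μ' hμ' ν hν h1'
    rw [← hP μ μ' ν ν hag rfl] at b3
    have hA : S.AI T.N c μ' ν = S.AI T.N c μ ν := AI_inv c hag.symm rfl
    have hB : S.BI T.N c μ' ν = S.BI T.N c μ ν := BI_inv c hag.symm rfl
    rw [MS.GzI, Gz] at a3 b3
    rw [hA, hB] at b3
    have ha : ∀ j, j ≠ 0 → j ≠ h → aI μ.1 j = aI μ'.1 j := by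
      intro j hj hjh
      apply S7F1_congr
      intro l hl
      apply hag'
      · intro h0
        have h3 : (l : ℕ) = 0 := by rw [h0]; rfl
        omega
      · intro h0
        have h3 : (l : ℕ) = h := by rw [h0]
        omega
    have hPp := Nat.prime_iff_prime_int.mp a1
    have e0 : (if f.2.1 = true then aI μ'.1 f.1 else 1) = (if f.2.1 = true then aI μ.1 f.1 else 1) := by
      by_cases hb : f.2.1 = true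
      · rw [if_pos hb, if_pos hb, ha f.1 (fun h3 => by rw [h0 h3] at hb; exact absurd hb (by decide)) (by omega)]
      · rw [if_neg hb, if_neg hb]
    rw [e0] at b3
    have e3 : ((P μ ν : ℕ) : ℤ) ∣ Gs (S.k + 1) (S.AI T.N c μ ν) (S.BI T.N c μ ν) (aI μ.1) (aI ν.1) f.1 -
        Gs (S.k + 1) (S.AI T.N c μ ν) (S.BI T.N c μ ν) (aI μ'.1) (aI ν.1) f.1 := by
      have e4 := dvd_sub a3 b3
      rw [sub_sub_sub_cancel_right, ← mul_sub, ← mul_sub] at e4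
      have e5 := (hPp.dvd_or_dvd e4).resolve_left a3'
      refine (hPp.dvd_or_dvd e5).resolve_left ?_
      by_cases hb : f.2.1 = true
      · rw [if_pos hb]
        exact a6 f.1 (by omega)
      · rw [if_neg hb]
        exact hPp.not_dvd_one
    have e1 := G_unique hi hh' hPp (fun j hj hjh => ha j (by omega) hjh) (fun hlt' => a4 (by omega))
      (fun l _ hl => a5 l (by omega)) (fun l _ hl => a6 l (by omega)) (fun l hl _ => a7 l hl) e3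
    have e4 : aI μ.1 h = (μ.1 ⟨h, hh'⟩ : ℕ) := S7F1_val μ.1 ⟨h, hh'⟩
    have e5 : aI μ'.1 h = (μ'.1 ⟨h, hh'⟩ : ℕ) := S7F1_val μ'.1 ⟨h, hh'⟩
    rw [e4, e5] at e1
    have := S7F1_gap e1 hlt
    omega

theorem S7F2w (hG : S.Geo3 T Z hX hY V) (c : S.Col) {q P : S.TX → S.TY → ℕ} (hq : S.Inv q) (hP : S.Inv P) {Q Q1 : ℕ} (hQ : 0 < Q) (hQ1 : 0 < Q1)
    {i : ℕ} (hi : 1 ≤ i) (hik : i ≤ S.k) (w : ℤ) (E : S.TX → S.TY → Prop)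
    (hE : ∀ μ ∈ S.MX, ∀ ν ∈ S.MY, E μ ν → (q μ ν ∣ S.SI T.N c μ ν ∧ IsCoprime (q μ ν : ℤ) (S.RI T.N c μ ν 0) ∧ Q ≤ q μ ν) ∧
      ((P μ ν).Prime ∧ Q1 ≤ P μ ν ∧ ((P μ ν : ℕ) : ℤ) ∣ T.h * aI μ.1 i - w * aI ν.1 i ∧ ¬ ((P μ ν : ℕ) : ℤ) ∣ T.h)) :
    S.mass hX hY E ≤ V ^ 2 * (1 / Q + 1 / Z 0) * (1 / Q1 + 1 / Z i) * S.full hX hY := by
  have hh' : i < S.k + 1 := by omega
  have h0h : (0 : Fin (S.k + 1)) ≠ ⟨i, hh'⟩ := by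
    intro h0
    have h1 := congrArg Fin.val h0
    have h2 : (0 : ℕ) = i := h1
    omega
  refine mass_twoX hG E h0h hQ hQ1 ?_ ?_
  · intro μ hμ μ' hμ' ν hν h1 h1' hag hlt
    obtain ⟨⟨a1, a2, a3⟩, -⟩ := hE μ hμ ν hν h1
    obtain ⟨⟨b1, -, -⟩, -⟩ := hE μ' hμ' ν hν h1'
    rw [← hq μ μ' ν ν hag.1 rfl] at b1
    have := sepS hG c hμ hμ' hν hag a1 b1 a2 hlt
    omega
  · intro μ hμ μ' hμ' ν hν h1 h1' hag hag' hlt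
    obtain ⟨-, a1, a2, a3, a4⟩ := hE μ hμ ν hν h1
    obtain ⟨-, -, -, b3, -⟩ := hE μ' hμ' ν hν h1'
    rw [← hP μ μ' ν ν hag rfl] at b3
    have hPp := Nat.prime_iff_prime_int.mp a1
    have e4 := dvd_sub a3 b3
    rw [show T.h * aI μ.1 i - w * aI ν.1 i - (T.h * aI μ'.1 i - w * aI ν.1 i) = T.h * (aI μ.1 i - aI μ'.1 i) from by ring] at e4
    have e1 := (hPp.dvd_or_dvd e4).resolve_left a4
    have e5 : aI μ.1 i = (μ.1 ⟨i, hh'⟩ : ℕ) := S7F1_val μ.1 ⟨i, hh'⟩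
    have e6 : aI μ'.1 i = (μ'.1 ⟨i, hh'⟩ : ℕ) := S7F1_val μ'.1 ⟨i, hh'⟩
    rw [e5, e6] at e1
    have := S7F1_gap e1 hlt
    omega

end Pool.Agent.Lib.TT3
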