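import Pool.Agent.Lib.MP_092512_nt.TT.P.S7G0
import Pool.Agent.Lib.MP_092512_nt.TT.P.S7F2
import Pool.Agent.Lib.MP_092512_nt.TT.P.S7E

/-!
# S7G3 (TT): a non-window mark `P = vX e` of `X` divides a form `f = (i, bb, w)`, `P ∤ S`

`P ∣ X`, `P` does not divide `D`, `h`, `w` (if `≠ 0`), `h - w`. `P ∣ FI (X - D h) f` (`Bs_facts`). Let `g = lX e` be the colour of `P`, `g ≤ k`.
* `G3_0` (`i = 0`, `bb`): `S7F1X` with `Y0 = - D h`: the constant term is `- D w R_0`; `q = D`, `Q = y0 D`; `inv1`.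
* `G3_lt` (`i < g`, not (`i = 0`, `bb`)): `FI_Gz`: `P ∣ Gz f`. `S7F2` with `h = g`, `q = D`, `Q = D`, `Q1 = y0`; `cnt_le`, `inv3`.
* `G3_eq` (`i = g`, not (`i = 0`, `bb`)): `P ∣ Gz f`, `G_i ≡ Rt_i` (`P ∣ A_i`, or `i = k`): `P ∣ h a_i - w b_i` if `bb` (`S7F2w`, `inv3`), else `P ∣ h - w`: impossible.
* `G3_gt` (`g < i`, so `g < k`): `E_mark` (`P ∣ A_g`), `P ∈ PL` (`y0 < P ≤ z`), `P ∤ v` (`adm`): for fixed `μ`, `ν` the `n` are in one class: `n_cls2`: `≤ 4/P ms + err`, `4/P ≤ 4/y0`. `cnt_le'` with `θ = 4/y0`, `E'` = `cop`, `D ∣ SI` (and `E` for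
  some `n`), whose mass is `≤ V (1/D + 1/Z 0) full ≤ 2 V/D full` (`S7F1` with `q = D`): `8 V/(y0 D) ≤ 8 V²/(y0 D)`.
-/

set_option autoImplicit false

open Finset

namespace Pool.Agent.Lib.TT3

open Pool.Agent.Lib.TTC

variable {S : MS} {T : Dat} {M : Msr S} {W0 : ℕ} {δ0 δ1 : ℝ} {Z : ℕ → ℕ} {V : ℝ} {Cd : S.TX → S.TY → ℕ → Prop}

private theorem g3_Inv (e : S.NX) : S.Inv (fun μ _ => S.vX μ e) := by
  intro μ μ' ν ν' h _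
  show S.vX μ e = S.vX μ' e
  unfold MS.vX
  rw [h]

private theorem g3_InvD : S.Inv (fun _ _ => T.D) := fun _ _ _ _ _ _ => rfl

private theorem g3_dvd (μ : S.TX) (e : S.NX) : S.vX μ e ∣ S.prX id μ := by
  unfold MS.prX
  rcases e with f | e
  · exact Dvd.dvd.mul_right (Dvd.dvd.mul_left (dvd_prod_of_mem (fun f => id (μ.2.1 f)) (mem_univ f)) _) _
  · exact Dvd.dvd.mul_left (dvd_prod_of_mem (fun e => id (μ.2.2 e)) (mem_univ e)) _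

private theorem g3_copD (h : S.H73 T M W0 δ0 δ1 Z V Cd) (c : S.Col) {μ : S.TX} {ν : S.TY} (hμ : μ ∈ S.MX) (hν : ν ∈ S.MY) :
    IsCoprime ((T.D : ℕ) : ℤ) (S.RI T.N c μ ν 0) := by
  refine cop_RI c (fun p hp hpD => ?_) (by have := h.geo.D0; exact_mod_cast this.ne')
  have hpn : p.natAbs.Prime := Int.prime_iff_natAbs_prime.mp hp
  have h1 : p.natAbs ∣ T.D := by
    have h2 := Int.natAbs_dvd_natAbs.mpr hpD
    rwa [Int.natAbs_natCast] at h2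
  have h2 := fr_small h.geo c hμ hν hpn (h.geo.Dy _ hpn h1)
  exact ⟨fun l hl => h2.2.1 l (Int.natAbs_dvd.mpr hl), fun l hl => h2.2.2.2 l (Int.natAbs_dvd.mpr hl)⟩

private theorem g3_D (h : S.H73 T M W0 δ0 δ1 Z V Cd) {P : ℕ} (hp : P.Prime) (hy : T.y0 < P) : ¬ ((P : ℕ) : ℤ) ∣ (T.D : ℤ) := by
  intro hd
  have h1 : P ∣ T.D := by exact_mod_cast hd
  have := h.geo.Dy P hp h1
  omega

private theorem g3_pos (h : S.H73 T M W0 δ0 δ1 Z V Cd) : (0 : ℝ) < T.y0 ∧ (0 : ℝ) < T.D ∧ 1 ≤ V := by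
  have h1 := h.geo.y1
  have h2 := h.geo.D0
  exact ⟨by exact_mod_cast (by omega : 0 < T.y0), by exact_mod_cast h2, h.geo.V1⟩

private theorem g3_Wfull (h : S.H73 T M W0 δ0 δ1 Z V Cd) : M.tot = M.W * S.full M.hX M.hY ∧ 0 ≤ M.W * S.full M.hX M.hY :=
  ⟨rfl, mul_nonneg h.ok.W_pos.le (full_nonneg h.geo)⟩

private theorem g3_err (h : S.H73 T M W0 δ0 δ1 Z V Cd) : 0 ≤ M.err T δ1 := by
  unfold Msr.err
  exact mul_nonneg (Real.rpow_nonneg (Nat.cast_nonneg _) _) h.ok.W_pos.le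

private theorem g3_ub0 (h : S.H73 T M W0 δ0 δ1 Z V Cd) : 0 ≤ M.ub T V δ1 := by
  obtain ⟨h1, h2, h3⟩ := g3_pos h
  obtain ⟨h4, h5⟩ := g3_Wfull h
  have h6 := g3_err h
  unfold Msr.ub
  rw [h4]
  have : 0 ≤ 8 * V ^ 2 / (T.y0 * T.D) := by positivity
  exact add_nonneg (mul_nonneg this h5) (by positivity)

private theorem g3_ub (h : S.H73 T M W0 δ0 δ1 Z V Cd) {m c1 : ℝ} (hm : m ≤ c1 * S.full M.hX M.hY)
    (hc : c1 ≤ 8 * V ^ 2 / (T.y0 * T.D)) :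
    M.W * m + S.MX.card * S.MY.card * M.err T δ1 ≤ M.ub T V δ1 := by
  obtain ⟨h4, h5⟩ := g3_Wfull h
  unfold Msr.ub
  rw [h4]
  have h6 : M.W * m ≤ M.W * (c1 * S.full M.hX M.hY) := mul_le_mul_of_nonneg_left hm h.ok.W_pos.le
  have h7 : M.W * (c1 * S.full M.hX M.hY) = c1 * (M.W * S.full M.hX M.hY) := by ring
  have h8 := mul_le_mul_of_nonneg_right hc h5
  linarith

private theorem g3_ms (h : S.H73 T M W0 δ0 δ1 Z V Cd) {μ : S.TX} {ν : S.TY} (hμ : μ ∈ S.MX) (hν : ν ∈ S.MY) :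
    0 ≤ M.ms μ ν := by
  have hg := h.geo
  unfold Msr.ms Msr.m1
  refine mul_nonneg h.ok.W_pos.le (mul_nonneg ?_ ?_)
  · unfold MS.prX
    simp only [MS.MX, mem_product, Fintype.mem_piFinset] at hμ
    refine mul_nonneg (mul_nonneg (prod_nonneg fun i _ => ?_) (prod_nonneg fun i _ => ?_)) (prod_nonneg fun i _ => ?_)
    · exact (hg.hX0 _ (hg.wx i _ (hμ.1 i)).1).1
    · exact (hg.hX0 _ (hg.fx i _ (hμ.2.1 i)).1).1
    · exact (hg.hX0 _ (hg.ox i _ (hμ.2.2 i)).1).1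
  · unfold MS.prY
    simp only [MS.MY, mem_product, Fintype.mem_piFinset] at hν
    refine mul_nonneg (mul_nonneg (prod_nonneg fun i _ => ?_) (prod_nonneg fun i _ => ?_)) (prod_nonneg fun i _ => ?_)
    · exact (hg.hYw i _ (hν.1 i)).1
    · exact (hg.hY0 _ (hg.fy i _ (hν.2.1 i)).1).1
    · exact (hg.hY0 _ (hg.oy i _ (hν.2.2 i)).1).1

private theorem g3_mass0 : S.mass M.hX M.hY (fun _ _ => False) = 0 := by
  unfold MS.mass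
  simp

/-- `P ∣ FI (X - D h) f` -/
private theorem g3_FI (h : S.H73 T M W0 δ0 δ1 Z V Cd) {c : S.Col} (hc : c ∈ S.CC) (e : S.NX) {f : ℕ × Bool × ℤ} (hi : f.1 < S.k + 1)
    {μ : S.TX} {ν : S.TY} (hμ : μ ∈ S.MX) (hν : ν ∈ S.MY) {n : ℕ} (hB : M.Bs T Cd c μ ν n)
    (ht : ((S.vX μ e : ℕ) : ℤ) ∣ S.fI T c μ ν (M.X μ ν n) f) :
    ((S.vX μ e : ℕ) : ℤ) ∣ S.FI T c μ ν (-(T.D * T.h)) f := by
  obtain ⟨hcop, -, hX, -, -, hF⟩ := Bs_facts h hc hμ hν hB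
  have h1 := ht.trans (hF f hi)
  have h2 : ((S.vX μ e : ℕ) : ℤ) ∣ ((M.X μ ν n : ℕ) : ℤ) :=
    Int.natCast_dvd_natCast.mpr ((g3_dvd μ e).trans hX)
  refine (FI_congr c μ ν ?_).mp h1
  rw [show (M.X μ ν n : ℤ) - T.D * T.h - -(T.D * T.h) = (M.X μ ν n : ℤ) from by ring]
  exact h2

/-- `P ∣ f` gives `P ∣ Gz f` when `P` divides none of the `a_l`, `A_l`, `l < i`, `a_i` -/
private theorem g3_Gz (h : S.H73 T M W0 δ0 δ1 Z V Cd) {c : S.Col} (hc : c ∈ S.CC) (e : S.NX) {f : ℕ × Bool × ℤ} (hi : f.1 < S.k + 1)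
    {μ : S.TX} {ν : S.TY} (hμ : μ ∈ S.MX) (hν : ν ∈ S.MY) {n : ℕ} (hB : M.Bs T Cd c μ ν n)
    (hl : f.1 ≤ S.lX T.N c μ ν e) (ht : ((S.vX μ e : ℕ) : ℤ) ∣ S.fI T c μ ν (M.X μ ν n) f) :
    ((S.vX μ e : ℕ) : ℤ) ∣ S.GzI T c μ ν f := by
  have h1 := g3_FI h hc e hi hμ hν hB ht
  obtain ⟨hcop, -⟩ := Bs_facts h hc hμ hν hB
  obtain ⟨hp, hy, -, hN, -, -, hA, -, ha, -⟩ := fr_X h.geo c hμ hν hcop e
  have hpi : Prime ((S.vX μ e : ℕ) : ℤ) := Nat.prime_iff_prime_int.mp hp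
  refine FI_Gz c μ ν hi hpi ?_ (g3_D h hp hy) (fun l hl1 => hA l (by omega)) (fun l _ => ha l) h1
  rw [neg_add_cancel, zero_mul]
  exact dvd_zero _

theorem G3_0 (h : S.H73 T M W0 δ0 δ1 Z V Cd) {c : S.Col} (hc : c ∈ S.CC) (e : S.NX) {f : ℕ × Bool × ℤ} (hf : f ∈ T.Fs S.k)
    (h0 : f.1 = 0 ∧ f.2.1 = true) :
    M.cnt (fun μ ν n => M.Bs T Cd c μ ν n ∧ ((S.vX μ e : ℕ) : ℤ) ∣ S.fI T c μ ν (M.X μ ν n) f) ≤ M.ub T V δ1 := by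
  have hg0 := h.geo
  obtain ⟨hi, hw, -⟩ := Fs_facts hg0 hf
  have h1 := cnt_le h (fun μ ν n => M.Bs T Cd c μ ν n ∧ ((S.vX μ e : ℕ) : ℤ) ∣ S.fI T c μ ν (M.X μ ν n) f)
    (fun μ ν => S.cop μ ν ∧ T.D ∣ S.SI T.N c μ ν ∧ ((S.vX μ e : ℕ) : ℤ) ∣ S.FI T c μ ν (-(T.D * T.h)) f)
    (fun μ hμ ν hν n _ hE => by
      obtain ⟨hB, ht⟩ := hE
      have hfc := Bs_facts h hc hμ hν hB
      exact ⟨hB.1, hfc.1, hfc.2.1, g3_FI h hc e hi hμ hν hB ht⟩)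
  refine h1.trans ?_
  have h2 := S7F1X hg0 c (q := fun _ _ => T.D) (P := fun μ _ => S.vX μ e) g3_InvD (g3_Inv e) (Q := T.y0 * T.D)
    (Nat.mul_pos hg0.y1 hg0.D0) hi (-(T.D * T.h))
    (fun μ ν => S.cop μ ν ∧ T.D ∣ S.SI T.N c μ ν ∧ ((S.vX μ e : ℕ) : ℤ) ∣ S.FI T c μ ν (-(T.D * T.h)) f)
    (fun μ hμ ν hν hE => by
      obtain ⟨hcop, hD, hG⟩ := hE
      obtain ⟨hp, hy, hz, hN, hlk, hA1, hA2, hB2, ha, hb⟩ := fr_X hg0 c hμ hν hcop e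
      have hpi : Prime ((S.vX μ e : ℕ) : ℤ) := Nat.prime_iff_prime_int.mp hp
      refine ⟨⟨hD, g3_copD h c hμ hν⟩, hp, ?_, Nat.mul_le_mul_right _ hy.le, hG, ?_⟩
      · refine (Nat.Prime.coprime_iff_not_dvd hp).mpr fun hd => ?_
        exact g3_D h hp hy (by exact_mod_cast hd)
      · rw [if_pos h0, show (-((T.D : ℤ) * T.h) + T.D * (T.h - f.2.2)) = -(T.D * f.2.2) from by ring]
        intro hd
        rcases hpi.dvd_or_dvd hd with h3 | h3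
        · rw [dvd_neg] at h3
          rcases hpi.dvd_or_dvd h3 with h4 | h4
          · exact g3_D h hp hy h4
          · rcases hw with hw | hw
            · rw [hw] at h0
              exact absurd h0.2 (by decide)
            · exact hw _ hp hy h4
        · have h4 := cop_RI (T := T) c (μ := μ) (ν := ν) (q := ((S.vX μ e : ℕ) : ℤ)) (fun p hpp hpd => by
            have h5 := (hpp.associated_of_dvd hpi hpd).symm.dvd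
            exact ⟨fun l hl => hB2 l (h5.trans hl), fun l hl => hb l (h5.trans hl)⟩) hpi.ne_zero
          exact hpi.not_unit (h4.isUnit_of_dvd' dvd_rfl h3))
  exact g3_ub h h2 (inv1 h (Nat.zero_le S.k))

theorem G3_lt (h : S.H73 T M W0 δ0 δ1 Z V Cd) {c : S.Col} (hc : c ∈ S.CC) (e : S.NX) {f : ℕ × Bool × ℤ} (hf : f ∈ T.Fs S.k)
    (h0 : f.1 = 0 → f.2.1 = false) {g : ℕ} (hi : f.1 < g) (hg : g ≤ S.k) :
    M.cnt (fun μ ν n => M.Bs T Cd c μ ν n ∧ S.lX T.N c μ ν e = g ∧ ((S.vX μ e : ℕ) : ℤ) ∣ S.fI T c μ ν (M.X μ ν n) f) ≤ M.ub T V δ1 := by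
  have hg0 := h.geo
  obtain ⟨hfk, -, hh⟩ := Fs_facts hg0 hf
  have h1 := cnt_le h (fun μ ν n => M.Bs T Cd c μ ν n ∧ S.lX T.N c μ ν e = g ∧ ((S.vX μ e : ℕ) : ℤ) ∣ S.fI T c μ ν (M.X μ ν n) f)
    (fun μ ν => S.cop μ ν ∧ T.D ∣ S.SI T.N c μ ν ∧ S.lX T.N c μ ν e = g ∧ ((S.vX μ e : ℕ) : ℤ) ∣ S.GzI T c μ ν f)
    (fun μ hμ ν hν n _ hE => by
      obtain ⟨hB, hl, ht⟩ := hE
      have hf := Bs_facts h hc hμ hν hB
      exact ⟨hB.1, hf.1, hf.2.1, hl, g3_Gz h hc e (by omega) hμ hν hB (by omega) ht⟩)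
  refine h1.trans ?_
  have h2 := S7F2 hg0 c (q := fun _ _ => T.D) (P := fun μ _ => S.vX μ e) g3_InvD (g3_Inv e) (Q := T.D) (Q1 := T.y0)
    hg0.D0 hg0.y1 (f := f) hi hg h0
    (fun μ ν => S.cop μ ν ∧ T.D ∣ S.SI T.N c μ ν ∧ S.lX T.N c μ ν e = g ∧ ((S.vX μ e : ℕ) : ℤ) ∣ S.GzI T c μ ν f)
    (fun μ hμ ν hν hE => by
      obtain ⟨hcop, hD, hl, hG⟩ := hE
      obtain ⟨hp, hy, hz, hN, hlk, hA1, hA2, hB2, ha, hb⟩ := fr_X hg0 c hμ hν hcop e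
      refine ⟨⟨hD, g3_copD h c hμ hν, le_rfl⟩, hp, hy.le, ⟨hG, (hh _ hp hy).1⟩, ?_, ?_, fun l _ => ha l, fun l _ hd => ?_⟩
      · intro hgk
        have h3 := hA1 (by omega)
        rwa [hl] at h3
      · rw [hl] at hA2
        exact hA2
      · have hpi : Prime ((S.vX μ e : ℕ) : ℤ) := Nat.prime_iff_prime_int.mp hp
        rcases hpi.dvd_or_dvd hd with h3 | h3
        · exact hb l h3
        · exact hB2 _ h3)
  refine g3_ub h h2 ?_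
  have h3 := inv3 h (Nat.zero_le S.k) hg
  refine le_trans ?_ h3
  obtain ⟨hy, hD, hV⟩ := g3_pos h
  have h4 : 0 ≤ V ^ 2 * (1 / (T.D : ℝ) + 1 / Z 0) * (1 / (T.y0 : ℝ) + 1 / Z g) := by positivity
  calc V ^ 2 * (1 / (T.D : ℝ) + 1 / Z 0) * (1 / (T.y0 : ℝ) + 1 / Z g)
      ≤ 2 * (V ^ 2 * (1 / (T.D : ℝ) + 1 / Z 0) * (1 / (T.y0 : ℝ) + 1 / Z g)) := by linarith
    _ = _ := by ring

/-- colour `i`: `Gz f ≡ h a_i - w b_i` if `bb`, else `h - w` (times `Rt_i`) -/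
private theorem g3_eq (h : S.H73 T M W0 δ0 δ1 Z V Cd) {c : S.Col} (hc : c ∈ S.CC) (e : S.NX) {f : ℕ × Bool × ℤ} (hi : f.1 < S.k + 1)
    {μ : S.TX} {ν : S.TY} (hμ : μ ∈ S.MX) (hν : ν ∈ S.MY) {n : ℕ} (hB : M.Bs T Cd c μ ν n)
    (hl : S.lX T.N c μ ν e = f.1) (ht : ((S.vX μ e : ℕ) : ℤ) ∣ S.fI T c μ ν (M.X μ ν n) f) :
    ((S.vX μ e : ℕ) : ℤ) ∣ T.h * (if f.2.1 = true then aI μ.1 f.1 else 1) - f.2.2 * (if f.2.1 = true then aI ν.1 f.1 else 1) := by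
  have hG := g3_Gz h hc e hi hμ hν hB (by omega) ht
  obtain ⟨hcop, -⟩ := Bs_facts h hc hμ hν hB
  obtain ⟨hp, hy, hz, hN, hlk, hA1, hA2, hB2, ha, hb⟩ := fr_X h.geo c hμ hν hcop e
  have hpi : Prime ((S.vX μ e : ℕ) : ℤ) := Nat.prime_iff_prime_int.mp hp
  have hRt : ¬ ((S.vX μ e : ℕ) : ℤ) ∣ Rt (S.k + 1) (S.BI T.N c μ ν) (aI ν.1) f.1 := by
    rw [Rt, hpi.dvd_finsetProd_iff]
    rintro ⟨l, -, h3⟩
    rcases hpi.dvd_or_dvd h3 with h4 | h4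
    · exact hb l h4
    · exact hB2 _ h4
  have hAH : ((S.vX μ e : ℕ) : ℤ) ∣ S.AI T.N c μ ν f.1 * Hs (S.k + 1) (S.AI T.N c μ ν) (S.BI T.N c μ ν) (aI μ.1) (aI ν.1) (f.1 + 1) := by
    rcases Nat.lt_or_ge f.1 S.k with h3 | h3
    · have h4 := hA1 (by omega)
      rw [hl] at h4
      exact Dvd.dvd.mul_right h4 _
    · have h4 : f.1 + 1 = S.k + 1 := by omega
      rw [h4, Hs_top, mul_zero]
      exact dvd_zero _
  have h3 : S.GzI T c μ ν f = (T.h * (if f.2.1 = true then aI μ.1 f.1 else 1) - f.2.2 * (if f.2.1 = true then aI ν.1 f.1 else 1)) *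
      Rt (S.k + 1) (S.BI T.N c μ ν) (aI ν.1) f.1 + T.h * (if f.2.1 = true then aI μ.1 f.1 else 1) *
      (S.AI T.N c μ ν f.1 * Hs (S.k + 1) (S.AI T.N c μ ν) (S.BI T.N c μ ν) (aI μ.1) (aI ν.1) (f.1 + 1)) := by
    rw [MS.GzI, Gz, Gs, Rt]
    simp only [Int.cast_id]
    ring
  rw [h3] at hG
  have h4 := (dvd_add_left (Dvd.dvd.mul_left hAH (T.h * (if f.2.1 = true then aI μ.1 f.1 else 1)))).mp hG
  exact (hpi.dvd_or_dvd h4).resolve_right hRt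

theorem G3_eq (h : S.H73 T M W0 δ0 δ1 Z V Cd) {c : S.Col} (hc : c ∈ S.CC) (e : S.NX) {f : ℕ × Bool × ℤ} (hf : f ∈ T.Fs S.k)
    (h0 : f.1 = 0 → f.2.1 = false) :
    M.cnt (fun μ ν n => M.Bs T Cd c μ ν n ∧ S.lX T.N c μ ν e = f.1 ∧ ((S.vX μ e : ℕ) : ℤ) ∣ S.fI T c μ ν (M.X μ ν n) f) ≤ M.ub T V δ1 := by
  have hg0 := h.geo
  obtain ⟨hfk, -, hh⟩ := Fs_facts hg0 hf
  obtain ⟨hy, hD, hV⟩ := g3_pos h
  by_cases hb : f.2.1 = true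
  · have hi1 : 1 ≤ f.1 := by
      rcases Nat.eq_zero_or_pos f.1 with h3 | h3
      · rw [h0 h3] at hb
        exact absurd hb (by decide)
      · exact h3
    have h1 := cnt_le h (fun μ ν n => M.Bs T Cd c μ ν n ∧ S.lX T.N c μ ν e = f.1 ∧ ((S.vX μ e : ℕ) : ℤ) ∣ S.fI T c μ ν (M.X μ ν n) f)
      (fun μ ν => S.cop μ ν ∧ T.D ∣ S.SI T.N c μ ν ∧ ((S.vX μ e : ℕ) : ℤ) ∣ T.h * aI μ.1 f.1 - f.2.2 * aI ν.1 f.1)
      (fun μ hμ ν hν n _ hE => by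
        obtain ⟨hB, hl, ht⟩ := hE
        have hfc := Bs_facts h hc hμ hν hB
        have h2 := g3_eq h hc e (by omega) hμ hν hB hl ht
        rw [if_pos hb, if_pos hb] at h2
        exact ⟨hB.1, hfc.1, hfc.2.1, h2⟩)
    refine h1.trans ?_
    have h2 := S7F2w hg0 c (q := fun _ _ => T.D) (P := fun μ _ => S.vX μ e) g3_InvD (g3_Inv e) (Q := T.D) (Q1 := T.y0)
      hg0.D0 hg0.y1 hi1 (by omega) f.2.2
      (fun μ ν => S.cop μ ν ∧ T.D ∣ S.SI T.N c μ ν ∧ ((S.vX μ e : ℕ) : ℤ) ∣ T.h * aI μ.1 f.1 - f.2.2 * aI ν.1 f.1)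
      (fun μ hμ ν hν hE => by
        obtain ⟨hcop, hD, hG⟩ := hE
        obtain ⟨hp, hy, -⟩ := fr_X hg0 c hμ hν hcop e
        exact ⟨⟨hD, g3_copD h c hμ hν, le_rfl⟩, hp, hy.le, hG, (hh _ hp hy).1⟩)
    refine g3_ub h h2 ?_
    have h3 := inv3 h (Nat.zero_le S.k) (show f.1 ≤ S.k by omega)
    refine le_trans ?_ h3
    have h4 : 0 ≤ V ^ 2 * (1 / (T.D : ℝ) + 1 / Z 0) * (1 / (T.y0 : ℝ) + 1 / Z f.1) := by positivity
    calc V ^ 2 * (1 / (T.D : ℝ) + 1 / Z 0) * (1 / (T.y0 : ℝ) + 1 / Z f.1)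
        ≤ 2 * (V ^ 2 * (1 / (T.D : ℝ) + 1 / Z 0) * (1 / (T.y0 : ℝ) + 1 / Z f.1)) := by linarith
      _ = _ := by ring
  · have h1 := cnt_le h (fun μ ν n => M.Bs T Cd c μ ν n ∧ S.lX T.N c μ ν e = f.1 ∧ ((S.vX μ e : ℕ) : ℤ) ∣ S.fI T c μ ν (M.X μ ν n) f)
      (fun _ _ => False)
      (fun μ hμ ν hν n _ hE => by
        obtain ⟨hB, hl, ht⟩ := hE
        refine ⟨hB.1, ?_⟩
        have hfc := Bs_facts h hc hμ hν hB
        have h2 := g3_eq h hc e (by omega) hμ hν hB hl ht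
        rw [if_neg hb, if_neg hb, mul_one, mul_one] at h2
        obtain ⟨hp, hy, -⟩ := fr_X hg0 c hμ hν hfc.1 e
        exact (hh _ hp hy).2 h2)
    refine h1.trans ?_
    rw [g3_mass0]
    refine g3_ub h (c1 := 0) (by rw [zero_mul]) ?_
    positivity

theorem G3_gt (h : S.H73 T M W0 δ0 δ1 Z V Cd) {c : S.Col} (hc : c ∈ S.CC) (e : S.NX) {f : ℕ × Bool × ℤ} (hf : f ∈ T.Fs S.k) :
    M.cnt (fun μ ν n => M.Bs T Cd c μ ν n ∧ S.lX T.N c μ ν e < f.1 ∧ ¬ S.vX μ e ∣ S.SI T.N c μ ν ∧ ((S.vX μ e : ℕ) : ℤ) ∣ S.fI T c μ ν (M.X μ ν n) f) ≤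
      M.ub T V δ1 := by
  classical
  have hg0 := h.geo
  obtain ⟨hfk, -, -⟩ := Fs_facts hg0 hf
  obtain ⟨hy0, hD0, hV⟩ := g3_pos h
  have h1 := cnt_le' h (fun μ ν n => M.Bs T Cd c μ ν n ∧ S.lX T.N c μ ν e < f.1 ∧ ¬ S.vX μ e ∣ S.SI T.N c μ ν ∧
      ((S.vX μ e : ℕ) : ℤ) ∣ S.fI T c μ ν (M.X μ ν n) f)
    (fun μ ν => S.cop μ ν ∧ T.D ∣ S.SI T.N c μ ν) (θ := 4 / T.y0) (by positivity)
    (fun μ hμ ν hν n _ hE => ⟨hE.1.1, hE.1.1.2, (Bs_facts h hc hμ hν hE.1).2.1⟩)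
    (fun μ hμ ν hν ha hE' => by
      obtain ⟨hp, hy, hz, hN, hlk, hA1, hA2, hB2, ha', hb⟩ := fr_X hg0 c hμ hν hE'.1 e
      have hPL : S.vX μ e ∈ T.PL := by
        unfold Dat.PL
        rw [mem_filter, mem_range]
        exact ⟨by omega, hp, hy⟩
      have hdv : S.vX μ e ∣ S.prX id μ * S.prY id ν := Dvd.dvd.mul_right (g3_dvd μ e) _
      have hv : ¬ S.vX μ e ∣ M.v := by
        intro hd
        have h2 := Nat.dvd_gcd hdv hd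
        rw [ha.1] at h2
        exact hp.one_lt.ne' (Nat.dvd_one.mp h2)
      refine (n_cls2 h hμ hν ha hPL hdv _ (fun n n' hn hn' _ _ => ?_)).trans ?_
      · exact E_mark h hc hμ hν hp hfk hn.2.2.1 hv ⟨ha' _, hb _⟩
          (Or.inl ⟨S.lX T.N c μ ν e, hn.2.1, by omega, hA1 (by have := hn.2.1; omega)⟩) hn.1 hn'.1 hn.2.2.2 hn'.2.2.2
      · have h3 : 4 / ((S.vX μ e : ℕ) : ℝ) ≤ 4 / T.y0 := by
          apply div_le_div_of_nonneg_left (by norm_num) hy0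
          exact_mod_cast hy.le
        have h4 := mul_le_mul_of_nonneg_right h3 (g3_ms h hμ hν)
        linarith)
  refine h1.trans ?_
  have h2 := S7F1 hg0 c (q := fun _ _ => T.D) g3_InvD (Q := T.D) hg0.D0
    (fun μ ν => S.cop μ ν ∧ T.D ∣ S.SI T.N c μ ν)
    (fun μ hμ ν hν hE => ⟨hE.2, g3_copD h c hμ hν, le_rfl⟩)
  have h3 : 4 / (T.y0 : ℝ) * (M.W * S.mass M.hX M.hY (fun μ ν => S.cop μ ν ∧ T.D ∣ S.SI T.N c μ ν)) =
      M.W * (4 / T.y0 * S.mass M.hX M.hY (fun μ ν => S.cop μ ν ∧ T.D ∣ S.SI T.N c μ ν)) := by ring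
  rw [h3]
  refine g3_ub h (c1 := 4 / T.y0 * (V * (1 / T.D + 1 / Z 0))) ?_ ?_
  · calc _ ≤ 4 / (T.y0 : ℝ) * (V * (1 / T.D + 1 / Z 0) * S.full M.hX M.hY) :=
          mul_le_mul_of_nonneg_left h2 (by positivity)
      _ = _ := by ring
  · have h4 := inv2 h (Nat.zero_le S.k)
    have h5 : V * 1 ≤ V * V := mul_le_mul_of_nonneg_left hV (by linarith)
    calc 4 / (T.y0 : ℝ) * (V * (1 / T.D + 1 / Z 0)) ≤ 4 / T.y0 * (2 * V / T.D) :=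
          mul_le_mul_of_nonneg_left h4 (by positivity)
      _ = 8 * (V * 1) / (T.y0 * T.D) := by field_simp; ring
      _ ≤ 8 * (V * V) / (T.y0 * T.D) := by gcongr
      _ = _ := by ring

/-- all colours together: `k + 2` cases -/
theorem G3 (h : S.H73 T M W0 δ0 δ1 Z V Cd) {c : S.Col} (hc : c ∈ S.CC) (e : S.NX) {f : ℕ × Bool × ℤ} (hf : f ∈ T.Fs S.k) :
    M.cnt (fun μ ν n => M.Bs T Cd c μ ν n ∧ ¬ S.vX μ e ∣ S.SI T.N c μ ν ∧ ((S.vX μ e : ℕ) : ℤ) ∣ S.fI T c μ ν (M.X μ ν n) f) ≤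
      (S.k + 3) * M.ub T V δ1 := by
  have hg0 := h.geo
  obtain ⟨hfk, -, -⟩ := Fs_facts hg0 hf
  have hub := g3_ub0 h
  by_cases h00 : f.1 = 0 ∧ f.2.1 = true
  · have h1 := cnt_Un h (range 1)
      (E := fun μ ν n => M.Bs T Cd c μ ν n ∧ ¬ S.vX μ e ∣ S.SI T.N c μ ν ∧ ((S.vX μ e : ℕ) : ℤ) ∣ S.fI T c μ ν (M.X μ ν n) f)
      (fun _ μ ν n => M.Bs T Cd c μ ν n ∧ ((S.vX μ e : ℕ) : ℤ) ∣ S.fI T c μ ν (M.X μ ν n) f)
      (fun μ hμ ν hν n _ hE => ⟨0, mem_range.mpr one_pos, hE.1, hE.2.2⟩)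
    rw [sum_range_one] at h1
    refine (h1.trans (G3_0 h hc e hf h00)).trans ?_
    have h2 : (1 : ℝ) ≤ S.k + 3 := by
      have : (0 : ℝ) ≤ S.k := Nat.cast_nonneg _
      linarith
    nlinarith
  have h0 : f.1 = 0 → f.2.1 = false := by
    intro h3
    by_contra h4
    rw [Bool.not_eq_false] at h4
    exact h00 ⟨h3, h4⟩
  have h1 := cnt_Un h (range (S.k + 2))
    (E := fun μ ν n => M.Bs T Cd c μ ν n ∧ ¬ S.vX μ e ∣ S.SI T.N c μ ν ∧ ((S.vX μ e : ℕ) : ℤ) ∣ S.fI T c μ ν (M.X μ ν n) f)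
    (fun j μ ν n => if f.1 < j ∧ j ≤ S.k then
        (M.Bs T Cd c μ ν n ∧ S.lX T.N c μ ν e = j ∧ ((S.vX μ e : ℕ) : ℤ) ∣ S.fI T c μ ν (M.X μ ν n) f)
      else if j = f.1 then (M.Bs T Cd c μ ν n ∧ S.lX T.N c μ ν e = f.1 ∧ ((S.vX μ e : ℕ) : ℤ) ∣ S.fI T c μ ν (M.X μ ν n) f)
      else (M.Bs T Cd c μ ν n ∧ S.lX T.N c μ ν e < f.1 ∧ ¬ S.vX μ e ∣ S.SI T.N c μ ν ∧
        ((S.vX μ e : ℕ) : ℤ) ∣ S.fI T c μ ν (M.X μ ν n) f))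
    (fun μ hμ ν hν n _ hE => by
      obtain ⟨hB, hS, ht⟩ := hE
      have hfc := Bs_facts h hc hμ hν hB
      obtain ⟨-, -, -, -, hlk, -⟩ := fr_X hg0 c hμ hν hfc.1 e
      rcases Nat.lt_trichotomy (S.lX T.N c μ ν e) f.1 with hl | hl | hl
      · refine ⟨S.k + 1, mem_range.mpr (by omega), ?_⟩
        rw [if_neg (by omega), if_neg (by omega)]
        exact ⟨hB, hl, hS, ht⟩
      · refine ⟨f.1, mem_range.mpr (by omega), ?_⟩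
        rw [if_neg (by omega), if_pos rfl]
        exact ⟨hB, hl, ht⟩
      · refine ⟨S.lX T.N c μ ν e, mem_range.mpr (by omega), ?_⟩
        rw [if_pos ⟨hl, hlk⟩]
        exact ⟨hB, rfl, ht⟩)
  refine h1.trans ?_
  have h2 : ∀ j ∈ range (S.k + 2), M.cnt (fun μ ν n => if f.1 < j ∧ j ≤ S.k then
        (M.Bs T Cd c μ ν n ∧ S.lX T.N c μ ν e = j ∧ ((S.vX μ e : ℕ) : ℤ) ∣ S.fI T c μ ν (M.X μ ν n) f)
      else if j = f.1 then (M.Bs T Cd c μ ν n ∧ S.lX T.N c μ ν e = f.1 ∧ ((S.vX μ e : ℕ) : ℤ) ∣ S.fI T c μ ν (M.X μ ν n) f)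
      else (M.Bs T Cd c μ ν n ∧ S.lX T.N c μ ν e < f.1 ∧ ¬ S.vX μ e ∣ S.SI T.N c μ ν ∧
        ((S.vX μ e : ℕ) : ℤ) ∣ S.fI T c μ ν (M.X μ ν n) f)) ≤ M.ub T V δ1 := by
    intro j _
    by_cases hj : f.1 < j ∧ j ≤ S.k
    · simp only [if_pos hj]
      exact G3_lt h hc e hf h0 hj.1 hj.2
    · by_cases hj2 : j = f.1
      · simp only [if_neg hj, if_pos hj2]
        exact G3_eq h hc e hf h0
      · simp only [if_neg hj, if_neg hj2]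
        exact G3_gt h hc e hf
  refine (sum_le_sum h2).trans ?_
  rw [sum_const, card_range, nsmul_eq_mul]
  refine mul_le_mul_of_nonneg_right ?_ hub
  push_cast
  linarith

end Pool.Agent.Lib.TT3
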