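import Pool.Agent.Lib.MP_092512_nt.TT.P.D3
import Pool.Agent.Lib.MP_092512_nt.TT.P.G3
import Pool.Agent.Lib.MP_092512_nt.TT.C.S7F3
import Pool.Agent.Lib.MP_092512_nt.TT.P.S7F1

/-!
# S7F3: `q ∣ S` and a prime `P ∣ B_h`, `h < k`: windows `0` of `X` and `h + 1` of `Y`

`mass_twoY` with `i := 0`, `j := h + 1`. Separation in the window `0`: `sepS`. Separation in the window `h + 1` of `Y`: for `μ`, `μ'` which agree except in the window `0` and `ν`, `ν'` which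
agree except in the window `h + 1`:
* `S7F3`: `P ∣ Hs (h+1)` for both, `H_unique`.
* `S7F4`: `P ∣ Uz h f` for both, `f = (i, bb, w)`, `h + 1 < i ≤ k`; the difference is `h (b_i or 1) (Ut - Ut')`: `Ut_unique`.
* `S7F4w`: `P ∣ h β_{h+1} - w α_{h+1}`.
-/

set_option autoImplicit false

open Finset

namespace Pool.Agent.Lib.TT3

open Pool.Agent.Lib.TTC

variable {S : MS} {T : Dat} {Z : ℕ → ℕ} {hX hY : ℕ → ℝ} {V : ℝ}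

theorem S7F3 (hG : S.Geo3 T Z hX hY V) (c : S.Col) {q P : S.TX → S.TY → ℕ} (hq : S.Inv q) (hP : S.Inv P) {Q Q1 : ℕ} (hQ : 0 < Q) (hQ1 : 0 < Q1) {h : ℕ}
    (hh : h < S.k) (E : S.TX → S.TY → Prop)
    (hE : ∀ μ ∈ S.MX, ∀ ν ∈ S.MY, E μ ν → (q μ ν ∣ S.SI T.N c μ ν ∧ IsCoprime (q μ ν : ℤ) (S.RI T.N c μ ν 0) ∧ Q ≤ q μ ν) ∧
      ((P μ ν).Prime ∧ Q1 ≤ P μ ν ∧ ((P μ ν : ℕ) : ℤ) ∣ S.HI T.N c μ ν (h + 1) ∧
        (∀ l, l ≠ h → ¬ ((P μ ν : ℕ) : ℤ) ∣ S.BI T.N c μ ν l) ∧ (∀ l, ¬ ((P μ ν : ℕ) : ℤ) ∣ aI ν.1 l))) :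
    S.mass hX hY E ≤ 2 * V ^ 2 * (1 / Q + 1 / Z 0) * (1 / Q1 + 1 / Z (h + 1)) * S.full hX hY := by
  have hh' : h + 1 < S.k + 1 := by omega
  refine mass_twoY (i := 0) (j := ⟨h + 1, hh'⟩) hG E hQ hQ1 ?_ ?_
  · intro μ hμ μ' hμ' ν hν h1 h1' hag hlt
    obtain ⟨⟨a1, a2, a3⟩, -⟩ := hE μ hμ ν hν h1
    obtain ⟨⟨b1, -, -⟩, -⟩ := hE μ' hμ' ν hν h1'
    rw [← hq μ μ' ν ν hag.1 rfl] at b1
    have := sepS hG c hμ hμ' hν hag a1 b1 a2 hlt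
    omega
  · intro μ hμ μ' hμ' ν hν ν' hν' h1 h1' hag hag' hlt
    obtain ⟨-, a1, a2, a3, a4, a5⟩ := hE μ hμ ν hν h1
    obtain ⟨-, -, -, b3, -⟩ := hE μ' hμ' ν' hν' h1'
    rw [← hP μ μ' ν ν' hag.1 hag'.1] at b3
    have hA : S.AI T.N c μ' ν' = S.AI T.N c μ ν := AI_inv c hag.1.symm hag'.1.symm
    have hB : S.BI T.N c μ' ν' = S.BI T.N c μ ν := BI_inv c hag.1.symm hag'.1.symm
    rw [MS.HI] at a3 b3
    rw [hA, hB] at b3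
    have ha : ∀ j, h < j → aI μ.1 j = aI μ'.1 j := by
      intro j hj
      apply S7F1_congr
      intro l hl
      apply hag.2
      intro h0
      have h3 : (l : ℕ) = 0 := by rw [h0]; rfl
      omega
    have hb : ∀ j, j ≠ h + 1 → aI ν.1 j = aI ν'.1 j := by
      intro j hj
      apply S7F1_congr
      intro l hl
      apply hag'.2
      intro h0
      have h3 : (l : ℕ) = h + 1 := by rw [h0]
      omega
    have hp := Nat.prime_iff_prime_int.mp a1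
    have e1 := H_unique hh' hp ha hb (fun l hl _ hd => by
      rcases hp.dvd_or_dvd hd with hd | hd
      · exact a5 l hd
      · exact a4 (l - 1) (by omega) hd) a3 b3
    have e4 : aI ν.1 (h + 1) = (ν.1 ⟨h + 1, hh'⟩ : ℕ) := S7F1_val ν.1 ⟨h + 1, hh'⟩
    have e5 : aI ν'.1 (h + 1) = (ν'.1 ⟨h + 1, hh'⟩ : ℕ) := S7F1_val ν'.1 ⟨h + 1, hh'⟩
    rw [e4, e5] at e1
    have := S7F1_gap e1 hlt
    omega

theorem S7F4 (hG : S.Geo3 T Z hX hY V) (c : S.Col) {q P : S.TX → S.TY → ℕ} (hq : S.Inv q) (hP : S.Inv P) {Q Q1 : ℕ} (hQ : 0 < Q) (hQ1 : 0 < Q1)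
    {f : ℕ × Bool × ℤ} {h : ℕ} (hh : h + 1 < f.1) (hi : f.1 ≤ S.k) (E : S.TX → S.TY → Prop)
    (hE : ∀ μ ∈ S.MX, ∀ ν ∈ S.MY, E μ ν → (q μ ν ∣ S.SI T.N c μ ν ∧ IsCoprime (q μ ν : ℤ) (S.RI T.N c μ ν 0) ∧ Q ≤ q μ ν) ∧
      ((P μ ν).Prime ∧ Q1 ≤ P μ ν ∧ (((P μ ν : ℕ) : ℤ) ∣ S.UzI T c μ ν h f ∧ ¬ ((P μ ν : ℕ) : ℤ) ∣ T.h) ∧
        (∀ l, l ≠ h → ¬ ((P μ ν : ℕ) : ℤ) ∣ S.BI T.N c μ ν l) ∧ (∀ l, ¬ ((P μ ν : ℕ) : ℤ) ∣ aI ν.1 l))) :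
    S.mass hX hY E ≤ 2 * V ^ 2 * (1 / Q + 1 / Z 0) * (1 / Q1 + 1 / Z (h + 1)) * S.full hX hY := by
  have hh' : h + 1 < S.k + 1 := by omega
  refine mass_twoY (i := 0) (j := ⟨h + 1, hh'⟩) hG E hQ hQ1 ?_ ?_
  · intro μ hμ μ' hμ' ν hν h1 h1' hag hlt
    obtain ⟨⟨a1, a2, a3⟩, -⟩ := hE μ hμ ν hν h1
    obtain ⟨⟨b1, -, -⟩, -⟩ := hE μ' hμ' ν hν h1'
    rw [← hq μ μ' ν ν hag.1 rfl] at b1
    have := sepS hG c hμ hμ' hν hag a1 b1 a2 hlt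
    omega
  · intro μ hμ μ' hμ' ν hν ν' hν' h1 h1' hag hag' hlt
    obtain ⟨-, a1, a2, ⟨a3, a3'⟩, a4, a5⟩ := hE μ hμ ν hν h1
    obtain ⟨-, -, -, ⟨b3, -⟩, -⟩ := hE μ' hμ' ν' hν' h1'
    rw [← hP μ μ' ν ν' hag.1 hag'.1] at b3
    have hA : S.AI T.N c μ' ν' = S.AI T.N c μ ν := AI_inv c hag.1.symm hag'.1.symm
    have hB : S.BI T.N c μ' ν' = S.BI T.N c μ ν := BI_inv c hag.1.symm hag'.1.symm
    rw [MS.UzI, Uz] at a3 b3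
    rw [hA, hB] at b3
    have ha : ∀ j, h < j → aI μ.1 j = aI μ'.1 j := by
      intro j hj
      apply S7F1_congr
      intro l hl
      apply hag.2
      intro h0
      have h3 : (l : ℕ) = 0 := by rw [h0]; rfl
      omega
    have hb : ∀ j, j ≠ h + 1 → aI ν.1 j = aI ν'.1 j := by
      intro j hj
      apply S7F1_congr
      intro l hl
      apply hag'.2
      intro h0
      have h3 : (l : ℕ) = h + 1 := by rw [h0]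
      omega
    have hp := Nat.prime_iff_prime_int.mp a1
    have e0 : ∏ l ∈ Ico (h + 1) f.1, aI μ'.1 l * S.AI T.N c μ ν l = ∏ l ∈ Ico (h + 1) f.1, aI μ.1 l * S.AI T.N c μ ν l := by
      refine prod_congr rfl fun l hl => ?_
      rw [mem_Ico] at hl
      rw [ha l (by omega)]
    rw [e0, ← ha f.1 (by omega), ← hb f.1 (by omega)] at b3
    have e3 : ((P μ ν : ℕ) : ℤ) ∣ Ut (S.AI T.N c μ ν) (S.BI T.N c μ ν) (aI μ.1) (aI ν.1) h f.1 -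
        Ut (S.AI T.N c μ ν) (S.BI T.N c μ ν) (aI μ'.1) (aI ν'.1) h f.1 := by
      have e4 := dvd_sub a3 b3
      rw [sub_sub_sub_cancel_right, ← mul_sub, ← mul_sub] at e4
      have e5 := (hp.dvd_or_dvd e4).resolve_left a3'
      refine (hp.dvd_or_dvd e5).resolve_left ?_
      by_cases hb : f.2.1 = true
      · rw [if_pos hb]
        exact hp.not_dvd_one
      · rw [if_neg hb]
        exact a5 f.1
    have e1 := Ut_unique hh hp ha hb (a4 (f.1 - 1) (by omega)) (fun l hl _ hd => by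
      rcases hp.dvd_or_dvd hd with hd | hd
      · exact a5 l hd
      · exact a4 (l - 1) (by omega) hd) e3
    have e4 : aI ν.1 (h + 1) = (ν.1 ⟨h + 1, hh'⟩ : ℕ) := S7F1_val ν.1 ⟨h + 1, hh'⟩
    have e5 : aI ν'.1 (h + 1) = (ν'.1 ⟨h + 1, hh'⟩ : ℕ) := S7F1_val ν'.1 ⟨h + 1, hh'⟩
    rw [e4, e5] at e1
    have := S7F1_gap e1 hlt
    omega

theorem S7F4w (hG : S.Geo3 T Z hX hY V) (c : S.Col) {q P : S.TX → S.TY → ℕ} (hq : S.Inv q) (hP : S.Inv P) {Q Q1 : ℕ} (hQ : 0 < Q) (hQ1 : 0 < Q1)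
    {h : ℕ} (hh : h < S.k) (w : ℤ) (E : S.TX → S.TY → Prop)
    (hE : ∀ μ ∈ S.MX, ∀ ν ∈ S.MY, E μ ν → (q μ ν ∣ S.SI T.N c μ ν ∧ IsCoprime (q μ ν : ℤ) (S.RI T.N c μ ν 0) ∧ Q ≤ q μ ν) ∧
      ((P μ ν).Prime ∧ Q1 ≤ P μ ν ∧ ((P μ ν : ℕ) : ℤ) ∣ T.h * aI ν.1 (h + 1) - w * aI μ.1 (h + 1) ∧ ¬ ((P μ ν : ℕ) : ℤ) ∣ T.h)) :
    S.mass hX hY E ≤ 2 * V ^ 2 * (1 / Q + 1 / Z 0) * (1 / Q1 + 1 / Z (h + 1)) * S.full hX hY := by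
  have hh' : h + 1 < S.k + 1 := by omega
  refine mass_twoY (i := 0) (j := ⟨h + 1, hh'⟩) hG E hQ hQ1 ?_ ?_
  · intro μ hμ μ' hμ' ν hν h1 h1' hag hlt
    obtain ⟨⟨a1, a2, a3⟩, -⟩ := hE μ hμ ν hν h1
    obtain ⟨⟨b1, -, -⟩, -⟩ := hE μ' hμ' ν hν h1'
    rw [← hq μ μ' ν ν hag.1 rfl] at b1
    have := sepS hG c hμ hμ' hν hag a1 b1 a2 hlt
    omega
  · intro μ hμ μ' hμ' ν hν ν' hν' h1 h1' hag hag' hlt
    obtain ⟨-, a1, a2, a3, a4⟩ := hE μ hμ ν hν h1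
    obtain ⟨-, -, -, b3, -⟩ := hE μ' hμ' ν' hν' h1'
    rw [← hP μ μ' ν ν' hag.1 hag'.1] at b3
    have ha : aI μ.1 (h + 1) = aI μ'.1 (h + 1) := by
      apply S7F1_congr
      intro l hl
      apply hag.2
      intro h0
      have h3 : (l : ℕ) = 0 := by rw [h0]; rfl
      omega
    have hp := Nat.prime_iff_prime_int.mp a1
    have e4 := dvd_sub a3 b3
    rw [← ha, show T.h * aI ν.1 (h + 1) - w * aI μ.1 (h + 1) - (T.h * aI ν'.1 (h + 1) - w * aI μ.1 (h + 1)) =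
      T.h * (aI ν.1 (h + 1) - aI ν'.1 (h + 1)) from by ring] at e4
    have e1 := (hp.dvd_or_dvd e4).resolve_left a4
    have e5 : aI ν.1 (h + 1) = (ν.1 ⟨h + 1, hh'⟩ : ℕ) := S7F1_val ν.1 ⟨h + 1, hh'⟩
    have e6 : aI ν'.1 (h + 1) = (ν'.1 ⟨h + 1, hh'⟩ : ℕ) := S7F1_val ν'.1 ⟨h + 1, hh'⟩
    rw [e5, e6] at e1
    have := S7F1_gap e1 hlt
    omega

end Pool.Agent.Lib.TT3
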