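import Pool.Agent.Lib.MP_092512_nt.TT.P.D3
import Pool.Agent.Lib.MP_092512_nt.TT.P.G3
import Pool.Agent.Lib.MP_092512_nt.TT.C.S7F5
import Pool.Agent.Lib.MP_092512_nt.TT.P.S7F1
import Pool.Agent.Lib.MP_092512_nt.TT.P.S7D2

/-!
# S7F5: a window prime divides `S`

* `S7F5X`: `p = α_j ∣ S`. `j = 0`: `S = α_0 G - R` (`Sm_Hs`, `Hs_G`), so `α_0 ∣ RI 0`: impossible (`fr_WX`, `RI 0 = β_0 ∏ β_l B_{l-1}`). `j ≥ 1`: for two tuples which agree except in the window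
  `0`: `p ∣ α_0 - α'_0` (`th_unique`, `q = α_j`; `IsCoprime` by `cop_RI`, `fr_WX`), and `p > 3 Z_j ≥ 12 Z_0 > α_0, α'_0`: so `α_0 = α'_0`. `mass_one` with `i = 0`, `Q = Z 0` (the separation is
  vacuous): `≤ 2 V/Z 0`.
* `S7F5Y`: a prime `p = r ν` divides `β_j` and `S`, `U_G` with `i = j`: `p ∣ β_j ∣ Rs j`, so `p ∣ (∏_{l<j} a_l A_l) a_j Gs j`, `p ∣ Gs j` (`fr_WY`). `j = k`: `Gs k = 1` (`G_top`): impossible. `j < k`: `G_unique` with `h = k`: for two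
  tuples which agree except in the window `k` of `X`: `p ∣ α_k - α'_k`: separation `p > z`. `mass_one` with `i = k`, `Q = z`: `≤ V (1/z + 1/Z k) ≤ 2 V/(y0 D)`.
-/

set_option autoImplicit false

open Finset

namespace Pool.Agent.Lib.TT3

open Pool.Agent.Lib.TTC

variable {S : MS} {T : Dat} {Z : ℕ → ℕ} {hX hY : ℕ → ℝ} {V : ℝ}

private theorem S7F5_Z0 (hG : S.Geo3 T Z hX hY V) {j : ℕ} (hj : j ≤ S.k) : 0 < Z 0 ∧ Z 0 ≤ Z j := by
  have h1 := hG.zZ 0 (Nat.zero_le _)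
  have h2 : 0 < T.z * T.D := Nat.mul_pos (by have := hG.yz; have := hG.y1; omega) hG.D0
  refine ⟨by omega, ?_⟩
  rcases Nat.eq_zero_or_pos j with h0 | h0
  · rw [h0]
  · have := hG.ZZ 0 j h0 hj
    omega

theorem S7F5X (hG : S.Geo3 T Z hX hY V) (c : S.Col) (j : Fin (S.k + 1)) (E : S.TX → S.TY → Prop)
    (hE : ∀ μ ∈ S.MX, ∀ ν ∈ S.MY, E μ ν → S.cop μ ν ∧ μ.1 j ∣ S.SI T.N c μ ν) :
    S.mass hX hY E ≤ 2 * V / Z 0 * S.full hX hY := by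
  have hZ := S7F5_Z0 hG (Nat.le_of_lt_succ j.2)
  have hmem : ∀ μ ∈ S.MX, (μ.1 j).Prime ∧ 3 * Z j < μ.1 j := by
    intro μ hμ
    rw [MS.MX, mem_product, Fintype.mem_piFinset] at hμ
    have := hG.wx j _ (hμ.1 j)
    exact ⟨this.1, this.2.1⟩
  have key : S.mass hX hY E ≤ V * (1 / (Z 0 : ℕ) + 1 / Z 0) * S.full hX hY := by
    refine mass_one hG E 0 hZ.1 ?_
    intro μ hμ μ' hμ' ν hν h h' hag hlt
    obtain ⟨a1, a2⟩ := hE μ hμ ν hν h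
    obtain ⟨-, b2⟩ := hE μ' hμ' ν hν h'
    obtain ⟨-, f2, -, f4⟩ := fr_WX hG c hμ hν a1 j
    have hc := S7F5_cop (T := T) c (hmem μ hμ).1 f2 f4
    by_cases hj : j = 0
    · exfalso
      subst hj
      have e1 : ((μ.1 0 : ℕ) : ℤ) ∣ SmR (S.AI T.N c μ ν) (S.BI T.N c μ ν) (aI μ.1) (aI ν.1) (S.k + 1) := by
        rw [← SI_eq hG c hμ hν]
        exact_mod_cast a2
      have e4 : aI μ.1 0 = (μ.1 0 : ℕ) := S7F1_val μ.1 0
      rw [Sm_Hs, Hs_G _ _ _ _ (Nat.succ_pos S.k), e4] at e1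
      have e2 : ((μ.1 0 : ℕ) : ℤ) ∣ S.RI T.N c μ ν 0 := by
        have e3 := dvd_sub (Dvd.intro (Gs (S.k + 1) (S.AI T.N c μ ν) (S.BI T.N c μ ν) (aI μ.1) (aI ν.1) 0) rfl) e1
        rwa [sub_sub_cancel] at e3
      have e5 := hc.isUnit_of_dvd' dvd_rfl e2
      exact (Nat.prime_iff_prime_int.mp (hmem μ hμ).1).not_unit e5
    · rw [← hag.2 j hj] at b2
      have e1 := sepS hG c hμ hμ' hν hag a2 b2 hc hlt
      have e2 := (hmem μ hμ).2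
      omega
  refine key.trans (le_of_eq ?_)
  ring

theorem S7F5Y (hG : S.Geo3 T Z hX hY V) (hyz : T.y0 * T.D ≤ T.z) (c : S.Col) (j : Fin (S.k + 1)) (r : S.TY → ℕ) (E : S.TX → S.TY → Prop)
    (hE : ∀ μ ∈ S.MX, ∀ ν ∈ S.MY, E μ ν → S.cop μ ν ∧ (r ν).Prime ∧ r ν ∣ ν.1 j ∧ r ν ∣ S.SI T.N c μ ν) :
    S.mass hX hY E ≤ 2 * V / (T.y0 * T.D) * S.full hX hY := by
  have hz0 : 0 < T.z := by have := hG.y1; have := hG.yz; omega
  have hD0 := hG.D0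
  have hyD : 0 < T.y0 * T.D := Nat.mul_pos hG.y1 hD0
  have hZk : T.z ≤ Z S.k := by
    have h1 := hG.zZ S.k le_rfl
    have h2 : T.z * 1 ≤ T.z * T.D := Nat.mul_le_mul_left _ hD0
    omega
  have hmem : ∀ ν ∈ S.MY, ∀ p : ℕ, p.Prime → p ∣ ν.1 j → T.z < p := by
    intro ν hν p hp hd
    rw [MS.MY, mem_product, Fintype.mem_piFinset] at hν
    exact hG.wz j _ (hν.1 j) p hp hd
  have hdv : ∀ μ ∈ S.MX, ∀ ν ∈ S.MY, E μ ν → ((r ν : ℕ) : ℤ) ∣ S.GI T.N c μ ν j := by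
    intro μ hμ ν hν h
    obtain ⟨a1, a2, a3, a4⟩ := hE μ hμ ν hν h
    obtain ⟨f1, -, f3, -⟩ := fr_WY hG c hμ hν a1 j a2 a3
    have hp := Nat.prime_iff_prime_int.mp a2
    have e1 : ((r ν : ℕ) : ℤ) ∣ SmR (S.AI T.N c μ ν) (S.BI T.N c μ ν) (aI μ.1) (aI ν.1) (S.k + 1) := by
      rw [← SI_eq hG c hμ hν]
      exact_mod_cast a4
    have e2 : ((r ν : ℕ) : ℤ) ∣ Us (S.AI T.N c μ ν) (S.BI T.N c μ ν) (aI μ.1) (aI ν.1) j *
        Rs (S.k + 1) (S.BI T.N c μ ν) (aI ν.1) j := by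
      apply Dvd.dvd.mul_left
      rw [Rs, S7F1_val ν.1 j]
      exact Dvd.dvd.mul_right (by exact_mod_cast a3) _
    have e3 := dvd_add e2 e1
    rw [U_G _ _ _ _ j.2] at e3
    rcases hp.dvd_or_dvd e3 with e4 | e4
    · exfalso
      rw [hp.dvd_finset_prod_iff] at e4
      obtain ⟨l, -, hl⟩ := e4
      rcases hp.dvd_or_dvd hl with e5 | e5
      · exact f3 l e5
      · exact f1 l e5
    · rcases hp.dvd_or_dvd e4 with e5 | e5
      · exact absurd e5 (f3 j)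
      · exact e5
  have key : S.mass hX hY E ≤ V * (1 / (T.z : ℕ) + 1 / Z S.k) * S.full hX hY := by
    refine mass_one hG E (Fin.last S.k) hz0 ?_
    intro μ hμ μ' hμ' ν hν h h' hag hlt
    have e1 := hdv μ hμ ν hν h
    have e2 := hdv μ' hμ' ν hν h'
    obtain ⟨a1, a2, a3, -⟩ := hE μ hμ ν hν h
    have hp := Nat.prime_iff_prime_int.mp a2
    obtain ⟨f1, -, f3, -⟩ := fr_WY hG c hμ hν a1 j a2 a3
    rw [MS.GI] at e1 e2
    rw [AI_inv c hag.1.symm rfl, BI_inv c hag.1.symm rfl] at e2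
    rcases Nat.lt_or_ge (j : ℕ) S.k with hj | hj
    · have ha : ∀ l, (j : ℕ) < l → l ≠ S.k → aI μ.1 l = aI μ'.1 l := by
        intro l _ hl'
        apply S7F1_congr
        intro m hm
        apply hag.2
        intro h0
        rw [h0, Fin.val_last] at hm
        exact hl' hm.symm
      have e3 := G_unique hj (Nat.lt_succ_self S.k) hp ha (fun h0 => by omega) (fun l _ _ => f1 l)
        (fun l _ _ => f3 l) (fun l h0 h0' => by omega) (dvd_sub e1 e2)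
      have e4 : aI μ.1 S.k = (μ.1 (Fin.last S.k) : ℕ) := S7F1_val μ.1 (Fin.last S.k)
      have e5 : aI μ'.1 S.k = (μ'.1 (Fin.last S.k) : ℕ) := S7F1_val μ'.1 (Fin.last S.k)
      rw [e4, e5] at e3
      have e6 := S7F1_gap e3 hlt
      have e7 := hmem ν hν _ a2 a3
      omega
    · exfalso
      have hj' : (j : ℕ) = S.k + 1 - 1 := by have := j.2; omega
      rw [hj', G_top _ _ _ _ (Nat.le_add_left 1 S.k)] at e1
      exact hp.not_dvd_one e1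
  have hyDr : (0 : ℝ) < (T.y0 : ℝ) * T.D := by exact_mod_cast hyD
  have h1 : 1 / (T.z : ℝ) ≤ 1 / ((T.y0 : ℝ) * T.D) := one_div_le_one_div_of_le hyDr (by exact_mod_cast hyz)
  have h2 : 1 / (Z S.k : ℝ) ≤ 1 / ((T.y0 : ℝ) * T.D) := one_div_le_one_div_of_le hyDr (by exact_mod_cast hyz.trans hZk)
  have hV : 0 ≤ V := zero_le_one.trans hG.V1
  refine key.trans ?_
  apply mul_le_mul_of_nonneg_right _ (full_nonneg hG)
  calc V * (1 / (T.z : ℝ) + 1 / Z S.k) ≤ V * (1 / ((T.y0 : ℝ) * T.D) + 1 / ((T.y0 : ℝ) * T.D)) :=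
      mul_le_mul_of_nonneg_left (by linarith) hV
    _ = 2 * V / (T.y0 * T.D) := by ring

end Pool.Agent.Lib.TT3
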