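import Pool.Agent.Lib.MP_092512_nt.TT.P.D3
import Pool.Agent.Lib.MP_092512_nt.TT.P.G3
import Pool.Agent.Lib.MP_092512_nt.TT.C.S7G0
import Pool.Agent.Lib.MP_092512_nt.TT.P.S7N
import Pool.Agent.Lib.MP_092512_nt.TT.P.S7D2

/-!
# S7G0: the standard bound, basic facts about `Bs`

`ub = 8 V²/(y0 D) tot + |MX| |MY| err`. Since `Z i ≥ z D ≥ y0 D`: `1/Z i ≤ 1/(y0 D) ≤ 1/y0, 1/D`. So
* `V (1/(y0 D) + 1/Z i) ≤ 8 V²/(y0 D)` (`inv1`), `V (1/D + 1/Z i) ≤ 2 V/D` (`inv2`), `2 V² (1/D + 1/Z i) (1/y0 + 1/Z j) ≤ 8 V²/(y0 D)` (`inv3`).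
* `Bs_facts`: `Bs` gives `cop`, `D ∣ SI` (`cD`), the divisibilities `μ ∣ X`, `ν ∣ Y = X - D h` (`ok`), and by `tI_facts`: for every form `f`: `fI f` divides `FI (X - D h) f`.
* `Fs_facts`: for `f = (i, bb, w) ∈ Fs`: `f.2 = (false, 0)` or `w` is prime to all primes `> y0`; `h`, `h - w` are prime to all primes `> y0`.
-/

set_option autoImplicit false

open Finset

namespace Pool.Agent.Lib.TT3

open Pool.Agent.Lib.TTC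

variable {S : MS} {T : Dat} {M : Msr S} {W0 : ℕ} {δ0 δ1 : ℝ} {Z : ℕ → ℕ} {V : ℝ} {Cd : S.TX → S.TY → ℕ → Prop}

theorem inv0 (h : S.H73 T M W0 δ0 δ1 Z V Cd) {i : ℕ} (hi : i ≤ S.k) : 0 < Z i ∧ 1 / (Z i : ℝ) ≤ 1 / (T.y0 * T.D) := by
  have hg := h.geo
  have h1 : T.y0 * T.D ≤ Z i := le_trans (Nat.mul_le_mul_right _ hg.yz) (hg.zZ i hi)
  have h2 : 0 < T.y0 * T.D := Nat.mul_pos hg.y1 hg.D0
  refine ⟨lt_of_lt_of_le h2 h1, ?_⟩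
  have h3 : (0 : ℝ) < (T.y0 : ℝ) * T.D := by exact_mod_cast h2
  have h4 : (T.y0 : ℝ) * T.D ≤ Z i := by exact_mod_cast h1
  exact one_div_le_one_div_of_le h3 h4

theorem inv1 (h : S.H73 T M W0 δ0 δ1 Z V Cd) {i : ℕ} (hi : i ≤ S.k) : V * (1 / ((T.y0 * T.D : ℕ) : ℝ) + 1 / Z i) ≤ 8 * V ^ 2 / (T.y0 * T.D) := by
  have hg := h.geo
  obtain ⟨_, h1⟩ := inv0 h hi
  have hV := hg.V1
  have h2 : (0 : ℝ) < (T.y0 : ℝ) * T.D := by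
    have := Nat.mul_pos hg.y1 hg.D0
    exact_mod_cast this
  push_cast
  have h3 : V * (1 / ((T.y0 : ℝ) * T.D) + 1 / Z i) ≤ V * (2 * (1 / ((T.y0 : ℝ) * T.D))) :=
    mul_le_mul_of_nonneg_left (by linarith) (by linarith)
  refine h3.trans ?_
  have h4 : 8 * V ^ 2 / ((T.y0 : ℝ) * T.D) = 8 * V ^ 2 * (1 / ((T.y0 : ℝ) * T.D)) := by ring
  rw [h4, ← mul_assoc]
  refine mul_le_mul_of_nonneg_right ?_ (by positivity)
  nlinarith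

theorem inv2 (h : S.H73 T M W0 δ0 δ1 Z V Cd) {i : ℕ} (hi : i ≤ S.k) : V * (1 / (T.D : ℝ) + 1 / Z i) ≤ 2 * V / T.D := by
  have hg := h.geo
  obtain ⟨_, h1⟩ := inv0 h hi
  have hV := hg.V1
  have hD : (0 : ℝ) < T.D := by exact_mod_cast hg.D0
  have hy : (1 : ℝ) ≤ T.y0 := by exact_mod_cast hg.y1
  have h2 : 1 / ((T.y0 : ℝ) * T.D) ≤ 1 / T.D := by
    refine one_div_le_one_div_of_le hD ?_
    nlinarith
  have h3 : 2 * V / T.D = V * (1 / (T.D : ℝ) + 1 / T.D) := by ring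
  rw [h3]
  exact mul_le_mul_of_nonneg_left (by linarith) (by linarith)

theorem inv3 (h : S.H73 T M W0 δ0 δ1 Z V Cd) {i j : ℕ} (hi : i ≤ S.k) (hj : j ≤ S.k) :
    2 * V ^ 2 * (1 / (T.D : ℝ) + 1 / Z i) * (1 / (T.y0 : ℝ) + 1 / Z j) ≤ 8 * V ^ 2 / (T.y0 * T.D) := by
  have hg := h.geo
  obtain ⟨hzi, h1⟩ := inv0 h hi
  obtain ⟨hzj, h1'⟩ := inv0 h hj
  have hV := hg.V1
  have hD : (0 : ℝ) < T.D := by exact_mod_cast hg.D0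
  have hD1 : (1 : ℝ) ≤ T.D := by exact_mod_cast hg.D0
  have hy : (1 : ℝ) ≤ T.y0 := by exact_mod_cast hg.y1
  have hy0 : (0 : ℝ) < T.y0 := by linarith
  have h2 : 1 / ((T.y0 : ℝ) * T.D) ≤ 1 / T.D := by
    refine one_div_le_one_div_of_le hD ?_
    nlinarith
  have h2' : 1 / ((T.y0 : ℝ) * T.D) ≤ 1 / T.y0 := by
    refine one_div_le_one_div_of_le hy0 ?_
    nlinarith
  have h3 : 8 * V ^ 2 / ((T.y0 : ℝ) * T.D) = 2 * V ^ 2 * (2 * (1 / T.D)) * (2 * (1 / T.y0)) := by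
    field_simp
    ring
  rw [h3]
  have e1 : 2 * V ^ 2 * (1 / (T.D : ℝ) + 1 / Z i) ≤ 2 * V ^ 2 * (2 * (1 / T.D)) :=
    mul_le_mul_of_nonneg_left (by linarith) (by positivity)
  have e2 : 1 / (T.y0 : ℝ) + 1 / Z j ≤ 2 * (1 / T.y0) := by linarith
  exact mul_le_mul e1 e2 (by positivity) (by positivity)

theorem Fs_facts {hX hY : ℕ → ℝ} (hG : S.Geo3 T Z hX hY V) {f : ℕ × Bool × ℤ} (hf : f ∈ T.Fs S.k) : f.1 < S.k + 1 ∧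
    (f.2 = (false, 0) ∨ ∀ p : ℕ, p.Prime → T.y0 < p → ¬ (p : ℤ) ∣ f.2.2) ∧
    ∀ p : ℕ, p.Prime → T.y0 < p → ¬ (p : ℤ) ∣ T.h ∧ ¬ (p : ℤ) ∣ T.h - f.2.2 := by
  unfold Dat.Fs Dat.Js at hf
  rw [mem_product, mem_range, mem_insert, mem_product, mem_image] at hf
  refine ⟨hf.1, ?_, fun p hp hy => ⟨(hG.hg p hp hy).1, ?_⟩⟩
  · rcases hf.2 with h1 | ⟨-, g, hg, h1⟩
    · exact Or.inl h1
    · right
      intro p hp hy
      rw [← h1]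
      exact ((hG.hg p hp hy).2 g hg).2
  · rcases hf.2 with h1 | ⟨-, g, hg, h1⟩
    · rw [h1, sub_zero]
      exact (hG.hg p hp hy).1
    · rw [← h1, show T.h - (T.h + g) = -g from by ring, dvd_neg]
      exact ((hG.hg p hp hy).2 g hg).1

theorem Bs_facts (h : S.H73 T M W0 δ0 δ1 Z V Cd) {c : S.Col} (hc : c ∈ S.CC) {μ : S.TX} {ν : S.TY} (hμ : μ ∈ S.MX) (hν : ν ∈ S.MY) {n : ℕ}
    (hB : M.Bs T Cd c μ ν n) : S.cop μ ν ∧ T.D ∣ S.SI T.N c μ ν ∧ S.prX id μ ∣ M.X μ ν n ∧ S.prY id ν ∣ T.Y (M.X μ ν n) ∧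
      ((T.Y (M.X μ ν n) : ℕ) : ℤ) = (M.X μ ν n : ℤ) - T.D * T.h ∧
      ∀ f : ℕ × Bool × ℤ, f.1 < S.k + 1 → S.fI T c μ ν (M.X μ ν n) f ∣ S.FI T c μ ν ((M.X μ ν n : ℤ) - T.D * T.h) f := by
  have hg := h.geo
  obtain ⟨ha, hO, hC, hLL⟩ := hB
  have hcop : S.cop μ ν := ha.2
  have hD := h.cD c hc μ hμ ν hν n ha hO hC hLL
  have hX := h.ok.X_dvd μ ν n hO
  have hY := h.ok.Y_dvd μ ν n hO
  have hlo := h.ok.Y_lo μ ν n hO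
  obtain ⟨e, t, -, -, hform⟩ := tI_facts hg hc hμ hν hcop hX hY hlo hD
  refine ⟨hcop, hD, hX, hY, ?_, fun f hf => ?_⟩
  · have h1 : 0 < T.Y (M.X μ ν n) := by omega
    unfold Dat.Y at h1 ⊢
    exact Int.toNat_of_nonneg (by omega)
  · rw [hform f hf, dvd_neg]
    exact Dvd.intro_left _ rfl

/-- `cnt` of a finite union -/
theorem cnt_Un (h : S.H73 T M W0 δ0 δ1 Z V Cd) {ι : Type*} (s : Finset ι) {E : S.TX → S.TY → ℕ → Prop} (E' : ι → S.TX → S.TY → ℕ → Prop)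
    (hE : ∀ μ ∈ S.MX, ∀ ν ∈ S.MY, ∀ n, M.Om μ ν n ≠ 0 → E μ ν n → ∃ i ∈ s, E' i μ ν n) : M.cnt E ≤ ∑ i ∈ s, M.cnt (E' i) := by
  classical
  unfold Msr.cnt
  have h1 : ∑ i ∈ s, ∑ μ ∈ S.MX, ∑ ν ∈ S.MY, ∑ n ∈ range (M.nm + 1), (if E' i μ ν n then M.Om μ ν n else 0) =
      ∑ μ ∈ S.MX, ∑ ν ∈ S.MY, ∑ n ∈ range (M.nm + 1), ∑ i ∈ s, (if E' i μ ν n then M.Om μ ν n else 0) := by
    rw [sum_comm]
    refine sum_congr rfl fun μ _ => ?_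
    rw [sum_comm]
    refine sum_congr rfl fun ν _ => ?_
    rw [sum_comm]
  have h2 : ∑ μ ∈ S.MX, ∑ ν ∈ S.MY, ∑ n ∈ range (M.nm + 1), (if E μ ν n then M.Om μ ν n else 0) ≤
      ∑ μ ∈ S.MX, ∑ ν ∈ S.MY, ∑ n ∈ range (M.nm + 1), ∑ i ∈ s, (if E' i μ ν n then M.Om μ ν n else 0) := by
    refine sum_le_sum fun μ hμ => sum_le_sum fun ν hν => sum_le_sum fun n _ => ?_
    have hnn : ∀ i ∈ s, 0 ≤ if E' i μ ν n then M.Om μ ν n else 0 := fun i _ => by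
      split_ifs
      · exact h.ok.Om_nonneg μ ν n
      · exact le_rfl
    by_cases hEn : E μ ν n
    · rw [if_pos hEn]
      by_cases hO : M.Om μ ν n = 0
      · rw [hO]; exact sum_nonneg fun i _ => by split_ifs <;> exact le_rfl
      · obtain ⟨i, hi, hEi⟩ := hE μ hμ ν hν n hO hEn
        refine le_trans (le_of_eq ?_) (single_le_sum hnn hi)
        rw [if_pos hEi]
    · rw [if_neg hEn]
      exact sum_nonneg hnn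
  calc _ ≤ _ := h2
    _ = _ := by rw [← h1]

end Pool.Agent.Lib.TT3
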