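import Pool.Agent.Lib.MP_092512_nt.TT.P.S7G0
import Pool.Agent.Lib.MP_092512_nt.TT.P.S7F2

/-!
# S7G5 (TT): a prime `p ∣ S` (`y0 < p ≤ z`, no mark) divides a form `f = (i, bb, w)`

`G5_L`: `p` divides no mark, `p ∣ SI`, `p ∣ fI f`: `FI_Gz`: `p ∣ Gz f`.
* `i = 0`, `bb`: `S = a_0 G_0 - R_0 ≡ 0`: `Gz ≡ (h - w) R_0`: impossible.
* `i < k`, not (`i = 0`, `bb`): `S7F2` with `h = k`, `q = D p`, `Q = p D`, `P = p`, `Q1 = p`: mass `≤ V² (1/(pD) + 1/Z 0)(1/p + 1/Z k) full`, and `1/Z i ≤ 1/(z D) ≤ 1/(p D)`: `≤ 4 V²/(p² D)`.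
* `i = k`: `G_k = Rt_k = 1`: `Gz = h a_k - w b_k` if `bb`: `S7F2w` with `i = k`, the same bound; `Gz = h - w` if not `bb`: impossible.
-/

set_option autoImplicit false

open Finset

namespace Pool.Agent.Lib.TT3

open Pool.Agent.Lib.TTC

variable {S : MS} {T : Dat} {M : Msr S} {W0 : ℕ} {δ0 δ1 : ℝ} {Z : ℕ → ℕ} {V : ℝ} {Cd : S.TX → S.TY → ℕ → Prop}

private theorem g5_Invc (m : ℕ) : S.Inv (fun _ _ => m) := fun _ _ _ _ _ _ => rfl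

private theorem g5_copD (h : S.H73 T M W0 δ0 δ1 Z V Cd) (c : S.Col) {μ : S.TX} {ν : S.TY} (hμ : μ ∈ S.MX) (hν : ν ∈ S.MY) :
    IsCoprime ((T.D : ℕ) : ℤ) (S.RI T.N c μ ν 0) := by
  refine cop_RI c (fun p hp hpD => ?_) (by have := h.geo.D0; exact_mod_cast this.ne')
  have hpn : p.natAbs.Prime := Int.prime_iff_natAbs_prime.mp hp
  have h1 : p.natAbs ∣ T.D := by
    have h2 := Int.natAbs_dvd_natAbs.mpr hpD
    rwa [Int.natAbs_natCast] at h2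
  have h2 := fr_small h.geo c hμ hν hpn (h.geo.Dy _ hpn h1)
  exact ⟨fun l hl => h2.2.1 l (Int.natAbs_dvd.mpr hl), fun l hl => h2.2.2.2 l (Int.natAbs_dvd.mpr hl)⟩

private theorem g5_D (h : S.H73 T M W0 δ0 δ1 Z V Cd) {P : ℕ} (hp : P.Prime) (hy : T.y0 < P) : ¬ P ∣ T.D := by
  intro h2
  have := h.geo.Dy P hp h2
  omega

private theorem g5_pos (h : S.H73 T M W0 δ0 δ1 Z V Cd) : (0 : ℝ) < T.y0 ∧ (0 : ℝ) < T.D ∧ 1 ≤ V := by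
  have h1 := h.geo.y1
  have h2 := h.geo.D0
  exact ⟨by exact_mod_cast (by omega : 0 < T.y0), by exact_mod_cast h2, h.geo.V1⟩

private theorem g5_Wfull (h : S.H73 T M W0 δ0 δ1 Z V Cd) : M.tot = M.W * S.full M.hX M.hY ∧ 0 ≤ M.W * S.full M.hX M.hY :=
  ⟨rfl, mul_nonneg h.ok.W_pos.le (full_nonneg h.geo)⟩

private theorem g5_ub1 (h : S.H73 T M W0 δ0 δ1 Z V Cd) {m c1 c2 : ℝ} (hm : m ≤ c1 * S.full M.hX M.hY)
    (hc : c1 ≤ c2) :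
    M.W * m + S.MX.card * S.MY.card * M.err T δ1 ≤ c2 * M.tot + S.MX.card * S.MY.card * M.err T δ1 := by
  obtain ⟨h4, h5⟩ := g5_Wfull h
  rw [h4]
  have h6 : M.W * m ≤ M.W * (c1 * S.full M.hX M.hY) := mul_le_mul_of_nonneg_left hm h.ok.W_pos.le
  have h7 : M.W * (c1 * S.full M.hX M.hY) = c1 * (M.W * S.full M.hX M.hY) := by ring
  have h8 := mul_le_mul_of_nonneg_right hc h5
  linarith

private theorem g5_mass0 : S.mass M.hX M.hY (fun _ _ => False) = 0 := by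
  unfold MS.mass
  simp

private theorem g5_RI (c : S.Col) {μ : S.TX} {ν : S.TY} {p : ℤ} (hp : Prime p) (hF : S.Fr T.N c μ ν p) (i : ℕ) :
    ¬ p ∣ S.RI T.N c μ ν i := by
  intro hd
  rw [MS.RI, Rs] at hd
  rcases hp.dvd_or_dvd hd with h4 | h4
  · exact hF.2.2.2 i h4
  · rw [hp.dvd_finsetProd_iff] at h4
    obtain ⟨l, hl1, hl2⟩ := h4
    rcases hp.dvd_or_dvd hl2 with h5 | h5
    · exact hF.2.2.2 l h5
    · exact hF.2.1 (l - 1) h5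

/-- the mass of the pairs with `q ∣ SI`, `p ∣ GzI f` -/
private theorem g5_mass (h : S.H73 T M W0 δ0 δ1 Z V Cd) (c : S.Col) {p q : ℕ} (hp : p.Prime) (hy : T.y0 < p) (hq : 0 < q)
    {f : ℕ × Bool × ℤ} (hf : f ∈ T.Fs S.k) (h0 : f.1 = 0 → f.2.1 = false)
    (hqR : ∀ μ ∈ S.MX, ∀ ν ∈ S.MY, ¬ p ∣ S.prX id μ * S.prY id ν → IsCoprime ((q : ℕ) : ℤ) (S.RI T.N c μ ν 0)) :
    S.mass M.hX M.hY (fun μ ν => ¬ p ∣ S.prX id μ * S.prY id ν ∧ q ∣ S.SI T.N c μ ν ∧ ((p : ℕ) : ℤ) ∣ S.GzI T c μ ν f) ≤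
      V ^ 2 * (1 / q + 1 / Z 0) * (1 / p + 1 / Z S.k) * S.full M.hX M.hY := by
  obtain ⟨hi, -, hh⟩ := Fs_facts h.geo hf
  obtain ⟨hh1, hh2⟩ := hh p hp hy
  have hpi : Prime ((p : ℕ) : ℤ) := Nat.prime_iff_prime_int.mp hp
  have hk1 := h.geo.k1
  rcases Nat.lt_or_ge f.1 S.k with hik | hik
  · refine S7F2 h.geo c (q := fun _ _ => q) (P := fun _ _ => p) (g5_Invc q) (g5_Invc p) hq hp.pos hik le_rfl h0 _
      (fun μ hμ ν hν hE => ?_)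
    obtain ⟨hm, hS, hG⟩ := hE
    have hF := fr_of_not_dvd h.geo c hμ hν hp hm
    refine ⟨⟨hS, hqR μ hμ ν hν hm, le_rfl⟩, hp, le_rfl, ⟨hG, hh1⟩, fun hk => absurd hk (lt_irrefl _), fun l _ => hF.1 l,
      fun l _ => hF.2.2.1 l, fun l _ hd => ?_⟩
    rcases hpi.dvd_or_dvd hd with h3 | h3
    · exact hF.2.2.2 l h3
    · exact hF.2.1 _ h3
  · have hik' : f.1 = S.k := by omega
    have hGz : ∀ {μ : S.TX} {ν : S.TY}, S.GzI T c μ ν f = T.h * (if f.2.1 = true then aI μ.1 S.k else 1) -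
        f.2.2 * (if f.2.1 = true then aI ν.1 S.k else 1) := by
      intro μ ν
      have h4 := G_top (S.AI T.N c μ ν) (S.BI T.N c μ ν) (aI μ.1) (aI ν.1) (n := S.k + 1) (by omega)
      rw [Nat.add_sub_cancel] at h4
      rw [MS.GzI, Gz, hik', h4, Rt, Ico_self, prod_empty, mul_one, mul_one, Int.cast_id]
    refine S7F2w h.geo c (q := fun _ _ => q) (P := fun _ _ => p) (g5_Invc q) (g5_Invc p) hq hp.pos hk1 le_rfl f.2.2 _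
      (fun μ hμ ν hν hE => ?_)
    obtain ⟨hm, hS, hG⟩ := hE
    refine ⟨⟨hS, hqR μ hμ ν hν hm, le_rfl⟩, hp, le_rfl, ?_, hh1⟩
    rw [hGz] at hG
    by_cases hb : f.2.1 = true
    · rw [if_pos hb, if_pos hb] at hG
      exact hG
    · rw [if_neg hb, if_neg hb, mul_one, mul_one] at hG
      exact absurd hG hh2

theorem G5_L (h : S.H73 T M W0 δ0 δ1 Z V Cd) {c : S.Col} (hc : c ∈ S.CC) {p : ℕ} (hp : p ∈ T.PL) {f : ℕ × Bool × ℤ} (hf : f ∈ T.Fs S.k) :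
    M.cnt (fun μ ν n => M.Bs T Cd c μ ν n ∧ ¬ p ∣ S.prX id μ * S.prY id ν ∧ p ∣ S.SI T.N c μ ν ∧ (p : ℤ) ∣ S.fI T c μ ν (M.X μ ν n) f) ≤
      4 * V ^ 2 / ((p : ℝ) ^ 2 * T.D) * M.tot + S.MX.card * S.MY.card * M.err T δ1 := by
  have hg0 := h.geo
  obtain ⟨hi, -, hh⟩ := Fs_facts hg0 hf
  obtain ⟨hy0, hD0, hV⟩ := g5_pos h
  have hpP : p.Prime ∧ T.y0 < p ∧ p ≤ T.z := by
    simp only [Dat.PL, mem_filter, mem_range] at hp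
    exact ⟨hp.2.1, hp.2.2, by omega⟩
  obtain ⟨hpp, hy, hz⟩ := hpP
  have hpi : Prime ((p : ℕ) : ℤ) := Nat.prime_iff_prime_int.mp hpp
  have hp0 : (0 : ℝ) < p := by exact_mod_cast hpp.pos
  have hGI : ∀ μ ∈ S.MX, ∀ ν ∈ S.MY, ∀ n, (M.Bs T Cd c μ ν n ∧ ¬ p ∣ S.prX id μ * S.prY id ν ∧
      p ∣ S.SI T.N c μ ν ∧ (p : ℤ) ∣ S.fI T c μ ν (M.X μ ν n) f) → ((p : ℕ) : ℤ) ∣ S.GzI T c μ ν f := by
    intro μ hμ ν hν n hE
    obtain ⟨hB, hm, hS, ht⟩ := hE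
    obtain ⟨hcop, -, -, -, -, hF⟩ := Bs_facts h hc hμ hν hB
    have hFr := fr_of_not_dvd hg0 c hμ hν hpp hm
    have h2 : ((p : ℕ) : ℤ) ∣ SmR (S.AI T.N c μ ν) (S.BI T.N c μ ν) (aI μ.1) (aI ν.1) (S.k + 1) := by
      rw [← SI_eq hg0 c hμ hν]
      exact Int.natCast_dvd_natCast.mpr hS
    exact FI_Gz c μ ν hi hpi (Dvd.dvd.mul_left h2 _) (fun hd => g5_D h hpp hy (by exact_mod_cast hd))
      (fun l _ => hFr.1 l) (fun l _ => hFr.2.2.1 l) (ht.trans (hF f hi))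
  by_cases h00 : f.1 = 0 ∧ f.2.1 = true
  · have h1 := cnt_le h (fun μ ν n => M.Bs T Cd c μ ν n ∧ ¬ p ∣ S.prX id μ * S.prY id ν ∧ p ∣ S.SI T.N c μ ν ∧
        (p : ℤ) ∣ S.fI T c μ ν (M.X μ ν n) f) (fun _ _ => False)
      (fun μ hμ ν hν n hO hE => ⟨hE.1.1, by
        have h2 := hGI μ hμ ν hν n hE
        have hFr := fr_of_not_dvd hg0 c hμ hν hpp hE.2.1
        have h3 : ((p : ℕ) : ℤ) ∣ SmR (S.AI T.N c μ ν) (S.BI T.N c μ ν) (aI μ.1) (aI ν.1) (S.k + 1) := by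
          rw [← SI_eq hg0 c hμ hν]
          exact Int.natCast_dvd_natCast.mpr hE.2.2.1
        rw [Sm_Hs, Hs_G _ _ _ _ (Nat.succ_pos S.k)] at h3
        rw [MS.GzI, Gz, h00.1, if_pos h00.2, if_pos h00.2, ← Rs_eq, Int.cast_id] at h2
        have h4 := dvd_sub h2 (Dvd.dvd.mul_left h3 T.h)
        rw [show T.h * (aI μ.1 0 * Gs (S.k + 1) (S.AI T.N c μ ν) (S.BI T.N c μ ν) (aI μ.1) (aI ν.1) 0) -
          f.2.2 * Rs (S.k + 1) (S.BI T.N c μ ν) (aI ν.1) 0 - T.h * (aI μ.1 0 * Gs (S.k + 1) (S.AI T.N c μ ν) (S.BI T.N c μ ν) (aI μ.1) (aI ν.1) 0 -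
          Rs (S.k + 1) (S.BI T.N c μ ν) (aI ν.1) 0) = (T.h - f.2.2) * Rs (S.k + 1) (S.BI T.N c μ ν) (aI ν.1) 0 from by ring] at h4
        rcases hpi.dvd_or_dvd h4 with h5 | h5
        · exact (hh p hpp hy).2 h5
        · exact g5_RI c hpi hFr 0 h5⟩)
    refine h1.trans ?_
    rw [g5_mass0]
    refine g5_ub1 h (c1 := 0) (by rw [zero_mul]) ?_
    positivity
  have h0 : f.1 = 0 → f.2.1 = false := by
    intro h3
    by_contra h4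
    rw [Bool.not_eq_false] at h4
    exact h00 ⟨h3, h4⟩
  have h1 := cnt_le h (fun μ ν n => M.Bs T Cd c μ ν n ∧ ¬ p ∣ S.prX id μ * S.prY id ν ∧ p ∣ S.SI T.N c μ ν ∧
      (p : ℤ) ∣ S.fI T c μ ν (M.X μ ν n) f)
    (fun μ ν => ¬ p ∣ S.prX id μ * S.prY id ν ∧ p * T.D ∣ S.SI T.N c μ ν ∧ ((p : ℕ) : ℤ) ∣ S.GzI T c μ ν f)
    (fun μ hμ ν hν n hO hE => ⟨hE.1.1, hE.2.1,
      Nat.Coprime.mul_dvd_of_dvd_of_dvd ((Nat.Prime.coprime_iff_not_dvd hpp).mpr (g5_D h hpp hy)) hE.2.2.1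
        (Bs_facts h hc hμ hν hE.1).2.1, hGI μ hμ ν hν n hE⟩)
  refine h1.trans ?_
  have h2 := g5_mass h c (q := p * T.D) hpp hy (Nat.mul_pos hpp.pos hg0.D0) hf h0
    (fun μ hμ ν hν hm => by
      push_cast
      refine IsCoprime.mul_left ?_ (g5_copD h c hμ hν)
      have hFr := fr_of_not_dvd hg0 c hμ hν hpp hm
      exact (Prime.coprime_iff_not_dvd hpi).mpr (g5_RI c hpi hFr 0))
  refine g5_ub1 h h2 ?_
  have hZ : ∀ j ≤ S.k, 1 / (Z j : ℝ) ≤ 1 / (p * T.D) := by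
    intro j hj
    have h3 := hg0.zZ j hj
    have h4 : p * T.D ≤ Z j := (Nat.mul_le_mul_right _ hz).trans h3
    exact one_div_le_one_div_of_le (by positivity) (by exact_mod_cast h4)
  have hZ0 := hZ 0 (Nat.zero_le _)
  have hZk : 1 / (Z S.k : ℝ) ≤ 1 / p := by
    refine (hZ S.k le_rfl).trans ?_
    apply one_div_le_one_div_of_le hp0
    have : (1 : ℝ) ≤ T.D := by exact_mod_cast hg0.D0
    nlinarith
  push_cast
  calc V ^ 2 * (1 / ((p : ℝ) * T.D) + 1 / Z 0) * (1 / (p : ℝ) + 1 / Z S.k)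
      ≤ V ^ 2 * (1 / ((p : ℝ) * T.D) + 1 / (p * T.D)) * (1 / (p : ℝ) + 1 / p) := by gcongr
    _ = 4 * V ^ 2 / ((p : ℝ) ^ 2 * T.D) := by field_simp; ring

end Pool.Agent.Lib.TT3
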