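import Pool.Agent.Lib.MP_092512_nt.TT.P.D3
import Pool.Agent.Lib.MP_092512_nt.TT.P.G3
import Pool.Agent.Lib.MP_092512_nt.TT.C.S7G2
import Pool.Agent.Lib.MP_092512_nt.TT.C.S7G0
import Pool.Agent.Lib.MP_092512_nt.TT.C.S7F1
import Pool.Agent.Lib.MP_092512_nt.TT.C.S7B2
import Pool.Agent.Lib.MP_092512_nt.TT.C.U15
import Pool.Agent.Lib.MP_092512_nt.TT.C.S7G4
import Pool.Agent.Lib.MP_092512_nt.TT.C.S7G7
import Pool.Agent.Lib.MP_092512_nt.TT.C.S7G8
import Pool.Agent.Lib.MP_092512_nt.TT.P.S7G2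
import Pool.Agent.Lib.MP_092512_nt.TT.P.S7G3
import Pool.Agent.Lib.MP_092512_nt.TT.P.S7G4
import Pool.Agent.Lib.MP_092512_nt.TT.P.S7G5
import Pool.Agent.Lib.MP_092512_nt.TT.P.S7G8

/-!
# S7M (TT): section 7, the bound for the forbidden primes

If `LL` fails, `fm = 0`; so the sum is over the triples with `Bs` (`Om = 0` gives nothing). Insert `fm_le` (S7G8) and exchange the sums: every term is `cnt` of one of the sets bounded in S7G1 – S7G5, `F` = number of the forms: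
marks of `X`: `≤ K` of them: `2 G1_X + F (k+3) ub` (`G3`); marks of `Y`: `2 (k+1) ub + F (k+3) ub` (`G2`, `G4`);
windows `3 (k+1) ub` (`G1_WX`, `G1_WY`); `PL`: `F ∑_{p > y0} (4 V²/(p² D) tot + |MX| |MY| err) ≤ F (ub + z |MX| |MY| err)` (`∑_{n > y0} 1/n² ≤ 1/y0`, `|PL| ≤ z`).
Sum: `≤ (K (2 + F (k+3)) + K (2(k+1) + F (k+3)) + 3(k+1) + F) ub + … ≤ 20 (k+2) F K ub + F z |MX| |MY| err` (`k + 1 ≤ F`).
-/

set_option autoImplicit false

open Finset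

namespace Pool.Agent.Lib.TT3

open Pool.Agent.Lib.TTC

variable {S : MS} {T : Dat} {M : Msr S} {W0 : ℕ} {δ0 δ1 : ℝ} {Z : ℕ → ℕ} {V : ℝ} {Cd : S.TX → S.TY → ℕ → Prop}

private theorem m7_Bs {c : S.Col} {μ : S.TX} {ν : S.TY} {n : ℕ} (hn : ¬ M.Bs T Cd c μ ν n) (ha : M.adm μ ν) (hC : Cd μ ν n) :
    M.Om μ ν n * M.fm T c μ ν (M.X μ ν n) = 0 := by
  classical
  by_cases hO : M.Om μ ν n = 0
  · rw [hO, zero_mul]
  · have hLL : ¬ S.LL T c μ ν (M.X μ ν n) := fun h => hn ⟨ha, hO, hC, h⟩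
    have : M.fm T c μ ν (M.X μ ν n) = 0 := by
      unfold Msr.fm
      rw [if_neg hLL]
    rw [this, mul_zero]

private theorem m7_add (E : S.TX → S.TY → ℕ → Prop) (f g : S.TX → S.TY → ℕ → ℝ) :
    M.cntf E (fun μ ν n => f μ ν n + g μ ν n) = M.cntf E f + M.cntf E g := by
  unfold Msr.cntf
  simp only [← sum_add_distrib]
  refine sum_congr rfl fun μ _ => sum_congr rfl fun ν _ => sum_congr rfl fun n _ => ?_
  split_ifs
  · ring
  · ring

private theorem m7_mul (E : S.TX → S.TY → ℕ → Prop) (a : ℝ) (f : S.TX → S.TY → ℕ → ℝ) :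
    M.cntf E (fun μ ν n => a * f μ ν n) = a * M.cntf E f := by
  unfold Msr.cntf
  simp only [mul_sum]
  refine sum_congr rfl fun μ _ => sum_congr rfl fun ν _ => sum_congr rfl fun n _ => ?_
  split_ifs
  · ring
  · ring

private theorem m7_sum (E : S.TX → S.TY → ℕ → Prop) {ι : Type*} (s : Finset ι) (f : ι → S.TX → S.TY → ℕ → ℝ) :
    M.cntf E (fun μ ν n => ∑ i ∈ s, f i μ ν n) = ∑ i ∈ s, M.cntf E (f i) := by
  unfold Msr.cntf
  symm
  rw [sum_comm]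
  refine sum_congr rfl fun μ _ => ?_
  rw [sum_comm]
  refine sum_congr rfl fun ν _ => ?_
  rw [sum_comm]
  refine sum_congr rfl fun n _ => ?_
  split_ifs
  · rw [mul_sum]
  · rw [sum_const_zero]

private theorem m7_ind (E Q : S.TX → S.TY → ℕ → Prop) :
    M.cntf E (fun μ ν n => ind (Q μ ν n)) = M.cnt (fun μ ν n => E μ ν n ∧ Q μ ν n) := by
  unfold Msr.cntf Msr.cnt ind
  refine sum_congr rfl fun μ _ => sum_congr rfl fun ν _ => sum_congr rfl fun n _ => ?_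
  by_cases h1 : E μ ν n
  · by_cases h2 : Q μ ν n
    · simp [h1, h2]
    · simp [h1, h2]
  · simp [h1]

private theorem m7_sq (a b : ℕ) (ha : 0 < a) : ∑ p ∈ Ioc a b, 1 / ((p : ℝ) ^ 2) ≤ 1 / (a : ℝ) := by
  have key : ∀ b : ℕ, a ≤ b → ∑ p ∈ Ioc a b, 1 / ((p : ℝ) ^ 2) ≤ 1 / (a : ℝ) - 1 / (b : ℝ) := by
    intro b hb
    induction b, hb using Nat.le_induction with
    | base => simp
    | succ b hb ih =>
      rw [Finset.sum_Ioc_succ_top hb]
      have hb0 : (0 : ℝ) < b := by exact_mod_cast (lt_of_lt_of_le ha hb)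
      have h1 : 1 / (((b + 1 : ℕ) : ℝ) ^ 2) ≤ 1 / (b : ℝ) - 1 / ((b + 1 : ℕ) : ℝ) := by
        push_cast
        rw [div_sub_div _ _ hb0.ne' (by positivity), div_le_div_iff₀ (by positivity) (by positivity)]
        nlinarith
      linarith
  rcases le_or_gt a b with h | h
  · have h1 := key b h
    have h2 : (0 : ℝ) ≤ 1 / (b : ℝ) := by positivity
    linarith
  · rw [Ioc_eq_empty (by omega), sum_empty]
    positivity

private theorem m7_F (T : Dat) (k : ℕ) : (T.Fs k).card = T.F k ∧ k + 1 ≤ T.F k := by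
  have h1 : (T.Fs k).card = T.F k := by
    unfold Dat.Fs Dat.F
    rw [card_product, card_range]
  refine ⟨h1, ?_⟩
  have h2 : 0 < T.Js.card := card_pos.mpr ⟨(false, 0), mem_insert_self _ _⟩
  unfold Dat.F
  exact Nat.le_mul_of_pos_right _ h2

open Classical in
theorem S7_one (h : S.H73 T M W0 δ0 δ1 Z V Cd) {c : S.Col} (hc : c ∈ S.CC)
    (hK : 1 ≤ Real.log T.N) (hX : ((S.n0 + S.nX : ℕ) : ℝ) ≤ Real.log T.N) (hY : ((S.n0 + S.nY : ℕ) : ℝ) ≤ Real.log T.N) :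
    ∑ μ ∈ S.MX, ∑ ν ∈ S.MY, ∑ n ∈ range (M.nm + 1), (if M.adm μ ν ∧ Cd μ ν n then M.Om μ ν n * M.fm T c μ ν (M.X μ ν n) else 0) ≤
      20 * (S.k + 2) * T.F S.k * Real.log T.N * M.ub T V δ1 + T.F S.k * T.z * (S.MX.card * S.MY.card * M.err T δ1) := by
  have hg := h.geo
  set K := Real.log T.N with hKd
  set k : ℝ := (S.k : ℝ) with hk
  have hk1 : (1 : ℝ) ≤ k := by rw [hk]; exact_mod_cast hg.k1
  obtain ⟨hFc, hFk⟩ := m7_F T S.k
  set F : ℝ := ((T.F S.k : ℕ) : ℝ) with hF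
  have hkF : k + 1 ≤ F := by rw [hk, hF]; exact_mod_cast hFk
  have hF0 : 0 ≤ F := by linarith
  have hful : 0 ≤ S.full M.hX M.hY := full_nonneg hg
  have htot : 0 ≤ M.tot := mul_nonneg h.ok.W_pos.le hful
  have herr : 0 ≤ M.err T δ1 := by
    unfold Msr.err
    exact mul_nonneg (Real.rpow_nonneg (Nat.cast_nonneg _) _) h.ok.W_pos.le
  set A : ℝ := S.MX.card * S.MY.card * M.err T δ1 with hA
  have hA0 : 0 ≤ A := by positivity
  have hy1 : (1 : ℝ) ≤ T.y0 := by exact_mod_cast hg.y1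
  have hD1 : (1 : ℝ) ≤ T.D := by exact_mod_cast hg.D0
  have hV := hg.V1
  set u := M.ub T V δ1 with hu
  have hu' : u = 8 * V ^ 2 / (T.y0 * T.D) * M.tot + A := rfl
  have hm0 : 0 ≤ 8 * V ^ 2 / ((T.y0 : ℝ) * T.D) * M.tot := by positivity
  have hu0 : 0 ≤ u := by rw [hu']; positivity
  set Bs : S.TX → S.TY → ℕ → Prop := fun μ ν n => M.Bs T Cd c μ ν n with hBs
  -- first step
  have h1 : ∑ μ ∈ S.MX, ∑ ν ∈ S.MY, ∑ n ∈ range (M.nm + 1), (if M.adm μ ν ∧ Cd μ ν n then M.Om μ ν n * M.fm T c μ ν (M.X μ ν n) else 0) ≤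
      M.cntf Bs (fun μ ν n =>
      (∑ e : S.NX, (2 * ind (S.vX μ e ∣ S.SI T.N c μ ν) +
        ∑ f ∈ T.Fs S.k, ind (¬ S.vX μ e ∣ S.SI T.N c μ ν ∧ ((S.vX μ e : ℕ) : ℤ) ∣ S.fI T c μ ν (M.X μ ν n) f))) +
      (∑ e : S.NY, (2 * ind (S.vY ν e ∣ S.SI T.N c μ ν) +
        ∑ f ∈ T.Fs S.k, ind (¬ S.vY ν e ∣ S.SI T.N c μ ν ∧ ((S.vY ν e : ℕ) : ℤ) ∣ S.fI T c μ ν (M.X μ ν n) f))) +
      (∑ j : Fin (S.k + 1), (ind (μ.1 j ∣ S.SI T.N c μ ν) + ind ((ν.1 j).minFac.Prime ∧ (ν.1 j).minFac ∣ ν.1 j ∧ (ν.1 j).minFac ∣ S.SI T.N c μ ν) +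
        ind ((ν.1 j / (ν.1 j).minFac).Prime ∧ ν.1 j / (ν.1 j).minFac ∣ ν.1 j ∧ ν.1 j / (ν.1 j).minFac ∣ S.SI T.N c μ ν))) +
      (∑ p ∈ T.PL, ∑ f ∈ T.Fs S.k,
        ind (¬ p ∣ S.prX id μ * S.prY id ν ∧ p ∣ S.SI T.N c μ ν ∧ (p : ℤ) ∣ S.fI T c μ ν (M.X μ ν n) f))) := by
    unfold Msr.cntf
    refine sum_le_sum fun μ hμ => sum_le_sum fun ν hν => sum_le_sum fun n _ => ?_
    by_cases hB : M.Bs T Cd c μ ν n
    · rw [if_pos ⟨hB.1, hB.2.2.1⟩, if_pos (show Bs μ ν n from hB)]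
      exact mul_le_mul_of_nonneg_left (fm_le h hμ hν hB) (h.ok.Om_nonneg μ ν n)
    · rw [if_neg (show ¬ Bs μ ν n from hB)]
      split_ifs with hac
      · exact (m7_Bs hB hac.1 hac.2).le
      · exact le_rfl
  refine h1.trans ?_
  rw [m7_add, m7_add, m7_add]
  have c3 : M.cntf Bs (fun μ ν n => ∑ e : S.NX, (2 * ind (S.vX μ e ∣ S.SI T.N c μ ν) +
        ∑ f ∈ T.Fs S.k, ind (¬ S.vX μ e ∣ S.SI T.N c μ ν ∧ ((S.vX μ e : ℕ) : ℤ) ∣ S.fI T c μ ν (M.X μ ν n) f))) ≤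
      K * (2 * u + F * ((k + 3) * u)) := by
    rw [m7_sum]
    calc _ ≤ ∑ e : S.NX, (2 * u + F * ((k + 3) * u)) := by
          refine sum_le_sum fun e _ => ?_
          rw [m7_add, m7_mul, m7_sum, m7_ind Bs (fun μ ν _ => S.vX μ e ∣ S.SI T.N c μ ν)]
          refine add_le_add (mul_le_mul_of_nonneg_left (G1_X h hc e) (by norm_num)) ?_
          calc _ ≤ ∑ f ∈ T.Fs S.k, (k + 3) * u := by
                refine sum_le_sum fun f hf => ?_
                rw [m7_ind Bs (fun μ ν n => ¬ S.vX μ e ∣ S.SI T.N c μ ν ∧ ((S.vX μ e : ℕ) : ℤ) ∣ S.fI T c μ ν (M.X μ ν n) f)]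
                exact G3 h hc e hf
            _ = F * ((k + 3) * u) := by rw [sum_const, nsmul_eq_mul, hFc]
      _ = ((S.n0 + S.nX : ℕ) : ℝ) * (2 * u + F * ((k + 3) * u)) := by
          rw [sum_const, nsmul_eq_mul, card_univ, Fintype.card_sum, Fintype.card_fin, Fintype.card_fin]
      _ ≤ K * (2 * u + F * ((k + 3) * u)) := mul_le_mul_of_nonneg_right hX (by positivity)
  have c4 : M.cntf Bs (fun μ ν n => ∑ e : S.NY, (2 * ind (S.vY ν e ∣ S.SI T.N c μ ν) +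
        ∑ f ∈ T.Fs S.k, ind (¬ S.vY ν e ∣ S.SI T.N c μ ν ∧ ((S.vY ν e : ℕ) : ℤ) ∣ S.fI T c μ ν (M.X μ ν n) f))) ≤
      K * (2 * ((k + 1) * u) + F * ((k + 3) * u)) := by
    rw [m7_sum]
    calc _ ≤ ∑ e : S.NY, (2 * ((k + 1) * u) + F * ((k + 3) * u)) := by
          refine sum_le_sum fun e _ => ?_
          rw [m7_add, m7_mul, m7_sum, m7_ind Bs (fun μ ν _ => S.vY ν e ∣ S.SI T.N c μ ν)]
          refine add_le_add (mul_le_mul_of_nonneg_left (G2 h hc e) (by norm_num)) ?_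
          calc _ ≤ ∑ f ∈ T.Fs S.k, (k + 3) * u := by
                refine sum_le_sum fun f hf => ?_
                rw [m7_ind Bs (fun μ ν n => ¬ S.vY ν e ∣ S.SI T.N c μ ν ∧ ((S.vY ν e : ℕ) : ℤ) ∣ S.fI T c μ ν (M.X μ ν n) f)]
                exact G4 h hc e hf
            _ = F * ((k + 3) * u) := by rw [sum_const, nsmul_eq_mul, hFc]
      _ = ((S.n0 + S.nY : ℕ) : ℝ) * (2 * ((k + 1) * u) + F * ((k + 3) * u)) := by
          rw [sum_const, nsmul_eq_mul, card_univ, Fintype.card_sum, Fintype.card_fin, Fintype.card_fin]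
      _ ≤ K * (2 * ((k + 1) * u) + F * ((k + 3) * u)) := mul_le_mul_of_nonneg_right hY (by positivity)
  have c5 : M.cntf Bs (fun μ ν _ => ∑ j : Fin (S.k + 1), (ind (μ.1 j ∣ S.SI T.N c μ ν) + ind ((ν.1 j).minFac.Prime ∧ (ν.1 j).minFac ∣ ν.1 j ∧ (ν.1 j).minFac ∣ S.SI T.N c μ ν) +
        ind ((ν.1 j / (ν.1 j).minFac).Prime ∧ ν.1 j / (ν.1 j).minFac ∣ ν.1 j ∧ ν.1 j / (ν.1 j).minFac ∣ S.SI T.N c μ ν))) ≤
      (k + 1) * (3 * u) := by
    rw [m7_sum]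
    calc _ ≤ ∑ j : Fin (S.k + 1), 3 * u := by
          refine sum_le_sum fun j _ => ?_
          rw [m7_add, m7_add, m7_ind Bs (fun μ ν _ => μ.1 j ∣ S.SI T.N c μ ν),
            m7_ind Bs (fun μ ν _ => (ν.1 j).minFac.Prime ∧ (ν.1 j).minFac ∣ ν.1 j ∧ (ν.1 j).minFac ∣ S.SI T.N c μ ν),
            m7_ind Bs (fun μ ν _ => (ν.1 j / (ν.1 j).minFac).Prime ∧ ν.1 j / (ν.1 j).minFac ∣ ν.1 j ∧ ν.1 j / (ν.1 j).minFac ∣ S.SI T.N c μ ν)]
          have e1 := G1_WX h hc j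
          have e2 := G1_WY h hc j (fun ν => (ν.1 j).minFac)
          have e3 := G1_WY h hc j (fun ν => ν.1 j / (ν.1 j).minFac)
          linarith
      _ = (k + 1) * (3 * u) := by rw [sum_const, nsmul_eq_mul, card_univ, Fintype.card_fin, hk]; push_cast; ring
  have c6 : M.cntf Bs (fun μ ν n => ∑ p ∈ T.PL, ∑ f ∈ T.Fs S.k,
        ind (¬ p ∣ S.prX id μ * S.prY id ν ∧ p ∣ S.SI T.N c μ ν ∧ (p : ℤ) ∣ S.fI T c μ ν (M.X μ ν n) f)) ≤
      F * u + F * T.z * A := by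
    rw [m7_sum]
    have hPL : ∀ p ∈ T.PL, T.y0 < p ∧ p ≤ T.z := fun p hp => by
      simp only [Dat.PL, mem_filter, mem_range] at hp
      exact ⟨hp.2.2, by omega⟩
    have hz1 : (1 : ℝ) ≤ T.z := by exact_mod_cast (le_trans hg.y1 hg.yz)
    calc _ ≤ ∑ p ∈ T.PL, F * (4 * V ^ 2 / ((p : ℝ) ^ 2 * T.D) * M.tot + A) := by
          refine sum_le_sum fun p hp => ?_
          rw [m7_sum]
          calc _ ≤ ∑ f ∈ T.Fs S.k, (4 * V ^ 2 / ((p : ℝ) ^ 2 * T.D) * M.tot + A) := by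
                refine sum_le_sum fun f hf => ?_
                rw [m7_ind Bs (fun μ ν n => ¬ p ∣ S.prX id μ * S.prY id ν ∧ p ∣ S.SI T.N c μ ν ∧ (p : ℤ) ∣ S.fI T c μ ν (M.X μ ν n) f)]
                exact G5_L h hc hp hf
            _ = F * (4 * V ^ 2 / ((p : ℝ) ^ 2 * T.D) * M.tot + A) := by rw [sum_const, nsmul_eq_mul, hFc]
      _ ≤ ∑ p ∈ Ioc T.y0 T.z, F * (4 * V ^ 2 / ((p : ℝ) ^ 2 * T.D) * M.tot + A) := by
          refine sum_le_sum_of_subset_of_nonneg ?_ fun p _ _ => by positivity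
          intro p hp
          rw [mem_Ioc]
          exact hPL p hp
      _ = F * (4 * V ^ 2 / T.D * M.tot * (∑ p ∈ Ioc T.y0 T.z, 1 / ((p : ℝ) ^ 2)) + ((Ioc T.y0 T.z).card : ℝ) * A) := by
          rw [← mul_sum, sum_add_distrib, sum_const, nsmul_eq_mul, mul_sum]
          congr 2
          refine sum_congr rfl fun p hp => ?_
          rw [mem_Ioc] at hp
          have hp0 : (0 : ℝ) < p := by
            have : 0 < p := lt_of_le_of_lt (Nat.zero_le _) hp.1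
            exact_mod_cast this
          have hD0 : (0 : ℝ) < T.D := by linarith
          field_simp
      _ ≤ F * (4 * V ^ 2 / T.D * M.tot * (1 / T.y0) + T.z * A) := by
          refine mul_le_mul_of_nonneg_left (add_le_add ?_ ?_) hF0
          · exact mul_le_mul_of_nonneg_left (m7_sq _ _ hg.y1) (by positivity)
          · refine mul_le_mul_of_nonneg_right ?_ hA0
            rw [Nat.card_Ioc]
            exact_mod_cast Nat.sub_le _ _
      _ ≤ F * u + F * T.z * A := by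
          have e1 : 4 * V ^ 2 / T.D * M.tot * (1 / T.y0) ≤ 8 * V ^ 2 / ((T.y0 : ℝ) * T.D) * M.tot := by
            have e2 : 4 * V ^ 2 / T.D * M.tot * (1 / T.y0) = (4 * V ^ 2 / ((T.y0 : ℝ) * T.D)) * M.tot := by
              have hD0 : (T.D : ℝ) ≠ 0 := by linarith
              have hy0 : (T.y0 : ℝ) ≠ 0 := by linarith
              field_simp
            rw [e2]
            refine mul_le_mul_of_nonneg_right ?_ htot
            exact div_le_div_of_nonneg_right (by nlinarith [sq_nonneg V]) (by positivity)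
          have e3 : 4 * V ^ 2 / T.D * M.tot * (1 / T.y0) ≤ u := by rw [hu']; linarith
          have e4 := mul_le_mul_of_nonneg_left e3 hF0
          nlinarith
  have hKu : 0 ≤ K * u := mul_nonneg (by linarith) hu0
  have hfin : K * (2 * u + F * ((k + 3) * u)) + K * (2 * ((k + 1) * u) + F * ((k + 3) * u)) + (k + 1) * (3 * u) + F * u ≤
      20 * (k + 2) * F * K * u := by
    have huK : u ≤ K * u := by nlinarith
    have e1 : (k + 1) * (3 * u) + F * u ≤ (3 * (k + 1) + F) * (K * u) := by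
      have := mul_le_mul_of_nonneg_left huK (show 0 ≤ 3 * (k + 1) + F by linarith)
      linarith
    have e2 : K * (2 * u + F * ((k + 3) * u)) + K * (2 * ((k + 1) * u) + F * ((k + 3) * u)) + (3 * (k + 1) + F) * (K * u) =
      (2 + 5 * (k + 1) + F * (2 * k + 7)) * (K * u) := by ring
    have e3 : 2 + 5 * (k + 1) + F * (2 * k + 7) ≤ 20 * (k + 2) * F := by
      nlinarith
    have e4 := mul_le_mul_of_nonneg_right e3 hKu
    have e5 : 20 * (k + 2) * F * K * u = 20 * (k + 2) * F * (K * u) := by ring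
    rw [e5]
    linarith
  linarith

open Classical in
theorem S7_main (h : S.H73 T M W0 δ0 δ1 Z V Cd)
    (hK : 1 ≤ Real.log T.N) (hX : ((S.n0 + S.nX : ℕ) : ℝ) ≤ Real.log T.N) (hY : ((S.n0 + S.nY : ℕ) : ℝ) ≤ Real.log T.N) :
    ∑ μ ∈ S.MX, ∑ ν ∈ S.MY, ∑ n ∈ range (M.nm + 1), (if M.adm μ ν ∧ Cd μ ν n then M.Om μ ν n * ∑ c ∈ S.CC, M.fm T c μ ν (M.X μ ν n) else 0) ≤
      S.CC.card * (20 * (S.k + 2) * T.F S.k * Real.log T.N * M.ub T V δ1 + T.F S.k * T.z * (S.MX.card * S.MY.card * M.err T δ1)) := by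
  have hpt : ∀ μ ν n, (if M.adm μ ν ∧ Cd μ ν n then M.Om μ ν n * ∑ c ∈ S.CC, M.fm T c μ ν (M.X μ ν n) else 0) =
      ∑ c ∈ S.CC, (if M.adm μ ν ∧ Cd μ ν n then M.Om μ ν n * M.fm T c μ ν (M.X μ ν n) else 0) := by
    intro μ ν n
    split_ifs
    · rw [mul_sum]
    · simp
  simp only [hpt]
  have hsw : ∀ F : S.TX → S.TY → ℕ → S.Col → ℝ, ∑ μ ∈ S.MX, ∑ ν ∈ S.MY, ∑ n ∈ range (M.nm + 1), ∑ c ∈ S.CC, F μ ν n c =
      ∑ c ∈ S.CC, ∑ μ ∈ S.MX, ∑ ν ∈ S.MY, ∑ n ∈ range (M.nm + 1), F μ ν n c := by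
    intro F
    rw [sum_comm (s := S.CC)]
    refine sum_congr rfl fun μ _ => ?_
    rw [sum_comm (s := S.CC)]
    refine sum_congr rfl fun ν _ => ?_
    rw [sum_comm (s := S.CC)]
  rw [hsw]
  calc _ ≤ ∑ c ∈ S.CC, (20 * (S.k + 2) * T.F S.k * Real.log T.N * M.ub T V δ1 + T.F S.k * T.z * (S.MX.card * S.MY.card * M.err T δ1)) :=
        sum_le_sum fun c hc => S7_one h hc hK hX hY
    _ = _ := by rw [sum_const, nsmul_eq_mul]

end Pool.Agent.Lib.TT3
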