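import Pool.Agent.Lib.MP_092512_nt.TT.P.PN2
import Pool.Agent.Lib.MP_092512_nt.TT.P.P14
import Pool.Agent.Lib.MP_092512_nt.TT.P.Q27

/-!
# PN6: the forbidden primes for the pair

As `TC/QN5d`: `Q27` (`TT3.Q27`) for `M` and for `M'`, `P14`: `3 W' SF + 9 W SF'`, `SF ≤ |CC| (20 (k+2) F K (32 K^6/(y0 D) W tot1 + ..) + ..)` (`y0 D ≤ z` for `N` large by `hz1`), the same for `M'` with `tot1' ≤ 4 tot1` (`P13_tot`); divided by `E02`: `K^(2F + 12)/y0`, `CY ≥ 24 F + B + 40`.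
`N^(-δ1) ≤ m1'`: `hm1`, `N^(δ1/16) ≤ N^δ1`.
-/

set_option autoImplicit false

open Finset

namespace Pool.Agent.Lib.TT3

open Pool.Agent.Lib.TTC

private theorem PN6_num {K D y z X R C m : ℝ} {k B CD CY : ℕ} (hC : 1 ≤ C) (hm : m ≤ C) (hK : 2000 * C ≤ K)
    (hD0 : 0 < D) (hD : D ≤ K ^ CD) (hy : K ^ CY ≤ y) (hz : 1 ≤ z) (hX : 0 < X) (hR : 0 ≤ R)
    (hRz : R * z ≤ X / K ^ (CD + 2 * k + B + 11)) (hCY : 2 * k + B + 14 ≤ CY) :
    C * K * (32 * K ^ 6 / (y * D) * X + R) + m * z * R ≤ 1 / 50 * (X / (D * K ^ (2 * k + B + 6))) := by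
  have hK0 : 0 < K := by linarith
  have hK1 : 1 ≤ K := by linarith
  have hCK : C / K ≤ 1 / 2000 := by
    rw [div_le_div_iff₀ hK0 (by norm_num)]
    linarith
  have hP0 : 0 < X / (D * K ^ (2 * k + B + 6)) := by positivity
  have hy0 : 0 < y := lt_of_lt_of_le (by positivity) hy
  have h1 : C * K * (32 * K ^ 6 / (y * D) * X) ≤ 32 / 2000 * (X / (D * K ^ (2 * k + B + 6))) := by
    have e1 : K ^ (2 * k + B + 14) ≤ y := (pow_le_pow_right₀ hK1 hCY).trans hy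
    calc C * K * (32 * K ^ 6 / (y * D) * X) = 32 * C * K ^ 7 * X / (y * D) := by ring
      _ ≤ 32 * C * K ^ 7 * X / (K ^ (2 * k + B + 14) * D) := by gcongr
      _ = 32 * (C / K) * (X / (D * K ^ (2 * k + B + 6))) := by
          have e2 : K ^ (2 * k + B + 14) = K ^ (2 * k + B + 6) * K ^ 7 * K := by ring
          rw [e2]
          field_simp
      _ ≤ 32 * (1 / 2000) * (X / (D * K ^ (2 * k + B + 6))) := by gcongr
      _ = 32 / 2000 * (X / (D * K ^ (2 * k + B + 6))) := by ring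
  have h2 : C * K * (R * z) ≤ 1 / 2000 * (X / (D * K ^ (2 * k + B + 6))) := by
    calc C * K * (R * z) ≤ C * K * (X / K ^ (CD + 2 * k + B + 11)) := by gcongr
      _ = C / K ^ 4 * (X / (K ^ CD * K ^ (2 * k + B + 6))) := by
          have e2 : K ^ (CD + 2 * k + B + 11) = K ^ CD * K ^ (2 * k + B + 6) * K ^ 5 := by ring
          rw [e2]
          field_simp
      _ ≤ C / K * (X / (D * K ^ (2 * k + B + 6))) := by
          gcongr
          exact le_self_pow₀ hK1 (by norm_num)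
      _ ≤ 1 / 2000 * (X / (D * K ^ (2 * k + B + 6))) := by gcongr
  have h3 : C * K * R ≤ C * K * (R * z) := by
    have e1 : R ≤ R * z := by nlinarith
    gcongr
  have h4 : m * z * R ≤ C * K * (R * z) := by
    have e1 : 0 ≤ R * z := by positivity
    have e2 : m ≤ C * K := by nlinarith
    calc m * z * R = m * (R * z) := by ring
      _ ≤ C * K * (R * z) := mul_le_mul_of_nonneg_right e2 e1
  rw [mul_add]
  linarith

private theorem PN6_ev (A : ℕ) : ∀ᶠ N : ℕ in Filter.atTop,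
    (Real.log N) ^ A ≤ Real.exp (Real.log N / (Real.log (Real.log N)) ^ 2) := by
  have h1 : ∀ᶠ x : ℝ in Filter.atTop, ‖Real.log x ^ 3‖ ≤ 1 / ((A : ℝ) + 1) * ‖(id x : ℝ)‖ :=
    (Real.isLittleO_pow_log_id_atTop (n := 3)).def (by positivity)
  have h2 : ∀ᶠ x : ℝ in Filter.atTop, x ^ A ≤ Real.exp (x / (Real.log x) ^ 2) := by
    filter_upwards [h1, Filter.eventually_ge_atTop (Real.exp 1)] with x hx hx2
    have hxe : 0 < x := lt_of_lt_of_le (Real.exp_pos 1) hx2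
    have hl : 1 ≤ Real.log x := (Real.le_log_iff_exp_le hxe).2 hx2
    have hl0 : 0 < Real.log x := by linarith
    rw [Real.norm_of_nonneg (by positivity), id, Real.norm_of_nonneg hxe.le, one_div, inv_mul_eq_div,
      le_div_iff₀ (by positivity)] at hx
    have h3 : (A : ℝ) * Real.log x ≤ x / (Real.log x) ^ 2 := by
      rw [le_div_iff₀ (by positivity)]
      have h4 : (A : ℝ) * Real.log x * Real.log x ^ 2 = Real.log x ^ 3 * A := by ring
      rw [h4]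
      have h5 : 0 < Real.log x ^ 3 := by positivity
      nlinarith
    calc x ^ A = Real.exp ((A : ℝ) * Real.log x) := by
          rw [mul_comm, Real.exp_mul, Real.exp_log hxe, Real.rpow_natCast]
      _ ≤ Real.exp (x / (Real.log x) ^ 2) := Real.exp_le_exp.2 h3
  exact (Real.tendsto_log_atTop.comp tendsto_natCast_atTop_atTop).eventually h2

theorem PN6 (c : PC) (hc : c.OK2) : ∃ N0 : ℕ, ∀ (S : MS) (T : Dat) (M M' : Msr S) (W0 : ℕ) (Z : Fin (S.k + 1) → ℕ) (p1 Q0 pb : ℕ) (η : ℝ),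
    PH2 c S T M M' W0 Z p1 Q0 pb η → N0 ≤ T.N →
    ∑ μ ∈ S.MX, ∑ ν ∈ S.MY, ind (M.gp2 M' T μ ν) * M.S2 M' μ ν (fun n n' => ind (M.Cd T μ ν n) * ind (M'.Cd T μ ν n') *
      ∑ x ∈ S.CC, (M.fm T x μ ν (M.X μ ν n) + M'.fm T x μ ν (M'.X μ ν n'))) ≤
    E02 S T * (M.W * M'.W * M.tot1 / (Real.log T.N) ^ (c.B + 2)) := by
  set E : ℕ := c.CD + 2 * c.F + c.B + 11 with hE
  obtain ⟨N1, hN1⟩ := QN4 c hc.toOK E
  obtain ⟨N2, hN2⟩ := Filter.eventually_atTop.1 (PN6_ev (c.CY + 1 + c.CD))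
  set C : ℝ := 20 * ((c.k : ℝ) + 2) * (c.F : ℝ) with hCdef
  refine ⟨N1 + N2 + ⌈Real.exp (2000 * C)⌉₊ + 3, ?_⟩
  intro S T M M' W0 Z p1 Q0 pb η hP hN
  have h := hP.h
  have h' := hP.h'
  obtain ⟨a1, -, -, -, -, a2⟩ := hN1 S T M W0 Z p1 Q0 pb η h (by omega)
  obtain ⟨b1, -, -, -, -, b2⟩ := hN1 S T M' W0 Z p1 Q0 pb η h' (by omega)
  have hev := hN2 T.N (by omega)
  have hk := h.hk
  have hkr : (S.k : ℝ) = c.k := by exact_mod_cast hk
  have hF := h.hF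
  have hFr : ((T.F S.k : ℕ) : ℝ) = c.F := by exact_mod_cast hF
  have hF1 : (1 : ℝ) ≤ c.F := by
    have e0 := hc.kF
    exact_mod_cast (by omega : 1 ≤ c.F)
  have hC1 : 1 ≤ C := by
    have e1 : (0 : ℝ) ≤ c.k := Nat.cast_nonneg _
    rw [hCdef]
    nlinarith
  have hNpos : (0 : ℝ) < T.N := by exact_mod_cast (by omega : 0 < T.N)
  have hN1' : (1 : ℝ) ≤ T.N := by exact_mod_cast (by omega : 1 ≤ T.N)
  have hK : 2000 * C ≤ Real.log T.N := by
    rw [Real.le_log_iff_exp_le hNpos]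
    refine (Nat.le_ceil _).trans ?_
    exact_mod_cast (by omega : ⌈Real.exp (2000 * C)⌉₊ ≤ T.N)
  have hK1 : 1 ≤ Real.log T.N := by linarith
  have hζ : c.ζ ≤ c.δ0 := by
    have e1 := hc.ζ0
    have e2 := hc.ζp
    have e3 : (1 : ℝ) ≤ c.b2 := by exact_mod_cast hc.b2p
    nlinarith
  have hz : (T.z : ℝ) ≤ (T.N : ℝ) ^ c.δ0 :=
    h.hz2.trans (Real.rpow_le_rpow_of_exponent_le hN1' hζ)
  have hD0 : (0 : ℝ) < T.D := by exact_mod_cast h.hT.D_pos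
  have hz1 : (1 : ℝ) ≤ T.z := by
    have e1 := h.hT.y0_lt
    exact_mod_cast (by omega : 1 ≤ T.z)
  have hyz : T.y0 * T.D ≤ T.z := by
    have e1 : ((T.y0 * T.D : ℕ) : ℝ) ≤ (T.z : ℝ) := by
      push_cast
      calc (T.y0 : ℝ) * T.D ≤ (Real.log T.N) ^ (c.CY + 1) * (Real.log T.N) ^ c.CD :=
            mul_le_mul h.hy2 h.hD hD0.le (by positivity)
        _ = (Real.log T.N) ^ (c.CY + 1 + c.CD) := by rw [← pow_add]
        _ ≤ _ := hev
        _ ≤ T.z := h.hz1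
    exact_mod_cast e1
  have hCYb : 2 * c.F + c.B + 14 ≤ c.CY := by
    have := hc.Y1'
    omega
  have hCY2 : 2 ≤ c.CY := by omega
  have h4K : 4 * Real.log T.N ≤ T.y0 := by
    have e1 : (Real.log T.N) ^ 2 ≤ T.y0 := (pow_le_pow_right₀ hK1 hCY2).trans h.hy1
    nlinarith
  have hm : (c.F : ℝ) ≤ C := by
    rw [hCdef]
    have e0 : (0 : ℝ) ≤ c.k := Nat.cast_nonneg _
    nlinarith
  have hW := h.hM.W_pos
  have hW' := h'.hM.W_pos
  have hR : 0 ≤ (S.MX.card : ℝ) * S.MY.card * ((T.N : ℝ) ^ (-c.δ1) * M.W) := by positivity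
  have hR' : 0 ≤ (S.MX.card : ℝ) * S.MY.card * ((T.N : ℝ) ^ (-c.δ1) * M'.W) := by positivity
  rw [hE] at a2 b2
  have hnum := PN6_num (k := c.F) (B := c.B) (y := T.y0) hC1 hm hK hD0 h.hD h.hy1 hz1
    (mul_pos hW a1) hR a2 hCYb
  have hnum' := PN6_num (k := c.F) (B := c.B) (y := T.y0) hC1 hm hK hD0 h.hD h.hy1 hz1
    (mul_pos hW' b1) hR' b2 hCYb
  have hm1 : ∀ μ ∈ S.MX, ∀ ν ∈ S.MY, (T.N : ℝ) ^ (-c.δ1) ≤ M'.m1 μ ν := by
    intro μ hμ ν hν
    have e1 := hP.hm1 μ hμ ν hν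
    have e2 : (0 : ℝ) < (T.N : ℝ) ^ (c.δ1 / 16) := Real.rpow_pos_of_pos hNpos _
    have e3 : (T.N : ℝ) ^ (-(c.δ1 / 16)) ≤ M'.m1 μ ν := by
      rw [Real.rpow_neg hNpos.le, inv_le_iff_one_le_mul₀' e2]
      exact e1
    refine le_trans (Real.rpow_le_rpow_of_exponent_le hN1' ?_) e3
    have := hc.δ1p
    linarith
  have q1 := Q27 h.hT h.hS h.hA h.hM hz hc.δ0p.le hK1 hyz
  have q2 := Q27 h.hT h.hS h'.hA h'.hM hz hc.δ0p.le hK1 hyz
  have hmain := P14 h.hT h.hS h.hM h'.hM h4K hm1 _ _ q1 q2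
  refine hmain.trans ?_
  have ht := P13_tot h.hT h.hS h'.hM h.hM h4K
  have hX0 : 0 < (T.D : ℝ) * Real.log T.N ^ (2 * c.F + c.B + 6) := by positivity
  set G : ℝ := 20 * ((S.k : ℝ) + 2) * ((T.F S.k : ℕ) : ℝ) * Real.log T.N * (32 * (Real.log T.N) ^ 6 / (T.y0 * T.D) * (M.W * M.tot1) +
        S.MX.card * S.MY.card * ((T.N : ℝ) ^ (-c.δ1) * M.W)) + ((T.F S.k : ℕ) : ℝ) * T.z * (S.MX.card * S.MY.card * ((T.N : ℝ) ^ (-c.δ1) * M.W)) with hG
  set G' : ℝ := 20 * ((S.k : ℝ) + 2) * ((T.F S.k : ℕ) : ℝ) * Real.log T.N * (32 * (Real.log T.N) ^ 6 / (T.y0 * T.D) * (M'.W * M'.tot1) +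
        S.MX.card * S.MY.card * ((T.N : ℝ) ^ (-c.δ1) * M'.W)) + ((T.F S.k : ℕ) : ℝ) * T.z * (S.MX.card * S.MY.card * ((T.N : ℝ) ^ (-c.δ1) * M'.W)) with hG'
  have g1 : G ≤ 1 / 50 * (M.W * M.tot1 / (T.D * Real.log T.N ^ (2 * c.F + c.B + 6))) := by
    refine le_trans (le_of_eq ?_) hnum
    rw [hG, hCdef, ← hkr, ← hFr]
  have g2 : G' ≤ 1 / 50 * (M'.W * M'.tot1 / (T.D * Real.log T.N ^ (2 * c.F + c.B + 6))) := by
    refine le_trans (le_of_eq ?_) hnum'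
    rw [hG', hCdef, ← hkr, ← hFr]
  have g3 : M'.W * M'.tot1 / (T.D * Real.log T.N ^ (2 * c.F + c.B + 6)) ≤
      4 * (M'.W * M.tot1 / (T.D * Real.log T.N ^ (2 * c.F + c.B + 6))) := by
    have e1 : 4 * (M'.W * M.tot1 / (T.D * Real.log T.N ^ (2 * c.F + c.B + 6))) =
        M'.W * (4 * M.tot1) / (T.D * Real.log T.N ^ (2 * c.F + c.B + 6)) := by ring
    rw [e1]
    exact div_le_div_of_nonneg_right (mul_le_mul_of_nonneg_left ht hW'.le) hX0.le
  have hP0 : 0 ≤ M.W * M'.W * M.tot1 / (T.D * Real.log T.N ^ (2 * c.F + c.B + 6)) := by positivity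
  have g4 : 3 * M'.W * G ≤ 3 / 50 * (M.W * M'.W * M.tot1 / (T.D * Real.log T.N ^ (2 * c.F + c.B + 6))) := by
    calc 3 * M'.W * G ≤ 3 * M'.W * (1 / 50 * (M.W * M.tot1 / (T.D * Real.log T.N ^ (2 * c.F + c.B + 6)))) :=
          mul_le_mul_of_nonneg_left g1 (by positivity)
      _ = _ := by ring
  have g5 : 9 * M.W * G' ≤ 36 / 50 * (M.W * M'.W * M.tot1 / (T.D * Real.log T.N ^ (2 * c.F + c.B + 6))) := by
    calc 9 * M.W * G' ≤ 9 * M.W * (1 / 50 * (4 * (M'.W * M.tot1 / (T.D * Real.log T.N ^ (2 * c.F + c.B + 6))))) := by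
          apply mul_le_mul_of_nonneg_left _ (by positivity)
          refine g2.trans ?_
          exact mul_le_mul_of_nonneg_left g3 (by norm_num)
      _ = _ := by ring
  have g6 : 3 * M'.W * (S.CC.card * G) + 9 * M.W * (S.CC.card * G') = S.CC.card * (3 * M'.W * G + 9 * M.W * G') := by ring
  have g7 : E02 S T * (M.W * M'.W * M.tot1 / (Real.log T.N) ^ (c.B + 2)) =
      S.CC.card * (M.W * M'.W * M.tot1 / (T.D * Real.log T.N ^ (2 * c.F + c.B + 6))) := by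
    unfold E02
    rw [hF]
    have e2 : Real.log T.N ^ (2 * c.F + c.B + 6) = Real.log T.N ^ (2 * c.F + 4) * Real.log T.N ^ (c.B + 2) := by ring
    rw [e2]
    field_simp
  rw [g6, g7]
  refine mul_le_mul_of_nonneg_left ?_ (Nat.cast_nonneg _)
  linarith

end Pool.Agent.Lib.TT3
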