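import Pool.Agent.Lib.MP_092512_nt.TT.P.PN3
import Pool.Agent.Lib.MP_092512_nt.TT.P.PN4
import Pool.Agent.Lib.MP_092512_nt.TT.P.PN5
import Pool.Agent.Lib.MP_092512_nt.TT.P.PN6
import Pool.Agent.Lib.MP_092512_nt.TT.P.PN7
import Pool.Agent.Lib.MP_092512_nt.TT.P.P15

/-!
# PN8: PAIR2

`P15` with `PN3` .. `PN7` (as `TC/QN6`).
-/

set_option autoImplicit false

open Finset

namespace Pool.Agent.Lib.TT3

open Pool.Agent.Lib.TTC

private theorem PN8_num {e w w' t K : ℝ} {B : ℕ} (he : 0 < e) (hK : 3 ≤ K) (hx0 : 0 ≤ w * w' * t) :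
    e * (w * w' * t / K ^ (B + 2)) / e + 2 * (e ^ 2 * (w * w' * t / K ^ (B + 2)) + e ^ 2 * (w * w' * t / K ^ (B + 2))) / e ^ 2 +
      w * w' * t / K ^ (B + 1) ≤ w * t * w' / K ^ B := by
  have hK0 : 0 < K := by linarith
  set x : ℝ := w * w' * t / K ^ (B + 2) with hx
  have h0 : 0 ≤ x := by
    rw [hx]
    positivity
  have h1 : e * x / e = x := mul_div_cancel_left₀ _ he.ne'
  have h2 : 2 * (e ^ 2 * x + e ^ 2 * x) / e ^ 2 = 4 * x := by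
    field_simp
    ring
  have h3 : w * w' * t / K ^ (B + 1) = K * x := by
    rw [hx, pow_succ K (B + 1)]
    field_simp
  have h4 : w * t * w' / K ^ B = K ^ 2 * x := by
    rw [hx, pow_add]
    field_simp
  rw [h1, h2, h3, h4]
  nlinarith [mul_nonneg h0 (by nlinarith : (0 : ℝ) ≤ K ^ 2 - K - 5)]

/-- **PAIR2** -/
theorem PAIR2 (c : PC) (hc : c.OK2) : ∃ N0 : ℕ, ∀ (S : MS) (T : Dat) (M M' : Msr S) (W0 : ℕ) (Z : Fin (S.k + 1) → ℕ) (p1 Q0 pb : ℕ) (η : ℝ),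
    PH2 c S T M M' W0 Z p1 Q0 pb η → N0 ≤ T.N →
    ∑ μ ∈ S.MX, ∑ ν ∈ S.MY, ind (¬ S.badpair T 0 pb μ ν ∧ ¬ S.evp T μ ν) * M.S2 M' μ ν (fun n n' => ind (M.Cd T μ ν n) * (ind (M'.Cd T μ ν n') *
      (ind (T.Y (M.X μ ν n) ≡ T.yc [MOD W0 ^ T.r] ∧ T.Y (M'.X μ ν n') ≡ T.yc [MOD W0 ^ T.r]) * ind (¬ S.Linked2 T μ ν (M.X μ ν n) (M'.X μ ν n'))))) ≤
    M.tot * M'.W / (Real.log T.N) ^ c.B := by
  obtain ⟨N1, h1⟩ := PN3 c hc
  obtain ⟨N2, h2⟩ := PN4 c hc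
  obtain ⟨N3, h3⟩ := PN5 c hc
  obtain ⟨N4, h4⟩ := PN6 c hc
  obtain ⟨N5, h5⟩ := PN7 c hc
  refine ⟨N1 + N2 + N3 + N4 + N5 + ⌈Real.exp 4⌉₊, ?_⟩
  intro S T M M' W0 Z p1 Q0 pb η hP hN
  obtain ⟨he, hwb⟩ := h1 S T M M' W0 Z p1 Q0 pb η hP (by omega)
  have hSS := h2 S T M M' W0 Z p1 Q0 pb η hP (by omega)
  have hSL := h3 S T M M' W0 Z p1 Q0 pb η hP (by omega)
  have hSF := h4 S T M M' W0 Z p1 Q0 pb η hP (by omega)
  have hSN := h5 S T M M' W0 Z p1 Q0 pb η hP (by omega)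
  have hNe : Real.exp 4 ≤ T.N := by
    refine (Nat.le_ceil _).trans ?_
    exact_mod_cast (by omega : ⌈Real.exp 4⌉₊ ≤ T.N)
  have hN0 : (0 : ℝ) < T.N := lt_of_lt_of_le (Real.exp_pos _) hNe
  have hK : 4 ≤ Real.log T.N := (Real.le_log_iff_exp_le hN0).2 hNe
  have hCY : 2 ≤ c.CY := by
    have := hc.Y1'
    omega
  have hy : 4 * Real.log T.N ≤ T.y0 := by
    refine le_trans ?_ hP.h.hy1
    calc 4 * Real.log T.N ≤ Real.log T.N * Real.log T.N := mul_le_mul_of_nonneg_right hK (by linarith)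
      _ = (Real.log T.N) ^ 2 := (sq _).symm
      _ ≤ (Real.log T.N) ^ c.CY := pow_le_pow_right₀ (by linarith) hCY
  have hW := hP.h.hM.W_pos
  have hW' := hP.h'.hM.W_pos
  have ht : 0 ≤ M.tot1 := by
    unfold Msr.tot1
    refine Finset.sum_nonneg fun μ hμ => Finset.sum_nonneg fun ν hν => (P13_pos hP.h.hT hP.h.hS hP.h.hM hy hμ hν).le
  have htot : M.tot = M.W * M.tot1 := by
    unfold Msr.tot Msr.tot1 Msr.m1
    rw [Finset.sum_mul_sum]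
  have hQ := P15 (M := M) (M' := M') (b1 := c.b1) (b2 := c.b2) (pb := pb) hP.h.hT hP.h.hS hP.h.hM hP.h'.hM (E02 S T) he
    (fun μ hμ ν hν => P13_pos hP.h.hT hP.h.hS hP.h'.hM hy hμ hν) hwb _ _ _ _ hSS hSL hSF hSN
  refine hQ.trans ?_
  rw [htot]
  exact PN8_num he (by linarith) (mul_nonneg (mul_pos hW hW').le ht)

end Pool.Agent.Lib.TT3
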